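import Pool.Agent.Work.MP_bc729a_al.LN.FrmChar

/-! # Existence of frames, points on and off lines -/

namespace Pool.Agent.Work.MP_bc729a_al.LN

open Matrix

universe u

variable {n : ℕ} {F : Type u} [Field F]

theorem exists_basis_set (U : Lat n F) : ∃ G : Set (Lat n F), (∀ p ∈ G, IsAtom p) ∧
    sSupIndep G ∧ sSup G = U ∧ G.Finite ∧ G.ncard = Module.finrank F U := by
  classical
  let b := Module.finBasis F U
  have hli : LinearIndependent F (fun i => (b i : Fin n → F)) :=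
    b.linearIndependent.map' U.subtype (Submodule.ker_subtype U)
  have hinj : Function.Injective (fun i => pt (b i : Fin n → F)) := by
    refine iSupIndep.injective hli.iSupIndep_span_singleton ?_
    intro j
    exact (nonzero_span_atom _ (hli.ne_zero j)).1
  refine ⟨Set.range fun i => pt (b i : Fin n → F), ?_, hli.iSupIndep_span_singleton.sSupIndep_range,
    ?_, Set.finite_range _, ?_⟩
  · rintro _ ⟨j, rfl⟩
    exact nonzero_span_atom _ (hli.ne_zero j)
  · rw [sSup_range]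
    have h1 : (⨆ i, pt (b i : Fin n → F)) = Submodule.span F (Set.range fun i => (b i : Fin n → F)) :=
      (Submodule.span_range_eq_iSup).symm
    rw [h1]
    have h2 : (Set.range fun i => (b i : Fin n → F)) = U.subtype '' Set.range b := by
      rw [← Set.range_comp]
      rfl
    rw [h2, ← Submodule.map_span, b.span_eq, Submodule.map_top, Submodule.range_subtype]
  · rw [Set.ncard_range_of_injective hinj]
    simp

theorem odd_insert {G : Set (Lat n F)} (h2 : sSupIndep G) {x : Lat n F}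
    (hx : Disjoint x (sSup G)) : sSupIndep (insert x G) := by
  intro a ha
  by_cases hax : a = x
  · subst hax
    refine hx.mono_right (sSup_le_sSup ?_)
    rintro b ⟨hb, hb'⟩
    exact hb.resolve_left hb'
  · have haG : a ∈ G := ha.resolve_left hax
    have h3 : sSup (insert x G \ {a}) ≤ sSup (G \ {a}) ⊔ x := by
      apply sSup_le
      rintro b ⟨hb, hb'⟩
      rcases hb with rfl | hb
      · exact le_sup_right
      · exact le_sup_of_le_left (le_sSup ⟨hb, hb'⟩)
    refine Disjoint.mono_right h3 ?_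
    apply Disjoint.disjoint_sup_right_of_disjoint_sup_left (h2 haG)
    refine Disjoint.mono_left (sup_le (le_sSup haG) (sSup_le_sSup Set.sdiff_subset)) hx.symm

theorem odd_disj {x U : Lat n F} (hx : IsAtom x) (h : ¬ x ≤ U) : Disjoint x U := by
  rw [disjoint_iff]
  rcases hx.le_iff.1 (inf_le_left : x ⊓ U ≤ x) with h1 | h1
  · exact h1
  · exact absurd (inf_eq_left.1 h1) h

theorem insert_frm {G : Set (Lat n F)} (h1 : ∀ p ∈ G, IsAtom p) (h2 : sSupIndep G)
    (h3 : IsCoatom (sSup G)) {x : Lat n F} (hx : IsAtom x) (hxG : ¬ x ≤ sSup G) :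
    x ∉ G ∧ IsFrm (insert x G) := by
  refine ⟨fun h => hxG (le_sSup h), ?_, odd_insert h2 (odd_disj hx hxG), ?_⟩
  · rintro p (rfl | hp)
    · exact hx
    · exact h1 p hp
  · rw [sSup_insert]
    rcases h3.le_iff.1 (le_sup_right : sSup G ≤ x ⊔ sSup G) with h4 | h4
    · exact h4
    · exact absurd (h4 ▸ le_sup_left) hxG

/-- a functional separating a vector from a subspace -/
theorem odd_sep {U : Lat n F} {w : Fin n → F} (hw : w ∉ U) :
    ∃ φ : Fin n → F, (∀ u ∈ U, φ ⬝ᵥ u = 0) ∧ φ ⬝ᵥ w ≠ 0 := by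
  obtain ⟨f, hf, hle⟩ := Submodule.exists_le_ker_of_notMem hw
  have hfφ : ∀ v, f v = (fun i => f (Pi.single i 1)) ⬝ᵥ v := by
    intro v
    conv_lhs => rw [← LinearMap.sum_single_apply (φ := fun _ : Fin n => F) v]
    rw [map_sum, dotProduct]
    refine Finset.sum_congr rfl fun i _ => ?_
    have : (Pi.single i (v i) : Fin n → F) = (v i) • (Pi.single i 1 : Fin n → F) := by
      rw [← Pi.single_smul]
      simp
    rw [this, map_smul, smul_eq_mul, mul_comm]
  refine ⟨fun i => f (Pi.single i 1), fun u hu => ?_, ?_⟩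
  · rw [← hfφ]
    exact hle hu
  · rw [← hfφ]
    exact hf

/-- a functional separating two vectors from a subspace -/
theorem odd_sep2 {U : Lat n F} {w w' : Fin n → F} (hw : w ∉ U) (hw' : w' ∉ U) :
    ∃ φ : Fin n → F, (∀ u ∈ U, φ ⬝ᵥ u = 0) ∧ φ ⬝ᵥ w ≠ 0 ∧ φ ⬝ᵥ w' ≠ 0 := by
  obtain ⟨φ, h1, h2⟩ := odd_sep hw
  obtain ⟨χ, h3, h4⟩ := odd_sep hw'
  by_cases h5 : φ ⬝ᵥ w' = 0
  · by_cases h6 : χ ⬝ᵥ w = 0
    · refine ⟨φ + χ, fun u hu => ?_, ?_, ?_⟩
      · rw [add_dotProduct, h1 u hu, h3 u hu, add_zero]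
      · rw [add_dotProduct, h6, add_zero]
        exact h2
      · rw [add_dotProduct, h5, zero_add]
        exact h4
    · exact ⟨χ, h3, h6, h4⟩
  · exact ⟨φ, h1, h2, h5⟩

theorem pt_le_iff {v : Fin n → F} {U : Lat n F} : pt v ≤ U ↔ v ∈ U := by
  unfold pt
  exact Submodule.span_singleton_le_iff_mem _ _

theorem mem_pt_sup {w u z : Fin n → F} : z ∈ pt w ⊔ pt u ↔ ∃ a b : F, a • w + b • u = z := by
  rw [Submodule.mem_sup]
  constructor
  · rintro ⟨y, hy, y', hy', h⟩
    obtain ⟨a, rfl⟩ := Submodule.mem_span_singleton.1 hy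
    obtain ⟨b, rfl⟩ := Submodule.mem_span_singleton.1 hy'
    exact ⟨a, b, h⟩
  · rintro ⟨a, b, h⟩
    exact ⟨a • w, Submodule.smul_mem _ _ (Submodule.mem_span_singleton_self w), b • u,
      Submodule.smul_mem _ _ (Submodule.mem_span_singleton_self u), h⟩

theorem two_frames {x y : Lat n F} (hx : IsAtom x) (hy : IsAtom y) :
    ∃ G : Set (Lat n F), G.Finite ∧ x ∉ G ∧ y ∉ G ∧ IsFrm (insert x G) ∧ IsFrm (insert y G) := by
  obtain ⟨v, hv, rfl⟩ := atom_iff.1 hx
  obtain ⟨w, hw, rfl⟩ := atom_iff.1 hy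
  obtain ⟨φ, -, h1, h2⟩ := odd_sep2 (U := ⊥) (w := v) (w' := w)
    (by rwa [Submodule.mem_bot]) (by rwa [Submodule.mem_bot])
  have hφ : φ ≠ 0 := by
    rintro rfl
    exact h1 (zero_dotProduct _)
  obtain ⟨G, g1, g2, g3, g4, -⟩ := exists_basis_set (hyp φ)
  have g5 : IsCoatom (sSup G) := by
    rw [g3]
    exact coatom_iff.2 ⟨φ, hφ, rfl⟩
  obtain ⟨a1, a2⟩ := insert_frm g1 g2 g5 hx (by rw [g3, pt_le_hyp]; exact h1)
  obtain ⟨b1, b2⟩ := insert_frm g1 g2 g5 hy (by rw [g3, pt_le_hyp]; exact h2)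
  exact ⟨G, g4, a1, b1, a2, b2⟩

theorem four_frames {x x' y y' : Lat n F} (hx : IsAtom x) (hx' : IsAtom x') (hy : IsAtom y)
    (hy' : IsAtom y') (h1 : ¬ y ≤ x ⊔ x') (h2 : ¬ y' ≤ x ⊔ x') (h3 : ¬ x ≤ y ⊔ y')
    (h4 : ¬ x' ≤ y ⊔ y') :
    ∃ G : Set (Lat n F), G.Finite ∧ x ∉ G ∧ x' ∉ G ∧ y ∉ G ∧ y' ∉ G ∧
      IsFrm (insert x (insert y G)) ∧ IsFrm (insert x' (insert y G)) ∧
      IsFrm (insert x (insert y' G)) ∧ IsFrm (insert x' (insert y' G)) := by
  obtain ⟨v, hv, rfl⟩ := atom_iff.1 hx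
  obtain ⟨v', hv', rfl⟩ := atom_iff.1 hx'
  obtain ⟨w, hw, rfl⟩ := atom_iff.1 hy
  obtain ⟨w', hw', rfl⟩ := atom_iff.1 hy'
  rw [pt_le_iff] at h1 h2 h3 h4
  obtain ⟨φ, p1, p2, p3⟩ := odd_sep2 h1 h2
  obtain ⟨χ, q1, q2, q3⟩ := odd_sep2 h3 h4
  have pv : φ ⬝ᵥ v = 0 := p1 v (le_sup_left (a := pt v) (Submodule.mem_span_singleton_self v))
  have pv' : φ ⬝ᵥ v' = 0 := p1 v' (le_sup_right (b := pt v') (Submodule.mem_span_singleton_self v'))
  have qw : χ ⬝ᵥ w = 0 := q1 w (le_sup_left (a := pt w) (Submodule.mem_span_singleton_self w))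
  have qw' : χ ⬝ᵥ w' = 0 := q1 w' (le_sup_right (b := pt w') (Submodule.mem_span_singleton_self w'))
  have hφ : φ ≠ 0 := by
    rintro rfl
    exact p2 (zero_dotProduct _)
  obtain ⟨G, g1, g2, g3, g4, -⟩ := exists_basis_set (hyp φ ⊓ hyp χ)
  have key : ∀ u : Fin n → F, u ≠ 0 → φ ⬝ᵥ u = 0 → χ ⬝ᵥ u ≠ 0 →
      pt u ∉ G ∧ (∀ p ∈ insert (pt u) G, IsAtom p) ∧ sSupIndep (insert (pt u) G) ∧
        sSup (insert (pt u) G) = hyp φ := by
    intro u hu0 hu1 hu2
    have hu3 : IsAtom (pt u) := atom_iff.2 ⟨u, hu0, rfl⟩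
    have hu4 : ¬ pt u ≤ sSup G := by
      rw [g3, pt_le_iff]
      exact fun h => hu2 h.2
    refine ⟨fun h => hu4 (le_sSup h), ?_, odd_insert g2 (odd_disj hu3 hu4), ?_⟩
    · rintro p (rfl | hp)
      · exact hu3
      · exact g1 p hp
    · rw [sSup_insert, g3]
      apply le_antisymm
      · apply sup_le _ inf_le_left
        rw [pt_le_hyp]
        exact hu1
      · intro z hz
        rw [mem_hyp] at hz
        rw [Submodule.mem_sup]
        refine ⟨((χ ⬝ᵥ z) / (χ ⬝ᵥ u)) • u,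
          Submodule.smul_mem _ _ (Submodule.mem_span_singleton_self u),
          z - ((χ ⬝ᵥ z) / (χ ⬝ᵥ u)) • u, ⟨?_, ?_⟩, by abel⟩
        · rw [SetLike.mem_coe, mem_hyp, dotProduct_sub, dotProduct_smul, hz, hu1, smul_zero,
            sub_zero]
        · rw [SetLike.mem_coe, mem_hyp, dotProduct_sub, dotProduct_smul, smul_eq_mul,
            div_mul_cancel₀ _ hu2, sub_self]
  have hc : IsCoatom (hyp φ) := coatom_iff.2 ⟨φ, hφ, rfl⟩
  have key2 : ∀ u z : Fin n → F, u ≠ 0 → φ ⬝ᵥ u = 0 → χ ⬝ᵥ u ≠ 0 → z ≠ 0 → φ ⬝ᵥ z ≠ 0 →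
      pt z ∉ G ∧ IsFrm (insert (pt u) (insert (pt z) G)) := by
    intro u z hu0 hu1 hu2 hz0 hz1
    obtain ⟨-, k1, k2, k3⟩ := key u hu0 hu1 hu2
    obtain ⟨l1, l2⟩ := insert_frm k1 k2 (by rw [k3]; exact hc)
      (atom_iff.2 ⟨z, hz0, rfl⟩) (by rw [k3, pt_le_hyp]; exact hz1)
    rw [Set.insert_comm]
    exact ⟨fun h => l1 (Set.mem_insert_of_mem _ h), l2⟩
  exact ⟨G, g4, (key v hv pv q2).1, (key v' hv' pv' q3).1, (key2 v w hv pv q2 hw p2).1,
    (key2 v w' hv pv q2 hw' p3).1, (key2 v w hv pv q2 hw p2).2, (key2 v' w hv' pv' q3 hw p2).2,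
    (key2 v w' hv pv q2 hw' p3).2, (key2 v' w' hv' pv' q3 hw' p3).2⟩

theorem pt_indep {v v' : Fin n → F} (hv : v ≠ 0) (hv' : v' ≠ 0) (h : pt v ≠ pt v') {a b : F}
    (hab : a • v + b • v' = 0) : a = 0 ∧ b = 0 := by
  have hat : IsAtom (pt v) := atom_iff.2 ⟨v, hv, rfl⟩
  have hat' : IsAtom (pt v') := atom_iff.2 ⟨v', hv', rfl⟩
  have ha : a = 0 := by
    by_contra ha
    have h1 : v ∈ pt v' := by
      refine Submodule.mem_span_singleton.2 ⟨-(a⁻¹ * b), ?_⟩
      have h2 : v = a⁻¹ • (a • v + b • v') - (a⁻¹ * b) • v' := by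
        rw [smul_add, smul_smul, smul_smul, inv_mul_cancel₀ ha, one_smul, add_sub_cancel_right]
      rw [hab, smul_zero, zero_sub] at h2
      rw [neg_smul]
      exact h2.symm
    exact h ((hat'.le_iff_eq hat.1).1 (pt_le_iff.2 h1))
  subst ha
  refine ⟨rfl, ?_⟩
  rw [zero_smul, zero_add] at hab
  exact (smul_eq_zero.1 hab).resolve_right hv'

theorem pt_smul {c : F} (hc : c ≠ 0) (v : Fin n → F) : pt (c • v) = pt v := by
  unfold pt
  exact Submodule.span_singleton_smul_eq (IsUnit.mk0 c hc) v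

omit [Field F] in
theorem exists_avoid2 [Finite F] (hq : 3 ≤ Nat.card F) (a b : F) : ∃ s : F, s ≠ a ∧ s ≠ b := by
  by_contra hcon
  push Not at hcon
  have h1 : (Set.univ : Set F) ⊆ {a, b} := by
    intro s _
    by_cases h : s = a
    · exact Or.inl h
    · exact Or.inr (hcon s h)
  have h2 := Set.ncard_le_ncard h1 (Set.toFinite _)
  rw [Set.ncard_univ] at h2
  have h3 := Set.ncard_insert_le a ({b} : Set F)
  rw [Set.ncard_singleton] at h3
  omega

theorem third_point [Finite F] (hq : 3 ≤ Nat.card F) {x x' y y' : Lat n F} (hx : IsAtom x)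
    (hx' : IsAtom x') (hxx' : x ≠ x') (hy : IsAtom y) (hy' : IsAtom y') (h1 : ¬ y ≤ x ⊔ x')
    (h2 : ¬ y' ≤ x ⊔ x') :
    ∃ z, IsAtom z ∧ ¬ z ≤ x ⊔ x' ∧ ¬ x ≤ y ⊔ z ∧ ¬ x' ≤ y ⊔ z ∧ ¬ x ≤ y' ⊔ z ∧ ¬ x' ≤ y' ⊔ z := by
  obtain ⟨v, hv, rfl⟩ := atom_iff.1 hx
  obtain ⟨v', hv', rfl⟩ := atom_iff.1 hx'
  obtain ⟨w0, hw0, rfl⟩ := atom_iff.1 hy
  obtain ⟨w0', hw0', rfl⟩ := atom_iff.1 hy'
  rw [pt_le_iff] at h1 h2
  obtain ⟨φ, p1, p2, p3⟩ := odd_sep2 h1 h2
  have pv : φ ⬝ᵥ v = 0 := p1 v (le_sup_left (a := pt v) (Submodule.mem_span_singleton_self v))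
  have pv' : φ ⬝ᵥ v' = 0 := p1 v' (le_sup_right (b := pt v') (Submodule.mem_span_singleton_self v'))
  obtain ⟨w, hw, hw1⟩ : ∃ w, pt w0 = pt w ∧ φ ⬝ᵥ w = 1 :=
    ⟨(φ ⬝ᵥ w0)⁻¹ • w0, (pt_smul (inv_ne_zero p2) _).symm, by
      rw [dotProduct_smul, smul_eq_mul, inv_mul_cancel₀ p2]⟩
  obtain ⟨w', hw', hw1'⟩ : ∃ w', pt w0' = pt w' ∧ φ ⬝ᵥ w' = 1 :=
    ⟨(φ ⬝ᵥ w0')⁻¹ • w0', (pt_smul (inv_ne_zero p3) _).symm, by
      rw [dotProduct_smul, smul_eq_mul, inv_mul_cancel₀ p3]⟩
  rw [hw, hw']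
  have ind : ∀ a b : F, a • v + b • v' = 0 → a = 0 ∧ b = 0 := fun a b => pt_indep hv hv' hxx'
  obtain ⟨α, β, hαβ⟩ : ∃ α β : F, ∀ a b : F, w - w' = a • v + b • v' → a = α ∧ b = β := by
    by_cases hex : ∃ α β : F, w - w' = α • v + β • v'
    · obtain ⟨α, β, h⟩ := hex
      refine ⟨α, β, fun a b hab => ?_⟩
      have h3 : (a - α) • v + (b - β) • v' = 0 := by
        rw [sub_smul, sub_smul]
        rw [h] at hab
        have h4 : a • v - α • v + (b • v' - β • v') = (a • v + b • v') - (α • v + β • v') := by abel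
        rw [h4, ← hab, sub_self]
      obtain ⟨h4, h5⟩ := ind _ _ h3
      exact ⟨sub_eq_zero.1 h4, sub_eq_zero.1 h5⟩
    · exact ⟨0, 0, fun a b hab => absurd ⟨a, b, hab⟩ hex⟩
  obtain ⟨s, hs0, hs⟩ := exists_avoid2 hq 0 (-α)
  obtain ⟨r, hr0, hr⟩ := exists_avoid2 hq 0 (-β)
  have hu1 : φ ⬝ᵥ (w + s • v + r • v') = 1 := by
    rw [dotProduct_add, dotProduct_add, dotProduct_smul, dotProduct_smul, pv, pv', hw1, smul_zero,
      smul_zero, add_zero, add_zero]
  have huA : ¬ pt (w + s • v + r • v') ≤ pt v ⊔ pt v' := by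
    rw [pt_le_iff]
    intro h
    have := p1 _ h
    rw [hu1] at this
    exact one_ne_zero this
  -- the vector `v` or `v'`, `y` side
  have hy1 : ∀ a b c d : F, a • w + b • (w + s • v + r • v') = c • v + d • v' →
      b * s = c ∧ b * r = d := by
    intro a b c d h
    have h3 := congrArg (fun z => φ ⬝ᵥ z) h
    simp only [dotProduct_add, dotProduct_smul, pv, pv', hw1, smul_eq_mul, mul_zero, mul_one,
      add_zero] at h3
    have h4 : (b * s - c) • v + (b * r - d) • v' = 0 := by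
      have h5 : (b * s - c) • v + (b * r - d) • v' =
          (a • w + b • (w + s • v + r • v')) - (c • v + d • v') - (a + b) • w := by
        simp only [smul_add, smul_smul, add_smul, sub_smul]
        abel
      rw [h5, h, h3, sub_self, zero_smul, sub_zero]
    obtain ⟨h5, h6⟩ := ind _ _ h4
    exact ⟨sub_eq_zero.1 h5, sub_eq_zero.1 h6⟩
  have hy2 : ∀ a b c d : F, a • w' + b • (w + s • v + r • v') = c • v + d • v' → b ≠ 0 →
      c * b⁻¹ - s = α ∧ d * b⁻¹ - r = β := by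
    intro a b c d h hb
    have h3 := congrArg (fun z => φ ⬝ᵥ z) h
    simp only [dotProduct_add, dotProduct_smul, pv, pv', hw1, hw1', smul_eq_mul, mul_zero, mul_one,
      add_zero] at h3
    have ha : a = -b := eq_neg_of_add_eq_zero_left h3
    apply hαβ
    have h5 : w - w' = b⁻¹ • (a • w' + b • (w + s • v + r • v')) - s • v - r • v' := by
      rw [ha]
      simp only [smul_add, smul_smul, neg_smul, inv_mul_cancel₀ hb, one_smul,
        smul_neg]
      have e1 : b⁻¹ * (b * s) = s := by field_simp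
      have e2 : b⁻¹ * (b * r) = r := by field_simp
      rw [e1, e2]
      abel
    rw [h5, h]
    simp only [smul_add, smul_smul, sub_smul]
    rw [mul_comm b⁻¹ c, mul_comm b⁻¹ d]
    abel
  have hb : ∀ a b c d : F, a • w' + b • (w + s • v + r • v') = c • v + d • v' →
      b = 0 → c = 0 ∧ d = 0 := by
    intro a b c d h hb
    have h3 := congrArg (fun z => φ ⬝ᵥ z) h
    simp only [dotProduct_add, dotProduct_smul, pv, pv', hw1, hw1', smul_eq_mul, mul_zero, mul_one,
      add_zero] at h3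
    have ha : a = 0 := by rw [hb, add_zero] at h3; exact h3
    rw [ha, hb, zero_smul, zero_smul, zero_add] at h
    exact ind _ _ h.symm
  refine ⟨pt (w + s • v + r • v'), atom_iff.2 ⟨_, ?_, rfl⟩, huA, ?_, ?_, ?_, ?_⟩
  · intro h0
    rw [h0, dotProduct_zero] at hu1
    exact zero_ne_one hu1
  · rw [pt_le_iff, mem_pt_sup]
    rintro ⟨a, b, h⟩
    obtain ⟨h5, h6⟩ := hy1 a b 1 0 (by rw [h, one_smul, zero_smul, add_zero])
    rcases mul_eq_zero.1 h6 with h7 | h7
    · rw [h7, zero_mul] at h5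
      exact zero_ne_one h5
    · exact hr0 h7
  · rw [pt_le_iff, mem_pt_sup]
    rintro ⟨a, b, h⟩
    obtain ⟨h5, h6⟩ := hy1 a b 0 1 (by rw [h, one_smul, zero_smul, zero_add])
    rcases mul_eq_zero.1 h5 with h7 | h7
    · rw [h7, zero_mul] at h6
      exact zero_ne_one h6
    · exact hs0 h7
  · rw [pt_le_iff, mem_pt_sup]
    rintro ⟨a, b, h⟩
    have h' : a • w' + b • (w + s • v + r • v') = (1 : F) • v + (0 : F) • v' := by
      rw [h, one_smul, zero_smul, add_zero]
    by_cases hb0 : b = 0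
    · exact one_ne_zero (hb a b 1 0 h' hb0).1
    · have h6 := (hy2 a b 1 0 h' hb0).2
      rw [zero_mul, zero_sub] at h6
      exact hr (by rw [← h6, neg_neg])
  · rw [pt_le_iff, mem_pt_sup]
    rintro ⟨a, b, h⟩
    have h' : a • w' + b • (w + s • v + r • v') = (0 : F) • v + (1 : F) • v' := by
      rw [h, one_smul, zero_smul, zero_add]
    by_cases hb0 : b = 0
    · exact one_ne_zero (hb a b 0 1 h' hb0).2
    · have h6 := (hy2 a b 0 1 h' hb0).1
      rw [zero_mul, zero_sub] at h6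
      exact hs (by rw [← h6, neg_neg])

theorem lat_finite [Finite F] : Finite (Lat n F) :=
  Finite.of_injective (fun U : Lat n F => (U : Set (Fin n → F))) SetLike.coe_injective

theorem card_line [Finite F] {x x' : Lat n F} (hx : IsAtom x) (hx' : IsAtom x') (hxx' : x ≠ x') :
    {z : Lat n F | IsAtom z ∧ z ≤ x ⊔ x'}.ncard = Nat.card F + 1 := by
  obtain ⟨v, hv, rfl⟩ := atom_iff.1 hx
  obtain ⟨v', hv', rfl⟩ := atom_iff.1 hx'
  have ind : ∀ a b : F, a • v + b • v' = 0 → a = 0 ∧ b = 0 := fun a b => pt_indep hv hv' hxx'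
  let f : Option F → Lat n F := fun o => o.elim (pt v) (fun s => pt (v' + s • v))
  have hne : ∀ s : F, v' + s • v ≠ 0 := by
    intro s h
    have := (ind s 1 (by rw [one_smul, add_comm]; exact h)).2
    exact one_ne_zero this
  have hinj : Function.Injective f := by
    have h1 : ∀ s : F, pt v ≠ pt (v' + s • v) := by
      intro s h
      have h2 : v' + s • v ∈ pt v := by
        rw [h]
        exact Submodule.mem_span_singleton_self _
      obtain ⟨c, hc⟩ := Submodule.mem_span_singleton.1 h2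
      have := (ind (s - c) 1 (by rw [one_smul, sub_smul, hc]; abel)).2
      exact one_ne_zero this
    rintro (_ | s) (_ | t) h
    · rfl
    · exact absurd h (h1 t)
    · exact absurd h.symm (h1 s)
    · have h2 : v' + s • v ∈ pt (v' + t • v) := by
        have h3 : pt (v' + s • v) = pt (v' + t • v) := h
        rw [← h3]
        exact Submodule.mem_span_singleton_self _
      obtain ⟨c, hc⟩ := Submodule.mem_span_singleton.1 h2
      have h4 := ind (s - c * t) (1 - c) (by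
        have : (s - c * t) • v + (1 - c) • v' = (v' + s • v) - c • (v' + t • v) := by
          simp only [smul_add, smul_smul, sub_smul, one_smul]
          abel
        rw [this, hc, sub_self])
      have h5 : c = 1 := (sub_eq_zero.1 h4.2).symm
      have h6 := h4.1
      rw [h5, one_mul, sub_eq_zero] at h6
      rw [h6]
  have hr : {z : Lat n F | IsAtom z ∧ z ≤ pt v ⊔ pt v'} = Set.range f := by
    ext z
    constructor
    · rintro ⟨hz, hz'⟩
      obtain ⟨u, hu, rfl⟩ := atom_iff.1 hz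
      rw [pt_le_iff, mem_pt_sup] at hz'
      obtain ⟨a, b, rfl⟩ := hz'
      by_cases hb : b = 0
      · refine ⟨none, ?_⟩
        change pt v = _
        rw [hb, zero_smul, add_zero]
        rw [hb, zero_smul, add_zero] at hu
        have ha : a ≠ 0 := by
          rintro rfl
          exact hu (zero_smul _ _)
        rw [pt_smul ha]
      · refine ⟨some (b⁻¹ * a), ?_⟩
        change pt (v' + (b⁻¹ * a) • v) = _
        rw [← pt_smul hb (v' + (b⁻¹ * a) • v), smul_add, smul_smul, mul_inv_cancel_left₀ hb,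
          add_comm]
    · rintro ⟨(_ | s), rfl⟩
      · exact ⟨hx, le_sup_left⟩
      · refine ⟨atom_iff.2 ⟨_, hne s, rfl⟩, ?_⟩
        change pt (v' + s • v) ≤ _
        rw [pt_le_iff, mem_pt_sup]
        exact ⟨s, 1, by rw [one_smul, add_comm]⟩
  rw [hr, Set.ncard_range_of_injective hinj, Finite.card_option]

theorem card_off_line [Finite F] (hn : 3 ≤ n) {x x' : Lat n F} (hx : IsAtom x) (hx' : IsAtom x')
    (hxx' : x ≠ x') :
    Nat.card F < {z : Lat n F | IsAtom z ∧ ¬ z ≤ x ⊔ x'}.ncard := by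
  classical
  obtain ⟨v, hv, rfl⟩ := atom_iff.1 hx
  obtain ⟨v', hv', rfl⟩ := atom_iff.1 hx'
  have ind : ∀ a b : F, a • v + b • v' = 0 → a = 0 ∧ b = 0 := fun a b => pt_indep hv hv' hxx'
  obtain ⟨w, hw⟩ : ∃ w : Fin n → F, w ∉ pt v ⊔ pt v' := by
    by_contra hcon
    push Not at hcon
    have h1 : (⊤ : Lat n F) ≤ Submodule.span F (({v, v'} : Finset (Fin n → F)) : Set (Fin n → F)) := by
      intro z _
      have h2 := hcon z
      rw [mem_pt_sup] at h2
      obtain ⟨a, b, rfl⟩ := h2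
      apply Submodule.add_mem
      · apply Submodule.smul_mem
        apply Submodule.subset_span
        simp
      · apply Submodule.smul_mem
        apply Submodule.subset_span
        simp
    have h3 := Submodule.finrank_mono h1
    have h4 := finrank_span_finset_le_card (R := F) ({v, v'} : Finset (Fin n → F))
    have h5 := Finset.card_le_two (a := v) (b := v')
    rw [finrank_top, Module.finrank_fin_fun] at h3
    have h6 : Set.finrank F (({v, v'} : Finset (Fin n → F)) : Set (Fin n → F)) =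
      Module.finrank F (Submodule.span F (({v, v'} : Finset (Fin n → F)) : Set (Fin n → F))) := rfl
    omega
  obtain ⟨φ, p1, p2⟩ := odd_sep hw
  have pv : φ ⬝ᵥ v = 0 := p1 v (le_sup_left (a := pt v) (Submodule.mem_span_singleton_self v))
  have pv' : φ ⬝ᵥ v' = 0 := p1 v' (le_sup_right (b := pt v') (Submodule.mem_span_singleton_self v'))
  let m : Option F → (Fin n → F) := fun o => o.elim v' (fun s => s • v)
  have hm : ∀ o, φ ⬝ᵥ m o = 0 := by
    rintro (_ | s)
    · exact pv'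
    · change φ ⬝ᵥ (s • v) = 0
      rw [dotProduct_smul, pv, smul_zero]
  have hminj : Function.Injective m := by
    rintro (_ | s) (_ | t) h
    · rfl
    · have h' : v' = t • v := h
      have := (ind t (-1) (by rw [neg_smul, one_smul, ← h']; abel)).2
      exact absurd (neg_eq_zero.1 this) one_ne_zero
    · have h' : s • v = v' := h
      have := (ind s (-1) (by rw [neg_smul, one_smul, h']; abel)).2
      exact absurd (neg_eq_zero.1 this) one_ne_zero
    · have h' : s • v = t • v := h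
      have := (ind (s - t) 0 (by rw [sub_smul, h', zero_smul]; abel)).1
      rw [sub_eq_zero.1 this]
  have hinj : Function.Injective (fun o => pt (w + m o)) := by
    intro o o' h
    have h2 : w + m o ∈ pt (w + m o') := by
      have h3 : pt (w + m o) = pt (w + m o') := h
      rw [← h3]
      exact Submodule.mem_span_singleton_self _
    obtain ⟨c, hc⟩ := Submodule.mem_span_singleton.1 h2
    have h3 := congrArg (fun z => φ ⬝ᵥ z) hc
    simp only [dotProduct_smul, dotProduct_add, hm, add_zero, smul_eq_mul] at h3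
    have h4 : c = 1 := by
      have : (c - 1) * (φ ⬝ᵥ w) = 0 := by rw [sub_mul, h3, one_mul, sub_self]
      exact sub_eq_zero.1 ((mul_eq_zero.1 this).resolve_right p2)
    rw [h4, one_smul] at hc
    exact (hminj (add_left_cancel hc)).symm
  have hsub : Set.range (fun o => pt (w + m o)) ⊆ {z : Lat n F | IsAtom z ∧ ¬ z ≤ pt v ⊔ pt v'} := by
    rintro _ ⟨o, rfl⟩
    have h1 : φ ⬝ᵥ (w + m o) ≠ 0 := by
      rw [dotProduct_add, hm, add_zero]
      exact p2
    refine ⟨atom_iff.2 ⟨_, ?_, rfl⟩, ?_⟩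
    · intro h0
      rw [h0, dotProduct_zero] at h1
      exact h1 rfl
    · rw [pt_le_iff]
      exact fun h => h1 (p1 _ h)
  have hfin : Finite (Lat n F) := lat_finite
  have h1 := Set.ncard_le_ncard hsub (Set.toFinite _)
  rw [Set.ncard_range_of_injective hinj, Finite.card_option] at h1
  omega

end Pool.Agent.Work.MP_bc729a_al.LN
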