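import Pool.Agent.Work.MP_bc729a_al.LN.Defs

/-! # Module FrmChar (size S-M): frames are the sets of column lines of invertible matrices

PROOF. (⇐) The columns of an invertible matrix are linearly independent and span; `LinearIndependent` gives
`iSupIndep` of the lines (`LinearIndependent.iSupIndep_span_singleton`), the family of lines is injective, so
`sSupIndep` of its range (`iSupIndep.sSupIndep_range` or `sSupIndep_range_iff`...); atoms:
`nonzero_span_atom`; `sSup = ⊤` from the span of the columns (`Submodule.span_range_eq_iSup`).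
(⇒) For `p ∈ P` choose `v p ≠ 0` with `p = span {v p}` (`Submodule.atom...`; an atom is the span of any nonzero
vector in it). `sSupIndep P` gives `iSupIndep (fun p : P => (p : Lat n F))` and
`iSupIndep.linearIndependent` gives linear independence of `v`; `sSup P = ⊤` gives that they span; so they form a
basis of `Fin n → F`, `P` has `n` elements; reindex by `Fin n` and take the matrix with these columns
(`Module.Basis.toMatrix`, `isUnit_det` ...).
`std_isFrm`: `M = 1`. `card_frm` from `isFrm_iff`: the lines of the columns are distinct. -/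

namespace Pool.Agent.Work.MP_bc729a_al.LN

open Matrix

universe u

variable {n : ℕ} {F : Type u} [Field F]

/-- every atom is `pt v` -/
private theorem FrmChar_atom {U : Lat n F} : IsAtom U ↔ ∃ v, v ≠ 0 ∧ U = pt v := by
  rw [atom_iff_nonzero_span]
  rfl

private theorem FrmChar_li {P : Set (Lat n F)} (h1 : ∀ p ∈ P, IsAtom p) (h2 : sSupIndep P) :
    ∃ v : P → (Fin n → F), LinearIndependent F v ∧ ∀ p : P, (p : Lat n F) = pt (v p) := by
  have h : ∀ p : P, ∃ v, v ≠ 0 ∧ (p : Lat n F) = pt v := fun p => FrmChar_atom.1 (h1 p.1 p.2)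
  choose v hv hv' using h
  refine ⟨v, ?_, hv'⟩
  have h3 : iSupIndep ((↑) : P → Lat n F) := (sSupIndep_iff P).1 h2
  refine iSupIndep.linearIndependent (fun p : P => (p : Lat n F)) h3 (v := v) (fun p => ?_) hv
  rw [hv' p]
  exact Submodule.mem_span_singleton_self _

private theorem FrmChar_basis {P : Set (Lat n F)} {v : P → (Fin n → F)}
    (hli : LinearIndependent F v) (hv : ∀ p : P, (p : Lat n F) = pt (v p))
    (hs : Submodule.span F (Set.range v) = ⊤) :
    ∃ M : Matrix (Fin n) (Fin n) F, IsUnit M.det ∧ P = Set.range fun j => pt (fun i => M i j) := by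
  classical
  let b : Module.Basis P F (Fin n → F) := Module.Basis.mk hli hs.ge
  have hfin : Finite P := hli.finite_of_isNoetherian
  have := Fintype.ofFinite P
  have hc : Fintype.card P = n := by
    have := Module.finrank_eq_card_basis b
    rw [Module.finrank_fin_fun] at this
    exact this.symm
  let e : P ≃ Fin n := Fintype.equivFinOfCardEq hc
  let b' : Module.Basis (Fin n) F (Fin n → F) := b.reindex e
  have hb' : ∀ j, b' j = v (e.symm j) := by
    intro j
    simp [b', b]
  refine ⟨Matrix.of fun i j => b' j i, ?_, ?_⟩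
  · have h1 := (Pi.basisFun F (Fin n)).isUnit_det b'
    rw [Module.Basis.det_apply] at h1
    have h2 : (Pi.basisFun F (Fin n)).toMatrix b' = Matrix.of fun i j => b' j i := by
      ext i j
      simp [Module.Basis.toMatrix_apply]
    rwa [h2] at h1
  · ext p
    constructor
    · intro hp
      refine ⟨e ⟨p, hp⟩, ?_⟩
      change pt (fun i => b' (e ⟨p, hp⟩) i) = p
      have : (fun i => b' (e ⟨p, hp⟩) i) = v ⟨p, hp⟩ := by
        have := hb' (e ⟨p, hp⟩)
        rw [Equiv.symm_apply_apply] at this
        exact this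
      rw [this, ← hv]
    · rintro ⟨j, rfl⟩
      change pt (fun i => b' j i) ∈ P
      have : (fun i => b' j i) = v (e.symm j) := hb' j
      rw [this, ← hv]
      exact (e.symm j).2

theorem isFrm_iff {P : Set (Lat n F)} : IsFrm P ↔
    ∃ M : Matrix (Fin n) (Fin n) F, IsUnit M.det ∧ P = Set.range fun j => pt (fun i => M i j) := by
  classical
  constructor
  · rintro ⟨h1, h2, h3⟩
    obtain ⟨v, hli, hv⟩ := FrmChar_li h1 h2
    refine FrmChar_basis hli hv ?_
    rw [Submodule.span_range_eq_iSup, ← h3, sSup_eq_iSup']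
    refine iSup_congr fun p => ?_
    exact (hv p).symm
  · rintro ⟨M, hM, rfl⟩
    have hli : LinearIndependent F (fun j => fun i => M i j) :=
      Matrix.linearIndependent_cols_iff_isUnit.2 ((Matrix.isUnit_iff_isUnit_det M).2 hM)
    refine ⟨?_, ?_, ?_⟩
    · rintro _ ⟨j, rfl⟩
      exact nonzero_span_atom _ (hli.ne_zero j)
    · exact hli.iSupIndep_span_singleton.sSupIndep_range
    · rw [sSup_range]
      have := hli.span_eq_top_of_card_eq_finrank' (by simp)
      rw [Submodule.span_range_eq_iSup] at this
      exact this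

theorem std_isFrm : IsFrm (stdF n F) := by
  rw [isFrm_iff]
  refine ⟨1, by simp, ?_⟩
  unfold stdF
  congr 1
  funext j
  congr 1
  ext i
  rw [Matrix.one_apply, Pi.single_apply]

theorem card_frm {P : Set (Lat n F)} (hP : IsFrm P) : P.ncard = n ∧ P.Finite := by
  classical
  obtain ⟨M, hM, rfl⟩ := isFrm_iff.1 hP
  have hli : LinearIndependent F (fun j => fun i => M i j) :=
    Matrix.linearIndependent_cols_iff_isUnit.2 ((Matrix.isUnit_iff_isUnit_det M).2 hM)
  have hinj : Function.Injective (fun j => pt (fun i => M i j)) := by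
    refine iSupIndep.injective hli.iSupIndep_span_singleton ?_
    intro j
    exact (nonzero_span_atom _ (hli.ne_zero j)).1
  refine ⟨?_, Set.finite_range _⟩
  rw [← Set.image_univ, Set.ncard_image_of_injective _ hinj, Set.ncard_univ]
  simp

/-- an independent set of `n` atoms is a frame -/
theorem isFrm_of_card {P : Set (Lat n F)} (h1 : ∀ p ∈ P, IsAtom p) (h2 : sSupIndep P)
    (h3 : P.ncard = n) : IsFrm P := by
  classical
  obtain ⟨v, hli, hv⟩ := FrmChar_li h1 h2
  have hfin : Finite P := hli.finite_of_isNoetherian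
  have := Fintype.ofFinite P
  rw [isFrm_iff]
  refine FrmChar_basis hli hv ?_
  refine hli.span_eq_top_of_card_eq_finrank' ?_
  rw [Module.finrank_fin_fun, ← Nat.card_eq_fintype_card, Nat.card_coe_set_eq]
  exact h3

/-- every atom is `pt v` and every coatom is `hyp φ` -/
theorem atom_iff {U : Lat n F} : IsAtom U ↔ ∃ v, v ≠ 0 ∧ U = pt v := FrmChar_atom

private theorem FrmChar_hyp_coatom {φ : Fin n → F} (h : φ ≠ 0) : IsCoatom (hyp φ) := by
  classical
  constructor
  · intro htop
    apply h
    funext i
    have : (Pi.single i 1 : Fin n → F) ∈ hyp φ := by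
      rw [htop]
      trivial
    rw [mem_hyp, dotProduct_single, mul_one] at this
    exact this
  · intro T hT
    rw [SetLike.lt_iff_le_and_exists] at hT
    obtain ⟨hle, t, htT, ht⟩ := hT
    rw [mem_hyp] at ht
    rw [eq_top_iff]
    intro v _
    have h1 : v - ((φ ⬝ᵥ v) / (φ ⬝ᵥ t)) • t ∈ T := by
      apply hle
      rw [mem_hyp, dotProduct_sub, dotProduct_smul, smul_eq_mul, div_mul_cancel₀ _ ht, sub_self]
    have h2 := T.add_mem h1 (T.smul_mem ((φ ⬝ᵥ v) / (φ ⬝ᵥ t)) htT)
    rwa [sub_add_cancel] at h2

theorem coatom_iff {U : Lat n F} : IsCoatom U ↔ ∃ φ, φ ≠ 0 ∧ U = hyp φ := by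
  classical
  constructor
  · intro hU
    obtain ⟨f, hf, hle⟩ := U.exists_le_ker_of_lt_top (lt_top_iff_ne_top.2 hU.1)
    have hfφ : ∀ v, f v = (fun i => f (Pi.single i 1)) ⬝ᵥ v := by
      intro v
      conv_lhs => rw [← LinearMap.sum_single_apply (φ := fun _ : Fin n => F) v]
      rw [map_sum, dotProduct]
      refine Finset.sum_congr rfl fun i _ => ?_
      have : (Pi.single i (v i) : Fin n → F) = (v i) • (Pi.single i 1 : Fin n → F) := by
        rw [← Pi.single_smul]
        simp
      rw [this, map_smul, smul_eq_mul, mul_comm]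
    refine ⟨fun i => f (Pi.single i 1), ?_, ?_⟩
    · intro h0
      apply hf
      ext v
      rw [LinearMap.comp_apply, hfφ, h0]
      simp
    · have hle' : U ≤ hyp (fun i => f (Pi.single i 1)) := by
        intro v hv
        rw [mem_hyp, ← hfφ]
        exact hle hv
      have hne : hyp (fun i => f (Pi.single i 1)) ≠ ⊤ := by
        intro htop
        apply hf
        ext i
        have : (Pi.single i 1 : Fin n → F) ∈ hyp (fun i => f (Pi.single i 1)) := by
          rw [htop]
          trivial
        rw [mem_hyp, ← hfφ] at this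
        simpa using this
      exact ((hU.le_iff_eq hne).1 hle').symm
  · rintro ⟨φ, h, rfl⟩
    exact FrmChar_hyp_coatom h

theorem pt_le_hyp {v φ : Fin n → F} : pt v ≤ hyp φ ↔ φ ⬝ᵥ v = 0 := by
  unfold pt
  rw [Submodule.span_singleton_le_iff_mem, mem_hyp]

end Pool.Agent.Work.MP_bc729a_al.LN
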