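import Pool.Agent.Work.MP_bc729a_al.LN.ActInj
import Pool.Agent.Work.MP_bc729a_al.LN.FrmChar

/-! # The groups of transvections -/

namespace Pool.Agent.Work.MP_bc729a_al.LN

open Matrix
open scoped Pointwise

universe u

variable {n : ℕ} {F : Type u} [Field F]

theorem xt_mulVec (v φ : Fin n → F) (c : F) (w : Fin n → F) :
    (1 + c • vecMulVec v φ) *ᵥ w = w + (c * (φ ⬝ᵥ w)) • v := by
  rw [Matrix.add_mulVec, Matrix.one_mulVec, Matrix.smul_mulVec]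
  congr 1
  ext i
  simp only [Pi.smul_apply, Matrix.mulVec, vecMulVec_apply, dotProduct, smul_eq_mul,
    Finset.mul_sum, Finset.sum_mul]
  refine Finset.sum_congr rfl fun j _ => ?_
  ring

theorem xt_ext {A B : Matrix (Fin n) (Fin n) F} (h : ∀ w, A *ᵥ w = B *ᵥ w) : A = B := by
  ext i j
  have := congrFun (h (Pi.single j 1)) i
  rw [Matrix.mulVec_single_one, Matrix.mulVec_single_one] at this
  exact this

theorem exists_dual {φ : Fin n → F} (hφ : φ ≠ 0) : ∃ w : Fin n → F, φ ⬝ᵥ w = 1 := by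
  obtain ⟨i, hi⟩ : ∃ i, φ i ≠ 0 := by
    by_contra hcon
    push Not at hcon
    exact hφ (funext hcon)
  refine ⟨Pi.single i (φ i)⁻¹, ?_⟩
  rw [dotProduct_single]
  exact mul_inv_cancel₀ hi

theorem mem_XT_iff {v φ : Fin n → F} (hv : v ≠ 0) (hφ : φ ≠ 0) {g : SLn n F} :
    g ∈ XT (pt v) (hyp φ) ↔ ∃ c : F, g.1 = 1 + c • vecMulVec v φ := by
  constructor
  · rintro ⟨h1, h2⟩
    obtain ⟨w0, hw0⟩ := exists_dual hφ
    obtain ⟨c, hc⟩ := Submodule.mem_span_singleton.1 (h1 w0)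
    refine ⟨c, xt_ext fun w => ?_⟩
    rw [xt_mulVec]
    have h3 : w - (φ ⬝ᵥ w) • w0 ∈ hyp φ := by
      rw [mem_hyp, dotProduct_sub, dotProduct_smul, hw0, smul_eq_mul, mul_one, sub_self]
    have h4 := h2 _ h3
    rw [Matrix.mulVec_sub, Matrix.mulVec_smul] at h4
    have h5 : g.1 *ᵥ w0 = w0 + c • v := by
      rw [hc]
      abel
    rw [h5] at h4
    have h6 : g.1 *ᵥ w = w - (φ ⬝ᵥ w) • w0 + (φ ⬝ᵥ w) • (w0 + c • v) := by
      rw [← h4]
      abel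
    rw [h6, smul_add, smul_smul, mul_comm]
    abel
  · rintro ⟨c, hc⟩
    constructor
    · intro w
      rw [hc, xt_mulVec, add_sub_cancel_left]
      exact Submodule.smul_mem _ _ (Submodule.mem_span_singleton_self v)
    · intro w hw
      rw [mem_hyp] at hw
      rw [hc, xt_mulVec, hw, mul_zero, zero_smul, add_zero]

theorem exists_XT {v φ : Fin n → F} (h : φ ⬝ᵥ v = 0) (c : F) :
    ∃ g : SLn n F, g.1 = 1 + c • vecMulVec v φ := by
  have hdet : (1 + c • vecMulVec v φ : Matrix (Fin n) (Fin n) F).det = 1 := by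
    rw [← Matrix.smul_vecMulVec, Matrix.vecMulVec_eq Unit,
      Matrix.det_one_add_replicateCol_mul_replicateRow, dotProduct_smul, h, smul_zero, add_zero]
  exact ⟨⟨_, hdet⟩, rfl⟩

/-- the vectors of a flag -/
theorem flag_vec (f : Flag n F) : ∃ v φ : Fin n → F, v ≠ 0 ∧ φ ≠ 0 ∧ φ ⬝ᵥ v = 0 ∧
    f.p = pt v ∧ f.h = hyp φ := by
  obtain ⟨v, hv, hp⟩ := atom_iff.1 f.hp
  obtain ⟨φ, hφ, hh⟩ := coatom_iff.1 f.hh
  refine ⟨v, φ, hv, hφ, ?_, hp, hh⟩
  rw [← pt_le_hyp, ← hp, ← hh]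
  exact f.le

theorem exists_flag {v φ : Fin n → F} (hv : v ≠ 0) (hφ : φ ≠ 0) (h : φ ⬝ᵥ v = 0) :
    ∃ f : Flag n F, f.p = pt v ∧ f.h = hyp φ :=
  ⟨⟨pt v, hyp φ, atom_iff.2 ⟨v, hv, rfl⟩, coatom_iff.2 ⟨φ, hφ, rfl⟩, pt_le_hyp.2 h⟩, rfl, rfl⟩

theorem XP_inj {f f' : Flag n F} (h : XP f ≤ XP f') : f = f' := by
  obtain ⟨v, φ, hv, hφ, hφv, hp, hh⟩ := flag_vec f
  obtain ⟨v', φ', hv', hφ', hφv', hp', hh'⟩ := flag_vec f'
  obtain ⟨x, hx⟩ := exists_XT hφv 1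
  have hxT : x ∈ XT f.p f.h := by
    rw [hp, hh]
    exact (mem_XT_iff hv hφ).2 ⟨1, hx⟩
  obtain ⟨x', hx'T, hxx'⟩ := h ⟨x, hxT, rfl⟩
  obtain ⟨c, -, hc⟩ := pr_eq_iff.1 hxx'.symm
  have hx'T' := hx'T
  rw [hp', hh'] at hx'T'
  obtain ⟨c', hc'⟩ := (mem_XT_iff hv' hφ').1 hx'T'
  have h1 : x.1 *ᵥ v = v := by
    rw [hx, xt_mulVec, hφv, mul_zero, zero_smul, add_zero]
  have h2 : c • (v + (c' * (φ' ⬝ᵥ v)) • v') = v := by
    rw [← xt_mulVec, ← hc', ← Matrix.smul_mulVec, ← hc, h1]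
  have hc1 : c = 1 := by
    by_cases h3 : φ' ⬝ᵥ v = 0
    · rw [h3, mul_zero, zero_smul, add_zero] at h2
      by_contra hne
      have h4 : (c - 1) • v = 0 := by
        rw [sub_smul, h2, one_smul, sub_self]
      rcases smul_eq_zero.1 h4 with h5 | h5
      · exact hne (sub_eq_zero.1 h5)
      · exact hv h5
    · have h4 := congrArg (fun w => φ' ⬝ᵥ w) h2
      simp only [dotProduct_smul, dotProduct_add, hφv', smul_eq_mul, mul_zero, add_zero] at h4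
      have h5 : c * (φ' ⬝ᵥ v) = 1 * (φ' ⬝ᵥ v) := by rw [h4, one_mul]
      exact mul_right_cancel₀ h3 h5
  have hxe : x = x' := by
    apply Subtype.ext
    rw [hc, hc1, one_smul]
  rw [← hxe] at hx'T
  obtain ⟨h3, h4⟩ := hx'T
  apply Flag.ext'
  · obtain ⟨w0, hw0⟩ := exists_dual hφ
    have h5 := h3 w0
    rw [hx, xt_mulVec, hw0, mul_one, one_smul, add_sub_cancel_left] at h5
    have h6 : f.p ≤ f'.p := by
      rw [hp]
      exact (Submodule.span_singleton_le_iff_mem _ _).2 h5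
    rcases f'.hp.le_iff.1 h6 with h7 | h7
    · exact absurd h7 f.hp.1
    · exact h7
  · have h6 : f'.h ≤ f.h := by
      intro w hw
      have h5 := h4 w hw
      rw [hx, xt_mulVec, one_mul] at h5
      rw [hh, mem_hyp]
      have h7 : (φ ⬝ᵥ w) • v = 0 := by
        rw [add_eq_left] at h5
        exact h5
      exact (smul_eq_zero.1 h7).resolve_right hv
    rcases f'.hh.le_iff.1 h6 with h7 | h7
    · exact absurd h7 f.hh.1
    · exact h7

theorem XT_conj_iff (g y : SLn n F) (p h : Lat n F) :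
    y ∈ XT (actSL n F g p) (actSL n F g h) ↔ g⁻¹ * y * g ∈ XT p h := by
  have e1 : ∀ v, (g⁻¹ * y * g).1 *ᵥ v = (g⁻¹).1 *ᵥ (y.1 *ᵥ (g.1 *ᵥ v)) := by
    intro v
    rw [Matrix.mulVec_mulVec, Matrix.mulVec_mulVec]
    rfl
  have e2 : ∀ v, (g⁻¹).1 *ᵥ (g.1 *ᵥ v) = v := by
    intro v
    rw [Matrix.mulVec_mulVec, sl_inv_mul, Matrix.one_mulVec]
  have e3 : ∀ v, g.1 *ᵥ ((g⁻¹).1 *ᵥ v) = v := by
    intro v
    rw [Matrix.mulVec_mulVec, sl_mul_inv, Matrix.one_mulVec]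
  constructor
  · rintro ⟨h1, h2⟩
    constructor
    · intro v
      obtain ⟨u, hu, hu'⟩ := mem_actSL.1 (h1 (g.1 *ᵥ v))
      have h3 : (g⁻¹ * y * g).1 *ᵥ v - v = u := by
        rw [e1]
        have h4 := congrArg (fun w => (g⁻¹).1 *ᵥ w) hu'
        simp only [Matrix.mulVec_sub] at h4
        rw [e2, e2] at h4
        exact h4.symm
      rw [h3]
      exact hu
    · intro v hv
      rw [e1, h2 _ (mem_actSL.2 ⟨v, hv, rfl⟩), e2]
  · rintro ⟨h1, h2⟩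
    constructor
    · intro v
      rw [mem_actSL]
      refine ⟨_, h1 ((g⁻¹).1 *ᵥ v), ?_⟩
      rw [Matrix.mulVec_sub, e1, e3, e3]
    · intro v hv
      obtain ⟨u, hu, rfl⟩ := mem_actSL.1 hv
      have h3 := h2 u hu
      rw [e1] at h3
      have h4 : g.1 *ᵥ ((g⁻¹).1 *ᵥ (y.1 *ᵥ (g.1 *ᵥ u))) = g.1 *ᵥ u :=
        congrArg (fun w => g.1 *ᵥ w) h3
      rw [e3] at h4
      exact h4

theorem XP_map (s : PSLn n F) (f : Flag n F) :
    XP (f.map (act n F s)) = MulAut.conj s • XP f := by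
  obtain ⟨g, rfl⟩ := pr_surjective s
  ext z
  rw [Subgroup.mem_pointwise_smul_iff_inv_smul_mem]
  have e1 : (MulAut.conj (pr n F g))⁻¹ • z = (pr n F g)⁻¹ * z * pr n F g := by
    rw [← map_inv, MulAut.smul_def, MulAut.conj_apply, inv_inv]
  rw [e1]
  constructor
  · rintro ⟨y, hy, rfl⟩
    refine ⟨g⁻¹ * y * g, (XT_conj_iff g y _ _).1 hy, ?_⟩
    rw [map_mul, map_mul, map_inv]
  · rintro ⟨y, hy, hyz⟩
    refine ⟨g * y * g⁻¹, (XT_conj_iff g _ _ _).2 ?_, ?_⟩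
    · have : g⁻¹ * (g * y * g⁻¹) * g = y := by group
      rw [this]
      exact hy
    · rw [map_mul, map_mul, map_inv, hyz]
      group

end Pool.Agent.Work.MP_bc729a_al.LN
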