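import Pool.Agent.Work.MP_bc729a_al.LN.XTchar

/-! # The centre of a Sylow subgroup of `SL_n(F)` -/

namespace Pool.Agent.Work.MP_bc729a_al.LN

open Matrix

universe u

variable {n : ℕ} {F : Type u} [Field F]

theorem xt_one (v φ w : Fin n → F) :
    (1 + vecMulVec v φ) *ᵥ w = w + (φ ⬝ᵥ w) • v := by
  have := xt_mulVec v φ 1 w
  rwa [one_smul, one_mul] at this

theorem exists_XT1 {v φ : Fin n → F} (h : φ ⬝ᵥ v = 0) :
    ∃ g : SLn n F, g.1 = 1 + vecMulVec v φ := by
  obtain ⟨g, hg⟩ := exists_XT h 1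
  exact ⟨g, by rw [hg, one_smul]⟩

theorem dot_ext {v w : Fin n → F} (h : ∀ φ : Fin n → F, φ ⬝ᵥ v = φ ⬝ᵥ w) : v = w := by
  funext i
  have := h (Pi.single i 1)
  rwa [single_one_dotProduct, single_one_dotProduct] at this

theorem exists_perp (hn : 2 ≤ n) (v : Fin n → F) : ∃ ψ : Fin n → F, ψ ≠ 0 ∧ ψ ⬝ᵥ v = 0 := by
  classical
  let i0 : Fin n := ⟨0, by omega⟩
  let i1 : Fin n := ⟨1, by omega⟩
  have h01 : i0 ≠ i1 := by
    intro h
    have := congrArg Fin.val h
    simp only [i0, i1] at this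
    omega
  by_cases h0 : v i0 = 0
  · refine ⟨Pi.single i0 1, ?_, ?_⟩
    · intro h
      have := congrFun h i0
      rw [Pi.single_eq_same] at this
      exact one_ne_zero this
    · rw [single_one_dotProduct, h0]
  · refine ⟨Pi.single i1 (v i0) - Pi.single i0 (v i1), ?_, ?_⟩
    · intro h
      have := congrFun h i1
      rw [Pi.sub_apply, Pi.single_eq_same, Pi.single_eq_of_ne h01.symm, sub_zero] at this
      exact h0 this
    · rw [sub_dotProduct, single_dotProduct, single_dotProduct]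
      ring

/-- double annihilator for a line -/
theorem mem_pt_of {u v : Fin n → F} (h : ∀ ψ : Fin n → F, ψ ⬝ᵥ v = 0 → ψ ⬝ᵥ u = 0) :
    u ∈ pt v := by
  classical
  by_cases hv : v = 0
  · have : u = 0 := by
      apply dot_ext
      intro φ
      rw [h φ (by rw [hv, dotProduct_zero]), dotProduct_zero]
    rw [this]
    exact Submodule.zero_mem _
  · obtain ⟨i, hi⟩ : ∃ i, v i ≠ 0 := by
      by_contra hcon
      push Not at hcon
      exact hv (funext hcon)
    refine Submodule.mem_span_singleton.2 ⟨u i * (v i)⁻¹, ?_⟩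
    funext j
    have h1 := h (Pi.single j (v i) - Pi.single i (v j)) (by
      rw [sub_dotProduct, single_dotProduct, single_dotProduct]
      ring)
    rw [sub_dotProduct, single_dotProduct, single_dotProduct] at h1
    rw [Pi.smul_apply, smul_eq_mul]
    field_simp
    linear_combination -h1

theorem isPGroup_XT {p : ℕ} [Fact p.Prime] [CharP F p] (U : Lat n F) :
    IsPGroup p (XT U U) := by
  rintro ⟨g, h1, h2⟩
  refine ⟨1, ?_⟩
  apply Subtype.ext
  apply Subtype.ext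
  apply xt_ext
  intro w
  have key : ∀ k : ℕ, ((g ^ k).1) *ᵥ w = w + (k : F) • (g.1 *ᵥ w - w) := by
    intro k
    induction k with
    | zero => rw [pow_zero, sl_one, Matrix.one_mulVec, Nat.cast_zero, zero_smul, add_zero]
    | succ k ih =>
      rw [pow_succ', sl_mul, ← Matrix.mulVec_mulVec, ih, Matrix.mulVec_add, Matrix.mulVec_smul,
        h2 _ (h1 w), Nat.cast_succ, add_smul, one_smul]
      abel
  have := key (p ^ 1)
  rw [pow_one, CharP.cast_eq_zero, zero_smul, add_zero] at this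
  rw [pow_one]
  change (g ^ p).1 *ᵥ w = (1 : Matrix (Fin n) (Fin n) F) *ᵥ w
  rw [this, Matrix.one_mulVec]

theorem XT_le_sylow {p : ℕ} [Fact p.Prime] [CharP F p] (P : Sylow p (SLn n F)) (U : Lat n F)
    (h : ∀ g ∈ P, actSL n F g U = U) : XT U U ≤ P.1 := by
  have h1 : P.1 ≤ Subgroup.normalizer (XT U U : Set (SLn n F)) := by
    intro g hg
    rw [Subgroup.mem_normalizer_iff]
    intro y
    have e1 := XT_conj_iff g (g * y * g⁻¹) U U
    rw [h g hg] at e1
    have e2 : g⁻¹ * (g * y * g⁻¹) * g = y := by group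
    rw [e2] at e1
    exact e1.symm
  have h2 := IsPGroup.to_sup_of_normal_right' P.isPGroup' (isPGroup_XT (p := p) U) h1
  have h3 := P.is_maximal' h2 le_sup_left
  calc XT U U ≤ P.1 ⊔ XT U U := le_sup_right
    _ = P.1 := h3

theorem exists_fixed [Finite F] (hn : 2 ≤ n) {p : ℕ} [Fact p.Prime] [CharP F p]
    (P : Sylow p (SLn n F)) (m : SLn n F → (Fin n → F) → (Fin n → F)) (m1 : ∀ v, m 1 v = v)
    (m2 : ∀ a b v, m (a * b) v = m a (m b v)) (m3 : ∀ a, m a 0 = 0) :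
    ∃ v : Fin n → F, v ≠ 0 ∧ ∀ g ∈ P, m g v = v := by
  let _ : MulAction P (Fin n → F) :=
    { smul := fun g v => m g.1 v
      one_smul := fun v => m1 v
      mul_smul := fun a b v => m2 a.1 b.1 v }
  have hc : p ∣ Nat.card (Fin n → F) := by
    have := Fintype.ofFinite F
    obtain ⟨k, hk, hk'⟩ := FiniteField.card F p
    rw [Nat.card_eq_fintype_card, Fintype.card_fun, Fintype.card_fin, hk', ← pow_mul]
    exact dvd_pow_self _ (Nat.mul_ne_zero k.ne_zero (by omega))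
  obtain ⟨v, hv, hv0⟩ := P.isPGroup'.exists_fixed_point_of_prime_dvd_card_of_fixed_point
    (Fin n → F) hc (a := 0) (fun g => m3 g.1)
  exact ⟨v, hv0.symm, fun g hg => hv ⟨g, hg⟩⟩

theorem sylow_center [Finite F] (hn : 2 ≤ n) {p : ℕ} [Fact p.Prime] [CharP F p]
    (P : Sylow p (SLn n F)) :
    ∃ f : Flag n F, ∀ z : SLn n F, (z ∈ P ∧ ∀ y ∈ P, z * y = y * z) ↔ z ∈ XT f.p f.h := by
  obtain ⟨v, hv, hvP⟩ := exists_fixed hn P (fun g v => g.1 *ᵥ v)
    (fun v => by rw [sl_one, Matrix.one_mulVec])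
    (fun a b v => by rw [sl_mul, Matrix.mulVec_mulVec])
    (fun a => by rw [Matrix.mulVec_zero])
  obtain ⟨φ, hφ, hφP'⟩ := exists_fixed hn P (fun g v => v ᵥ* (g⁻¹).1)
    (fun v => by rw [inv_one, sl_one, Matrix.vecMul_one])
    (fun a b v => by rw [_root_.mul_inv_rev, sl_mul, Matrix.vecMul_vecMul])
    (fun a => by rw [Matrix.zero_vecMul])
  have hφP : ∀ g ∈ P, φ ᵥ* g.1 = φ := by
    intro g hg
    have := hφP' g⁻¹ (inv_mem hg)
    rwa [inv_inv] at this
  have hφP2 : ∀ g ∈ P, ∀ w, φ ⬝ᵥ (g.1 *ᵥ w) = φ ⬝ᵥ w := by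
    intro g hg w
    rw [Matrix.dotProduct_mulVec, hφP g hg]
  have hE : XT (pt v) (pt v) ≤ P.1 := by
    apply XT_le_sylow
    intro g hg
    rw [actSL_pt, hvP g hg]
  have hE' : XT (hyp φ) (hyp φ) ≤ P.1 := by
    apply XT_le_sylow
    intro g hg
    ext w
    rw [mem_actSL]
    constructor
    · rintro ⟨u, hu, rfl⟩
      rw [mem_hyp] at hu ⊢
      rw [hφP2 g hg, hu]
    · intro hw
      refine ⟨(g⁻¹).1 *ᵥ w, ?_, ?_⟩
      · rw [mem_hyp] at hw ⊢
        rw [hφP2 _ (inv_mem hg), hw]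
      · rw [Matrix.mulVec_mulVec, sl_mul_inv, Matrix.one_mulVec]
  have hEm : ∀ ψ : Fin n → F, ψ ⬝ᵥ v = 0 → ∃ g ∈ P, g.1 = 1 + vecMulVec v ψ := by
    intro ψ hψ
    obtain ⟨g, hg⟩ := exists_XT1 hψ
    refine ⟨g, hE ⟨fun w => ?_, fun w hw => ?_⟩, hg⟩
    · rw [hg, xt_one, add_sub_cancel_left]
      exact Submodule.smul_mem _ _ (Submodule.mem_span_singleton_self v)
    · obtain ⟨c, rfl⟩ := Submodule.mem_span_singleton.1 hw
      rw [hg, xt_one, dotProduct_smul, hψ, smul_zero, zero_smul, add_zero]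
  have hEm' : ∀ u : Fin n → F, φ ⬝ᵥ u = 0 → ∃ g ∈ P, g.1 = 1 + vecMulVec u φ := by
    intro u hu
    obtain ⟨g, hg⟩ := exists_XT1 hu
    refine ⟨g, hE' ⟨fun w => ?_, fun w hw => ?_⟩, hg⟩
    · rw [hg, xt_one, add_sub_cancel_left]
      exact Submodule.smul_mem _ _ hu
    · rw [mem_hyp] at hw
      rw [hg, xt_one, hw, zero_smul, add_zero]
  have hφv : φ ⬝ᵥ v = 0 := by
    obtain ⟨ψ, hψ, hψv⟩ := exists_perp hn v
    obtain ⟨g, hg, hg'⟩ := hEm ψ hψv
    obtain ⟨w, hw⟩ := exists_dual hψ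
    have h1 := hφP2 g hg w
    rw [hg', xt_one, hw, one_smul, dotProduct_add] at h1
    exact add_eq_left.1 h1
  obtain ⟨f, hfp, hfh⟩ := exists_flag hv hφ hφv
  refine ⟨f, fun z => ?_⟩
  rw [hfp, hfh]
  constructor
  · rintro ⟨hz, hzc⟩
    constructor
    · intro w
      apply mem_pt_of
      intro ψ hψ
      obtain ⟨g, hg, hg'⟩ := hEm ψ hψ
      have h1 : z.1 *ᵥ (g.1 *ᵥ w) = g.1 *ᵥ (z.1 *ᵥ w) := by
        rw [Matrix.mulVec_mulVec, Matrix.mulVec_mulVec, ← sl_mul, ← sl_mul, hzc g hg]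
      rw [hg', xt_one, xt_one, Matrix.mulVec_add, Matrix.mulVec_smul, hvP z hz] at h1
      have h2 := add_left_cancel h1
      obtain ⟨w0, hw0⟩ : ∃ w0 : Fin n → F, w0 ⬝ᵥ v ≠ 0 := by
        by_contra hcon
        push Not at hcon
        apply hv
        apply dot_ext
        intro χ
        rw [hcon, dotProduct_zero]
      have h3 := congrArg (fun x => w0 ⬝ᵥ x) h2
      simp only [dotProduct_smul, smul_eq_mul] at h3
      rw [dotProduct_sub, sub_eq_zero]
      exact (mul_right_cancel₀ hw0 h3).symm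
    · intro u hu
      rw [mem_hyp] at hu
      obtain ⟨g, hg, hg'⟩ := hEm' u hu
      obtain ⟨w, hw⟩ := exists_dual hφ
      have h1 : z.1 *ᵥ (g.1 *ᵥ w) = g.1 *ᵥ (z.1 *ᵥ w) := by
        rw [Matrix.mulVec_mulVec, Matrix.mulVec_mulVec, ← sl_mul, ← sl_mul, hzc g hg]
      rw [hg', xt_one, xt_one, hφP2 z hz, hw, one_smul, Matrix.mulVec_add] at h1
      exact add_left_cancel h1
  · intro hz
    constructor
    · apply hE
      refine ⟨hz.1, fun w hw => hz.2 w ?_⟩
      exact pt_le_hyp.2 hφv hw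
    · intro y hy
      obtain ⟨c, hc⟩ := (mem_XT_iff hv hφ).1 hz
      apply Subtype.ext
      apply xt_ext
      intro w
      rw [sl_mul, sl_mul, ← Matrix.mulVec_mulVec, ← Matrix.mulVec_mulVec, hc, xt_mulVec, xt_mulVec,
        hφP2 y hy, Matrix.mulVec_add, Matrix.mulVec_smul, hvP y hy]

end Pool.Agent.Work.MP_bc729a_al.LN
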