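import Pool.Agent.Work.MP_bc729a_al.LN.FrmChar

/-! # Module CoFrm (size S-M): the hyperplanes of a frame

PROOF. By `isFrm_iff` let `P` be the set of column lines `p_j` of the invertible matrix `M`. For `v : Fin n → F` write
`c v = M⁻¹ *ᵥ v` (coordinates in the basis of columns). `p_j = {v | ∀ i ≠ j, c v i = 0}` and
`sSup (P \ {p_j}) = {v | c v j = 0} =: h_j`. So:
`coF_inf`: for `p ∈ P`: `sInf (coF P \ {sSup (P \ {p})}) = p`, and `p ⊔ sSup (P \ {p}) = ⊤`, `sInf (coF P) = ⊥`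
(for `n ≥ 1`; for `n = 0` there is no `p` and `⊥ = ⊤`).
`coF_inj`: `P = {sInf (C \ {h}) | h ∈ C}` for `C = coF P` (the `h_j` are distinct).
`coF_image`: a lattice automorphism commutes with `sSup` and differences of sets.
`dual_frm`: put `P' = τ '' coF P` (elements of `Lat n F` via `ofDual`). `τ` reverses the order: `τ h_j` is an atom,
`τ h_j ⊓ ⨆_{i≠j} τ h_i = τ (h_j ⊔ ⨅_{i≠j} h_i) = τ (h_j ⊔ p_j) = τ ⊤ = ⊥` (so independent), the sup of all is
`τ (⨅ h_i) = τ ⊥ = ⊤`; `sSup (P' \ {τ h_j}) = τ (⨅_{i≠j} h_i) = τ p_j`, so `coF P' = τ '' P`. -/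

namespace Pool.Agent.Work.MP_bc729a_al.LN

open Matrix OrderDual

universe u

variable {n : ℕ} {F : Type u} [Field F]

private lemma CoFrm_col (M : Matrix (Fin n) (Fin n) F) (j : Fin n) :
    (fun i => M i j) = M *ᵥ Pi.single j 1 := by
  rw [Matrix.mulVec_single_one]
  rfl

private lemma CoFrm_coord {M : Matrix (Fin n) (Fin n) F} (hM : IsUnit M.det) (j : Fin n) :
    M⁻¹ *ᵥ (fun i => M i j) = Pi.single j 1 := by
  rw [CoFrm_col, Matrix.mulVec_mulVec, Matrix.nonsing_inv_mul _ hM, Matrix.one_mulVec]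

private lemma CoFrm_mem_sup {M : Matrix (Fin n) (Fin n) F} (hM : IsUnit M.det)
    (S : Set (Fin n)) (v : Fin n → F) :
    v ∈ sSup ((fun j => pt (fun i => M i j)) '' S) ↔ ∀ i ∉ S, (M⁻¹ *ᵥ v) i = 0 := by
  classical
  constructor
  · intro hv i hi
    have h1 : sSup ((fun j => pt (fun i => M i j)) '' S) ≤ hyp (fun k => M⁻¹ i k) := by
      refine sSup_le ?_
      rintro _ ⟨j, hj, rfl⟩
      change pt (fun i => M i j) ≤ _
      rw [pt_le_hyp]
      have h2 := congrFun (CoFrm_coord hM j) i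
      have h3 : i ≠ j := by
        rintro rfl
        exact hi hj
      rw [Pi.single_apply, if_neg h3] at h2
      exact h2
    exact h1 hv
  · intro hv
    have h1 : v = M *ᵥ (M⁻¹ *ᵥ v) := by
      rw [Matrix.mulVec_mulVec, Matrix.mul_nonsing_inv _ hM, Matrix.one_mulVec]
    have h2 : v = ∑ j, (M⁻¹ *ᵥ v) j • (fun i => M i j) := by
      conv_lhs => rw [h1]
      ext i
      rw [Finset.sum_apply]
      change ∑ j, M i j * (M⁻¹ *ᵥ v) j = _
      refine Finset.sum_congr rfl fun j _ => ?_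
      rw [Pi.smul_apply, smul_eq_mul, mul_comm]
    rw [h2]
    refine Submodule.sum_mem _ fun j _ => ?_
    by_cases hj : j ∈ S
    · refine Submodule.smul_mem _ _ ?_
      have h3 : pt (fun i => M i j) ≤ sSup ((fun j => pt (fun i => M i j)) '' S) :=
        le_sSup ⟨j, hj, rfl⟩
      exact h3 (Submodule.mem_span_singleton_self _)
    · rw [hv j hj, zero_smul]
      exact Submodule.zero_mem _

private lemma CoFrm_col_inj {M : Matrix (Fin n) (Fin n) F} (hM : IsUnit M.det) :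
    Function.Injective (fun j => pt (fun i => M i j)) := by
  classical
  have hli : LinearIndependent F (fun j => fun i => M i j) :=
    Matrix.linearIndependent_cols_iff_isUnit.2 ((Matrix.isUnit_iff_isUnit_det M).2 hM)
  refine iSupIndep.injective hli.iSupIndep_span_singleton ?_
  intro j
  exact (nonzero_span_atom _ (hli.ne_zero j)).1

private lemma CoFrm_diff {M : Matrix (Fin n) (Fin n) F} (hM : IsUnit M.det) (j : Fin n) :
    (Set.range fun j => pt (fun i => M i j)) \ {pt (fun i => M i j)} =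
      (fun j => pt (fun i => M i j)) '' {j}ᶜ := by
  rw [Set.image_compl_eq_range_sdiff_image (CoFrm_col_inj hM), Set.image_singleton]

/-- the hyperplane opposite to column `j` -/
private lemma CoFrm_sup {M : Matrix (Fin n) (Fin n) F} (hM : IsUnit M.det) (j : Fin n) :
    sSup ((Set.range fun j => pt (fun i => M i j)) \ {pt (fun i => M i j)}) =
      hyp (fun k => M⁻¹ j k) := by
  rw [CoFrm_diff hM]
  ext v
  rw [CoFrm_mem_sup hM, mem_hyp]
  constructor
  · intro h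
    refine h j ?_
    intro h'
    exact h' rfl
  · intro h i hi
    rw [Set.mem_compl_iff, not_not] at hi
    rw [Set.mem_singleton_iff.1 hi]
    exact h

private lemma CoFrm_coF {M : Matrix (Fin n) (Fin n) F} (hM : IsUnit M.det) :
    coF (Set.range fun j => pt (fun i => M i j)) = Set.range fun j => hyp (fun k => M⁻¹ j k) := by
  ext h
  constructor
  · rintro ⟨_, ⟨j, rfl⟩, rfl⟩
    exact ⟨j, (CoFrm_sup hM j).symm⟩
  · rintro ⟨j, rfl⟩
    exact ⟨_, ⟨j, rfl⟩, (CoFrm_sup hM j).symm⟩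

private lemma CoFrm_hyp_inj {M : Matrix (Fin n) (Fin n) F} (hM : IsUnit M.det) :
    Function.Injective (fun j => hyp (fun k => M⁻¹ j k)) := by
  classical
  intro a b hab
  by_contra hne
  have h1 : (fun i => M i a) ∈ hyp (fun k => M⁻¹ b k) := by
    have h2 := congrFun (CoFrm_coord hM a) b
    rw [Pi.single_apply, if_neg (Ne.symm hne)] at h2
    exact h2
  have hab' : hyp (fun k => M⁻¹ a k) = hyp (fun k => M⁻¹ b k) := hab
  rw [← hab'] at h1
  have h3 := congrFun (CoFrm_coord hM a) a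
  rw [Pi.single_apply, if_pos rfl] at h3
  have h4 : (M⁻¹ *ᵥ fun i => M i a) a = 0 := h1
  rw [h4] at h3
  exact zero_ne_one h3

private lemma CoFrm_row {M : Matrix (Fin n) (Fin n) F} (hM : IsUnit M.det) (j : Fin n) :
    (fun k => M⁻¹ j k) ≠ 0 := by
  classical
  intro h0
  have h3 := congrFun (CoFrm_coord hM j) j
  rw [Pi.single_apply, if_pos rfl] at h3
  have h4 : (M⁻¹ *ᵥ fun i => M i j) j = (fun k => M⁻¹ j k) ⬝ᵥ fun i => M i j := rfl
  rw [h4, h0, zero_dotProduct] at h3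
  exact zero_ne_one h3

theorem coF_inf {P : Set (Lat n F)} (hP : IsFrm P) {p : Lat n F} (hp : p ∈ P) :
    sInf (coF P \ {sSup (P \ {p})}) = p ∧ IsCoatom (sSup (P \ {p})) ∧
      p ⊔ sSup (P \ {p}) = ⊤ := by
  classical
  refine ⟨?_, ?_, ?_⟩
  · obtain ⟨M, hM, rfl⟩ := isFrm_iff.1 hP
    obtain ⟨j, rfl⟩ := hp
    change sInf (_ \ {sSup (_ \ {pt (fun i => M i j)})}) = pt (fun i => M i j)
    rw [CoFrm_sup hM, CoFrm_coF hM]
    have h1 : (Set.range fun j => hyp (fun k => M⁻¹ j k)) \ {hyp (fun k => M⁻¹ j k)} =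
        (fun j => hyp (fun k => M⁻¹ j k)) '' {j}ᶜ := by
      rw [Set.image_compl_eq_range_sdiff_image (CoFrm_hyp_inj hM), Set.image_singleton]
    rw [h1]
    ext v
    have h2 : v ∈ pt (fun i => M i j) ↔
        v ∈ sSup ((fun j => pt (fun i => M i j)) '' {j}) := by
      rw [Set.image_singleton, sSup_singleton]
    rw [h2, CoFrm_mem_sup hM, Submodule.mem_sInf]
    constructor
    · intro h i hi
      exact h _ ⟨i, hi, rfl⟩
    · rintro h _ ⟨i, hi, rfl⟩
      exact h i hi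
  · obtain ⟨M, hM, rfl⟩ := isFrm_iff.1 hP
    obtain ⟨j, rfl⟩ := hp
    change IsCoatom (sSup (_ \ {pt (fun i => M i j)}))
    rw [CoFrm_sup hM]
    exact coatom_iff.2 ⟨_, CoFrm_row hM j, rfl⟩
  · have h1 : p ⊔ sSup (P \ {p}) = sSup (insert p (P \ {p})) := by
      rw [sSup_insert]
    rw [h1, Set.insert_sdiff_singleton, Set.insert_eq_of_mem hp]
    exact hP.2.2

private lemma CoFrm_inf_bot {P : Set (Lat n F)} (hP : IsFrm P) : sInf (coF P) = ⊥ := by
  obtain ⟨M, hM, rfl⟩ := isFrm_iff.1 hP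
  rw [CoFrm_coF hM, eq_bot_iff]
  intro v hv
  rw [Submodule.mem_sInf] at hv
  have h1 : M⁻¹ *ᵥ v = 0 := by
    ext i
    exact hv _ ⟨i, rfl⟩
  have h2 : v = M *ᵥ (M⁻¹ *ᵥ v) := by
    rw [Matrix.mulVec_mulVec, Matrix.mul_nonsing_inv _ hM, Matrix.one_mulVec]
  rw [h1, Matrix.mulVec_zero] at h2
  exact (Submodule.mem_bot F).2 h2

private lemma CoFrm_rec {P : Set (Lat n F)} (hP : IsFrm P) :
    P = (fun h => sInf (coF P \ {h})) '' coF P := by
  ext p
  constructor
  · intro hp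
    exact ⟨sSup (P \ {p}), ⟨p, hp, rfl⟩, (coF_inf hP hp).1⟩
  · rintro ⟨_, ⟨q, hq, rfl⟩, rfl⟩
    change sInf (coF P \ {sSup (P \ {q})}) ∈ P
    rw [(coF_inf hP hq).1]
    exact hq

theorem coF_inj {P P' : Set (Lat n F)} (hP : IsFrm P) (hP' : IsFrm P') (h : coF P = coF P') :
    P = P' := by
  rw [CoFrm_rec hP, CoFrm_rec hP', h]

theorem coF_image (σ : Lat n F ≃o Lat n F) (P : Set (Lat n F)) : coF (σ '' P) = σ '' coF P := by
  have h4 : ∀ p, sSup (σ '' P \ {σ p}) = σ (sSup (P \ {p})) := by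
    intro p
    have : σ '' P \ {σ p} = σ '' (P \ {p}) := by
      rw [Set.image_sdiff σ.injective, Set.image_singleton]
    rw [this, sSup_image, ← σ.map_sSup]
  ext h
  constructor
  · rintro ⟨_, ⟨p, hp, rfl⟩, rfl⟩
    exact ⟨sSup (P \ {p}), ⟨p, hp, rfl⟩, (h4 p).symm⟩
  · rintro ⟨_, ⟨p, hp, rfl⟩, rfl⟩
    exact ⟨σ p, ⟨p, hp, rfl⟩, (h4 p).symm⟩

theorem dual_frm (τ : Lat n F ≃o (Lat n F)ᵒᵈ) {P : Set (Lat n F)} (hP : IsFrm P) :
    IsFrm ((fun U => ofDual (τ U)) '' coF P) ∧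
      coF ((fun U => ofDual (τ U)) '' coF P) = (fun U => ofDual (τ U)) '' P := by
  set t : Lat n F → Lat n F := fun U => ofDual (τ U) with ht
  have htinj : Function.Injective t := by
    intro a b hab
    exact τ.injective (ofDual.injective hab)
  have htinf : ∀ S : Set (Lat n F), t (sInf S) = sSup (t '' S) := by
    intro S
    change ofDual (τ (sInf S)) = _
    rw [τ.map_sInf, sSup_image]
    rfl
  have htdiff : ∀ h ∈ coF P, t '' coF P \ {t h} = t '' (coF P \ {h}) := by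
    intro h _
    rw [Set.image_sdiff htinj, Set.image_singleton]
  have key : ∀ p ∈ P, sSup (t '' coF P \ {t (sSup (P \ {p}))}) = t p := by
    intro p hp
    rw [htdiff _ ⟨p, hp, rfl⟩, ← htinf, (coF_inf hP hp).1]
  refine ⟨⟨?_, ?_, ?_⟩, ?_⟩
  · rintro _ ⟨h, ⟨p, hp, rfl⟩, rfl⟩
    have h1 : IsCoatom (τ (sSup (P \ {p}))) := (OrderIso.isCoatom_iff τ _).2 (coF_inf hP hp).2.1
    exact isCoatom_dual_iff_isAtom.1 h1
  · rintro _ ⟨h, ⟨p, hp, rfl⟩, rfl⟩
    rw [key p hp]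
    have h1 : Codisjoint p (sSup (P \ {p})) := codisjoint_iff.2 (coF_inf hP hp).2.2
    have h2 : t (p ⊔ sSup (P \ {p})) = t p ⊓ t (sSup (P \ {p})) := by
      change ofDual (τ (_ ⊔ _)) = _
      rw [τ.map_sup]
      rfl
    rw [disjoint_iff, inf_comm, ← h2, (coF_inf hP hp).2.2]
    change ofDual (τ ⊤) = ⊥
    rw [τ.map_top]
    rfl
  · rw [← htinf, CoFrm_inf_bot hP]
    change ofDual (τ ⊥) = ⊤
    rw [τ.map_bot]
    rfl
  · ext h
    constructor
    · rintro ⟨_, ⟨_, ⟨p, hp, rfl⟩, rfl⟩, rfl⟩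
      exact ⟨p, hp, (key p hp).symm⟩
    · rintro ⟨p, hp, rfl⟩
      exact ⟨_, ⟨_, ⟨p, hp, rfl⟩, rfl⟩, (key p hp).symm⟩

private lemma CoFrm_image (σ : Lat n F ≃o Lat n F) {P : Set (Lat n F)} (hP : IsFrm P) :
    IsFrm (σ '' P) := by
  obtain ⟨h1, h2, h3⟩ := hP
  refine ⟨?_, ?_, ?_⟩
  · rintro _ ⟨p, hp, rfl⟩
    exact (OrderIso.isAtom_iff σ p).2 (h1 p hp)
  · rintro _ ⟨p, hp, rfl⟩
    have h4 : σ '' P \ {σ p} = σ '' (P \ {p}) := by
      rw [Set.image_sdiff σ.injective, Set.image_singleton]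
    rw [h4, sSup_image, ← σ.map_sSup]
    exact (h2 hp).map_orderIso σ
  · rw [sSup_image, ← σ.map_sSup, h3, σ.map_top]

/-- the stabiliser of the set of hyperplanes of a frame is the stabiliser of the frame -/
theorem stab_coF {P : Set (Lat n F)} (hP : IsFrm P) : stab (coF P) = stab P := by
  ext s
  rw [mem_stab, mem_stab, ← coF_image]
  constructor
  · intro h
    exact coF_inj (CoFrm_image _ hP) hP h
  · intro h
    rw [h]

end Pool.Agent.Work.MP_bc729a_al.LN
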