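import Pool.Agent.Work.MP_bc729a_al.LN.Triv

/-! # In characteristic two the index of the monomial group is even -/

namespace Pool.Agent.Work.MP_bc729a_al.LN

open Matrix

universe u

variable {n : ℕ} {F : Type u} [Field F]

theorem mono_perm_ne {g : SLn n F} {σ : Equiv.Perm (Fin n)} (h : ∀ i j, g.1 i j ≠ 0 → i = σ j)
    (j : Fin n) : g.1 (σ j) j ≠ 0 := by
  intro h0
  have h1 : g.1.det = 0 := Matrix.det_eq_zero_of_column_eq_zero j fun i => by
    by_contra hne
    have h2 := h i j hne
    rw [h2] at hne
    exact hne h0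
  rw [g.2] at h1
  exact one_ne_zero h1

theorem mono_perm_unique {g : SLn n F} {σ τ : Equiv.Perm (Fin n)}
    (h : ∀ i j, g.1 i j ≠ 0 → i = σ j) (h' : ∀ i j, g.1 i j ≠ 0 → i = τ j) : σ = τ := by
  ext1 j
  exact h' _ _ (mono_perm_ne h j)

theorem mono_perm_mul {g g' : SLn n F} {σ τ : Equiv.Perm (Fin n)}
    (h : ∀ i j, g.1 i j ≠ 0 → i = σ j) (h' : ∀ i j, g'.1 i j ≠ 0 → i = τ j) :
    ∀ i j, (g * g').1 i j ≠ 0 → i = (σ * τ) j := by
  intro i j hij
  rw [sl_mul, Matrix.mul_apply] at hij
  obtain ⟨k, -, hk⟩ := Finset.exists_ne_zero_of_sum_ne_zero hij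
  rw [h i k (left_ne_zero_of_mul hk), h' k j (right_ne_zero_of_mul hk)]
  rfl

/-- a monomial transvection of order two is a transposition -/
theorem even_sign (h2 : CharP F 2) {i0 i1 : Fin n} (h01 : i0 ≠ i1) {k m : SLn n F} {s : F}
    (hs : s ≠ 0) (hm : m = k⁻¹ * SpecialLinearGroup.transvection h01 s * k)
    {σ : Equiv.Perm (Fin n)} (hσ : ∀ i j, m.1 i j ≠ 0 → i = σ j) : Equiv.Perm.sign σ = -1 := by
  have hone : ∀ c : F, c * c = 1 → c = 1 := by
    intro c hc
    have h3 : (2 : F) = 0 := by
      have := CharP.cast_eq_zero F 2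
      simpa using this
    have h4 : (c - 1) * (c - 1) = 0 := by linear_combination hc - (c - 1) * h3
    have h5 := mul_self_eq_zero.1 h4
    linear_combination h5
  -- the entries of `m - 1`
  have hm1 : ∀ i l, m.1 i l - (1 : Matrix (Fin n) (Fin n) F) i l =
      (k⁻¹).1 i i0 * s * k.1 i1 l := by
    intro i l
    have h3 : m.1 - 1 = (k⁻¹).1 * Matrix.single i0 i1 s * k.1 := by
      have h4 : m.1 = (k⁻¹).1 * (1 + Matrix.single i0 i1 s) * k.1 := congrArg Subtype.val hm
      rw [h4, mul_add, add_mul, mul_one, sl_inv_mul]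
      abel
    have h5 := congrFun (congrFun h3 i) l
    rw [Matrix.sub_apply] at h5
    rw [h5, Matrix.mul_apply, Finset.sum_eq_single i1]
    · rw [Matrix.mul_single_apply_same]
    · intro p _ hp
      rw [Matrix.mul_single_apply_of_ne _ _ _ _ _ hp, zero_mul]
    · intro h
      exact absurd (Finset.mem_univ _) h
  have hsq : m * m = 1 := by
    have h3 : SpecialLinearGroup.transvection h01 s * SpecialLinearGroup.transvection h01 s =
        (1 : SLn n F) := by
      apply Subtype.ext
      change Matrix.transvection i0 i1 s * Matrix.transvection i0 i1 s = 1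
      rw [Matrix.transvection_mul_transvection_same _ _ h01, CharTwo.add_self_eq_zero,
        Matrix.transvection_zero]
    rw [hm]
    have : k⁻¹ * SpecialLinearGroup.transvection h01 s * k *
        (k⁻¹ * SpecialLinearGroup.transvection h01 s * k) =
        k⁻¹ * (SpecialLinearGroup.transvection h01 s *
          SpecialLinearGroup.transvection h01 s) * k := by group
    rw [this, h3, mul_one, inv_mul_cancel]
  have hne : m ≠ 1 := by
    intro h
    have h3 : SpecialLinearGroup.transvection h01 s = k * m * k⁻¹ := by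
      rw [hm]
      group
    rw [h, mul_one, mul_inv_cancel] at h3
    have h4 := congrFun (congrFun (congrArg Subtype.val h3) i0) i1
    rw [triv_transv, if_neg h01, if_pos ⟨rfl, rfl⟩, zero_add, sl_one, Matrix.one_apply_ne h01]
      at h4
    exact hs h4
  have hmoved : ∃ b, σ b ≠ b := by
    by_contra hcon
    push Not at hcon
    apply hne
    apply Subtype.ext
    have hdiag : ∀ i j, i ≠ j → m.1 i j = 0 := by
      intro i j hij
      by_contra h0
      have := hσ i j h0
      rw [hcon] at this
      exact hij this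
    ext i j
    by_cases hij : i = j
    · subst hij
      have h3 := congrFun (congrFun (congrArg Subtype.val hsq) i) i
      rw [sl_mul, sl_one, Matrix.mul_apply, Finset.sum_eq_single i, Matrix.one_apply_eq] at h3
      · rw [sl_one, Matrix.one_apply_eq]
        exact hone _ h3
      · intro k _ hk
        rw [hdiag i k (Ne.symm hk), zero_mul]
      · intro h
        exact absurd (Finset.mem_univ _) h
    · rw [hdiag i j hij, sl_one, Matrix.one_apply_ne hij]
  -- the support of the column `k⁻¹ e_{i0}`
  have hsupp : ∀ l, σ l ≠ l → ∀ i, (k⁻¹).1 i i0 ≠ 0 ↔ (i = l ∨ i = σ l) := by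
    intro l hl i
    have hll : m.1 l l = 0 := by
      by_contra h0
      exact hl (hσ _ _ h0).symm
    have h3 := hm1 l l
    rw [hll, Matrix.one_apply_eq, zero_sub] at h3
    have hk : s * k.1 i1 l ≠ 0 := by
      intro h0
      rw [mul_assoc, h0, mul_zero] at h3
      exact (neg_ne_zero.2 one_ne_zero) h3
    constructor
    · intro hi
      by_contra hcon
      push Not at hcon
      have h4 := hm1 i l
      have h5 : m.1 i l = 0 := by
        by_contra h0
        exact hcon.2 (hσ _ _ h0)
      rw [h5, Matrix.one_apply_ne hcon.1, sub_zero, mul_assoc] at h4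
      rcases mul_eq_zero.1 h4.symm with h6 | h6
      · exact hi h6
      · exact hk h6
    · rintro (rfl | rfl) h0
      · rw [h0, zero_mul, zero_mul] at h3
        exact (neg_ne_zero.2 one_ne_zero) h3
      · have h4 := hm1 (σ l) l
        rw [h0, zero_mul, zero_mul, Matrix.one_apply_ne hl, sub_zero] at h4
        exact mono_perm_ne hσ l h4
  obtain ⟨b, hb⟩ := hmoved
  have hswap : σ = Equiv.swap b (σ b) := by
    have h3 : ∀ l, l ≠ b → l ≠ σ b → σ l = l := by
      intro l h4 h5
      by_contra h6
      have h7 := (hsupp l h6 l).2 (Or.inl rfl)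
      rcases (hsupp b hb l).1 h7 with h8 | h8
      · exact h4 h8
      · exact h5 h8
    have h4 : σ (σ b) = b := by
      have h5 : σ (σ b) ≠ σ b := fun h => hb (σ.injective h)
      have h6 := (hsupp b hb b).2 (Or.inl rfl)
      rcases (hsupp (σ b) h5 b).1 h6 with h7 | h7
      · exact absurd h7.symm hb
      · exact h7.symm
    ext1 l
    by_cases h5 : l = b
    · rw [h5, Equiv.swap_apply_left]
    by_cases h6 : l = σ b
    · rw [h6, Equiv.swap_apply_right, h4]
    · rw [h3 l h5 h6, Equiv.swap_apply_of_ne_of_ne h5 h6]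
  rw [hswap, Equiv.Perm.sign_swap (Ne.symm hb)]

theorem even_index [Finite F] (hF : 3 ≤ Nat.card F) (h2 : CharP F 2) (hn : 2 ≤ n) :
    2 ∣ ((monoSL n F).map (pr n F)).index := by
  by_contra hodd
  set H := (monoSL n F).map (pr n F) with hH
  have hfin : Finite (PSLn n F) := by
    have : Finite (SLn n F) := Finite.of_injective (fun g : SLn n F => g.1) Subtype.val_injective
    exact Finite.of_surjective _ (pr_surjective (n := n) (F := F))
  have h01 : (⟨0, by omega⟩ : Fin n) ≠ ⟨1, by omega⟩ := by simp
  let u : Multiplicative F →* SLn n F := MonoidHom.mk'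
    (fun s => SpecialLinearGroup.transvection h01 (Multiplicative.toAdd s)) (by
      intro a b
      apply Subtype.ext
      change Matrix.transvection _ _ (Multiplicative.toAdd a + Multiplicative.toAdd b) =
        Matrix.transvection _ _ _ * Matrix.transvection _ _ _
      rw [Matrix.transvection_mul_transvection_same _ _ h01])
  have hu : ∀ s : F, u (Multiplicative.ofAdd s) = SpecialLinearGroup.transvection h01 s :=
    fun s => rfl
  letI : MulAction (Multiplicative F) (PSLn n F ⧸ H) :=
    MulAction.compHom _ ((pr n F).comp u)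
  have hp : IsPGroup 2 (Multiplicative F) := by
    intro g
    refine ⟨1, ?_⟩
    rw [pow_one, pow_two]
    apply Multiplicative.toAdd.injective
    change Multiplicative.toAdd g + Multiplicative.toAdd g = 0
    exact CharTwo.add_self_eq_zero _
  have : Fact (Nat.Prime 2) := ⟨Nat.prime_two⟩
  obtain ⟨q, hq⟩ := hp.nonempty_fixed_point_of_prime_not_dvd_card (PSLn n F ⧸ H) hodd
  obtain ⟨k', rfl⟩ := QuotientGroup.mk_surjective q
  obtain ⟨k, rfl⟩ := pr_surjective k'
  have hmem : ∀ s : F, Mono (k⁻¹ * SpecialLinearGroup.transvection h01 s * k : SLn n F).1 := by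
    intro s
    apply mono_of_pr
    have h3 : (((pr n F).comp u) (Multiplicative.ofAdd s)) • (QuotientGroup.mk (pr n F k) :
        PSLn n F ⧸ H) = QuotientGroup.mk (pr n F k) := hq (Multiplicative.ofAdd s)
    have h4 : (QuotientGroup.mk (pr n F (u (Multiplicative.ofAdd s)) * pr n F k) :
        PSLn n F ⧸ H) = QuotientGroup.mk (pr n F k) := h3
    rw [eq_comm, QuotientGroup.eq] at h4
    rw [map_mul, map_mul, map_inv, mul_assoc]
    exact h4
  choose σ hσ using hmem
  have hsign : ∀ s : F, s ≠ 0 → Equiv.Perm.sign (σ s) = -1 := fun s hs =>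
    even_sign h2 h01 hs rfl (hσ s)
  have hmul : ∀ s t : F, σ (s + t) = σ s * σ t := by
    intro s t
    refine mono_perm_unique (hσ (s + t)) ?_
    have h3 : k⁻¹ * SpecialLinearGroup.transvection h01 (s + t) * k =
        (k⁻¹ * SpecialLinearGroup.transvection h01 s * k) *
          (k⁻¹ * SpecialLinearGroup.transvection h01 t * k) := by
      have h4 : SpecialLinearGroup.transvection h01 (s + t) =
          SpecialLinearGroup.transvection h01 s * SpecialLinearGroup.transvection h01 t := by
        rw [← hu, ← hu, ← hu, ← map_mul]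
        rfl
      rw [h4]
      group
    rw [h3]
    exact mono_perm_mul (hσ s) (hσ t)
  classical
  have hcard : ∃ t : F, t ∉ ({0, 1} : Finset F) := exists_not_mem _ (by
    refine lt_of_le_of_lt Finset.card_le_two ?_
    omega)
  obtain ⟨t, ht⟩ := hcard
  simp only [Finset.mem_insert, Finset.mem_singleton, not_or] at ht
  have h1t : 1 + t ≠ 0 := by
    intro h
    apply ht.2
    have h3 : (1 : F) + 1 = 0 := CharTwo.add_self_eq_zero 1
    linear_combination h - h3
  have h3 := hsign (1 + t) h1t
  rw [hmul, map_mul, hsign 1 one_ne_zero, hsign t ht.1] at h3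
  exact absurd h3 (by decide)

end Pool.Agent.Work.MP_bc729a_al.LN
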