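import Pool.Agent.Work.MP_bc729a_al.LN.FrmChar

/-! # Module GraphT (size M): bijections of the flags preserving adjacency

Write `A f g` for `f.p = g.p`, `B f g` for `f.h = g.h`; `A f g ∧ B f g ↔ f = g` (`Flag.ext'`); `f, g` adjacent: `f ≠ g` and
`A f g ∨ B f g`.
PROOF. 1. If `f, g, k` are pairwise distinct and pairwise adjacent then all three pairs are of type `A` or all are
of type `B` (if `A f g` and not `A f k` then `B f k`, and not `A g k`, so `B g k`, so `B f g`, `f = g`).
2. Every flag `f` has an `A`-neighbour and a `B`-neighbour (`n ≥ 3`: there are two hyperplanes through a point,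
two points in a hyperplane; use `atom_iff`, `coatom_iff`, `pt_le_hyp`, or: the quotient by the point, of
dimension `n - 1 ≥ 2`, has two coatoms).
3. Let `β` be as in the statement. For a flag `f`: if `g` is an `A`-neighbour with `A (β f) (β g)`, then for every other
`A`-neighbour `k ≠ g` of `f`: `g, k` are adjacent or equal, so `β f, β g, β k` are pairwise adjacent, so
`A (β f) (β k)` by 1; and for a `B`-neighbour `k` of `f`: `k` is not adjacent to `g` (1) so `β k` is not adjacent to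
`β g`, and `A (β f) (β k)` would give `A (β g) (β k)`, so `B (β f) (β k)`. Call `f` good in this case. Otherwise
(`f` bad) all `A`-neighbours are mapped to `B`-neighbours and all `B`-neighbours to `A`-neighbours.
4. Adjacent flags are both good or both bad (look at the common edge). Any two flags are connected by a
path of adjacent (or equal) flags: `(p, h), (p, k), (q, k), (q, h')` with a hyperplane `k ≥ p ⊔ q`, which exists
since `n ≥ 3` (`p ⊔ q ≠ ⊤`). So all flags are good or all are bad. Good: `A f g ↔ A (β f) (β g)`: (⇒) by 3 (trivial if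
`f = g`), (⇐) `A (β f) (β g)`, `f ≠ g`: `f, g` adjacent, if `B f g` then `B (β f) (β g)`, so `β f = β g`, contradiction. Same
for the other three equivalences. -/

namespace Pool.Agent.Work.MP_bc729a_al.LN

open Matrix

universe u

variable {n : ℕ} {F : Type u} [Field F]

theorem graphT_sep {W : Lat n F} {u : Fin n → F} (hu : u ∉ W) :
    ∃ φ : Fin n → F, (∀ w ∈ W, φ ⬝ᵥ w = 0) ∧ φ ⬝ᵥ u = 1 := by
  obtain ⟨f, hf, hW⟩ := Submodule.exists_le_ker_of_notMem hu
  have key : ∀ w : Fin n → F, (fun i => f (Pi.single i 1)) ⬝ᵥ w = f w := by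
    intro w
    rw [LinearMap.pi_apply_eq_sum_univ f w]
    simp only [dotProduct]
    refine Finset.sum_congr rfl fun i _ => ?_
    rw [smul_eq_mul, mul_comm]
    congr 2
    funext j
    simp [Pi.single_apply, eq_comm]
  refine ⟨(f u)⁻¹ • fun i => f (Pi.single i 1), fun w hw => ?_, ?_⟩
  · rw [smul_dotProduct, key, LinearMap.mem_ker.1 (hW hw), smul_zero]
  · rw [smul_dotProduct, key, smul_eq_mul, inv_mul_cancel₀ hf]

theorem graphT_two (hn : 3 ≤ n) (v x : Fin n → F) :
    ∃ u : Fin n → F, u ∉ Submodule.span F {v, x} := by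
  classical
  by_contra h
  push Not at h
  have h1 : Submodule.span F (({v, x} : Finset (Fin n → F)) : Set (Fin n → F)) = ⊤ := by
    rw [Finset.coe_insert, Finset.coe_singleton]
    exact Submodule.eq_top_iff'.2 h
  have h2 := finrank_span_finset_le_card (R := F) ({v, x} : Finset (Fin n → F))
  unfold Set.finrank at h2
  rw [h1, finrank_top, Module.finrank_fin_fun] at h2
  have h3 : ({v, x} : Finset (Fin n → F)).card ≤ 2 := Finset.card_le_two
  omega

theorem graphT_one {φ : Fin n → F} (hn : 3 ≤ n) (hφ : φ ≠ 0) (v : Fin n → F) :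
    ∃ u : Fin n → F, φ ⬝ᵥ u = 0 ∧ u ∉ pt v := by
  obtain ⟨i, hi⟩ := Function.ne_iff.1 hφ
  have hi' : φ i ≠ 0 := hi
  obtain ⟨x, hx⟩ : ∃ x : Fin n → F, φ ⬝ᵥ x = 1 :=
    ⟨Pi.single i (φ i)⁻¹, by rw [dotProduct_single, mul_inv_cancel₀ hi']⟩
  obtain ⟨u, hu⟩ := graphT_two hn v x
  refine ⟨u - (φ ⬝ᵥ u) • x, ?_, fun hmem => hu ?_⟩
  · rw [dotProduct_sub, dotProduct_smul, hx, smul_eq_mul, mul_one, sub_self]
  · have h1 : u = (u - (φ ⬝ᵥ u) • x) + (φ ⬝ᵥ u) • x := by abel
    rw [h1]
    refine Submodule.add_mem _ ?_ (Submodule.smul_mem _ _ (Submodule.subset_span (by simp)))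
    exact Submodule.span_mono (by simp) hmem

private theorem graphT_abs {X Y Z : Type*} (p : X → Y) (h : X → Z)
    (hext : ∀ f g, p f = p g → h f = h g → f = g)
    (hA : ∀ f, ∃ g, g ≠ f ∧ p g = p f)
    (hconn : ∀ f g, ∃ k l, p f = p k ∧ h k = h l ∧ p l = p g) (β : Equiv.Perm X)
    (hβ : ∀ f g, (p f = p g ∨ h f = h g) ↔ (p (β f) = p (β g) ∨ h (β f) = h (β g))) :
    (∀ f g, (p f = p g ↔ p (β f) = p (β g)) ∧ (h f = h g ↔ h (β f) = h (β g))) ∨
      (∀ f g, (p f = p g ↔ h (β f) = h (β g)) ∧ (h f = h g ↔ p (β f) = p (β g))) := by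
  have L1A : ∀ f g k, f ≠ g → p f = p g → (p f = p k ∨ h f = h k) → (p g = p k ∨ h g = h k) →
      p f = p k := by
    intro f g k hne hfg h1 h2
    rcases h1 with h1 | h1
    · exact h1
    · rcases h2 with h2 | h2
      · exact hfg.trans h2
      · exact absurd (hext f g hfg (h1.trans h2.symm)) hne
  have L1B : ∀ f g k, f ≠ g → h f = h g → (p f = p k ∨ h f = h k) → (p g = p k ∨ h g = h k) →
      h f = h k := by
    intro f g k hne hfg h1 h2
    rcases h1 with h1 | h1
    · rcases h2 with h2 | h2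
      · exact absurd (hext f g (h1.trans h2.symm) hfg) hne
      · exact hfg.trans h2
    · exact h1
  have hdich : ∀ f, ((∀ k, p k = p f → p (β k) = p (β f)) ∧ ∀ k, h k = h f → h (β k) = h (β f)) ∨
      ((∀ k, p k = p f → h (β k) = h (β f)) ∧ ∀ k, h k = h f → p (β k) = p (β f)) := by
    intro f
    obtain ⟨g, hgf, hg⟩ := hA f
    have hne : β f ≠ β g := fun h => hgf (β.injective h).symm
    rcases (hβ f g).1 (Or.inl hg.symm) with h1 | h1
    · left
      refine ⟨fun k hk => ?_, fun k hk => ?_⟩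
      · exact (L1A (β f) (β g) (β k) hne h1 ((hβ f k).1 (Or.inl hk.symm))
          ((hβ g k).1 (Or.inl (hg.trans hk.symm)))).symm
      · by_cases hkf : k = f
        · rw [hkf]
        · rcases (hβ f k).1 (Or.inr hk.symm) with h2 | h2
          · exfalso
            have h3 : p g = p k ∨ h g = h k := (hβ g k).2 (Or.inl (h1.symm.trans h2))
            have h4 := L1A f g k (Ne.symm hgf) hg.symm (Or.inr hk.symm) h3
            exact hkf (hext f k h4 hk.symm).symm
          · exact h2.symm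
    · right
      refine ⟨fun k hk => ?_, fun k hk => ?_⟩
      · exact (L1B (β f) (β g) (β k) hne h1 ((hβ f k).1 (Or.inl hk.symm))
          ((hβ g k).1 (Or.inl (hg.trans hk.symm)))).symm
      · by_cases hkf : k = f
        · rw [hkf]
        · rcases (hβ f k).1 (Or.inr hk.symm) with h2 | h2
          · exact h2.symm
          · exfalso
            have h3 : p g = p k ∨ h g = h k := (hβ g k).2 (Or.inr (h1.symm.trans h2))
            have h4 := L1A f g k (Ne.symm hgf) hg.symm (Or.inr hk.symm) h3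
            exact hkf (hext f k h4 hk.symm).symm
  have hstep : ∀ f g, (p f = p g ∨ h f = h g) →
      ((∀ k, p k = p f → p (β k) = p (β f)) ∧ ∀ k, h k = h f → h (β k) = h (β f)) →
      ((∀ k, p k = p g → p (β k) = p (β g)) ∧ ∀ k, h k = h g → h (β k) = h (β g)) := by
    intro f g hfg hf
    by_cases hne : f = g
    · rw [← hne]
      exact hf
    · rcases hdich g with hg | hg
      · exact hg
      · exfalso
        rcases hfg with h1 | h1
        · exact hne (β.injective (hext _ _ (hf.1 g h1.symm).symm (hg.1 f h1)))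
        · exact hne (β.injective (hext _ _ (hg.2 f h1) (hf.2 g h1.symm).symm))
  by_cases hex : ∃ f, ((∀ k, p k = p f → p (β k) = p (β f)) ∧ ∀ k, h k = h f → h (β k) = h (β f))
  · left
    obtain ⟨f0, hf0⟩ := hex
    have hall : ∀ g, ((∀ k, p k = p g → p (β k) = p (β g)) ∧ ∀ k, h k = h g → h (β k) = h (β g)) := by
      intro g
      obtain ⟨k, l, h1, h2, h3⟩ := hconn f0 g
      exact hstep l g (Or.inl h3) (hstep k l (Or.inr h2) (hstep f0 k (Or.inl h1) hf0))
    intro f g
    refine ⟨⟨fun h1 => (hall f).1 g h1.symm |>.symm, fun h1 => ?_⟩,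
      ⟨fun h1 => (hall f).2 g h1.symm |>.symm, fun h1 => ?_⟩⟩
    · rcases (hβ f g).2 (Or.inl h1) with h2 | h2
      · exact h2
      · have h3 := ((hall f).2 g h2.symm).symm
        rw [β.injective (hext _ _ h1 h3)]
    · rcases (hβ f g).2 (Or.inr h1) with h2 | h2
      · have h3 := ((hall f).1 g h2.symm).symm
        rw [β.injective (hext _ _ h3 h1)]
      · exact h2
  · right
    have hall : ∀ g, ((∀ k, p k = p g → h (β k) = h (β g)) ∧ ∀ k, h k = h g → p (β k) = p (β g)) :=
      fun g => (hdich g).resolve_left fun h => hex ⟨g, h⟩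
    intro f g
    refine ⟨⟨fun h1 => (hall f).1 g h1.symm |>.symm, fun h1 => ?_⟩,
      ⟨fun h1 => (hall f).2 g h1.symm |>.symm, fun h1 => ?_⟩⟩
    · rcases (hβ f g).2 (Or.inr h1) with h2 | h2
      · exact h2
      · have h3 := ((hall f).2 g h2.symm).symm
        rw [β.injective (hext _ _ h3 h1)]
    · rcases (hβ f g).2 (Or.inl h1) with h2 | h2
      · have h3 := ((hall f).1 g h2.symm).symm
        rw [β.injective (hext _ _ h1 h3)]
      · exact h2

theorem graph_type (hn : 3 ≤ n) (β : Equiv.Perm (Flag n F))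
    (h : ∀ f g : Flag n F, (f.p = g.p ∨ f.h = g.h) ↔
      ((β f).p = (β g).p ∨ (β f).h = (β g).h)) :
    (∀ f g : Flag n F, (f.p = g.p ↔ (β f).p = (β g).p) ∧ (f.h = g.h ↔ (β f).h = (β g).h)) ∨
      (∀ f g : Flag n F, (f.p = g.p ↔ (β f).h = (β g).h) ∧ (f.h = g.h ↔ (β f).p = (β g).p)) := by
  refine graphT_abs (fun f : Flag n F => f.p) (fun f : Flag n F => f.h)
    (fun f g h1 h2 => Flag.ext' h1 h2) ?_ ?_ β h
  · intro f
    obtain ⟨v, hv, hpv⟩ := atom_iff.1 f.hp
    obtain ⟨φ, hφ, hhφ⟩ := coatom_iff.1 f.hh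
    obtain ⟨u, hu0, hu⟩ := graphT_one hn hφ v
    obtain ⟨ψ, hψ1, hψ2⟩ := graphT_sep hu
    have hψ0 : ψ ≠ 0 := by
      rintro rfl
      rw [zero_dotProduct] at hψ2
      exact zero_ne_one hψ2
    refine ⟨⟨f.p, hyp ψ, f.hp, coatom_iff.2 ⟨ψ, hψ0, rfl⟩, ?_⟩, ?_, rfl⟩
    · rw [hpv, pt_le_hyp]
      exact hψ1 v (Submodule.mem_span_singleton_self v)
    · intro hEq
      have h1 : hyp ψ = f.h := congrArg Flag.h hEq
      have h2 : u ∈ hyp ψ := by
        rw [h1, hhφ]
        exact hu0
      rw [mem_hyp, hψ2] at h2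
      exact one_ne_zero h2
  · intro f g
    obtain ⟨v, hv, hpv⟩ := atom_iff.1 f.hp
    obtain ⟨w, hw, hpw⟩ := atom_iff.1 g.hp
    obtain ⟨u, hu⟩ := graphT_two hn v w
    obtain ⟨ψ, hψ1, hψ2⟩ := graphT_sep hu
    have hψ0 : ψ ≠ 0 := by
      rintro rfl
      rw [zero_dotProduct] at hψ2
      exact zero_ne_one hψ2
    refine ⟨⟨f.p, hyp ψ, f.hp, coatom_iff.2 ⟨ψ, hψ0, rfl⟩, ?_⟩,
      ⟨g.p, hyp ψ, g.hp, coatom_iff.2 ⟨ψ, hψ0, rfl⟩, ?_⟩, rfl, rfl, rfl⟩
    · rw [hpv, pt_le_hyp]
      exact hψ1 v (Submodule.subset_span (by simp))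
    · rw [hpw, pt_le_hyp]
      exact hψ1 w (Submodule.subset_span (by simp))

end Pool.Agent.Work.MP_bc729a_al.LN
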