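import Pool.Agent.Work.MP_bc729a_al.LN.XTchar
import Pool.Agent.Work.MP_bc729a_al.LN.GraphT

/-! # Module Adj (size M): adjacency of flags in terms of the groups `XP`

PROOF. Write `f = (pt v, hyp φ)`, `f' = (pt v', hyp φ')` (`flag_vec`). Elements of `XP f` are `pr (1 + c v φ)` (`mem_XT_iff`).
(⇒) Same point: we may take `v' = v`: `(1 + c v φ)(1 + c' v φ') = 1 + v (c φ + c' φ')` (`φ ⬝ v = 0`). If
`ψ = c φ + c' φ' ≠ 0` it is in `XP` of the flag of `(v, ψ)` (`exists_flag`, `ψ ⬝ v = 0`); if `ψ = 0` the product is `1`, in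
`XP f`. Same hyperplane: `φ' = φ`, the product is `1 + (c v + c' v') φ`, same argument.
(⇐) Suppose `f.p ≠ f'.p`, `f.h ≠ f'.h`: `v, v'` linearly independent and `φ, φ'` linearly independent. Let
`x = 1 + v φ`, `y = 1 + v' φ'` (`exists_XT`), `x y = 1 + v (φ + (φ ⬝ v') φ') + v' φ'`. If `pr x * pr y = pr z` with
`z = 1 + c v'' φ''`, `φ'' ⬝ v'' = 0`, then `x y = r • z` for a scalar `r` (`pr_eq_iff`). As `n ≥ 3` there is `w ≠ 0` with
`φ ⬝ w = 0 = φ' ⬝ w`, so `x y w = w` and `z w = r⁻¹ w`; `(z - 1)^2 = 0` gives `r = 1`. So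
`v (φ + (φ⬝v') φ') + v' φ' = c v'' φ''`. Choose `w1` with `φ' ⬝ w1 = 0`, `φ ⬝ w1 = 1` and `w2` with `φ' ⬝ w2 = 1`,
`φ ⬝ w2 = -(φ ⬝ v')` (independence of `φ, φ'`): apply both sides: `v = c (φ'' ⬝ w1) v''` and `v' = c (φ'' ⬝ w2) v''`:
`v, v'` dependent, contradiction. -/

namespace Pool.Agent.Work.MP_bc729a_al.LN

open Matrix

universe u

variable {n : ℕ} {F : Type u} [Field F]

private theorem adj_mem {f : Flag n F} {v φ : Fin n → F} (hv : v ≠ 0) (hφ : φ ≠ 0)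
    (hp : f.p = pt v) (hh : f.h = hyp φ) {x : PSLn n F} :
    x ∈ XP f ↔ ∃ g : SLn n F, pr n F g = x ∧ ∃ c : F, g.1 = 1 + c • vecMulVec v φ := by
  unfold XP
  rw [Subgroup.mem_map, hp, hh]
  constructor
  · rintro ⟨g, hg, rfl⟩
    exact ⟨g, rfl, (mem_XT_iff hv hφ).1 hg⟩
  · rintro ⟨g, rfl, hg⟩
    exact ⟨g, (mem_XT_iff hv hφ).2 hg, rfl⟩

private theorem adj_one (f : Flag n F) : (1 : PSLn n F) ∈ XP f := (XP f).one_mem

private theorem adj_same_p (f f' : Flag n F) (h : f.p = f'.p) :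
    ∀ x ∈ XP f, ∀ y ∈ XP f', ∃ f'' : Flag n F, x * y ∈ XP f'' := by
  intro x hx y hy
  obtain ⟨v, φ, hv, hφ, hφv, hp, hh⟩ := flag_vec f
  obtain ⟨φ', hφ', hh'⟩ := coatom_iff.1 f'.hh
  have hp' : f'.p = pt v := h.symm.trans hp
  have hφv' : φ' ⬝ᵥ v = 0 := by
    rw [← pt_le_hyp, ← hp', ← hh']
    exact f'.le
  obtain ⟨g, rfl, c, hg⟩ := (adj_mem hv hφ hp hh).1 hx
  obtain ⟨g', rfl, c', hg'⟩ := (adj_mem hv hφ' hp' hh').1 hy
  rw [← map_mul]
  have hprod : (g * g').1 = 1 + (1 : F) • vecMulVec v (c • φ + c' • φ') := by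
    refine xt_ext fun w => ?_
    rw [sl_mul, ← Matrix.mulVec_mulVec, hg, hg', xt_mulVec, xt_mulVec, xt_mulVec]
    rw [dotProduct_add, dotProduct_smul, hφv, add_dotProduct, smul_dotProduct, smul_dotProduct]
    simp only [smul_eq_mul, mul_zero, add_zero, one_mul]
    module
  by_cases hψ : c • φ + c' • φ' = 0
  · refine ⟨f, ?_⟩
    have h1 : g * g' = 1 := by
      apply Subtype.ext
      rw [hprod, hψ]
      simp [vecMulVec]
      rfl
    rw [h1, map_one]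
    exact adj_one f
  · obtain ⟨f'', h1, h2⟩ := exists_flag hv hψ (by
      rw [add_dotProduct, smul_dotProduct, smul_dotProduct, hφv, hφv', smul_zero, smul_zero,
        add_zero])
    exact ⟨f'', (adj_mem hv hψ h1 h2).2 ⟨_, rfl, 1, hprod⟩⟩

private theorem adj_same_h (f f' : Flag n F) (h : f.h = f'.h) :
    ∀ x ∈ XP f, ∀ y ∈ XP f', ∃ f'' : Flag n F, x * y ∈ XP f'' := by
  intro x hx y hy
  obtain ⟨v, φ, hv, hφ, hφv, hp, hh⟩ := flag_vec f
  obtain ⟨v', hv', hp'⟩ := atom_iff.1 f'.hp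
  have hh' : f'.h = hyp φ := h.symm.trans hh
  have hφv' : φ ⬝ᵥ v' = 0 := by
    rw [← pt_le_hyp, ← hp', ← hh']
    exact f'.le
  obtain ⟨g, rfl, c, hg⟩ := (adj_mem hv hφ hp hh).1 hx
  obtain ⟨g', rfl, c', hg'⟩ := (adj_mem hv' hφ hp' hh').1 hy
  rw [← map_mul]
  have hprod : (g * g').1 = 1 + (1 : F) • vecMulVec (c • v + c' • v') φ := by
    refine xt_ext fun w => ?_
    rw [sl_mul, ← Matrix.mulVec_mulVec, hg, hg', xt_mulVec, xt_mulVec, xt_mulVec]
    rw [dotProduct_add, dotProduct_smul, hφv']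
    simp only [smul_eq_mul, mul_zero, add_zero, one_mul]
    module
  by_cases hψ : c • v + c' • v' = 0
  · refine ⟨f, ?_⟩
    have h1 : g * g' = 1 := by
      apply Subtype.ext
      rw [hprod, hψ]
      simp [vecMulVec]
      rfl
    rw [h1, map_one]
    exact adj_one f
  · obtain ⟨f'', h1, h2⟩ := exists_flag hψ hφ (by
      rw [dotProduct_add, dotProduct_smul, dotProduct_smul, hφv, hφv', smul_zero, smul_zero,
        add_zero])
    exact ⟨f'', (adj_mem hψ hφ h1 h2).2 ⟨_, rfl, 1, hprod⟩⟩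

private theorem adj_converse (hn : 3 ≤ n) (f f' : Flag n F)
    (H : ∀ x ∈ XP f, ∀ y ∈ XP f', ∃ f'' : Flag n F, x * y ∈ XP f'') :
    f.p = f'.p ∨ f.h = f'.h := by
  by_contra hcon
  push Not at hcon
  obtain ⟨hne1, hne2⟩ := hcon
  obtain ⟨v, φ, hv, hφ, hφv, hp, hh⟩ := flag_vec f
  obtain ⟨v', φ', hv', hφ', hφv', hp', hh'⟩ := flag_vec f'
  obtain ⟨g, hg⟩ := exists_XT hφv 1
  obtain ⟨g', hg'⟩ := exists_XT hφv' 1
  obtain ⟨f'', hf''⟩ := H _ ((adj_mem hv hφ hp hh).2 ⟨g, rfl, 1, hg⟩) _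
    ((adj_mem hv' hφ' hp' hh').2 ⟨g', rfl, 1, hg'⟩)
  obtain ⟨v'', φ'', hv'', hφ'', hφv'', hp'', hh''⟩ := flag_vec f''
  obtain ⟨z, hz1, c, hz2⟩ := (adj_mem hv'' hφ'' hp'' hh'').1 hf''
  rw [← map_mul] at hz1
  obtain ⟨r, -, hr⟩ := pr_eq_iff.1 hz1.symm
  -- vectors killed by both functionals
  obtain ⟨u, hu⟩ := graphT_two hn φ φ'
  obtain ⟨w, hw1, hw2⟩ := graphT_sep hu
  have hw0 : w ≠ 0 := by
    rintro rfl
    rw [zero_dotProduct] at hw2
    exact zero_ne_one hw2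
  have hwφ : φ ⬝ᵥ w = 0 := by
    rw [dotProduct_comm]
    exact hw1 φ (Submodule.subset_span (by simp))
  have hwφ' : φ' ⬝ᵥ w = 0 := by
    rw [dotProduct_comm]
    exact hw1 φ' (Submodule.subset_span (by simp))
  have hgg : ∀ t, (g * g').1 *ᵥ t =
      t + (φ' ⬝ᵥ t) • v' + (φ ⬝ᵥ t + (φ' ⬝ᵥ t) * (φ ⬝ᵥ v')) • v := by
    intro t
    rw [sl_mul, ← Matrix.mulVec_mulVec, hg, hg', xt_mulVec, xt_mulVec, dotProduct_add,
      dotProduct_smul]
    simp only [smul_eq_mul, one_mul]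
  have hzz : ∀ t, r • (t + (c * (φ'' ⬝ᵥ t)) • v'') =
      t + (φ' ⬝ᵥ t) • v' + (φ ⬝ᵥ t + (φ' ⬝ᵥ t) * (φ ⬝ᵥ v')) • v := by
    intro t
    rw [← hgg, hr, Matrix.smul_mulVec, hz2, xt_mulVec]
  have hr1 : r = 1 := by
    have h1 := hzz w
    rw [hwφ, hwφ', zero_smul, zero_mul, add_zero, add_zero, zero_smul, add_zero] at h1
    by_cases h2 : c * (φ'' ⬝ᵥ w) = 0
    · rw [h2, zero_smul, add_zero] at h1
      have h3 : (r - 1) • w = 0 := by
        rw [sub_smul, one_smul, h1, sub_self]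
      rcases smul_eq_zero.1 h3 with h4 | h4
      · exact sub_eq_zero.1 h4
      · exact absurd h4 hw0
    · exfalso
      have h3 : φ'' ⬝ᵥ w ≠ 0 := fun h => h2 (by rw [h, mul_zero])
      have h4 := congrArg (fun s => φ'' ⬝ᵥ s) h1
      simp only [dotProduct_smul, dotProduct_add, hφv'', smul_eq_mul, mul_zero, add_zero] at h4
      have h5 : r = 1 := by
        have : (r - 1) * (φ'' ⬝ᵥ w) = 0 := by linear_combination h4
        rcases mul_eq_zero.1 this with h6 | h6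
        · exact sub_eq_zero.1 h6
        · exact absurd h6 h3
      rw [h5, one_smul, add_eq_left] at h1
      rcases smul_eq_zero.1 h1 with h6 | h6
      · exact h2 h6
      · exact hv'' h6
  have hzz' : ∀ t, (c * (φ'' ⬝ᵥ t)) • v'' =
      (φ' ⬝ᵥ t) • v' + (φ ⬝ᵥ t + (φ' ⬝ᵥ t) * (φ ⬝ᵥ v')) • v := by
    intro t
    have h1 := hzz t
    rw [hr1, one_smul, add_assoc] at h1
    exact add_left_cancel h1
  -- a vector in the kernel of φ' only
  obtain ⟨w1, hw11, hw12⟩ : ∃ w1, φ' ⬝ᵥ w1 = 0 ∧ φ ⬝ᵥ w1 ≠ 0 := by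
    by_contra hno
    push Not at hno
    have hle : f'.h ≤ f.h := by
      rw [hh, hh']
      intro t ht
      exact hno t ht
    rcases f'.hh.le_iff.1 hle with h1 | h1
    · exact f.hh.1 h1
    · exact hne2 h1
  have h1 := hzz' w1
  rw [hw11, zero_smul, zero_add, zero_mul, add_zero] at h1
  have hvv : v'' ∈ pt v := by
    have h2 : c * (φ'' ⬝ᵥ w1) ≠ 0 := by
      intro h0
      rw [h0, zero_smul] at h1
      rcases smul_eq_zero.1 h1.symm with h3 | h3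
      · exact hw12 h3
      · exact hv h3
    have h3 : v'' = ((c * (φ'' ⬝ᵥ w1))⁻¹ * (φ ⬝ᵥ w1)) • v := by
      rw [mul_smul, ← h1, smul_smul, inv_mul_cancel₀ h2, one_smul]
    rw [h3]
    exact Submodule.smul_mem _ _ (Submodule.mem_span_singleton_self v)
  obtain ⟨w2, hw2'⟩ := exists_dual hφ'
  have h2 := hzz' w2
  rw [hw2', one_smul, one_mul] at h2
  have h3 : v' ∈ pt v := by
    have h4 : v' = (c * (φ'' ⬝ᵥ w2)) • v'' - (φ ⬝ᵥ w2 + φ ⬝ᵥ v') • v := by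
      rw [h2, add_sub_cancel_right]
    rw [h4]
    exact Submodule.sub_mem _ (Submodule.smul_mem _ _ hvv)
      (Submodule.smul_mem _ _ (Submodule.mem_span_singleton_self v))
  have h4 : f'.p ≤ f.p := by
    rw [hp, hp']
    exact (Submodule.span_singleton_le_iff_mem _ _).2 h3
  rcases f.hp.le_iff.1 h4 with h5 | h5
  · exact f'.hp.1 h5
  · exact hne1 h5.symm

theorem adj_iff (hn : 3 ≤ n) (f f' : Flag n F) : (f.p = f'.p ∨ f.h = f'.h) ↔
    ∀ x ∈ XP f, ∀ y ∈ XP f', ∃ f'' : Flag n F, x * y ∈ XP f'' := by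
  constructor
  · rintro (h | h)
    · exact adj_same_p f f' h
    · exact adj_same_h f f' h
  · exact adj_converse hn f f'

end Pool.Agent.Work.MP_bc729a_al.LN
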