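import Mathlib

/-! # A lattice is determined by the incidence of atoms and coatoms -/

namespace Pool.Agent.Work.MP_bc729a_al.LN

universe u v

/-- the sup of the images of the atoms below `U` -/
noncomputable def latCl {L : Type u} {M : Type v} [CompleteLattice L] [CompleteLattice M]
    (a : {x : L // IsAtom x} ≃ {y : M // IsAtom y}) (U : L) : M :=
  sSup {y | ∃ x : {x : L // IsAtom x}, (x : L) ≤ U ∧ (a x : M) = y}

theorem latCl_le {L : Type u} {M : Type v} [CompleteLattice L] [CompleteLattice M]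
    (hLc : ∀ U : L, U = sInf {z | IsCoatom z ∧ U ≤ z})
    (a : {x : L // IsAtom x} ≃ {y : M // IsAtom y})
    (c : {x : L // IsCoatom x} ≃ {y : M // IsCoatom y})
    (h : ∀ (x : {x : L // IsAtom x}) (z : {x : L // IsCoatom x}),
      (x : L) ≤ z ↔ (a x : M) ≤ c z)
    (U : L) (x : {x : L // IsAtom x}) : (a x : M) ≤ latCl a U ↔ (x : L) ≤ U := by
  constructor
  · intro hx
    rw [hLc U]
    refine le_sInf fun z hz => ?_
    obtain ⟨hz1, hz2⟩ := hz
    have h1 : latCl a U ≤ c ⟨z, hz1⟩ := by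
      refine sSup_le ?_
      rintro y ⟨x', hx', rfl⟩
      exact (h x' ⟨z, hz1⟩).1 (hx'.trans hz2)
    exact (h x ⟨z, hz1⟩).2 (hx.trans h1)
  · intro hx
    exact le_sSup ⟨x, hx, rfl⟩

theorem latCl_mono {L : Type u} {M : Type v} [CompleteLattice L] [CompleteLattice M]
    (hLa : ∀ U : L, U = sSup {x | IsAtom x ∧ x ≤ U})
    (hLc : ∀ U : L, U = sInf {z | IsCoatom z ∧ U ≤ z})
    (a : {x : L // IsAtom x} ≃ {y : M // IsAtom y})
    (c : {x : L // IsCoatom x} ≃ {y : M // IsCoatom y})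
    (h : ∀ (x : {x : L // IsAtom x}) (z : {x : L // IsCoatom x}),
      (x : L) ≤ z ↔ (a x : M) ≤ c z)
    (U U' : L) : latCl a U ≤ latCl a U' ↔ U ≤ U' := by
  constructor
  · intro hUU
    rw [hLa U]
    refine sSup_le ?_
    rintro x ⟨hx1, hx2⟩
    exact (latCl_le hLc a c h U' ⟨x, hx1⟩).1
      (((latCl_le hLc a c h U ⟨x, hx1⟩).2 hx2).trans hUU)
  · intro hUU
    refine sSup_le ?_
    rintro y ⟨x, hx, rfl⟩
    exact le_sSup ⟨x, hx.trans hUU, rfl⟩

theorem exists_orderIso {L : Type u} {M : Type v} [CompleteLattice L] [CompleteLattice M]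
    (hLa : ∀ U : L, U = sSup {x | IsAtom x ∧ x ≤ U}) (hMa : ∀ U : M, U = sSup {x | IsAtom x ∧ x ≤ U})
    (hLc : ∀ U : L, U = sInf {z | IsCoatom z ∧ U ≤ z}) (hMc : ∀ U : M, U = sInf {z | IsCoatom z ∧ U ≤ z})
    (a : {x : L // IsAtom x} ≃ {y : M // IsAtom y})
    (c : {x : L // IsCoatom x} ≃ {y : M // IsCoatom y})
    (h : ∀ (x : {x : L // IsAtom x}) (z : {x : L // IsCoatom x}),
      (x : L) ≤ z ↔ (a x : M) ≤ c z) :
    ∃ σ : L ≃o M, (∀ x : {x : L // IsAtom x}, σ x = a x) ∧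
      ∀ z : {x : L // IsCoatom x}, σ z = c z := by
  have h' : ∀ (y : {x : M // IsAtom x}) (z : {x : M // IsCoatom x}),
      (y : M) ≤ z ↔ (a.symm y : L) ≤ c.symm z := by
    intro y z
    have := h (a.symm y) (c.symm z)
    rw [a.apply_symm_apply, c.apply_symm_apply] at this
    exact this.symm
  have hatomM : ∀ Y Y' : M, (∀ x : {x : L // IsAtom x}, (a x : M) ≤ Y ↔ (a x : M) ≤ Y') → Y = Y' := by
    intro Y Y' hY
    rw [hMa Y, hMa Y']
    congr 1
    ext y
    constructor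
    · rintro ⟨hy1, hy2⟩
      refine ⟨hy1, ?_⟩
      have := hY (a.symm ⟨y, hy1⟩)
      rw [a.apply_symm_apply] at this
      exact this.1 hy2
    · rintro ⟨hy1, hy2⟩
      refine ⟨hy1, ?_⟩
      have := hY (a.symm ⟨y, hy1⟩)
      rw [a.apply_symm_apply] at this
      exact this.2 hy2
  have hatomL : ∀ Y Y' : L, (∀ x : {x : L // IsAtom x}, (x : L) ≤ Y ↔ (x : L) ≤ Y') → Y = Y' := by
    intro Y Y' hY
    rw [hLa Y, hLa Y']
    congr 1
    ext y
    exact ⟨fun ⟨h1, h2⟩ => ⟨h1, (hY ⟨y, h1⟩).1 h2⟩, fun ⟨h1, h2⟩ => ⟨h1, (hY ⟨y, h1⟩).2 h2⟩⟩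
  have key := latCl_le hLc a c h
  have key' := latCl_le hMc a.symm c.symm h'
  let σ : L ≃o M :=
    { toFun := latCl a
      invFun := latCl a.symm
      left_inv := by
        intro U
        refine hatomL _ _ fun x => ?_
        have h1 := key' (latCl a U) (a x)
        rw [a.symm_apply_apply] at h1
        rw [h1, key]
      right_inv := by
        intro Y
        refine hatomM _ _ fun x => ?_
        rw [key]
        have h1 := key' Y (a x)
        rw [a.symm_apply_apply] at h1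
        rw [h1]
      map_rel_iff' := by
        intro U U'
        exact latCl_mono hLa hLc a c h U U' }
  have hσ : ∀ (U : L) (x : {x : L // IsAtom x}), (a x : M) ≤ σ U ↔ (x : L) ≤ U := key
  refine ⟨σ, ?_, ?_⟩
  · intro x
    have h1 : IsAtom (σ x) := (OrderIso.isAtom_iff σ _).2 x.2
    have h2 : (a x : M) ≤ σ x := (hσ x x).2 le_rfl
    rcases h1.le_iff.1 h2 with h3 | h3
    · exact absurd h3 (a x).2.1
    · exact h3.symm
  · intro z
    refine hatomM _ _ fun x => ?_
    rw [hσ, h]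

end Pool.Agent.Work.MP_bc729a_al.LN
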