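import Pool.Agent.Work.MP_bc729a_al.LN.FrmChar
import Pool.Agent.Work.MP_bc729a_al.LN.LatIso

/-! # Module TypeP (size M): type preserving and type reversing bijections of the flags

PROOF. `lat_atoms`, `lat_coatoms`: a subspace is the sup of the lines in it (`IsAtomistic`), and the inf of the
hyperplanes containing it (if `v ∉ U` there is a functional vanishing on `U` and not at `v`; with `coatom_iff`).
`typeP`: every atom `p` is the point of a flag (`n ≥ 2`), define `a p = (β f).p` for any flag `f` with `f.p = p` (well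
defined and injective by `h`), surjective: for an atom `q` take a flag `g` with `g.p = q`, `p = (β.symm g).p`. In the
same way `c` on coatoms. Incidence: if `p ≤ z` then `f = (p, z)` is a flag and `(β f).p = a p`, `(β f).h = c z`, so
`a p ≤ c z`; the converse with `β.symm` (it satisfies the same hypothesis). `exists_orderIso` gives `σ` with
`σ f.p = (β f).p`, `σ f.h = (β f).h`.
`typeR`: the same with `M = (Lat n F)ᵒᵈ`: `a p = toDual (β f).h` for `f.p = p` (a coatom of `Lat n F` is an atom of the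
dual) and `c z = toDual (β f).p` for `f.h = z`. -/

namespace Pool.Agent.Work.MP_bc729a_al.LN

open Matrix OrderDual

universe u

variable {n : ℕ} {F : Type u} [Field F]

theorem lat_atoms (U : Lat n F) : U = sSup {x | IsAtom x ∧ x ≤ U} :=
  (sSup_atoms_le_eq U).symm

private theorem typeP_sep {W : Lat n F} {u : Fin n → F} (hu : u ∉ W) :
    ∃ φ : Fin n → F, (∀ w ∈ W, φ ⬝ᵥ w = 0) ∧ φ ⬝ᵥ u = 1 := by
  obtain ⟨f, hf, hW⟩ := Submodule.exists_le_ker_of_notMem hu
  have key : ∀ w : Fin n → F, (fun i => f (Pi.single i 1)) ⬝ᵥ w = f w := by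
    intro w
    rw [LinearMap.pi_apply_eq_sum_univ f w]
    simp only [dotProduct]
    refine Finset.sum_congr rfl fun i _ => ?_
    rw [smul_eq_mul, mul_comm]
    congr 2
    funext j
    simp [Pi.single_apply, eq_comm]
  refine ⟨(f u)⁻¹ • fun i => f (Pi.single i 1), fun w hw => ?_, ?_⟩
  · rw [smul_dotProduct, key, LinearMap.mem_ker.1 (hW hw), smul_zero]
  · rw [smul_dotProduct, key, smul_eq_mul, inv_mul_cancel₀ hf]

private theorem typeP_ne {φ u : Fin n → F} (h : φ ⬝ᵥ u = 1) : φ ≠ 0 := by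
  rintro rfl
  rw [zero_dotProduct] at h
  exact zero_ne_one h

theorem lat_coatoms (U : Lat n F) : U = sInf {z | IsCoatom z ∧ U ≤ z} := by
  refine le_antisymm (le_sInf fun z hz => hz.2) ?_
  intro v hv
  by_contra hvU
  obtain ⟨φ, h1, h2⟩ := typeP_sep hvU
  have h3 : v ∈ hyp φ := (Submodule.mem_sInf.1 hv) (hyp φ)
    ⟨coatom_iff.2 ⟨φ, typeP_ne h2, rfl⟩, fun w hw => h1 w hw⟩
  rw [mem_hyp, h2] at h3
  exact one_ne_zero h3

private theorem typeP_one (hn : 2 ≤ n) (v : Fin n → F) : ∃ u : Fin n → F, u ∉ pt v := by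
  classical
  by_contra h
  push Not at h
  have h1 : Submodule.span F (({v} : Finset (Fin n → F)) : Set (Fin n → F)) = ⊤ := by
    rw [Finset.coe_singleton]
    exact Submodule.eq_top_iff'.2 h
  have h2 := finrank_span_finset_le_card (R := F) ({v} : Finset (Fin n → F))
  unfold Set.finrank at h2
  rw [h1, finrank_top, Module.finrank_fin_fun, Finset.card_singleton] at h2
  omega

theorem typeP_flag_p (hn : 2 ≤ n) (x : Lat n F) (hx : IsAtom x) : ∃ f : Flag n F, f.p = x := by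
  obtain ⟨v, hv, rfl⟩ := atom_iff.1 hx
  obtain ⟨u, hu⟩ := typeP_one hn v
  obtain ⟨φ, h1, h2⟩ := typeP_sep hu
  exact ⟨⟨pt v, hyp φ, hx, coatom_iff.2 ⟨φ, typeP_ne h2, rfl⟩,
    pt_le_hyp.2 (h1 v (Submodule.mem_span_singleton_self v))⟩, rfl⟩

theorem typeP_flag_h (hn : 2 ≤ n) (z : Lat n F) (hz : IsCoatom z) : ∃ f : Flag n F, f.h = z := by
  obtain ⟨φ, hφ, rfl⟩ := coatom_iff.1 hz
  obtain ⟨i, hi⟩ := Function.ne_iff.1 hφ
  have hi' : φ i ≠ 0 := hi
  obtain ⟨x, hx⟩ : ∃ x : Fin n → F, φ ⬝ᵥ x = 1 :=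
    ⟨Pi.single i (φ i)⁻¹, by rw [dotProduct_single, mul_inv_cancel₀ hi']⟩
  obtain ⟨u, hu⟩ := typeP_one hn x
  have h1 : φ ⬝ᵥ (u - (φ ⬝ᵥ u) • x) = 0 := by
    rw [dotProduct_sub, dotProduct_smul, hx, smul_eq_mul, mul_one, sub_self]
  have h2 : u - (φ ⬝ᵥ u) • x ≠ 0 := by
    intro h0
    apply hu
    rw [sub_eq_zero.1 h0]
    exact Submodule.smul_mem _ _ (Submodule.mem_span_singleton_self x)
  exact ⟨⟨pt (u - (φ ⬝ᵥ u) • x), hyp φ, atom_iff.2 ⟨_, h2, rfl⟩, hz, pt_le_hyp.2 h1⟩, rfl⟩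

private theorem typeP_abs (hn : 2 ≤ n) {M : Type u} [CompleteLattice M]
    (hMa : ∀ U : M, U = sSup {x | IsAtom x ∧ x ≤ U})
    (hMc : ∀ U : M, U = sInf {z | IsCoatom z ∧ U ≤ z})
    (P H : Flag n F → M) (hP : ∀ f, IsAtom (P f)) (hH : ∀ f, IsCoatom (H f))
    (hPH : ∀ f, P f ≤ H f) (h1 : ∀ f g : Flag n F, f.p = g.p ↔ P f = P g)
    (h2 : ∀ f g : Flag n F, f.h = g.h ↔ H f = H g)
    (hM1 : ∀ y, IsAtom y → ∃ f, P f = y) (hM2 : ∀ w, IsCoatom w → ∃ f, H f = w)
    (hM3 : ∀ y w, IsAtom y → IsCoatom w → y ≤ w → ∃ f, P f = y ∧ H f = w) :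
    ∃ σ : Lat n F ≃o M, ∀ f : Flag n F, σ f.p = P f ∧ σ f.h = H f := by
  choose Fp hFp using typeP_flag_p (F := F) hn
  choose Fh hFh using typeP_flag_h (F := F) hn
  let a : {x : Lat n F // IsAtom x} ≃ {y : M // IsAtom y} :=
    Equiv.ofBijective (fun x => ⟨P (Fp x.1 x.2), hP _⟩) (by
      constructor
      · intro x y hxy
        have h3 : P (Fp x.1 x.2) = P (Fp y.1 y.2) := congrArg Subtype.val hxy
        have h4 := (h1 _ _).2 h3
        rw [hFp, hFp] at h4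
        exact Subtype.ext h4
      · rintro ⟨y, hy⟩
        obtain ⟨f, hf⟩ := hM1 y hy
        refine ⟨⟨f.p, f.hp⟩, Subtype.ext ?_⟩
        change P (Fp f.p f.hp) = y
        rw [← hf]
        exact (h1 _ _).1 (hFp _ _))
  let c : {x : Lat n F // IsCoatom x} ≃ {y : M // IsCoatom y} :=
    Equiv.ofBijective (fun x => ⟨H (Fh x.1 x.2), hH _⟩) (by
      constructor
      · intro x y hxy
        have h3 : H (Fh x.1 x.2) = H (Fh y.1 y.2) := congrArg Subtype.val hxy
        have h4 := (h2 _ _).2 h3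
        rw [hFh, hFh] at h4
        exact Subtype.ext h4
      · rintro ⟨y, hy⟩
        obtain ⟨f, hf⟩ := hM2 y hy
        refine ⟨⟨f.h, f.hh⟩, Subtype.ext ?_⟩
        change H (Fh f.h f.hh) = y
        rw [← hf]
        exact (h2 _ _).1 (hFh _ _))
  have ha : ∀ f : Flag n F, (a ⟨f.p, f.hp⟩ : M) = P f := fun f => (h1 _ _).1 (hFp _ _)
  have hc : ∀ f : Flag n F, (c ⟨f.h, f.hh⟩ : M) = H f := fun f => (h2 _ _).1 (hFh _ _)
  obtain ⟨σ, hσ1, hσ2⟩ := exists_orderIso (L := Lat n F) (M := M) lat_atoms hMa lat_coatoms hMc a c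
    (by
      rintro ⟨x, hx⟩ ⟨z, hz⟩
      constructor
      · intro hxz
        have h3 : x ≤ z := hxz
        have h4 := hPH ⟨x, z, hx, hz, h3⟩
        rw [← ha, ← hc] at h4
        exact h4
      · intro hxz
        obtain ⟨f, hf1, hf2⟩ := hM3 _ _ (a ⟨x, hx⟩).2 (c ⟨z, hz⟩).2 hxz
        have h5 : f.p = (Fp x hx).p := (h1 _ _).2 hf1
        have h6 : f.h = (Fh z hz).h := (h2 _ _).2 hf2
        rw [hFp] at h5
        rw [hFh] at h6
        have h7 := f.le
        rw [h5, h6] at h7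
        exact h7)
  refine ⟨σ, fun f => ⟨?_, ?_⟩⟩
  · rw [← ha]
    exact hσ1 ⟨f.p, f.hp⟩
  · rw [← hc]
    exact hσ2 ⟨f.h, f.hh⟩

theorem typeP (hn : 2 ≤ n) (β : Equiv.Perm (Flag n F))
    (h : ∀ f g : Flag n F, (f.p = g.p ↔ (β f).p = (β g).p) ∧ (f.h = g.h ↔ (β f).h = (β g).h)) :
    ∃ σ : Lat n F ≃o Lat n F, ∀ f, β f = f.map σ := by
  obtain ⟨σ, hσ⟩ := typeP_abs (F := F) hn lat_atoms lat_coatoms (fun f => (β f).p)
    (fun f => (β f).h) (fun f => (β f).hp) (fun f => (β f).hh) (fun f => (β f).le)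
    (fun f g => (h f g).1) (fun f g => (h f g).2)
    (fun y hy => by
      obtain ⟨g, hg⟩ := typeP_flag_p hn y hy
      exact ⟨β.symm g, by simp only [Equiv.apply_symm_apply]; exact hg⟩)
    (fun y hy => by
      obtain ⟨g, hg⟩ := typeP_flag_h hn y hy
      exact ⟨β.symm g, by simp only [Equiv.apply_symm_apply]; exact hg⟩)
    (fun y w hy hw hyw => ⟨β.symm ⟨y, w, hy, hw, hyw⟩, by simp, by simp⟩)
  exact ⟨σ, fun f => Flag.ext' (hσ f).1.symm (hσ f).2.symm⟩

theorem typeR (hn : 2 ≤ n) (β : Equiv.Perm (Flag n F))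
    (h : ∀ f g : Flag n F, (f.p = g.p ↔ (β f).h = (β g).h) ∧ (f.h = g.h ↔ (β f).p = (β g).p)) :
    ∃ τ : Lat n F ≃o (Lat n F)ᵒᵈ, ∀ f, (β f).p = ofDual (τ f.h) ∧ (β f).h = ofDual (τ f.p) := by
  obtain ⟨σ, hσ⟩ := typeP_abs (F := F) hn (M := (Lat n F)ᵒᵈ)
    (fun U => by
      apply ofDual.injective
      refine (lat_coatoms (ofDual U)).trans ?_
      refine congrArg sInf ?_
      ext z
      constructor
      · rintro ⟨h1, h2⟩
        exact ⟨isAtom_dual_iff_isCoatom.2 h1, h2⟩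
      · rintro ⟨h1, h2⟩
        exact ⟨isAtom_dual_iff_isCoatom.1 h1, h2⟩)
    (fun U => by
      apply ofDual.injective
      refine (lat_atoms (ofDual U)).trans ?_
      refine congrArg sSup ?_
      ext z
      constructor
      · rintro ⟨h1, h2⟩
        exact ⟨isCoatom_dual_iff_isAtom.2 h1, h2⟩
      · rintro ⟨h1, h2⟩
        exact ⟨isCoatom_dual_iff_isAtom.1 h1, h2⟩)
    (fun f => toDual (β f).h)
    (fun f => toDual (β f).p) (fun f => isAtom_dual_iff_isCoatom.2 (β f).hh)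
    (fun f => isCoatom_dual_iff_isAtom.2 (β f).hp) (fun f => (β f).le)
    (fun f g => (h f g).1.trans toDual.injective.eq_iff.symm)
    (fun f g => (h f g).2.trans toDual.injective.eq_iff.symm)
    (fun y hy => by
      obtain ⟨g, hg⟩ := typeP_flag_h hn (ofDual y) (isAtom_dual_iff_isCoatom.1 hy)
      exact ⟨β.symm g, by simp only [Equiv.apply_symm_apply]; rw [hg]; rfl⟩)
    (fun y hy => by
      obtain ⟨g, hg⟩ := typeP_flag_p hn (ofDual y) (isCoatom_dual_iff_isAtom.1 hy)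
      exact ⟨β.symm g, by simp only [Equiv.apply_symm_apply]; rw [hg]; rfl⟩)
    (fun y w hy hw hyw => ⟨β.symm ⟨ofDual w, ofDual y, isCoatom_dual_iff_isAtom.1 hw,
      isAtom_dual_iff_isCoatom.1 hy, hyw⟩, by simp, by simp⟩)
  refine ⟨σ, fun f => ⟨?_, ?_⟩⟩
  · rw [(hσ f).2]
    rfl
  · rw [(hσ f).1]
    rfl

end Pool.Agent.Work.MP_bc729a_al.LN
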