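import Pool.Agent.Work.MP_bc729a_al.LN.Beta
import Pool.Agent.Work.MP_bc729a_al.LN.Adj
import Pool.Agent.Work.MP_bc729a_al.LN.GraphT
import Pool.Agent.Work.MP_bc729a_al.LN.TypeP

/-! # Module Fund (size S-M): automorphisms of `PSL_n(F)` are induced by collineations and correlations

PROOF. Let `β` be as in `exists_beta`. By `adj_iff` (applied to `f, g` and to `β f, β g`; `α` is multiplicative and
maps `XP k` to `XP (β k)`, `β` is onto) `β` preserves adjacency in both directions. `graph_type`, then
`typeP` or `typeR`.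
Type preserving: `β f = f.map σ`. From `β (f.map (act s)) = (β f).map (act (α s))`, comparing points:
`σ (act s f.p) = act (α s) (σ f.p)` for all flags, i.e. for all atoms (`n ≥ 2`: every atom is the point of a flag).
Both sides are order isomorphisms as functions of `U`, and order isomorphisms which agree on atoms agree
(`lat_atoms`, `OrderIso.map_sSup`).
Type reversing: the same with `τ`: `(β f).h = ofDual (τ f.p)`. -/

namespace Pool.Agent.Work.MP_bc729a_al.LN

open Matrix OrderDual

universe u

variable {n : ℕ} {F : Type u} [Field F]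

private theorem fund_ext {M : Type*} [CompleteLattice M] (e1 e2 : Lat n F ≃o M)
    (h : ∀ x : Lat n F, IsAtom x → e1 x = e2 x) (U : Lat n F) : e1 U = e2 U := by
  rw [lat_atoms U, OrderIso.map_sSup, OrderIso.map_sSup]
  refine iSup_congr fun x => iSup_congr fun hx => h x hx.1

theorem fund [Finite F] (hn : 3 ≤ n) (α : MulAut (PSLn n F)) :
    (∃ σ : Lat n F ≃o Lat n F, ∀ s U, σ (act n F s U) = act n F (α s) (σ U)) ∨
      (∃ τ : Lat n F ≃o (Lat n F)ᵒᵈ, ∀ s U,
        ofDual (τ (act n F s U)) = act n F (α s) (ofDual (τ U))) := by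
  obtain ⟨β, hβ1, hβ2⟩ := exists_beta (by omega) α
  have hmem : ∀ (f : Flag n F) x, x ∈ XP f ↔ α x ∈ XP (β f) := by
    intro f x
    rw [← hβ1, Subgroup.mem_map]
    constructor
    · intro hx
      exact ⟨x, hx, rfl⟩
    · rintro ⟨y, hy, hyx⟩
      rwa [← α.injective hyx]
  have hadj : ∀ f g : Flag n F, (f.p = g.p ∨ f.h = g.h) ↔
      ((β f).p = (β g).p ∨ (β f).h = (β g).h) := by
    intro f g
    rw [adj_iff hn, adj_iff hn]
    constructor
    · intro H x hx y hy
      obtain ⟨x, rfl⟩ := α.surjective x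
      obtain ⟨y, rfl⟩ := α.surjective y
      obtain ⟨k, hk⟩ := H x ((hmem _ _).2 hx) y ((hmem _ _).2 hy)
      refine ⟨β k, ?_⟩
      rw [← map_mul]
      exact (hmem _ _).1 hk
    · intro H x hx y hy
      obtain ⟨k, hk⟩ := H _ ((hmem _ _).1 hx) _ ((hmem _ _).1 hy)
      refine ⟨β.symm k, (hmem _ _).2 ?_⟩
      rw [map_mul, Equiv.apply_symm_apply]
      exact hk
  rcases graph_type hn β hadj with h1 | h1
  · left
    obtain ⟨σ, hσ⟩ := typeP (by omega) β h1
    refine ⟨σ, fun s U => ?_⟩
    refine fund_ext ((act n F s).trans σ) (σ.trans (act n F (α s))) (fun x hx => ?_) U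
    obtain ⟨f, rfl⟩ := typeP_flag_p (by omega) x hx
    have h2 := congrArg Flag.p (hβ2 s f)
    rw [hσ, hσ] at h2
    exact h2
  · right
    obtain ⟨τ, hτ⟩ := typeR (by omega) β h1
    refine ⟨τ, fun s U => ?_⟩
    refine congrArg ofDual (fund_ext ((act n F s).trans τ) (τ.trans (act n F (α s)).dual)
      (fun x hx => ?_) U)
    obtain ⟨f, rfl⟩ := typeP_flag_p (by omega) x hx
    have h2 := congrArg Flag.h (hβ2 s f)
    rw [(hτ _).2] at h2
    change ofDual (τ (act n F s f.p)) = act n F (α s) (β f).h at h2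
    rw [(hτ f).2] at h2
    apply ofDual.injective
    exact h2

end Pool.Agent.Work.MP_bc729a_al.LN
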