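import Pool.Agent.Work.MP_bc729a_al.LN.FrmChar

/-! # Module Invol (size M): an involutory collineation fixes a frame

PROOF. Claim: for every `W : Lat n F` with `σ W = W` there is a set `P` of at most `finrank W` atoms with
`sSup P = W`, `σ '' P = P`. Induction on `finrank W` (strong). The case `W = ⊤` is the theorem.
(a) If `σ p = p` for all atoms `p ≤ W`: take any basis of `W` and its lines.
(b) Otherwise let `p ≤ W` be an atom with `σ p ≠ p`, `ℓ = p ⊔ σ p ≤ W`, `σ ℓ = ℓ` (`σ (σ p) = p`). Let `c` be a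
complement of `ℓ` in `W`: `ℓ ⊓ c = ⊥`, `ℓ ⊔ c = W` (the lattice of subspaces of `W` is complemented) and
`h = c ⊔ p`. By the modular law `h ⊓ ℓ = p` (`c ⊓ ℓ = ⊥`), and `finrank h = finrank W - 1`. Let `W' = h ⊓ σ h`:
`σ W' = W'`, `W' ⊓ ℓ = h ⊓ σ h ⊓ ℓ = p ⊓ σ p = ⊥` (`σ h ⊓ ℓ = σ (h ⊓ ℓ) = σ p`), and
`finrank W' = 2 (finrank W - 1) - finrank W = finrank W - 2` (`h ⊔ σ h = W`,
`Submodule.finrank_sup_add_finrank_inf_eq`; `finrank (σ h) = finrank h`), so `W' ⊔ ℓ = W`.
By induction `W'` has a set `P'`; take `P = P' ∪ {p, σ p}`. -/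

namespace Pool.Agent.Work.MP_bc729a_al.LN

open Matrix

universe u

variable {n : ℕ} {F : Type u} [Field F]

theorem finrank_orderIso (σ : Lat n F ≃o Lat n F) (U : Lat n F) :
    Module.finrank F (σ U) = Module.finrank F U := by
  have h1 : Module.length F (σ U) = Module.length F U := by
    rw [Module.length_submodule, Module.length_submodule, Order.height_orderIso]
  rw [Module.length_eq_finrank, Module.length_eq_finrank] at h1
  exact_mod_cast h1

/-- a set of at most `n` points which spans is a frame -/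
theorem Invol_frm_of_span {P : Set (Lat n F)} (h1 : ∀ p ∈ P, IsAtom p) (hfin : P.Finite)
    (hc : P.ncard ≤ n) (hs : sSup P = ⊤) : IsFrm P := by
  classical
  refine ⟨h1, ?_, hs⟩
  have h : ∀ p : P, ∃ v, v ≠ 0 ∧ (p : Lat n F) = pt v := fun p => atom_iff.1 (h1 p.1 p.2)
  choose v hv hv' using h
  have : Finite P := hfin
  have := Fintype.ofFinite P
  have hspan : ⊤ ≤ Submodule.span F (Set.range v) := by
    rw [← hs, sSup_eq_iSup', Submodule.span_range_eq_iSup]
    refine iSup_mono fun p => ?_
    rw [hv' p]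
    exact le_rfl
  have hcard : Fintype.card P = n := by
    rw [← Nat.card_coe_set_eq, Nat.card_eq_fintype_card] at hc
    refine le_antisymm hc ?_
    have h2 := finrank_range_le_card (R := F) v
    rw [Set.finrank, eq_top_iff.2 hspan, finrank_top, Module.finrank_fin_fun] at h2
    exact h2
  have hli : LinearIndependent F v :=
    linearIndependent_of_top_le_span_of_card_eq_finrank hspan
      (by rw [hcard, Module.finrank_fin_fun])
  rw [sSupIndep_iff]
  have h3 := hli.iSupIndep_span_singleton
  have h4 : ((↑) : P → Lat n F) = fun p => Submodule.span F {v p} := by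
    funext p
    exact hv' p
  rw [h4]
  exact h3

theorem Invol_finrank_atom {p : Lat n F} (hp : IsAtom p) : Module.finrank F p = 1 := by
  obtain ⟨v, hv, rfl⟩ := atom_iff.1 hp
  exact finrank_span_singleton hv

theorem Invol_finrank_two {p q : Lat n F} (hp : IsAtom p) (hq : IsAtom q) (h : p ≠ q) :
    Module.finrank F (p ⊔ q : Lat n F) = 2 := by
  have h1 := Submodule.finrank_sup_add_finrank_inf_eq p q
  have h2 : p ⊓ q = ⊥ := by
    have := hp.disjoint_of_ne hq h
    exact disjoint_iff.1 this
  rw [h2, finrank_bot, Invol_finrank_atom hp, Invol_finrank_atom hq] at h1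
  omega

/-- the lines of a basis of `W` -/
private lemma Invol_basis (W : Lat n F) : ∃ P : Set (Lat n F), (∀ p ∈ P, IsAtom p) ∧ P.Finite ∧
    P.ncard ≤ Module.finrank F W ∧ sSup P = W := by
  classical
  let b := Module.finBasis F W
  refine ⟨Set.range fun i => pt ((b i : W) : Fin n → F), ?_, Set.finite_range _, ?_, ?_⟩
  · rintro _ ⟨i, rfl⟩
    refine atom_iff.2 ⟨_, ?_, rfl⟩
    have := b.ne_zero i
    exact fun h => this (Subtype.ext h)
  · rw [← Set.image_univ]
    refine (Set.ncard_image_le Set.finite_univ).trans ?_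
    rw [Set.ncard_univ, Nat.card_eq_fintype_card, Fintype.card_fin]
  · rw [sSup_range]
    have h1 := b.span_eq
    have h2 := congrArg (Submodule.map W.subtype) h1
    rw [Submodule.map_span, ← Set.range_comp, Submodule.map_top, Submodule.range_subtype,
      Submodule.span_range_eq_iSup] at h2
    exact h2

private lemma Invol_main (σ : Lat n F ≃o Lat n F) (h : ∀ U, σ (σ U) = U) (k : ℕ) :
    ∀ W : Lat n F, Module.finrank F W = k → σ W = W →
      ∃ P : Set (Lat n F), (∀ p ∈ P, IsAtom p) ∧ P.Finite ∧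
        P.ncard ≤ Module.finrank F W ∧ sSup P = W ∧ σ '' P = P := by
  classical
  induction k using Nat.strong_induction_on with
  | _ k ih =>
  intro W hk hW
  by_cases ha : ∀ p, IsAtom p → p ≤ W → σ p = p
  · obtain ⟨P, h1, h2, h3, h4⟩ := Invol_basis W
    refine ⟨P, h1, h2, h3, h4, ?_⟩
    have h5 : ∀ p ∈ P, σ p = p := fun p hp => ha p (h1 p hp) (by
      rw [← h4]
      exact le_sSup hp)
    ext q
    constructor
    · rintro ⟨p, hp, rfl⟩
      rw [h5 p hp]
      exact hp
    · intro hq
      exact ⟨q, hq, h5 q hq⟩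
  · push Not at ha
    obtain ⟨p, hp, hpW, hne⟩ := ha
    have hp' : IsAtom (σ p) := (OrderIso.isAtom_iff σ p).2 hp
    have hpW' : σ p ≤ W := by
      rw [← hW]
      exact σ.monotone hpW
    set l : Lat n F := p ⊔ σ p with hl
    have hlW : l ≤ W := sup_le hpW hpW'
    have hl2 : Module.finrank F l = 2 := Invol_finrank_two hp hp' (Ne.symm hne)
    have hσl : σ l = l := by
      rw [hl, map_sup, h, sup_comm]
    obtain ⟨c0, hc0⟩ := exists_isCompl l
    set c : Lat n F := c0 ⊓ W with hc
    have hcl : l ⊔ c = W := by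
      rw [hc, ← sup_inf_assoc_of_le c0 hlW, hc0.sup_eq_top, top_inf_eq]
    have hcl' : c ⊓ l = ⊥ := by
      rw [eq_bot_iff, ← hc0.symm.inf_eq_bot]
      exact inf_le_inf_right _ inf_le_left
    have hcW : c ≤ W := inf_le_right
    have hfc : Module.finrank F W = Module.finrank F c + 2 := by
      have h1 := Submodule.finrank_sup_add_finrank_inf_eq l c
      rw [hcl, inf_comm, hcl', finrank_bot, hl2] at h1
      omega
    set m : Lat n F := p ⊔ c with hm
    have hml : m ⊓ l = p := by
      rw [hm, sup_inf_assoc_of_le c (le_sup_left : p ≤ l), hcl', sup_bot_eq]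
    have hfm : Module.finrank F m = Module.finrank F c + 1 := by
      have h1 := Submodule.finrank_sup_add_finrank_inf_eq p c
      have h2 : p ⊓ c = ⊥ := by
        rw [eq_bot_iff, ← hcl', inf_comm]
        exact inf_le_inf_left _ le_sup_left
      rw [h2, finrank_bot, Invol_finrank_atom hp] at h1
      rw [hm]
      omega
    have hmW : m ≤ W := sup_le hpW hcW
    have hmW' : σ m ≤ W := by
      rw [← hW]
      exact σ.monotone hmW
    have hmm : m ⊔ σ m = W := by
      refine le_antisymm (sup_le hmW hmW') ?_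
      rw [← hcl]
      refine sup_le (sup_le ?_ ?_) ?_
      · exact le_sup_of_le_left le_sup_left
      · exact le_sup_of_le_right (σ.monotone le_sup_left)
      · exact le_sup_of_le_left le_sup_right
    set W' : Lat n F := m ⊓ σ m with hW'
    have hσW' : σ W' = W' := by
      rw [hW', map_inf, h, inf_comm]
    have hfW' : Module.finrank F W' = Module.finrank F c := by
      have h1 := Submodule.finrank_sup_add_finrank_inf_eq m (σ m)
      rw [hmm, finrank_orderIso, hfm, hfc] at h1
      rw [hW']
      omega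
    have hWl : W' ⊓ l = ⊥ := by
      have h1 : σ m ⊓ l = σ p := by
        conv_lhs => rw [← hσl]
        rw [← map_inf, hml]
      have h2 : W' ⊓ l = (m ⊓ l) ⊓ (σ m ⊓ l) := by
        rw [hW', inf_inf_distrib_right]
      rw [h2, hml, h1]
      exact disjoint_iff.1 (hp.disjoint_of_ne hp' (Ne.symm hne))
    have hWsup : W' ⊔ l = W := by
      refine Submodule.eq_of_le_of_finrank_eq (sup_le (inf_le_left.trans hmW) hlW) ?_
      have h1 := Submodule.finrank_sup_add_finrank_inf_eq W' l
      rw [hWl, finrank_bot, hl2, hfW'] at h1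
      omega
    obtain ⟨P', h1, h2, h3, h4, h5⟩ := ih (Module.finrank F W') (by omega) W' rfl hσW'
    refine ⟨P' ∪ {p, σ p}, ?_, ?_, ?_, ?_, ?_⟩
    · rintro q (hq | hq)
      · exact h1 q hq
      · rcases hq with rfl | rfl
        · exact hp
        · exact hp'
    · exact h2.union (Set.toFinite _)
    · refine (Set.ncard_union_le _ _).trans ?_
      have : ({p, σ p} : Set (Lat n F)).ncard ≤ 2 := by
        rw [Set.ncard_pair (Ne.symm hne)]
      omega
    · rw [sSup_union, h4, sSup_pair, ← hl, hWsup]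
    · rw [Set.image_union, h5, Set.image_pair, h, Set.pair_comm]

theorem invol_frame (σ : Lat n F ≃o Lat n F) (h : ∀ U, σ (σ U) = U) :
    ∃ P, IsFrm P ∧ σ '' P = P := by
  obtain ⟨P, h1, h2, h3, h4, h5⟩ := Invol_main σ h _ ⊤ rfl σ.map_top
  rw [finrank_top, Module.finrank_fin_fun] at h3
  exact ⟨P, Invol_frm_of_span h1 h2 h3 h4, h5⟩

end Pool.Agent.Work.MP_bc729a_al.LN
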