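import Pool.Agent.Work.MP_bc729a_al.LN.OddB

/-! # No group of odd order is transitive on frames when `|F|` is odd -/

namespace Pool.Agent.Work.MP_bc729a_al.LN

open Matrix

universe u

variable {n : ℕ} {F : Type u} [Field F]

theorem line_eq {a x x' : Lat n F} (ha : IsAtom a) (hx : IsAtom x) (hx' : IsAtom x')
    (hxx' : x ≠ x') (h : a ≤ x ⊔ x') (hne : a ≠ x') : a ⊔ x' = x ⊔ x' := by
  have h1 : x ⊓ x' = ⊥ := (odd_disj hx (fun hle => hxx' ((hx'.le_iff_eq hx.1).1 hle))).eq_bot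
  have h2 : x' ⋖ x ⊔ x' := covBy_sup_of_inf_covBy_left (by rw [h1]; exact hx.bot_covBy)
  rcases h2.eq_or_eq (le_sup_right : x' ≤ a ⊔ x') (sup_le h le_sup_right) with h3 | h3
  · exact absurd ((hx'.le_iff_eq ha.1).1 (h3 ▸ le_sup_left)) hne
  · exact h3

theorem line_eq2 {a c x x' : Lat n F} (ha : IsAtom a) (hc : IsAtom c) (hac : a ≠ c)
    (hx : IsAtom x) (hx' : IsAtom x')
    (hxx' : x ≠ x') (h : a ≤ x ⊔ x') (h' : c ≤ x ⊔ x') : a ⊔ c = x ⊔ x' := by
  by_cases h1 : c = x'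
  · subst h1
    exact line_eq ha hx hx' hxx' h hac
  · have h2 := line_eq hc hx hx' hxx' h' h1
    rw [← h2] at h ⊢
    rw [sup_comm c x'] at h ⊢
    exact line_eq ha hx' hc (Ne.symm h1) h hac

theorem odd_not_trans [Finite F] (hF : 3 ≤ Nat.card F) (hodd : Odd (Nat.card F)) (hn : 3 ≤ n)
    {T : Subgroup (Lat n F ≃o Lat n F)} (h : TransFrm T) (hT : Odd (Nat.card T)) : False := by
  classical
  have hfin : Finite (Lat n F) := lat_finite
  have hx : IsAtom (pt (Pi.single (⟨0, by omega⟩ : Fin n) (1 : F))) :=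
    std_isFrm.1 _ ⟨_, rfl⟩
  have hx' : IsAtom (pt (Pi.single (⟨1, by omega⟩ : Fin n) (1 : F))) :=
    std_isFrm.1 _ ⟨_, rfl⟩
  obtain ⟨x, x', hx, hx', hxx'⟩ : ∃ x x' : Lat n F, IsAtom x ∧ IsAtom x' ∧ x ≠ x' := by
    refine ⟨_, _, hx, hx', fun heq => ?_⟩
    have h1 : (Pi.single (⟨0, by omega⟩ : Fin n) (1 : F)) ∈
        pt (Pi.single (⟨1, by omega⟩ : Fin n) (1 : F)) := by
      rw [← heq]
      exact Submodule.mem_span_singleton_self _
    obtain ⟨c, hc⟩ := Submodule.mem_span_singleton.1 h1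
    have h2 := congrFun hc (⟨0, by omega⟩ : Fin n)
    rw [Pi.smul_apply, Pi.single_eq_same, Pi.single_eq_of_ne (by simp), smul_zero] at h2
    exact zero_ne_one h2
  let T' : Subgroup (Lat n F ≃o Lat n F) := T ⊓ MulAction.stabilizer (Lat n F ≃o Lat n F) (x ⊔ x')
  have hT' : ∀ t : Lat n F ≃o Lat n F, t ∈ T' ↔ t ∈ T ∧ t (x ⊔ x') = x ⊔ x' := fun t => Iff.rfl
  have hl := card_line hx hx' hxx'
  have horb : MulAction.orbit T' x = {z : Lat n F | IsAtom z ∧ z ≤ x ⊔ x'} := by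
    ext b
    constructor
    · rintro ⟨⟨t, ht⟩, rfl⟩
      obtain ⟨ht1, ht2⟩ := (hT' t).1 ht
      refine ⟨(OrderIso.isAtom_iff t x).2 hx, ?_⟩
      change t x ≤ x ⊔ x'
      rw [← ht2]
      exact t.monotone le_sup_left
    · rintro ⟨hb, hb'⟩
      by_cases hbx : b = x
      · rw [hbx]
        exact MulAction.mem_orbit_self x
      -- a third point of the line
      obtain ⟨c, hc, hcx, hcb⟩ : ∃ c ∈ {z : Lat n F | IsAtom z ∧ z ≤ x ⊔ x'}, c ≠ x ∧ c ≠ b := by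
        by_contra hcon
        push Not at hcon
        have h1 : {z : Lat n F | IsAtom z ∧ z ≤ x ⊔ x'} ⊆ {x, b} := by
          intro s hs
          by_cases h2 : s = x
          · exact Or.inl h2
          · exact Or.inr (hcon s hs h2)
        have h2 := Set.ncard_le_ncard h1 (Set.toFinite _)
        have h3 := Set.ncard_insert_le x ({b} : Set (Lat n F))
        rw [Set.ncard_singleton] at h3
        omega
      obtain ⟨hc1, hc2⟩ := hc
      have e1 : x ⊔ c = x ⊔ x' := line_eq2 hx hc1 (Ne.symm hcx) hx hx' hxx' le_sup_left hc2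
      have e2 : b ⊔ c = x ⊔ x' := line_eq2 hb hc1 (Ne.symm hcb) hx hx' hxx' hb' hc2
      obtain ⟨t, ht, ht'⟩ := trans_pairs hF hn h hx hc1 (Ne.symm hcx) hb hc1 (Ne.symm hcb)
      have ht2 : t (x ⊔ x') = x ⊔ x' := by
        rw [← e1, map_sup]
        rcases ht' with ⟨h1, h2⟩ | ⟨h1, h2⟩
        · rw [h1, h2, e2, e1]
        · rw [h1, h2, sup_comm, e2, e1]
      have htT : t ∈ T' := (hT' t).2 ⟨ht, ht2⟩
      rcases ht' with ⟨h1, h2⟩ | ⟨h1, h2⟩
      · exact ⟨⟨t, htT⟩, h1⟩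
      · refine ⟨⟨t, htT⟩ * ⟨t, htT⟩, ?_⟩
        change t (t x) = b
        rw [h1, h2]
  have h1 := MulAction.index_stabilizer T' x
  rw [horb, hl] at h1
  have h2 : Nat.card F + 1 ∣ Nat.card T' := by
    rw [← h1]
    exact Subgroup.index_dvd_card _
  have h3 : Nat.card T' ∣ Nat.card T := Subgroup.card_dvd_of_le inf_le_left
  have h4 : 2 ∣ Nat.card F + 1 := (hodd.add_one).two_dvd
  have h5 := (h4.trans h2).trans h3
  exact (Nat.not_even_iff_odd.2 hT) (even_iff_two_dvd.2 h5)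

end Pool.Agent.Work.MP_bc729a_al.LN
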