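import Pool.Agent.Work.MP_bc729a_al.LN.Defs

/-! # A diagonal matrix conjugate to a monomial one, first version -/

namespace Pool.Agent.Work.MP_bc729a_al.LN

open Matrix

universe u

variable {n : ℕ} {F : Type u} [Field F]

/-- column action of a monomial matrix -/
theorem c1_col {g m : Matrix (Fin n) (Fin n) F} {d : Fin n → F} {σ : Equiv.Perm (Fin n)}
    (hσ : ∀ i j, m i j ≠ 0 → i = σ j) (h : Matrix.diagonal d * g = g * m) (i a : Fin n) :
    d i * g i a = m (σ a) a * g i (σ a) := by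
  have h1 := congrFun (congrFun h i) a
  rw [Matrix.diagonal_mul, Matrix.mul_apply, Finset.sum_eq_single (σ a)] at h1
  · rw [h1, mul_comm]
  · intro k _ hk
    have : m k a = 0 := by
      by_contra hne
      exact hk (hσ _ _ hne)
    rw [this, mul_zero]
  · intro hi
    exact absurd (Finset.mem_univ _) hi

theorem c1_ne {g m : Matrix (Fin n) (Fin n) F} {d : Fin n → F} {σ : Equiv.Perm (Fin n)}
    (hd : ∀ i, d i ≠ 0) (hg : IsUnit g.det)
    (hσ : ∀ i j, m i j ≠ 0 → i = σ j) (h : Matrix.diagonal d * g = g * m) (a : Fin n) :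
    m (σ a) a ≠ 0 := by
  intro h0
  have h1 : ∀ i, g i a = 0 := by
    intro i
    have := c1_col hσ h i a
    rw [h0, zero_mul] at this
    exact (mul_eq_zero.1 this).resolve_left (hd i)
  have : g.det = 0 := Matrix.det_eq_zero_of_column_eq_zero a h1
  rw [this] at hg
  exact not_isUnit_zero hg

/-- iterated column action -/
theorem c1_iter {g m : Matrix (Fin n) (Fin n) F} {d : Fin n → F} {σ : Equiv.Perm (Fin n)}
    (hd : ∀ i, d i ≠ 0) (hg : IsUnit g.det)
    (hσ : ∀ i j, m i j ≠ 0 → i = σ j) (h : Matrix.diagonal d * g = g * m) (a : Fin n) (k : ℕ) :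
    ∃ μ : F, μ ≠ 0 ∧ ∀ i, d i ^ k * g i a = μ * g i ((σ ^ k) a) := by
  induction k with
  | zero => exact ⟨1, one_ne_zero, fun i => by simp⟩
  | succ k ih =>
    obtain ⟨μ, hμ, h1⟩ := ih
    refine ⟨μ * m (σ ((σ ^ k) a)) ((σ ^ k) a), mul_ne_zero hμ (c1_ne hd hg hσ h _), fun i => ?_⟩
    rw [pow_succ', mul_assoc, h1 i, ← mul_assoc, mul_comm (d i) μ, mul_assoc,
      c1_col hσ h i ((σ ^ k) a), ← mul_assoc, pow_succ' σ k]
    rfl

theorem c1_exists {g : Matrix (Fin n) (Fin n) F} (hg : IsUnit g.det) (j : Fin n) :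
    ∃ a, g j a ≠ 0 := by
  by_contra hcon
  push Not at hcon
  have : g.det = 0 := Matrix.det_eq_zero_of_row_eq_zero j hcon
  rw [this] at hg
  exact not_isUnit_zero hg

theorem c1_indep {g : Matrix (Fin n) (Fin n) F} (hg : IsUnit g.det) {c : Fin n → F}
    (h : ∀ i, ∑ b, g i b * c b = 0) (b : Fin n) : c b = 0 := by
  have h1 : g *ᵥ c = 0 := by
    ext i
    simpa [Matrix.mulVec, dotProduct] using h i
  have h2 := congrArg (fun v => g⁻¹ *ᵥ v) h1
  simp only [Matrix.mulVec_mulVec, Matrix.nonsing_inv_mul g hg, Matrix.one_mulVec,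
    Matrix.mulVec_zero] at h2
  exact congrFun h2 b

theorem lemC1 {j j' : Fin n} (hj : j ≠ j') {e : F} (he0 : e ≠ 0)
    (he : ∀ k : ℕ, 1 ≤ k → k ≤ 6 → e ^ k ≠ 1) {g m : Matrix (Fin n) (Fin n) F}
    (hg : IsUnit g.det) (hm : Mono m) (h : Matrix.diagonal (hd j j' e) * g = g * m) :
    ∃ a, ∀ i, i ≠ j → g i a = 0 := by
  obtain ⟨σ, hσ⟩ := hm
  have hd0 : ∀ i, hd j j' e i ≠ 0 := by
    intro i
    unfold hd
    split_ifs
    · exact he0
    · exact inv_ne_zero he0
    · exact one_ne_zero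
  obtain ⟨a, ha⟩ := c1_exists hg j
  refine ⟨a, ?_⟩
  have hk : ∃ k : ℕ, 1 ≤ k ∧ k ≤ 3 ∧ (σ ^ k) a = a := by
    by_contra hcon
    push Not at hcon
    obtain ⟨μ1, -, h1⟩ := c1_iter hd0 hg hσ h a 1
    obtain ⟨μ2, -, h2⟩ := c1_iter hd0 hg hσ h a 2
    obtain ⟨μ3, hμ3, h3⟩ := c1_iter hd0 hg hσ h a 3
    have n1 := hcon 1 le_rfl (by norm_num)
    have n2 := hcon 2 (by norm_num) (by norm_num)
    have n3 := hcon 3 (by norm_num) le_rfl
    have n32 : (σ ^ 3) a ≠ (σ ^ 2) a := by
      intro h'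
      rw [pow_succ σ 2] at h'
      exact n1 (by
        have := (σ ^ 2).injective h'
        simpa using this)
    have n31 : (σ ^ 3) a ≠ (σ ^ 1) a := by
      intro h'
      have h'' : (σ ^ 3) a = (σ ^ 1 * σ ^ 2) a := by rw [← pow_add]
      rw [h''] at h'
      exact n2 ((σ ^ 1).injective h')
    set s : F := 1 + e + e⁻¹ with hs
    have hpoly : ∀ i, hd j j' e i ^ 3 - s * hd j j' e i ^ 2 + s * hd j j' e i ^ 1 - 1 = 0 := by
      intro i
      have he' : e * e⁻¹ = 1 := mul_inv_cancel₀ he0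
      unfold hd
      split_ifs
      · rw [hs]; linear_combination (-e + e ^ 0) * he'
      · rw [hs]; linear_combination (-e⁻¹ + e ^ 0) * he'
      · ring
    let c : Fin n → F := fun b => (if b = (σ ^ 3) a then μ3 else 0) -
      s * (if b = (σ ^ 2) a then μ2 else 0) + s * (if b = (σ ^ 1) a then μ1 else 0) -
      (if b = a then 1 else 0)
    have hc : ∀ i, ∑ b, g i b * c b = 0 := by
      intro i
      have : ∑ b, g i b * c b = μ3 * g i ((σ ^ 3) a) - s * (μ2 * g i ((σ ^ 2) a)) +
          s * (μ1 * g i ((σ ^ 1) a)) - g i a := by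
        simp only [c, mul_sub, mul_add, Finset.sum_sub_distrib, Finset.sum_add_distrib]
        have e1 : ∀ (x : Fin n) (y : F), ∑ b, g i b * (if b = x then y else 0) = y * g i x := by
          intro x y
          rw [Finset.sum_eq_single x]
          · rw [if_pos rfl, mul_comm]
          · intro b _ hb
            rw [if_neg hb, mul_zero]
          · intro hx
            exact absurd (Finset.mem_univ _) hx
        have e2 : ∀ (x : Fin n) (y : F), ∑ b, g i b * (s * (if b = x then y else 0)) =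
            s * (y * g i x) := by
          intro x y
          rw [← e1 x y, Finset.mul_sum]
          refine Finset.sum_congr rfl fun b _ => ?_
          ring
        rw [e1, e2, e2, e1, one_mul]
      rw [this, ← h1, ← h2, ← h3]
      linear_combination (g i a) * hpoly i
    have h4 := c1_indep hg hc ((σ ^ 3) a)
    simp only [c, if_true, if_neg n32, if_neg n31, if_neg n3] at h4
    apply hμ3
    simpa using h4
  obtain ⟨k, hk1, hk3, hka⟩ := hk
  obtain ⟨μ, -, h1⟩ := c1_iter hd0 hg hσ h a k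
  rw [hka] at h1
  have hμ : μ = e ^ k := by
    have := h1 j
    unfold hd at this
    rw [if_pos rfl] at this
    exact (mul_right_cancel₀ ha this).symm
  intro i hi
  have h2 := h1 i
  rw [hμ] at h2
  unfold hd at h2
  rw [if_neg hi] at h2
  by_contra hne
  have h3 := mul_right_cancel₀ hne h2
  by_cases hij : i = j'
  · rw [if_pos hij, inv_pow] at h3
    have hek : e ^ k ≠ 0 := pow_ne_zero _ he0
    have h4 : e ^ (2 * k) = 1 := by
      rw [two_mul, pow_add]
      nth_rewrite 1 [← h3]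
      exact inv_mul_cancel₀ hek
    exact he (2 * k) (by omega) (by omega) h4
  · rw [if_neg hij, one_pow] at h3
    exact he k hk1 (by omega) h3.symm

end Pool.Agent.Work.MP_bc729a_al.LN
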