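import Pool.Agent.Work.MP_bc729a_al.LN.WMod

/-! # Elements fixing one point of a frame permute the frame -/

namespace Pool.Agent.Work.MP_bc729a_al.LN

open Matrix

universe u

variable {n : ℕ} {F : Type u} [Field F]

theorem rho_col (g : SLn n F) (b : Fin n) : g.1 *ᵥ Pi.single b 1 = fun i => g.1 i b := by
  ext i
  simp [Matrix.mulVec_single_one]

theorem rho_inv_col (g : SLn n F) (b : Fin n) :
    (g⁻¹).1 *ᵥ (fun i => g.1 i b) = Pi.single b 1 := by
  rw [← rho_col, Matrix.mulVec_mulVec, sl_inv_mul, Matrix.one_mulVec]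

theorem col_action {X : Subgroup (SLn n F)} (hS : Star X) {g w : SLn n F} (hg : g ∈ X)
    (hw : w ∈ X) {a : Fin n} {μ0 : F}
    (h : w.1 *ᵥ (fun i => g.1 i a) = μ0 • fun i => g.1 i a) :
    ∃ (σ : Equiv.Perm (Fin n)) (μ : Fin n → F), σ a = a ∧ (∀ b, μ b ≠ 0) ∧
      ∀ b, w.1 *ᵥ (fun i => g.1 i b) = μ b • fun i => g.1 i (σ b) := by
  set m : SLn n F := g⁻¹ * w * g with hm
  have hmX : m ∈ X := X.mul_mem (X.mul_mem (X.inv_mem hg) hw) hg
  have hmv : ∀ v, m.1 *ᵥ v = (g⁻¹).1 *ᵥ (w.1 *ᵥ (g.1 *ᵥ v)) := by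
    intro v
    rw [Matrix.mulVec_mulVec, Matrix.mulVec_mulVec]
    rfl
  have hcol : ∀ b, (fun i => m.1 i b) = (g⁻¹).1 *ᵥ (w.1 *ᵥ (fun i => g.1 i b)) := by
    intro b
    rw [← rho_col m b, hmv, rho_col]
  have hma : ∀ k, k ≠ a → m.1 k a = 0 := by
    intro k hk
    have h1 := congrFun (hcol a) k
    rw [h, Matrix.mulVec_smul, rho_inv_col] at h1
    rw [h1]
    simp [hk]
  obtain ⟨σ, hσ⟩ := hS m hmX a a hma
  have hne : ∀ b, m.1 (σ b) b ≠ 0 := by
    intro b h0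
    have h1 : ∀ i, m.1 i b = 0 := by
      intro i
      by_contra hne
      have h2 := hσ i b hne
      rw [h2] at hne
      exact hne h0
    have h2 : m.1.det = 0 := Matrix.det_eq_zero_of_column_eq_zero b h1
    rw [m.2] at h2
    exact one_ne_zero h2
  refine ⟨σ, fun b => m.1 (σ b) b, ?_, hne, ?_⟩
  · by_contra h'
    exact hne a (hma _ h')
  · intro b
    have h1 : (fun i => m.1 i b) = m.1 (σ b) b • (Pi.single (σ b) 1 : Fin n → F) := by
      ext i
      by_cases hi : i = σ b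
      · subst hi
        simp
      · rw [Pi.smul_apply, Pi.single_eq_of_ne hi, smul_zero]
        by_contra h0
        exact hi (hσ _ _ h0)
    have h2 := congrArg (fun v => g.1 *ᵥ v) (hcol b)
    simp only [Matrix.mulVec_mulVec] at h2
    rw [← Matrix.mulVec_mulVec, ← Matrix.mulVec_mulVec] at h2
    rw [Matrix.mulVec_mulVec, sl_mul_inv, Matrix.one_mulVec, h1, Matrix.mulVec_smul,
      rho_col] at h2
    exact h2.symm

theorem col_unique {g : SLn n F} {σ τ : Equiv.Perm (Fin n)} {μ ν : Fin n → F}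
    (hμ : ∀ b, μ b ≠ 0) (h : ∀ b, (μ b • fun i => g.1 i (σ b)) = ν b • fun i => g.1 i (τ b)) :
    σ = τ := by
  ext1 b
  have h1 := congrArg (fun v => (g⁻¹).1 *ᵥ v) (h b)
  simp only [Matrix.mulVec_smul, rho_inv_col] at h1
  by_contra hne
  have h2 := congrFun h1 (σ b)
  simp only [Pi.smul_apply, Pi.single_eq_same, Pi.single_eq_of_ne hne, smul_eq_mul, mul_one,
    mul_zero] at h2
  exact hμ b h2

theorem exists_rho {X : Subgroup (SLn n F)} (hX : monoSL n F ≤ X) (hS : Star X) {g : SLn n F}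
    (hg : g ∈ X) {f : Fin n → F} (hf : ∀ i, f i ≠ 0) {a : Fin n} (ha : ∀ i, g.1 i a = f i) :
    ∃ ρ : alternatingGroup (Fin n) →* Equiv.Perm (Fin n), (∀ π, ρ π a = a) ∧
      ∀ (π : alternatingGroup (Fin n)) (b : Fin n), ∃ μ : F, μ ≠ 0 ∧
        Wm f (π : Equiv.Perm (Fin n)) *ᵥ (fun i => g.1 i b) = μ • fun i => g.1 i (ρ π b) := by
  obtain ⟨W, hW, hWm⟩ := exists_WSL hf
  have hfix : ∀ π : alternatingGroup (Fin n),
      (W π).1 *ᵥ (fun i => g.1 i a) = (1 : F) • fun i => g.1 i a := by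
    intro π
    rw [hW, one_smul]
    ext i
    obtain ⟨k, rfl⟩ := (π : Equiv.Perm (Fin n)).surjective i
    rw [Wm_mulVec, ha, ha]
    have := hf k
    field_simp
  have key : ∀ π : alternatingGroup (Fin n), ∃ (σ : Equiv.Perm (Fin n)) (μ : Fin n → F),
      σ a = a ∧ (∀ b, μ b ≠ 0) ∧
      ∀ b, (W π).1 *ᵥ (fun i => g.1 i b) = μ b • fun i => g.1 i (σ b) :=
    fun π => col_action hS hg (hX (hWm π)) (hfix π)
  choose σ μ h1 h2 h3 using key
  refine ⟨MonoidHom.mk' σ ?_, h1, fun π b => ⟨μ π b, h2 π b, ?_⟩⟩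
  · intro π ρ
    refine col_unique (g := g) (μ := μ (π * ρ)) (ν := fun b => μ ρ b * μ π (σ ρ b)) (h2 _) ?_
    intro b
    rw [← h3 (π * ρ) b, map_mul]
    have h4 : (W π * W ρ).1 *ᵥ (fun i => g.1 i b) =
        (W π).1 *ᵥ ((W ρ).1 *ᵥ (fun i => g.1 i b)) := by
      rw [Matrix.mulVec_mulVec]
      rfl
    rw [h4, h3 ρ b, Matrix.mulVec_smul, h3 π (σ ρ b), smul_smul]
    rfl
  · rw [← hW]
    exact h3 π b

end Pool.Agent.Work.MP_bc729a_al.LN
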