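import Pool.Agent.Work.MP_bc729a_al.LN.Elem
import Pool.Agent.Work.MP_bc729a_al.LN.C1
import Pool.Agent.Work.MP_bc729a_al.LN.Rho

/-! # At most one zero in a column -/

namespace Pool.Agent.Work.MP_bc729a_al.LN

open Matrix

universe u

variable {n : ℕ} {F : Type u} [Field F]

theorem prod_hd {j j' : Fin n} (hj : j ≠ j') {e : F} (he : e ≠ 0) : ∏ k, hd j j' e k = 1 := by
  classical
  have h1 : ∀ k, hd j j' e k = (if k = j then e else 1) * (if k = j' then e⁻¹ else 1) := by
    intro k
    unfold hd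
    by_cases h : k = j
    · subst h
      simp [hj]
    · simp [h]
  simp only [h1, Finset.prod_mul_distrib, Finset.prod_ite_eq', Finset.mem_univ, if_true]
  exact mul_inv_cancel₀ he

/-- the diagonal matrix `hd` as an element of the monomial group -/
theorem exists_hd {j j' : Fin n} (hj : j ≠ j') {e : F} (he : e ≠ 0) :
    ∃ h : SLn n F, h.1 = Matrix.diagonal (hd j j' e) ∧ h ∈ monoSL n F := by
  refine ⟨⟨Matrix.diagonal (hd j j' e), by rw [Matrix.det_diagonal, prod_hd hj he]⟩, rfl, 1, ?_⟩
  intro i k hik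
  by_contra hne
  exact hik (Matrix.diagonal_apply_ne _ hne)

theorem atMostOne [Finite F] (hq : 8 ≤ Nat.card F) {X : Subgroup (SLn n F)}
    (hX : monoSL n F ≤ X) (hS : Star X) : AtMostOne X := by
  intro x hx hxm a i i' hii h1 h2
  obtain ⟨e, he0, he⟩ := exists_eps hq
  obtain ⟨h, hh, hhm⟩ := exists_hd hii he0
  have hcol : h.1 *ᵥ (fun k => x.1 k a) = fun k => x.1 k a := by
    ext k
    rw [hh, Matrix.mulVec_diagonal]
    unfold hd
    by_cases hk : k = i
    · rw [hk, h1, mul_zero]
    · rw [if_neg hk]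
      by_cases hk' : k = i'
      · rw [hk', h2, mul_zero]
      · rw [if_neg hk', one_mul]
  set m : SLn n F := x⁻¹ * h * x with hm
  have hmX : m ∈ X := X.mul_mem (X.mul_mem (X.inv_mem hx) (hX hhm)) hx
  have hma : (fun k => m.1 k a) = Pi.single a 1 := by
    rw [← rho_col m a]
    have : m.1 *ᵥ Pi.single a 1 = (x⁻¹).1 *ᵥ (h.1 *ᵥ (x.1 *ᵥ Pi.single a 1)) := by
      rw [Matrix.mulVec_mulVec, Matrix.mulVec_mulVec]
      rfl
    rw [this, rho_col, hcol, rho_inv_col]
  have hmm : Mono m.1 := by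
    refine hS m hmX a a fun k hk => ?_
    have := congrFun hma k
    rw [Pi.single_eq_of_ne hk] at this
    exact this
  have hcomm : Matrix.diagonal (hd i i' e) * x.1 = x.1 * m.1 := by
    rw [← hh]
    have : x * m = h * x := by
      rw [hm]
      group
    exact (congrArg Subtype.val this).symm
  have hdet : IsUnit x.1.det := by
    rw [x.2]
    exact isUnit_one
  obtain ⟨b, hb⟩ := lemC1 hii he0 he hdet hmm hcomm
  exact hxm (hS x hx i b hb)

end Pool.Agent.Work.MP_bc729a_al.LN
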