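import Pool.Agent.Work.MP_bc729a_al.LN.Rho

/-! # `n = 3`: the columns of a nonmonomial element -/

namespace Pool.Agent.Work.MP_bc729a_al.LN

open Matrix

universe u

variable {F : Type u} [Field F]

theorem ratio3_perm : ∀ (σ : Equiv.Perm (Fin 3)) (a : Fin 3), σ ^ 3 = 1 → σ a = a → σ = 1 := by
  decide

theorem ratio3_sign : Equiv.Perm.sign (finRotate 3) = 1 := by decide

theorem ratio3_cube : (finRotate 3) ^ 3 = 1 := by decide

/-- two columns of an invertible matrix are not proportional -/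
theorem col_not_prop {n : ℕ} (g : SLn n F) {a b : Fin n} (hab : a ≠ b) (l : F)
    (h : ∀ i, g.1 i b = l * g.1 i a) : False := by
  have h1 : (fun i => g.1 i b) = l • fun i => g.1 i a := by
    ext i
    exact h i
  have h2 := congrArg (fun v => (g⁻¹).1 *ᵥ v) h1
  simp only [Matrix.mulVec_smul, rho_inv_col] at h2
  have h3 := congrFun h2 b
  rw [Pi.single_eq_same, Pi.smul_apply, Pi.single_eq_of_ne hab.symm, smul_zero] at h3
  exact one_ne_zero h3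

theorem ratio3 {X : Subgroup (SLn 3 F)} (hX : monoSL 3 F ≤ X) (hS : Star X)
    (hZ : ∀ x ∈ X, ¬ Mono x.1 → ∀ i j, x.1 i j ≠ 0) {x : SLn 3 F} (hx : x ∈ X)
    (hxm : ¬ Mono x.1) {a b : Fin 3} (hab : a ≠ b) :
    ∃ ω l : F, l ≠ 0 ∧ ω ^ 2 + ω + 1 = 0 ∧ x.1 0 b = l * x.1 0 a ∧
      x.1 1 b = l * ω * x.1 1 a ∧ x.1 2 b = l * ω ^ 2 * x.1 2 a := by
  have hf : ∀ i, (fun i => x.1 i a) i ≠ 0 := fun i => hZ x hx hxm i a
  obtain ⟨ρ, hρa, hρ⟩ := exists_rho hX hS hx hf (fun i => rfl)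
  let π : alternatingGroup (Fin 3) :=
    ⟨finRotate 3, Equiv.Perm.mem_alternatingGroup.2 ratio3_sign⟩
  have hπ3 : π ^ 3 = 1 := Subtype.ext ratio3_cube
  have hρπ : ρ π = 1 := by
    refine ratio3_perm _ a ?_ (hρa π)
    rw [← map_pow, hπ3, map_one]
  obtain ⟨μ, hμ, h⟩ := hρ π b
  rw [hρπ] at h
  have hf' : ∀ i, x.1 i a ≠ 0 := hf
  have hz : ∀ k, x.1 (finRotate 3 k) a * (x.1 k a)⁻¹ * x.1 k b = μ * x.1 (finRotate 3 k) b := by
    intro k
    have h1 := congrFun h (finRotate 3 k)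
    change (Wm (fun i => x.1 i a) (finRotate 3) *ᵥ fun i => x.1 i b) (finRotate 3 k) = _ at h1
    rw [Wm_mulVec] at h1
    exact h1
  have e0 : x.1 1 a * (x.1 0 a)⁻¹ * x.1 0 b = μ * x.1 1 b := hz 0
  have e1 : x.1 2 a * (x.1 1 a)⁻¹ * x.1 1 b = μ * x.1 2 b := hz 1
  have e2 : x.1 0 a * (x.1 2 a)⁻¹ * x.1 2 b = μ * x.1 0 b := hz 2
  have a0 := hf' 0
  have a1 := hf' 1
  have a2 := hf' 2
  have b0 : x.1 0 b ≠ 0 := hZ x hx hxm 0 b
  set l : F := x.1 0 b * (x.1 0 a)⁻¹ with hl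
  have hl0 : l ≠ 0 := mul_ne_zero b0 (inv_ne_zero a0)
  have f0 : x.1 0 b = l * x.1 0 a := by
    rw [hl]
    field_simp
  have f1 : x.1 1 b = l * μ⁻¹ * x.1 1 a := by
    rw [f0] at e0
    field_simp at e0 ⊢
    linear_combination -e0
  have f2 : x.1 2 b = l * μ⁻¹ ^ 2 * x.1 2 a := by
    rw [f1] at e1
    field_simp at e1 ⊢
    linear_combination -e1
  have hω3 : (μ⁻¹) ^ 3 = 1 := by
    rw [f2, f0] at e2
    field_simp at e2
    rw [inv_pow, ← e2, inv_one]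
  have hω1 : μ⁻¹ ≠ 1 := by
    intro h1
    apply col_not_prop x hab l
    intro i
    fin_cases i
    · exact f0
    · change x.1 1 b = l * x.1 1 a
      rw [f1, h1, mul_one]
    · change x.1 2 b = l * x.1 2 a
      rw [f2, h1, one_pow, mul_one]
  refine ⟨μ⁻¹, l, hl0, ?_, f0, f1, f2⟩
  have h5 : (μ⁻¹ - 1) * (μ⁻¹ ^ 2 + μ⁻¹ + 1) = 0 := by
    linear_combination hω3
  exact (mul_eq_zero.1 h5).resolve_left (sub_ne_zero.2 hω1)

end Pool.Agent.Work.MP_bc729a_al.LN
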