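import Pool.Agent.Work.MP_bc729a_al.LN.Elem
import Pool.Agent.Work.MP_bc729a_al.LN.Ratio3

/-! # `n = 3`: everything is monomial -/

namespace Pool.Agent.Work.MP_bc729a_al.LN

open Matrix

universe u

variable {F : Type u} [Field F]

/-- solving for a row -/
theorem nf3_row {r0 r1 r2 s0 s1 s2 ω : F} (hω : ω ^ 2 + ω + 1 = 0)
    (e0 : r0 + r1 + r2 = s0) (e1 : r0 + ω * r1 + ω ^ 2 * r2 = s1)
    (e2 : r0 + ω ^ 2 * r1 + ω * r2 = s2) :
    3 * r0 = s0 + s1 + s2 ∧ 3 * r1 = s0 + ω ^ 2 * s1 + ω * s2 := by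
  constructor
  · linear_combination e0 + e1 + e2 - (r1 + r2) * hω
  · linear_combination e0 + ω ^ 2 * e1 + ω * e2 -
      (r0 + (ω ^ 2 - ω) * r2 + 2 * (ω - 1) * r1 + r2) * hω

theorem nf3_ne {A B C ω t : F} (hω : ω ^ 2 + ω + 1 = 0)
    (ht3 : t ^ 3 ≠ 1) (hA : t * A = 1 + t + t ^ 2)
    (hB : t * B = t + t ^ 2 * ω + ω ^ 2) (hC : t * C = t + t ^ 2 * ω ^ 2 + ω) :
    A ≠ 0 ∧ B ≠ 0 ∧ C ≠ 0 := by
  have hω3 : ω ^ 3 = 1 := by linear_combination (ω - 1) * hω
  have hPA : t * A = (t - ω) * (t - ω ^ 2) := by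
    rw [hA]; linear_combination t * hω - hω3
  have hPB : t * B = ω * (t - 1) * (t - ω) := by
    rw [hB]; linear_combination t * hω
  have hPC : t * C = ω ^ 2 * (t - 1) * (t - ω ^ 2) := by
    rw [hC]; linear_combination t * (ω ^ 2 - ω + 1) * hω - ω * hω3
  have n1 : t - 1 ≠ 0 := by
    intro h
    apply ht3
    have : t = 1 := by linear_combination h
    rw [this, one_pow]
  have n2 : t - ω ≠ 0 := by
    intro h
    apply ht3
    have : t = ω := by linear_combination h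
    rw [this, hω3]
  have n3 : t - ω ^ 2 ≠ 0 := by
    intro h
    apply ht3
    have : t = ω ^ 2 := by linear_combination h
    rw [this]
    linear_combination (ω ^ 3 + 1) * hω3
  have hω0 : ω ≠ 0 := by
    rintro rfl
    simp at hω
  refine ⟨?_, ?_, ?_⟩
  · rintro rfl
    rw [mul_zero] at hPA
    exact mul_ne_zero n2 n3 hPA.symm
  · rintro rfl
    rw [mul_zero] at hPB
    exact mul_ne_zero (mul_ne_zero hω0 n1) n2 hPB.symm
  · rintro rfl
    rw [mul_zero] at hPC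
    exact mul_ne_zero (mul_ne_zero (pow_ne_zero _ hω0) n1) n3 hPC.symm

/-- the final numerical contradiction -/
theorem nf3_num {A B C f0 f1 lam w ω t : F} (hω : ω ^ 2 + ω + 1 = 0) (h3 : (3 : F) ≠ 0)
    (ht : t ≠ 0) (ht3 : t ^ 3 ≠ 1) (hA : t * A = 1 + t + t ^ 2)
    (hB : t * B = t + t ^ 2 * ω + ω ^ 2) (hC : t * C = t + t ^ 2 * ω ^ 2 + ω)
    (hf0 : f0 ≠ 0) (hf1 : f1 ≠ 0) (hw : w ^ 3 = 1)
    (e1 : f0 * C = lam * A * f1) (e2 : A * f0 = lam * w * f1 * B)
    (e3 : B * f0 = lam * w ^ 2 * C * f1) : False := by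
  have hω3 : ω ^ 3 = 1 := by linear_combination (ω - 1) * hω
  have hωne : ω ^ 2 - ω ≠ 0 := by
    intro h
    have h0 : ω * (ω - 1) = 0 := by linear_combination h
    rcases mul_eq_zero.1 h0 with h1 | h1
    · rw [h1] at hω3
      simp at hω3
    · have h2 : ω = 1 := by linear_combination h1
      rw [h2] at hω
      apply h3
      linear_combination hω
  have hPA : t * A = (t - ω) * (t - ω ^ 2) := by
    rw [hA]; linear_combination t * hω - hω3
  have hPB : t * B = ω * (t - 1) * (t - ω) := by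
    rw [hB]; linear_combination t * hω
  have hPC : t * C = ω ^ 2 * (t - 1) * (t - ω ^ 2) := by
    rw [hC]; linear_combination t * (ω ^ 2 - ω + 1) * hω - ω * hω3
  have n1 : t - 1 ≠ 0 := by
    intro h
    apply ht3
    have : t = 1 := by linear_combination h
    rw [this, one_pow]
  have n2 : t - ω ≠ 0 := by
    intro h
    apply ht3
    have : t = ω := by linear_combination h
    rw [this, hω3]
  have n3 : t - ω ^ 2 ≠ 0 := by
    intro h
    apply ht3
    have : t = ω ^ 2 := by linear_combination h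
    rw [this]
    linear_combination (ω ^ 3 + 1) * hω3
  have hω0 : ω ≠ 0 := by
    rintro rfl
    simp at hω
  have A0 : A ≠ 0 := by
    rintro rfl
    rw [mul_zero] at hPA
    exact mul_ne_zero n2 n3 hPA.symm
  have B0 : B ≠ 0 := by
    rintro rfl
    rw [mul_zero] at hPB
    exact mul_ne_zero (mul_ne_zero hω0 n1) n2 hPB.symm
  have C0 : C ≠ 0 := by
    rintro rfl
    rw [mul_zero] at hPC
    exact mul_ne_zero (mul_ne_zero (pow_ne_zero _ hω0) n1) n3 hPC.symm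
  -- `f0^3 = lam^3 f1^3`
  have k1 : f0 ^ 3 = lam ^ 3 * f1 ^ 3 := by
    have h1 : (A * B * C) * (f0 ^ 3 - lam ^ 3 * f1 ^ 3) = 0 := by
      have h2 : (f0 * C) * (A * f0) * (B * f0) =
          (lam * A * f1) * (lam * w * f1 * B) * (lam * w ^ 2 * C * f1) := by rw [e1, e2, e3]
      linear_combination h2 + lam ^ 3 * f1 ^ 3 * A * B * C * hw
    exact sub_eq_zero.1 ((mul_eq_zero.1 h1).resolve_left (mul_ne_zero (mul_ne_zero A0 B0) C0))
  have k0 : f0 ^ 3 ≠ 0 := pow_ne_zero _ hf0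
  have k2 : C ^ 3 = A ^ 3 := by
    have h1 : (f0 * C) ^ 3 = (lam * A * f1) ^ 3 := by rw [e1]
    apply mul_left_cancel₀ k0
    linear_combination h1 - A ^ 3 * k1
  have k3 : A ^ 3 = B ^ 3 := by
    have h1 : (A * f0) ^ 3 = (lam * w * f1 * B) ^ 3 := by rw [e2]
    apply mul_left_cancel₀ k0
    linear_combination h1 - B ^ 3 * k1 + lam ^ 3 * f1 ^ 3 * B ^ 3 * hw
  -- `t = -1`
  have q1 : (t * C) ^ 3 = (t * B) ^ 3 := by rw [mul_pow, mul_pow, k2, k3]
  have q2 : (t * A) ^ 3 = (t * B) ^ 3 := by rw [mul_pow, mul_pow, k3]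
  rw [hPC, hPB] at q1
  rw [hPA, hPB] at q2
  have r1 : (t - ω ^ 2) ^ 3 = (t - ω) ^ 3 := by
    apply mul_left_cancel₀ (pow_ne_zero 3 n1)
    linear_combination q1 - (t - 1) ^ 3 * (t - ω ^ 2) ^ 3 * (ω ^ 3 + 1) * hω3 +
      (t - 1) ^ 3 * (t - ω) ^ 3 * hω3
  have r2 : (t - ω ^ 2) ^ 3 = (t - 1) ^ 3 := by
    apply mul_left_cancel₀ (pow_ne_zero 3 n2)
    linear_combination q2 + (t - 1) ^ 3 * (t - ω) ^ 3 * hω3
  have r3 : t = -1 := by
    have h1 : 3 * t * (ω ^ 2 - ω) * (t + 1) = 0 := by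
      linear_combination -r1 + (3 * t * ω - ω ^ 3 - 1 + 1) * hω3
    have h2 := (mul_eq_zero.1 h1).resolve_left
      (mul_ne_zero (mul_ne_zero h3 ht) hωne)
    linear_combination h2
  rw [r3] at r2
  have h9 : (3 : F) * 3 = 0 := by
    linear_combination r2 + ((1 + ω ^ 2) ^ 2 - (1 + ω ^ 2) * ω + ω ^ 2) * hω - hω3
  exact (mul_ne_zero h3 h3) h9

theorem noFull3 [Finite F] (hq : 8 ≤ Nat.card F) {X : Subgroup (SLn 3 F)}
    (hX : monoSL 3 F ≤ X) (hS : Star X)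
    (hZ : ∀ x ∈ X, ¬ Mono x.1 → ∀ i j, x.1 i j ≠ 0) : ∀ x ∈ X, Mono x.1 := by
  intro g hg
  by_contra hgm
  obtain ⟨ω, l, hl, hω, g01, g11, g21⟩ := ratio3 hX hS hZ hg hgm (a := 0) (b := 1) (by decide)
  obtain ⟨ω', l', hl', hω', g02, g12, g22⟩ := ratio3 hX hS hZ hg hgm (a := 0) (b := 2) (by decide)
  have hne : ω ≠ ω' := by
    rintro rfl
    apply col_not_prop g (a := 1) (b := 2) (by decide) (l' / l)
    intro i
    fin_cases i
    · change g.1 0 2 = l' / l * g.1 0 1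
      rw [g02, g01]
      field_simp
    · change g.1 1 2 = l' / l * g.1 1 1
      rw [g12, g11]
      field_simp
    · change g.1 2 2 = l' / l * g.1 2 1
      rw [g22, g21]
      field_simp
  have hω'2 : ω' = ω ^ 2 := by
    have h1 : (ω - ω') * (ω + ω' + 1) = 0 := by linear_combination hω - hω'
    have h2 := (mul_eq_zero.1 h1).resolve_left (sub_ne_zero.2 hne)
    linear_combination h2 - hω
  subst hω'2
  have hω3 : ω ^ 3 = 1 := by linear_combination (ω - 1) * hω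
  have h3 : (3 : F) ≠ 0 := by
    intro h
    have h1 : (ω - 1) ^ 2 = 0 := by linear_combination hω - ω * h
    have h2 : ω = 1 := by
      have := pow_eq_zero_iff (two_ne_zero) |>.1 h1
      linear_combination this
    apply hne
    rw [h2, one_pow]
  obtain ⟨t, ht, hte⟩ := exists_eps hq
  have ht3 : t ^ 3 ≠ 1 := hte 3 (by norm_num) (by norm_num)
  set d : Fin 3 → F := ![1, t, t⁻¹] with hd
  have hdet : (Matrix.diagonal d).det = 1 := by
    rw [Matrix.det_diagonal, Fin.prod_univ_three]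
    simp [hd, mul_inv_cancel₀ ht]
  let h : SLn 3 F := ⟨Matrix.diagonal d, hdet⟩
  have hh : h ∈ monoSL 3 F := by
    refine ⟨1, fun i k hik => ?_⟩
    by_contra hne
    exact hik (Matrix.diagonal_apply_ne _ hne)
  set x : SLn 3 F := g * h * g⁻¹ with hx
  have hxX : x ∈ X := X.mul_mem (X.mul_mem hg (hX hh)) (X.inv_mem hg)
  have hxg : x.1 * g.1 = g.1 * Matrix.diagonal d := by
    have : x * g = g * h := by
      rw [hx]
      group
    exact congrArg Subtype.val this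
  have hent : ∀ i k, x.1 i 0 * g.1 0 k + x.1 i 1 * g.1 1 k + x.1 i 2 * g.1 2 k =
      g.1 i k * d k := by
    intro i k
    have h1 := congrFun (congrFun hxg i) k
    rw [Matrix.mul_diagonal, Matrix.mul_apply, Fin.sum_univ_three] at h1
    exact h1
  have g0 := hZ g hg hgm 0 0
  have g1 := hZ g hg hgm 1 0
  have g2 := hZ g hg hgm 2 0
  -- rows
  have hrow : ∀ i (z : F), g.1 i 1 = l * z * g.1 i 0 → g.1 i 2 = l' * z ^ 2 * g.1 i 0 →
      3 * (x.1 i 0 * g.1 0 0) = g.1 i 0 * (1 + t * z + t⁻¹ * z ^ 2) ∧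
      3 * (x.1 i 1 * g.1 1 0) = g.1 i 0 * (1 + ω ^ 2 * (t * z) + ω * (t⁻¹ * z ^ 2)) := by
    intro i z hz1 hz2
    have k0 := hent i 0
    have k1 := hent i 1
    have k2 := hent i 2
    rw [g01, g11, g21, hz1] at k1
    rw [g02, g12, g22, hz2] at k2
    have d0 : d 0 = 1 := rfl
    have d1 : d 1 = t := rfl
    have d2 : d 2 = t⁻¹ := rfl
    rw [d0, mul_one] at k0
    rw [d1] at k1
    rw [d2] at k2
    have k1' : x.1 i 0 * g.1 0 0 + ω * (x.1 i 1 * g.1 1 0) + ω ^ 2 * (x.1 i 2 * g.1 2 0) =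
        g.1 i 0 * (t * z) := by
      apply mul_left_cancel₀ hl
      linear_combination k1
    have k2' : x.1 i 0 * g.1 0 0 + ω ^ 2 * (x.1 i 1 * g.1 1 0) + ω * (x.1 i 2 * g.1 2 0) =
        g.1 i 0 * (t⁻¹ * z ^ 2) := by
      apply mul_left_cancel₀ hl'
      linear_combination k2 - l' * x.1 i 2 * g.1 2 0 * ω * hω3
    obtain ⟨m0, m1⟩ := nf3_row hω k0 k1' k2'
    constructor
    · rw [m0]; ring
    · rw [m1]; ring
  obtain ⟨x00, x01⟩ := hrow 0 1 (by rw [g01]; ring) (by rw [g02]; ring)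
  obtain ⟨x10, x11⟩ := hrow 1 ω (by rw [g11]) (by rw [g12])
  obtain ⟨x20, x21⟩ := hrow 2 (ω ^ 2) (by rw [g21]) (by rw [g22])
  set A : F := 1 + t + t⁻¹ with hA
  set B : F := 1 + t * ω + t⁻¹ * ω ^ 2 with hB
  set C : F := 1 + t * ω ^ 2 + t⁻¹ * ω with hC
  have tA : t * A = 1 + t + t ^ 2 := by
    rw [hA]; field_simp; ring
  have tB : t * B = t + t ^ 2 * ω + ω ^ 2 := by
    rw [hB]; field_simp
  have tC : t * C = t + t ^ 2 * ω ^ 2 + ω := by
    rw [hC]; field_simp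
  have y00 : 3 * (x.1 0 0 * g.1 0 0) = g.1 0 0 * A := by rw [x00, hA]; ring
  have y01 : 3 * (x.1 0 1 * g.1 1 0) = g.1 0 0 * C := by rw [x01, hC]; ring
  have y10 : 3 * (x.1 1 0 * g.1 0 0) = g.1 1 0 * B := by rw [x10, hB]
  have y11 : 3 * (x.1 1 1 * g.1 1 0) = g.1 1 0 * A := by
    rw [x11, hA]
    linear_combination g.1 1 0 * (t + t⁻¹) * hω3
  have y20 : 3 * (x.1 2 0 * g.1 0 0) = g.1 2 0 * C := by
    rw [x20, hC]
    linear_combination g.1 2 0 * t⁻¹ * ω * hω3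
  have y21 : 3 * (x.1 2 1 * g.1 1 0) = g.1 2 0 * B := by
    rw [x21, hB]
    linear_combination g.1 2 0 * (t * ω + t⁻¹ * ω ^ 2) * hω3
  obtain ⟨hA0, hB0, hC0⟩ := nf3_ne hω ht3 tA tB tC
  have hxm : ¬ Mono x.1 := by
    rintro ⟨σ, hσ⟩
    have h0 : x.1 0 0 ≠ 0 := by
      intro h0
      rw [h0, zero_mul, mul_zero] at y00
      exact mul_ne_zero g0 hA0 y00.symm
    have h1 : x.1 1 0 ≠ 0 := by
      intro h0
      rw [h0, zero_mul, mul_zero] at y10
      exact mul_ne_zero g1 hB0 y10.symm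
    have h2 := (hσ 0 0 h0).trans (hσ 1 0 h1).symm
    exact absurd h2 (by decide)
  obtain ⟨w, lam, hlam, hw, z0, z1, z2⟩ := ratio3 hX hS hZ hxX hxm (a := 0) (b := 1) (by decide)
  have hw3 : w ^ 3 = 1 := by linear_combination (w - 1) * hw
  refine nf3_num hω h3 ht ht3 tA tB tC g0 g1 hw3 (lam := lam) ?_ ?_ ?_
  · -- row 0
    have h1 : (g.1 0 0 * C) * g.1 0 0 = (lam * A * g.1 1 0) * g.1 0 0 := by
      rw [← y01, z0]
      linear_combination (lam * g.1 1 0) * y00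
    exact mul_right_cancel₀ g0 h1
  · -- row 1
    have h1 : (A * g.1 0 0) * g.1 1 0 = (lam * w * g.1 1 0 * B) * g.1 1 0 := by
      have : A * g.1 0 0 * g.1 1 0 = 3 * (x.1 1 1 * g.1 1 0) * g.1 0 0 := by rw [y11]; ring
      rw [this, z1]
      linear_combination (lam * w * g.1 1 0) * y10
    exact mul_right_cancel₀ g1 h1
  · -- row 2
    have h1 : (B * g.1 0 0) * g.1 2 0 = (lam * w ^ 2 * C * g.1 1 0) * g.1 2 0 := by
      have : B * g.1 0 0 * g.1 2 0 = 3 * (x.1 2 1 * g.1 1 0) * g.1 0 0 := by rw [y21]; ring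
      rw [this, z2]
      linear_combination (lam * w ^ 2 * g.1 1 0) * y20
    exact mul_right_cancel₀ g2 h1

end Pool.Agent.Work.MP_bc729a_al.LN
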