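import Pool.Agent.Work.MP_bc729a_al.LN.Ratio3

/-! # `n = 4`: the columns of a nonmonomial element -/

namespace Pool.Agent.Work.MP_bc729a_al.LN

open Matrix

universe u

variable {F : Type u} [Field F]

theorem ratio4_perm : ∀ (s : Equiv.Perm (Fin 4)) (a : Fin 4), s a = a → s ^ 2 = 1 →
    Equiv.Perm.sign s = 1 → s = 1 := by
  decide

/-- `(0 1)(2 3)` -/
def r4u : Equiv.Perm (Fin 4) := Equiv.swap 0 1 * Equiv.swap 2 3

/-- `(0 2)(1 3)` -/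
def r4v : Equiv.Perm (Fin 4) := Equiv.swap 0 2 * Equiv.swap 1 3

/-- `(1 2 3)` -/
def r4r : Equiv.Perm (Fin 4) := Equiv.swap 1 2 * Equiv.swap 2 3

theorem r4u_sign : Equiv.Perm.sign r4u = 1 := by decide
theorem r4v_sign : Equiv.Perm.sign r4v = 1 := by decide
theorem r4r_sign : Equiv.Perm.sign r4r = 1 := by decide
theorem r4u_sq : r4u ^ 2 = 1 := by decide
theorem r4_conj1 : r4r * r4u * r4r⁻¹ = r4v := by decide
theorem r4_conj2 : r4r * r4v * r4r⁻¹ = r4u * r4v := by decide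

/-- `ρ` kills the four group -/
theorem ratio4_rho (ρ : alternatingGroup (Fin 4) →* Equiv.Perm (Fin 4)) {a : Fin 4}
    (h : ∀ π, ρ π a = a) (u v : alternatingGroup (Fin 4)) (hu : (u : Equiv.Perm (Fin 4)) = r4u)
    (hv : (v : Equiv.Perm (Fin 4)) = r4v) : ρ u = 1 ∧ ρ v = 1 := by
  let r : alternatingGroup (Fin 4) := ⟨r4r, Equiv.Perm.mem_alternatingGroup.2 r4r_sign⟩
  have e1 : r * u * r⁻¹ = v := by
    apply Subtype.ext
    change r4r * (u : Equiv.Perm (Fin 4)) * r4r⁻¹ = v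
    rw [hu, hv, r4_conj1]
  have e2 : r * v * r⁻¹ = u * v := by
    apply Subtype.ext
    change r4r * (v : Equiv.Perm (Fin 4)) * r4r⁻¹ = u * v
    rw [hu, hv, r4_conj2]
  have e3 : u ^ 2 = 1 := by
    apply Subtype.ext
    change (u : Equiv.Perm (Fin 4)) ^ 2 = 1
    rw [hu, r4u_sq]
  have s1 : Equiv.Perm.sign (ρ v) = Equiv.Perm.sign (ρ u) := by
    rw [← e1, map_mul, map_mul, map_inv]
    simp only [map_mul, map_inv]
    rw [mul_comm, ← mul_assoc, inv_mul_cancel, one_mul]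
  have s2 : Equiv.Perm.sign (ρ v) = Equiv.Perm.sign (ρ u) * Equiv.Perm.sign (ρ v) := by
    have h1 : Equiv.Perm.sign (ρ (r * v * r⁻¹)) = Equiv.Perm.sign (ρ v) := by
      rw [map_mul, map_mul, map_inv]
      simp only [map_mul, map_inv]
      rw [mul_comm, ← mul_assoc, inv_mul_cancel, one_mul]
    calc Equiv.Perm.sign (ρ v) = Equiv.Perm.sign (ρ (r * v * r⁻¹)) := h1.symm
      _ = Equiv.Perm.sign (ρ (u * v)) := by rw [e2]
      _ = Equiv.Perm.sign (ρ u) * Equiv.Perm.sign (ρ v) := by rw [map_mul, map_mul]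
  have s3 : Equiv.Perm.sign (ρ u) = 1 := by
    have h1 : 1 * Equiv.Perm.sign (ρ v) = Equiv.Perm.sign (ρ u) * Equiv.Perm.sign (ρ v) := by
      rw [one_mul]
      exact s2
    exact (mul_right_cancel h1).symm
  have hu1 : ρ u = 1 := by
    refine ratio4_perm _ a (h u) ?_ s3
    rw [← map_pow, e3, map_one]
  refine ⟨hu1, ?_⟩
  rw [← e1, map_mul, map_mul, hu1, mul_one, ← map_mul, mul_inv_cancel, map_one]

theorem ratio4 {X : Subgroup (SLn 4 F)} (hX : monoSL 4 F ≤ X) (hS : Star X)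
    (hZ : ∀ x ∈ X, ¬ Mono x.1 → ∀ i j, x.1 i j ≠ 0) {x : SLn 4 F} (hx : x ∈ X)
    (hxm : ¬ Mono x.1) {a b : Fin 4} (hab : a ≠ b) :
    ∃ l μ1 μ2 : F, l ≠ 0 ∧ μ1 ^ 2 = 1 ∧ μ2 ^ 2 = 1 ∧ ¬ (μ1 = 1 ∧ μ2 = 1) ∧
      x.1 0 b = l * x.1 0 a ∧ x.1 1 b = l * μ1 * x.1 1 a ∧ x.1 2 b = l * μ2 * x.1 2 a ∧
      x.1 3 b = l * μ1 * μ2 * x.1 3 a := by
  have hf' : ∀ i, x.1 i a ≠ 0 := fun i => hZ x hx hxm i a
  have hf : ∀ i, (fun i => x.1 i a) i ≠ 0 := hf'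
  obtain ⟨ρ, hρa, hρ⟩ := exists_rho hX hS hx hf (fun i => rfl)
  let u : alternatingGroup (Fin 4) := ⟨r4u, Equiv.Perm.mem_alternatingGroup.2 r4u_sign⟩
  let v : alternatingGroup (Fin 4) := ⟨r4v, Equiv.Perm.mem_alternatingGroup.2 r4v_sign⟩
  obtain ⟨hu1, hv1⟩ := ratio4_rho ρ hρa u v rfl rfl
  obtain ⟨μ, hμ, h⟩ := hρ u b
  obtain ⟨ν, hν, k⟩ := hρ v b
  rw [hu1] at h
  rw [hv1] at k
  have hz : ∀ i, x.1 (r4u i) a * (x.1 i a)⁻¹ * x.1 i b = μ * x.1 (r4u i) b := by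
    intro i
    have h1 := congrFun h (r4u i)
    change (Wm (fun i => x.1 i a) r4u *ᵥ fun i => x.1 i b) (r4u i) = _ at h1
    rw [Wm_mulVec] at h1
    exact h1
  have kz : ∀ i, x.1 (r4v i) a * (x.1 i a)⁻¹ * x.1 i b = ν * x.1 (r4v i) b := by
    intro i
    have h1 := congrFun k (r4v i)
    change (Wm (fun i => x.1 i a) r4v *ᵥ fun i => x.1 i b) (r4v i) = _ at h1
    rw [Wm_mulVec] at h1
    exact h1
  have e0 : x.1 1 a * (x.1 0 a)⁻¹ * x.1 0 b = μ * x.1 1 b := hz 0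
  have e1 : x.1 0 a * (x.1 1 a)⁻¹ * x.1 1 b = μ * x.1 0 b := hz 1
  have e2 : x.1 3 a * (x.1 2 a)⁻¹ * x.1 2 b = μ * x.1 3 b := hz 2
  have c0 : x.1 2 a * (x.1 0 a)⁻¹ * x.1 0 b = ν * x.1 2 b := kz 0
  have c2 : x.1 0 a * (x.1 2 a)⁻¹ * x.1 2 b = ν * x.1 0 b := kz 2
  have a0 := hf' 0
  have a1 := hf' 1
  have a2 := hf' 2
  have a3 := hf' 3
  have b0 : x.1 0 b ≠ 0 := hZ x hx hxm 0 b
  obtain ⟨l, hl⟩ : ∃ l, l = x.1 0 b * (x.1 0 a)⁻¹ := ⟨_, rfl⟩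
  have hl0 : l ≠ 0 := by
    rw [hl]
    exact mul_ne_zero b0 (inv_ne_zero a0)
  have f0 : x.1 0 b = l * x.1 0 a := by
    rw [hl]
    field_simp
  have f1 : μ * x.1 1 b = l * x.1 1 a := by
    rw [← e0, f0]
    field_simp
  have f2 : ν * x.1 2 b = l * x.1 2 a := by
    rw [← c0, f0]
    field_simp
  have hμ2 : μ ^ 2 = 1 := by
    have h1 : x.1 1 b = μ⁻¹ * (l * x.1 1 a) := by
      rw [← f1]
      field_simp
    rw [h1, f0] at e1
    field_simp at e1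
    exact e1.symm
  have hν2 : ν ^ 2 = 1 := by
    have h1 : x.1 2 b = ν⁻¹ * (l * x.1 2 a) := by
      rw [← f2]
      field_simp
    rw [h1, f0] at c2
    field_simp at c2
    exact c2.symm
  have g1 : x.1 1 b = l * μ * x.1 1 a := by
    linear_combination μ * f1 - x.1 1 b * hμ2
  have g2 : x.1 2 b = l * ν * x.1 2 a := by
    linear_combination ν * f2 - x.1 2 b * hν2
  have g3 : x.1 3 b = l * μ * ν * x.1 3 a := by
    have h1 : μ * x.1 3 b = l * ν * x.1 3 a := by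
      rw [← e2, g2]
      field_simp
    linear_combination μ * h1 - x.1 3 b * hμ2
  refine ⟨l, μ, ν, hl0, hμ2, hν2, ?_, f0, g1, g2, g3⟩
  rintro ⟨h1, h2⟩
  apply col_not_prop x hab l
  intro i
  fin_cases i
  · exact f0
  · change x.1 1 b = l * x.1 1 a
    rw [g1, h1, mul_one]
  · change x.1 2 b = l * x.1 2 a
    rw [g2, h2, mul_one]
  · change x.1 3 b = l * x.1 3 a
    rw [g3, h1, h2, mul_one, mul_one]

end Pool.Agent.Work.MP_bc729a_al.LN
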