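import Pool.Agent.Work.MP_bc729a_al.LN.AtMost
import Pool.Agent.Work.MP_bc729a_al.LN.Ratio4

/-! # `n = 4`: everything is monomial -/

namespace Pool.Agent.Work.MP_bc729a_al.LN

open Matrix

universe u

variable {F : Type u} [Field F]

theorem nf4_core [Finite F] (hq : 8 ≤ Nat.card F) (h2 : (2 : F) ≠ 0) {X : Subgroup (SLn 4 F)}
    (hX : monoSL 4 F ≤ X) (hS : Star X)
    (hZ : ∀ x ∈ X, ¬ Mono x.1 → ∀ i j, x.1 i j ≠ 0) {g : SLn 4 F} (hg : g ∈ X)
    (hgm : ¬ Mono g.1) {b1 b2 b3 : Fin 4} (h01 : (0 : Fin 4) ≠ b1) (h02 : b2 ≠ 0)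
    (h03 : b3 ≠ 0) (h12 : b2 ≠ b1) (h13 : b3 ≠ b1) {l1 l2 l3 : F} (hl1 : l1 ≠ 0)
    (hl2 : l2 ≠ 0) (hl3 : l3 ≠ 0)
    (p0 : g.1 0 b1 = l1 * g.1 0 0) (p1 : g.1 1 b1 = l1 * g.1 1 0)
    (p2 : g.1 2 b1 = -(l1 * g.1 2 0)) (p3 : g.1 3 b1 = -(l1 * g.1 3 0))
    (q0 : g.1 0 b2 = l2 * g.1 0 0) (q1 : g.1 1 b2 = -(l2 * g.1 1 0))
    (q2 : g.1 2 b2 = l2 * g.1 2 0) (q3 : g.1 3 b2 = -(l2 * g.1 3 0))
    (r0 : g.1 0 b3 = l3 * g.1 0 0) (r1 : g.1 1 b3 = -(l3 * g.1 1 0))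
    (r2 : g.1 2 b3 = -(l3 * g.1 2 0)) (r3 : g.1 3 b3 = l3 * g.1 3 0) : False := by
  obtain ⟨t, ht, hte⟩ := exists_eps hq
  have ht2 : t ^ 2 ≠ 1 := hte 2 (by norm_num) (by norm_num)
  have ht4 : t ^ 4 ≠ 1 := hte 4 (by norm_num) (by norm_num)
  obtain ⟨h, hh, hhm⟩ := exists_hd h01 ht
  set x : SLn 4 F := g * h * g⁻¹ with hx
  have hxX : x ∈ X := X.mul_mem (X.mul_mem hg (hX hhm)) (X.inv_mem hg)
  have hxg : x.1 * g.1 = g.1 * Matrix.diagonal (hd 0 b1 t) := by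
    rw [← hh]
    have : x * g = g * h := by
      rw [hx]
      group
    exact congrArg Subtype.val this
  have hent : ∀ i k, x.1 i 0 * g.1 0 k + x.1 i 1 * g.1 1 k + x.1 i 2 * g.1 2 k +
      x.1 i 3 * g.1 3 k = g.1 i k * hd 0 b1 t k := by
    intro i k
    have h1 := congrFun (congrFun hxg i) k
    rw [Matrix.mul_diagonal, Matrix.mul_apply, Fin.sum_univ_four] at h1
    exact h1
  have d0 : hd 0 b1 t 0 = t := by simp [hd]
  have d1 : hd 0 b1 t b1 = t⁻¹ := by simp [hd, h01.symm]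
  have d2 : hd 0 b1 t b2 = 1 := by simp [hd, h02, h12]
  have d3 : hd 0 b1 t b3 = 1 := by simp [hd, h03, h13]
  have g0 := hZ g hg hgm 0 0
  have g1 := hZ g hg hgm 1 0
  have g2 := hZ g hg hgm 2 0
  have h4 : (4 : F) ≠ 0 := by
    have : (4 : F) = 2 * 2 := by norm_num
    rw [this]
    exact mul_ne_zero h2 h2
  -- row 0
  have R00 := hent 0 0
  have R01 := hent 0 b1
  have R02 := hent 0 b2
  have R03 := hent 0 b3
  rw [d0] at R00
  rw [d1, p0, p1, p2, p3] at R01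
  rw [d2, q0, q1, q2, q3] at R02
  rw [d3, r0, r1, r2, r3] at R03
  have R01' : x.1 0 0 * g.1 0 0 + x.1 0 1 * g.1 1 0 - x.1 0 2 * g.1 2 0 - x.1 0 3 * g.1 3 0 =
      t⁻¹ * g.1 0 0 := by
    apply mul_left_cancel₀ hl1
    linear_combination R01
  have R02' : x.1 0 0 * g.1 0 0 - x.1 0 1 * g.1 1 0 + x.1 0 2 * g.1 2 0 - x.1 0 3 * g.1 3 0 =
      g.1 0 0 := by
    apply mul_left_cancel₀ hl2
    linear_combination R02
  have R03' : x.1 0 0 * g.1 0 0 - x.1 0 1 * g.1 1 0 - x.1 0 2 * g.1 2 0 + x.1 0 3 * g.1 3 0 =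
      g.1 0 0 := by
    apply mul_left_cancel₀ hl3
    linear_combination R03
  have x00 : 4 * x.1 0 0 = t + t⁻¹ + 2 := by
    apply mul_right_cancel₀ g0
    linear_combination R00 + R01' + R02' + R03'
  have x01 : 4 * (x.1 0 1 * g.1 1 0) = g.1 0 0 * (t + t⁻¹ - 2) := by
    linear_combination R00 + R01' - R02' - R03'
  -- row 2
  have S0 := hent 2 0
  have S1 := hent 2 b1
  have S2 := hent 2 b2
  have S3 := hent 2 b3
  rw [d0] at S0
  rw [d1, p0, p1, p2, p3] at S1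
  rw [d2, q0, q1, q2, q3] at S2
  rw [d3, r0, r1, r2, r3] at S3
  have S1' : x.1 2 0 * g.1 0 0 + x.1 2 1 * g.1 1 0 - x.1 2 2 * g.1 2 0 - x.1 2 3 * g.1 3 0 =
      -(t⁻¹ * g.1 2 0) := by
    apply mul_left_cancel₀ hl1
    linear_combination S1
  have S2' : x.1 2 0 * g.1 0 0 - x.1 2 1 * g.1 1 0 + x.1 2 2 * g.1 2 0 - x.1 2 3 * g.1 3 0 =
      g.1 2 0 := by
    apply mul_left_cancel₀ hl2
    linear_combination S2
  have S3' : x.1 2 0 * g.1 0 0 - x.1 2 1 * g.1 1 0 - x.1 2 2 * g.1 2 0 + x.1 2 3 * g.1 3 0 =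
      -g.1 2 0 := by
    apply mul_left_cancel₀ hl3
    linear_combination S3
  have x20 : 4 * (x.1 2 0 * g.1 0 0) = g.1 2 0 * (t - t⁻¹) := by
    linear_combination S0 + S1' + S2' + S3'
  have x21 : 4 * (x.1 2 1 * g.1 1 0) = g.1 2 0 * (t - t⁻¹) := by
    linear_combination S0 + S1' - S2' - S3'
  have n1 : t + t⁻¹ + 2 ≠ 0 := by
    intro h
    have : (t + 1) ^ 2 = 0 := by
      field_simp at h
      linear_combination h
    have h5 : t + 1 = 0 := pow_eq_zero_iff two_ne_zero |>.1 this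
    apply ht2
    linear_combination (t - 1) * h5
  have n2 : t - t⁻¹ ≠ 0 := by
    intro h
    apply ht2
    field_simp at h
    linear_combination h
  have hxm : ¬ Mono x.1 := by
    rintro ⟨σ, hσ⟩
    have e0 : x.1 0 0 ≠ 0 := by
      intro e0
      rw [e0, mul_zero] at x00
      exact n1 x00.symm
    have e2 : x.1 2 0 ≠ 0 := by
      intro e2
      rw [e2, zero_mul, mul_zero] at x20
      exact mul_ne_zero g2 n2 x20.symm
    have e3 := (hσ 0 0 e0).trans (hσ 2 0 e2).symm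
    exact absurd e3 (by decide)
  obtain ⟨l, μ, ν, hl, hμ, hν, -, z0, -, z2, -⟩ := ratio4 hX hS hZ hxX hxm (a := 0) (b := 1)
    (by decide)
  rw [z0] at x01
  rw [z2] at x21
  -- `f0 (t + t⁻¹ - 2) = l f1 (t + t⁻¹ + 2)`
  have w1 : g.1 0 0 * (t + t⁻¹ - 2) = l * g.1 1 0 * (t + t⁻¹ + 2) := by
    rw [← x01, ← x00]
    ring
  have w2 : l * ν * g.1 1 0 = g.1 0 0 := by
    have h5 : (l * ν * g.1 1 0) * (g.1 2 0 * (t - t⁻¹)) = g.1 0 0 * (g.1 2 0 * (t - t⁻¹)) := by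
      linear_combination (-(l * ν * g.1 1 0)) * x20 + g.1 0 0 * x21
    exact mul_right_cancel₀ (mul_ne_zero g2 n2) h5
  have w3 : g.1 0 0 ^ 2 = l ^ 2 * g.1 1 0 ^ 2 := by
    rw [← w2]
    linear_combination l ^ 2 * g.1 1 0 ^ 2 * hν
  have w4 : (t + t⁻¹ - 2) ^ 2 = (t + t⁻¹ + 2) ^ 2 := by
    apply mul_left_cancel₀ (pow_ne_zero 2 g0)
    have h5 : (g.1 0 0 * (t + t⁻¹ - 2)) ^ 2 = (l * g.1 1 0 * (t + t⁻¹ + 2)) ^ 2 := by rw [w1]
    linear_combination h5 - (t + t⁻¹ + 2) ^ 2 * w3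
  have w5 : 4 * (2 * (t + t⁻¹)) = 0 := by linear_combination -w4
  have w6 : t + t⁻¹ = 0 :=
    (mul_eq_zero.1 ((mul_eq_zero.1 w5).resolve_left h4)).resolve_left h2
  apply ht4
  have w7 : t ^ 2 + 1 = 0 := by
    field_simp at w6
    linear_combination w6
  linear_combination (t ^ 2 - 1) * w7

/-- column `b` is a sign pattern times column `0` -/
def Nf4Ty (g : SLn 4 F) (b : Fin 4) (e1 e2 e3 : F) : Prop :=
  ∃ l : F, l ≠ 0 ∧ g.1 0 b = l * g.1 0 0 ∧ g.1 1 b = e1 * (l * g.1 1 0) ∧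
    g.1 2 b = e2 * (l * g.1 2 0) ∧ g.1 3 b = e3 * (l * g.1 3 0)

theorem nf4_same {g : SLn 4 F} {b b' : Fin 4} (hb : b ≠ b') {e1 e2 e3 : F}
    (h : Nf4Ty g b e1 e2 e3) (h' : Nf4Ty g b' e1 e2 e3) : False := by
  obtain ⟨l, hl, a0, a1, a2, a3⟩ := h
  obtain ⟨l', hl', c0, c1, c2, c3⟩ := h'
  apply col_not_prop g hb (l' / l)
  intro i
  fin_cases i
  · change g.1 0 b' = l' / l * g.1 0 b
    rw [a0, c0]
    field_simp
  · change g.1 1 b' = l' / l * g.1 1 b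
    rw [a1, c1]
    field_simp
  · change g.1 2 b' = l' / l * g.1 2 b
    rw [a2, c2]
    field_simp
  · change g.1 3 b' = l' / l * g.1 3 b
    rw [a3, c3]
    field_simp

theorem noFull4 [Finite F] (hq : 8 ≤ Nat.card F) {X : Subgroup (SLn 4 F)}
    (hX : monoSL 4 F ≤ X) (hS : Star X)
    (hZ : ∀ x ∈ X, ¬ Mono x.1 → ∀ i j, x.1 i j ≠ 0) : ∀ x ∈ X, Mono x.1 := by
  intro g hg
  by_contra hgm
  have hty : ∀ b : Fin 4, b ≠ 0 → (Nf4Ty g b 1 (-1) (-1) ∨ Nf4Ty g b (-1) 1 (-1) ∨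
      Nf4Ty g b (-1) (-1) 1) ∧ (2 : F) ≠ 0 := by
    intro b hb
    obtain ⟨l, μ, ν, hl, hμ, hν, hne, z0, z1, z2, z3⟩ := ratio4 hX hS hZ hg hgm hb.symm
    have h2 : (2 : F) ≠ 0 := by
      intro h2
      have hm : (-1 : F) = 1 := by linear_combination -h2
      apply hne
      constructor
      · rcases mul_self_eq_one_iff.1 (by rw [← pow_two, hμ] : μ * μ = 1) with h | h
        · exact h
        · rw [h, hm]
      · rcases mul_self_eq_one_iff.1 (by rw [← pow_two, hν] : ν * ν = 1) with h | h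
        · exact h
        · rw [h, hm]
    refine ⟨?_, h2⟩
    rcases mul_self_eq_one_iff.1 (by rw [← pow_two, hμ] : μ * μ = 1) with h | h <;>
    rcases mul_self_eq_one_iff.1 (by rw [← pow_two, hν] : ν * ν = 1) with h' | h'
    · exact absurd ⟨h, h'⟩ hne
    · left
      rw [h, h'] at z3
      rw [h] at z1
      rw [h'] at z2
      exact ⟨l, hl, z0, by rw [z1]; ring, by rw [z2]; ring, by rw [z3]; ring⟩
    · right; left
      rw [h, h'] at z3
      rw [h] at z1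
      rw [h'] at z2
      exact ⟨l, hl, z0, by rw [z1]; ring, by rw [z2]; ring, by rw [z3]; ring⟩
    · right; right
      rw [h, h'] at z3
      rw [h] at z1
      rw [h'] at z2
      exact ⟨l, hl, z0, by rw [z1]; ring, by rw [z2]; ring, by rw [z3]; ring⟩
  have h2 := (hty 1 (by decide)).2
  have core : ∀ b1 b2 b3 : Fin 4, (0 : Fin 4) ≠ b1 → b2 ≠ 0 → b3 ≠ 0 → b2 ≠ b1 → b3 ≠ b1 →
      Nf4Ty g b1 1 (-1) (-1) → Nf4Ty g b2 (-1) 1 (-1) → Nf4Ty g b3 (-1) (-1) 1 → False := by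
    rintro b1 b2 b3 h01 h02 h03 h12 h13 ⟨l1, hl1, p0, p1, p2, p3⟩ ⟨l2, hl2, q0, q1, q2, q3⟩
      ⟨l3, hl3, r0, r1, r2, r3⟩
    exact nf4_core hq h2 hX hS hZ hg hgm h01 h02 h03 h12 h13 hl1 hl2 hl3 p0
      (by rw [p1]; ring) (by rw [p2]; ring) (by rw [p3]; ring) q0 (by rw [q1]; ring)
      (by rw [q2]; ring) (by rw [q3]; ring) r0 (by rw [r1]; ring) (by rw [r2]; ring)
      (by rw [r3]; ring)
  have d12 : (1 : Fin 4) ≠ 2 := by decide
  have d13 : (1 : Fin 4) ≠ 3 := by decide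
  have d23 : (2 : Fin 4) ≠ 3 := by decide
  rcases (hty 1 (by decide)).1 with h | h | h <;> rcases (hty 2 (by decide)).1 with k | k | k <;>
    rcases (hty 3 (by decide)).1 with m | m | m
  all_goals first
    | exact nf4_same d12 h k
    | exact nf4_same d13 h m
    | exact nf4_same d23 k m
    | exact core 1 2 3 (by decide) (by decide) (by decide) (by decide) (by decide) h k m
    | exact core 1 3 2 (by decide) (by decide) (by decide) (by decide) (by decide) h m k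
    | exact core 2 1 3 (by decide) (by decide) (by decide) (by decide) (by decide) k h m
    | exact core 2 3 1 (by decide) (by decide) (by decide) (by decide) (by decide) k m h
    | exact core 3 1 2 (by decide) (by decide) (by decide) (by decide) (by decide) m h k
    | exact core 3 2 1 (by decide) (by decide) (by decide) (by decide) (by decide) m k h

end Pool.Agent.Work.MP_bc729a_al.LN
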