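import Pool.Agent.Work.MP_bc729a_al.LN.Elem

/-! # Coefficients of a circulant combination -/

namespace Pool.Agent.Work.MP_bc729a_al.LN

universe u

variable {F : Type u} [Field F]

open Classical in
/-- number of zeros -/
noncomputable def zc (x1 x2 x3 : F) : ℕ :=
  (if x1 = 0 then 1 else 0) + (if x2 = 0 then 1 else 0) + (if x3 = 0 then 1 else 0)

theorem coef_rot (x1 x2 x3 : F) : zc x1 x2 x3 = zc x2 x3 x1 := by
  unfold zc
  ring

/-- the case `x3 = 0` -/
theorem coef_aux [Finite F] (hq : 8 ≤ Nat.card F) {x1 x2 : F} (h1 : x1 ≠ 0) (h2 : x2 ≠ 0) :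
    ∃ α β γ : F, α ≠ 0 ∧ β ≠ 0 ∧ α + β + γ ≠ 0 ∧
      zc (α * x1 + β * 0 + γ * x2) (α * x2 + β * x1 + γ * 0) (α * 0 + β * x2 + γ * x1) = 1 := by
  classical
  by_cases h12 : x1 = x2
  · subst h12
    obtain ⟨β, hβ⟩ := exists_not_mem ({0, 1, -1} : Finset F)
      (lt_of_le_of_lt Finset.card_le_three (by omega))
    simp only [Finset.mem_insert, Finset.mem_singleton, not_or] at hβ
    refine ⟨1, β, -1, one_ne_zero, hβ.1, ?_, ?_⟩
    · have : (1 : F) + β + -1 = β := by ring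
      rw [this]
      exact hβ.1
    · have e1 : (1 : F) * x1 + β * 0 + -1 * x1 = 0 := by ring
      have e2 : (1 : F) * x1 + β * x1 + -1 * 0 = (1 + β) * x1 := by ring
      have e3 : (1 : F) * 0 + β * x1 + -1 * x1 = (β - 1) * x1 := by ring
      have n2 : (1 + β) * x1 ≠ 0 := mul_ne_zero (fun h => hβ.2.2 (by linear_combination h)) h1
      have n3 : (β - 1) * x1 ≠ 0 := mul_ne_zero (fun h => hβ.2.1 (by linear_combination h)) h1
      rw [e1, e2, e3]
      unfold zc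
      rw [if_pos rfl, if_neg n2, if_neg n3]
  · refine ⟨1, -x2 / x1, 0, one_ne_zero, div_ne_zero (neg_ne_zero.2 h2) h1, ?_, ?_⟩
    · have : (1 : F) + -x2 / x1 + 0 = (x1 - x2) / x1 := by field_simp; ring
      rw [this]
      exact div_ne_zero (sub_ne_zero.2 h12) h1
    · have e1 : (1 : F) * x1 + -x2 / x1 * 0 + 0 * x2 = x1 := by ring
      have e2 : (1 : F) * x2 + -x2 / x1 * x1 + 0 * 0 = 0 := by field_simp; ring
      have e3 : (1 : F) * 0 + -x2 / x1 * x2 + 0 * x1 = -x2 / x1 * x2 := by ring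
      have n3 : -x2 / x1 * x2 ≠ 0 := mul_ne_zero (div_ne_zero (neg_ne_zero.2 h2) h1) h2
      rw [e1, e2, e3]
      unfold zc
      rw [if_neg h1, if_pos rfl, if_neg n3]

theorem coef [Finite F] (hq : 8 ≤ Nat.card F) {x1 x2 x3 : F} (hz : zc x1 x2 x3 ≤ 1) :
    ∃ α β γ : F, α ≠ 0 ∧ β ≠ 0 ∧ α + β + γ ≠ 0 ∧
      zc (α * x1 + β * x3 + γ * x2) (α * x2 + β * x1 + γ * x3) (α * x3 + β * x2 + γ * x1) =
        zc x1 x2 x3 := by
  classical
  by_cases h1 : x1 = 0
  · have h2 : x2 ≠ 0 := by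
      rintro h2
      unfold zc at hz
      rw [if_pos h1, if_pos h2] at hz
      split_ifs at hz <;> omega
    have h3 : x3 ≠ 0 := by
      rintro h3
      unfold zc at hz
      rw [if_pos h1, if_pos h3] at hz
      split_ifs at hz <;> omega
    have hzz : zc x1 x2 x3 = 1 := by
      unfold zc
      rw [if_pos h1, if_neg h2, if_neg h3]
    obtain ⟨α, β, γ, ha, hb, hs, hc⟩ := coef_aux hq h2 h3
    refine ⟨α, β, γ, ha, hb, hs, ?_⟩
    rw [coef_rot, hzz, h1, ← hc]
  by_cases h2 : x2 = 0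
  · have h3 : x3 ≠ 0 := by
      rintro h3
      unfold zc at hz
      rw [if_pos h2, if_pos h3] at hz
      split_ifs at hz <;> omega
    have hzz : zc x1 x2 x3 = 1 := by
      unfold zc
      rw [if_neg h1, if_pos h2, if_neg h3]
    obtain ⟨α, β, γ, ha, hb, hs, hc⟩ := coef_aux hq h3 h1
    refine ⟨α, β, γ, ha, hb, hs, ?_⟩
    rw [coef_rot, coef_rot, hzz, h2, ← hc]
  by_cases h3 : x3 = 0
  · have hzz : zc x1 x2 x3 = 1 := by
      unfold zc
      rw [if_neg h1, if_neg h2, if_pos h3]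
    obtain ⟨α, β, γ, ha, hb, hs, hc⟩ := coef_aux hq h1 h2
    refine ⟨α, β, γ, ha, hb, hs, ?_⟩
    rw [hzz, h3, ← hc]
  · have hzz : zc x1 x2 x3 = 0 := by
      unfold zc
      rw [if_neg h1, if_neg h2, if_neg h3]
    obtain ⟨β, hβ⟩ := exists_not_mem ({0, -1, -x1 / x3, -x2 / x1, -x3 / x2} : Finset F)
      (lt_of_le_of_lt Finset.card_le_five (by omega))
    simp only [Finset.mem_insert, Finset.mem_singleton, not_or] at hβ
    obtain ⟨b0, b1, b2, b3, b4⟩ := hβ
    refine ⟨1, β, 0, one_ne_zero, b0, fun h => b1 (by linear_combination h), ?_⟩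
    have n1 : (1 : F) * x1 + β * x3 + 0 * x2 ≠ 0 := fun h => b2 (by
      rw [eq_div_iff h3]; linear_combination h)
    have n2 : (1 : F) * x2 + β * x1 + 0 * x3 ≠ 0 := fun h => b3 (by
      rw [eq_div_iff h1]; linear_combination h)
    have n3 : (1 : F) * x3 + β * x2 + 0 * x1 ≠ 0 := fun h => b4 (by
      rw [eq_div_iff h2]; linear_combination h)
    rw [hzz]
    unfold zc
    rw [if_neg n1, if_neg n2, if_neg n3]

end Pool.Agent.Work.MP_bc729a_al.LN
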