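import Pool.Agent.Work.MP_bc729a_al.LN.NoFull5
import Pool.Agent.Work.MP_bc729a_al.LN.Coef

/-! # For `n ≥ 5` everything is monomial -/

namespace Pool.Agent.Work.MP_bc729a_al.LN

open Matrix

universe u

variable {n : ℕ} {F : Type u} [Field F]

theorem two_outside (hn : 5 ≤ n) (i1 i2 i3 : Fin n) : ∃ k k' : Fin n, k ≠ k' ∧
    (k ≠ i1 ∧ k ≠ i2 ∧ k ≠ i3) ∧ (k' ≠ i1 ∧ k' ≠ i2 ∧ k' ≠ i3) := by
  have hc : 1 < (Finset.univ \ {i1, i2, i3} : Finset (Fin n)).card := by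
    have h3 : ({i1, i2, i3} : Finset (Fin n)).card ≤ 3 := Finset.card_le_three
    have h4 := Finset.le_card_sdiff ({i1, i2, i3} : Finset (Fin n)) Finset.univ
    rw [Finset.card_univ, Fintype.card_fin] at h4
    omega
  obtain ⟨k, hk, k', hk', hne⟩ := Finset.one_lt_card.1 hc
  simp only [Finset.mem_sdiff, Finset.mem_univ, true_and, Finset.mem_insert,
    Finset.mem_singleton, not_or] at hk hk'
  exact ⟨k, k', hne, hk, hk'⟩

theorem three_outside (hn : 5 ≤ n) (j : Fin n) : ∃ i1 i2 i3 : Fin n, i1 ≠ i2 ∧ i2 ≠ i3 ∧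
    i1 ≠ i3 ∧ i1 ≠ j ∧ i2 ≠ j ∧ i3 ≠ j := by
  have hc : 2 < (Finset.univ.erase j : Finset (Fin n)).card := by
    rw [Finset.card_erase_of_mem (Finset.mem_univ _), Finset.card_univ, Fintype.card_fin]
    omega
  obtain ⟨i1, h1, i2, h2, i3, h3, h12, h13, h23⟩ := Finset.two_lt_card.1 hc
  exact ⟨i1, i2, i3, h12, h23, h13, Finset.ne_of_mem_erase h1, Finset.ne_of_mem_erase h2,
    Finset.ne_of_mem_erase h3⟩

/-- a vector with exactly one zero is mapped to any other one by a monomial matrix -/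
theorem exists_mono_map {y v : Fin n → F} {j k : Fin n} (hj : y j = 0)
    (hy : ∀ i, i ≠ j → y i ≠ 0) (hk : v k = 0) (hv : ∀ i, i ≠ k → v i ≠ 0) :
    ∃ m : SLn n F, m ∈ monoSL n F ∧ m.1 *ᵥ y = v := by
  classical
  set τ : Equiv.Perm (Fin n) := Equiv.swap j k with hτ
  have hτj : τ j = k := Equiv.swap_apply_left j k
  have hτk : ∀ i, i ≠ j → τ i ≠ k := by
    intro i hi h
    rw [← hτj] at h
    exact hi (τ.injective h)
  set e0 : Fin n → F := fun i => if i = j then 1 else v (τ i) * (y i)⁻¹ with he0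
  have e0n : ∀ i, e0 i ≠ 0 := by
    intro i
    simp only [he0]
    split_ifs with h
    · exact one_ne_zero
    · exact mul_ne_zero (hv _ (hτk i h)) (inv_ne_zero (hy i h))
  set D : F := ((Equiv.Perm.sign τ : ℤ) : F) * ∏ i, e0 i with hD
  have hs : ((Equiv.Perm.sign τ : ℤ) : F) ≠ 0 := by
    rcases Int.units_eq_one_or (Equiv.Perm.sign τ) with h | h
    · rw [h]; simp
    · rw [h]; simp
  have hD0 : D ≠ 0 := mul_ne_zero hs (Finset.prod_ne_zero_iff.2 fun i _ => e0n i)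
  set e : Fin n → F := fun i => if i = j then D⁻¹ else e0 i with he
  have hprod : ∏ i, e i = D⁻¹ * ∏ i, e0 i := by
    rw [← Finset.mul_prod_erase Finset.univ e (Finset.mem_univ j),
      ← Finset.mul_prod_erase Finset.univ e0 (Finset.mem_univ j)]
    have h1 : e j = D⁻¹ := by simp [he]
    have h2 : e0 j = 1 := by simp [he0]
    rw [h1, h2, one_mul]
    congr 1
    refine Finset.prod_congr rfl fun i hi => ?_
    simp [he, Finset.ne_of_mem_erase hi]
  have h1f : ∀ i : Fin n, (fun _ => (1 : F)) i ≠ 0 := fun _ => one_ne_zero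
  have hdet : (Wm (fun _ => (1 : F)) τ * Matrix.diagonal e).det = 1 := by
    rw [Matrix.det_mul, det_Wm h1f, Matrix.det_diagonal, hprod, mul_left_comm, ← hD]
    exact inv_mul_cancel₀ hD0
  refine ⟨⟨_, hdet⟩, ?_, ?_⟩
  · refine mono_mul (mono_Wm _ _) ⟨1, fun i l h => ?_⟩
    by_contra hne
    exact h (Matrix.diagonal_apply_ne _ hne)
  · change (Wm (fun _ => (1 : F)) τ * Matrix.diagonal e) *ᵥ y = v
    ext i
    obtain ⟨l, rfl⟩ := τ.surjective i
    rw [← Matrix.mulVec_mulVec, Wm_mulVec, Matrix.mulVec_diagonal, inv_one, one_mul, one_mul]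
    by_cases hl : l = j
    · rw [hl, hj, mul_zero, hτj, hk]
    · simp only [he, he0, if_neg hl]
      have := hy l hl
      field_simp

theorem zc_eq_zero {x1 x2 x3 : F} (h : zc x1 x2 x3 = 0) : x1 ≠ 0 ∧ x2 ≠ 0 ∧ x3 ≠ 0 := by
  by_cases h1 : x1 = 0 <;> by_cases h2 : x2 = 0 <;> by_cases h3 : x3 = 0 <;>
    simp_all [zc]

theorem zc_eq_one {x1 x2 x3 : F} (h : zc x1 x2 x3 = 1) : (x1 = 0 ∧ x2 ≠ 0 ∧ x3 ≠ 0) ∨
    (x1 ≠ 0 ∧ x2 = 0 ∧ x3 ≠ 0) ∨ (x1 ≠ 0 ∧ x2 ≠ 0 ∧ x3 = 0) := by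
  by_cases h1 : x1 = 0 <;> by_cases h2 : x2 = 0 <;> by_cases h3 : x3 = 0 <;>
    simp_all [zc]

theorem zc_le_one {x1 x2 x3 : F} (h1 : ¬ (x1 = 0 ∧ x2 = 0)) (h2 : ¬ (x1 = 0 ∧ x3 = 0))
    (h3 : ¬ (x2 = 0 ∧ x3 = 0)) : zc x1 x2 x3 ≤ 1 := by
  by_cases a1 : x1 = 0 <;> by_cases a2 : x2 = 0 <;> by_cases a3 : x3 = 0 <;>
    simp_all [zc]

theorem noOne5 [Finite F] (hq : 8 ≤ Nat.card F) (hn : 5 ≤ n) {X : Subgroup (SLn n F)}
    (hX : monoSL n F ≤ X) (hS : Star X) (hA : AtMostOne X) : ∀ x ∈ X, Mono x.1 := by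
  intro g hg
  by_contra hgm
  have hA' := hA g hg hgm
  set a : Fin n := ⟨0, by omega⟩
  obtain ⟨j, hj⟩ := noFull5 hn hX hS hA hg hgm a
  have hja : ∀ i, i ≠ j → g.1 i a ≠ 0 := fun i hi h0 => hA' a i j hi h0 hj
  set f : Fin n → F := fun i => if i = j then 1 else g.1 i a with hf
  have hfne : ∀ i, f i ≠ 0 := by
    intro i
    simp only [hf]
    split_ifs with h
    · exact one_ne_zero
    · exact hja i h
  obtain ⟨i1, i2, i3, h12, h23, h13, h1j, h2j, h3j⟩ := three_outside hn j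
  obtain ⟨π, e1, e2, e3, e4, hπ3⟩ := exists_three h12 h23 h13
  obtain ⟨W, hW, hWm⟩ := exists_WSL hfne
  set w : SLn n F := W π with hw
  have hwX : w ∈ X := hX (hWm π)
  have hw3 : w * (w * w) = 1 := by
    rw [hw, ← map_mul, ← map_mul, ← pow_two, ← pow_succ', hπ3, map_one]
  have hπj : (π : Equiv.Perm (Fin n)) j = j := e4 j h1j.symm h2j.symm h3j.symm
  -- coordinates
  have hzc : ∀ (y : Fin n → F) (k : Fin n),
      (w.1 *ᵥ y) ((π : Equiv.Perm (Fin n)) k) * (f ((π : Equiv.Perm (Fin n)) k))⁻¹ =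
        y k * (f k)⁻¹ := by
    intro y k
    rw [hw, hW, Wm_mulVec]
    have := hfne k
    have := hfne ((π : Equiv.Perm (Fin n)) k)
    field_simp
  have hfixa : w.1 *ᵥ (fun i => g.1 i a) = (1 : F) • fun i => g.1 i a := by
    rw [one_smul]
    ext i
    obtain ⟨k, rfl⟩ := (π : Equiv.Perm (Fin n)).surjective i
    have h1 := hzc (fun i => g.1 i a) k
    have h2 := hfne ((π : Equiv.Perm (Fin n)) k)
    by_cases hk : k = j
    · rw [hk, hπj] at h1 ⊢
      have h3 := hfne j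
      exact mul_right_cancel₀ (inv_ne_zero h3) h1
    · have hk' : (π : Equiv.Perm (Fin n)) k ≠ j := by
        intro h
        rw [← hπj] at h
        exact hk ((π : Equiv.Perm (Fin n)).injective h)
      have h3 : f k = g.1 k a := by simp [hf, hk]
      have h4 : f ((π : Equiv.Perm (Fin n)) k) = g.1 ((π : Equiv.Perm (Fin n)) k) a := by
        simp [hf, hk']
      rw [h3, h4] at h1
      have h5 := hja k hk
      have h6 := hja _ hk'
      rw [mul_inv_cancel₀ h5] at h1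
      exact eq_of_mul_inv_eq_one h1
  obtain ⟨σ, μ, hσa, hμ, hσ⟩ := col_action hS hg hwX hfixa
  have hww : ∀ y : Fin n → F, w.1 *ᵥ (w.1 *ᵥ (w.1 *ᵥ y)) = y := by
    intro y
    rw [Matrix.mulVec_mulVec, Matrix.mulVec_mulVec]
    have : (w.1 * w.1) * w.1 = 1 := by
      have := congrArg Subtype.val hw3
      rw [Matrix.mul_assoc]
      exact this
    rw [this, Matrix.one_mulVec]
  have hσ2 : ∀ b, w.1 *ᵥ (w.1 *ᵥ (fun i => g.1 i b)) = (μ b * μ (σ b)) • fun i => g.1 i (σ (σ b)) := by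
    intro b
    rw [hσ b, Matrix.mulVec_smul, hσ (σ b), smul_smul]
  have hσ3 : ∀ b, σ (σ (σ b)) = b := by
    have h1 : σ * (σ * σ) = 1 := by
      refine col_unique (g := g) (μ := fun b => μ b * μ (σ b) * μ (σ (σ b))) (ν := fun _ => 1)
        (fun b => mul_ne_zero (mul_ne_zero (hμ _) (hμ _)) (hμ _)) fun b => ?_
      have h2 := hww (fun i => g.1 i b)
      rw [hσ2 b, Matrix.mulVec_smul, hσ (σ (σ b)), smul_smul] at h2
      rw [one_smul]
      exact h2
    intro b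
    exact congrArg (fun ρ : Equiv.Perm (Fin n) => ρ b) h1
  have hnf := not_all_fixed hn hA hg hgm hfne h12 e1 e4
  push Not at hnf
  obtain ⟨b, hb⟩ := hnf
  have hσb : σ b ≠ b := by
    intro h
    apply hb (μ b)
    have h1 := hσ b
    rw [h, hw, hW] at h1
    exact h1
  have hσσb : σ (σ b) ≠ b := by
    intro h
    have := hσ3 b
    rw [h] at this
    exact hσb this
  have hσσb' : σ (σ b) ≠ σ b := fun h => hσb (σ.injective h)
  -- the zero of column `b`
  obtain ⟨k, hk⟩ := noFull5 hn hX hS hA hg hgm b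
  have hkb : ∀ i, i ≠ k → g.1 i b ≠ 0 := fun i hi h0 => hA' b i k hi h0 hk
  set z : Fin n → F := fun i => g.1 i b * (f i)⁻¹ with hz
  have hz0 : ∀ i, z i = 0 ↔ i = k := by
    intro i
    constructor
    · intro h
      by_contra hne
      exact mul_ne_zero (hkb i hne) (inv_ne_zero (hfne i)) h
    · rintro rfl
      simp only [hz]
      rw [hk, zero_mul]
  obtain ⟨α, β, γ, hα, hβ, hs, hcz⟩ := coef hq (x1 := z i1) (x2 := z i2) (x3 := z i3)
    (zc_le_one (fun h => h12 (((hz0 _).1 h.1).trans ((hz0 _).1 h.2).symm))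
      (fun h => h13 (((hz0 _).1 h.1).trans ((hz0 _).1 h.2).symm))
      (fun h => h23 (((hz0 _).1 h.1).trans ((hz0 _).1 h.2).symm)))
  set y : Fin n → F := fun i => g.1 i b with hy
  set v : Fin n → F := α • y + β • (w.1 *ᵥ y) + γ • (w.1 *ᵥ (w.1 *ᵥ y)) with hv
  have hzw : ∀ i, (w.1 *ᵥ y) ((π : Equiv.Perm (Fin n)) i) *
      (f ((π : Equiv.Perm (Fin n)) i))⁻¹ = z i := fun i => hzc y i
  have hzww : ∀ i, (w.1 *ᵥ (w.1 *ᵥ y)) ((π : Equiv.Perm (Fin n)) ((π : Equiv.Perm (Fin n)) i)) *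
      (f ((π : Equiv.Perm (Fin n)) ((π : Equiv.Perm (Fin n)) i)))⁻¹ = z i := by
    intro i
    rw [hzc (w.1 *ᵥ y), hzc y]
  have hvi : ∀ i, v i * (f i)⁻¹ = α * (y i * (f i)⁻¹) + β * ((w.1 *ᵥ y) i * (f i)⁻¹) +
      γ * ((w.1 *ᵥ (w.1 *ᵥ y)) i * (f i)⁻¹) := by
    intro i
    simp only [hv, Pi.add_apply, Pi.smul_apply, smul_eq_mul]
    ring
  have w1 := hzw i3
  have w2 := hzw i1
  have w3 := hzw i2
  rw [e3] at w1
  rw [e1] at w2
  rw [e2] at w3
  have ww1 := hzww i2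
  have ww2 := hzww i3
  have ww3 := hzww i1
  rw [e2, e3] at ww1
  rw [e3, e1] at ww2
  rw [e1, e2] at ww3
  have v1 : v i1 * (f i1)⁻¹ = α * z i1 + β * z i3 + γ * z i2 := by
    rw [hvi, w1, ww1]
  have v2 : v i2 * (f i2)⁻¹ = α * z i2 + β * z i1 + γ * z i3 := by
    rw [hvi, w2, ww2]
  have v3 : v i3 * (f i3)⁻¹ = α * z i3 + β * z i2 + γ * z i1 := by
    rw [hvi, w3, ww3]
  have vo : ∀ i, i ≠ i1 → i ≠ i2 → i ≠ i3 → v i * (f i)⁻¹ = (α + β + γ) * z i := by
    intro i n1 n2 n3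
    have h1 := hzw i
    have h2 := hzww i
    rw [e4 i n1 n2 n3] at h1 h2
    rw [e4 i n1 n2 n3] at h2
    rw [hvi, h1, h2]
    ring
  have hv0 : ∀ i, v i = 0 ↔ v i * (f i)⁻¹ = 0 := by
    intro i
    constructor
    · intro h
      rw [h, zero_mul]
    · intro h
      exact (mul_eq_zero.1 h).resolve_right (inv_ne_zero (hfne i))
  obtain ⟨k', hk', hk''⟩ : ∃ k', v k' = 0 ∧ ∀ i, i ≠ k' → v i ≠ 0 := by
    by_cases hko : k ≠ i1 ∧ k ≠ i2 ∧ k ≠ i3
    · have n1 : z i1 ≠ 0 := fun h => hko.1 ((hz0 _).1 h).symm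
      have n2 : z i2 ≠ 0 := fun h => hko.2.1 ((hz0 _).1 h).symm
      have n3 : z i3 ≠ 0 := fun h => hko.2.2 ((hz0 _).1 h).symm
      have hzz : zc (z i1) (z i2) (z i3) = 0 := by simp [zc, n1, n2, n3]
      rw [hzz] at hcz
      obtain ⟨c1, c2, c3⟩ := zc_eq_zero hcz
      refine ⟨k, ?_, ?_⟩
      · rw [hv0, vo k hko.1 hko.2.1 hko.2.2, (hz0 k).2 rfl, mul_zero]
      · intro i hi
        rw [Ne, hv0]
        by_cases a1 : i = i1
        · rw [a1, v1]; exact c1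
        by_cases a2 : i = i2
        · rw [a2, v2]; exact c2
        by_cases a3 : i = i3
        · rw [a3, v3]; exact c3
        · rw [vo i a1 a2 a3]
          exact mul_ne_zero hs fun h => hi ((hz0 i).1 h)
    · have hzz : zc (z i1) (z i2) (z i3) = 1 := by
        have n1 : z i1 = 0 ↔ i1 = k := hz0 i1
        have n2 : z i2 = 0 ↔ i2 = k := hz0 i2
        have n3 : z i3 = 0 ↔ i3 = k := hz0 i3
        by_cases a1 : k = i1
        · have b1 : z i1 = 0 := n1.2 a1.symm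
          have b2 : z i2 ≠ 0 := fun h => h12 (((n2.1 h).trans a1).symm)
          have b3 : z i3 ≠ 0 := fun h => h13 (((n3.1 h).trans a1).symm)
          simp [zc, b1, b2, b3]
        by_cases a2 : k = i2
        · have b2 : z i2 = 0 := n2.2 a2.symm
          have b1 : z i1 ≠ 0 := fun h => h12 ((n1.1 h).trans a2)
          have b3 : z i3 ≠ 0 := fun h => h23 (((n3.1 h).trans a2).symm)
          simp [zc, b1, b2, b3]
        by_cases a3 : k = i3
        · have b3 : z i3 = 0 := n3.2 a3.symm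
          have b1 : z i1 ≠ 0 := fun h => h13 ((n1.1 h).trans a3)
          have b2 : z i2 ≠ 0 := fun h => h23 ((n2.1 h).trans a3)
          simp [zc, b1, b2, b3]
        · exact absurd ⟨a1, a2, a3⟩ hko
      have hrest : ∀ i, i ≠ i1 → i ≠ i2 → i ≠ i3 → v i ≠ 0 := by
        intro i a1 a2 a3
        rw [Ne, hv0, vo i a1 a2 a3]
        refine mul_ne_zero hs fun h => ?_
        have := (hz0 i).1 h
        rw [this] at a1 a2 a3
        exact hko ⟨a1, a2, a3⟩
      rw [hzz] at hcz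
      rcases zc_eq_one hcz with ⟨c1, c2, c3⟩ | ⟨c1, c2, c3⟩ | ⟨c1, c2, c3⟩
      · refine ⟨i1, by rw [hv0, v1]; exact c1, fun i hi => ?_⟩
        by_cases a2 : i = i2
        · rw [a2, Ne, hv0, v2]; exact c2
        by_cases a3 : i = i3
        · rw [a3, Ne, hv0, v3]; exact c3
        · exact hrest i hi a2 a3
      · refine ⟨i2, by rw [hv0, v2]; exact c2, fun i hi => ?_⟩
        by_cases a1 : i = i1
        · rw [a1, Ne, hv0, v1]; exact c1
        by_cases a3 : i = i3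
        · rw [a3, Ne, hv0, v3]; exact c3
        · exact hrest i a1 hi a3
      · refine ⟨i3, by rw [hv0, v3]; exact c3, fun i hi => ?_⟩
        by_cases a1 : i = i1
        · rw [a1, Ne, hv0, v1]; exact c1
        by_cases a2 : i = i2
        · rw [a2, Ne, hv0, v2]; exact c2
        · exact hrest i a1 a2 hi
  obtain ⟨m, hm, hmy⟩ := exists_mono_map (y := fun i => g.1 i a) hj hja hk' hk''
  set x : SLn n F := g⁻¹ * m * g with hx
  have hxX : x ∈ X := X.mul_mem (X.mul_mem (X.inv_mem hg) (hX hm)) hg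
  have hxa : (fun i => x.1 i a) = α • Pi.single b 1 + (β * μ b) • Pi.single (σ b) 1 +
      (γ * (μ b * μ (σ b))) • Pi.single (σ (σ b)) 1 := by
    rw [← rho_col x a]
    have h1 : x.1 *ᵥ Pi.single a 1 = (g⁻¹).1 *ᵥ (m.1 *ᵥ (g.1 *ᵥ Pi.single a 1)) := by
      rw [Matrix.mulVec_mulVec, Matrix.mulVec_mulVec]
      rfl
    rw [h1, rho_col, hmy, hv, hσ2 b, hy, hσ b, Matrix.mulVec_add, Matrix.mulVec_add,
      Matrix.mulVec_smul, Matrix.mulVec_smul, Matrix.mulVec_smul, Matrix.mulVec_smul,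
      Matrix.mulVec_smul, rho_inv_col, rho_inv_col, rho_inv_col, smul_smul, smul_smul]
  have hxb : x.1 b a ≠ 0 := by
    have h1 := congrFun hxa b
    simp only [Pi.add_apply, Pi.smul_apply, Pi.single_eq_same, Pi.single_eq_of_ne hσb.symm,
      Pi.single_eq_of_ne hσσb.symm, smul_eq_mul, mul_one, mul_zero, add_zero] at h1
    rw [h1]
    exact hα
  have hxσ : x.1 (σ b) a ≠ 0 := by
    have h1 := congrFun hxa (σ b)
    simp only [Pi.add_apply, Pi.smul_apply, Pi.single_eq_same, Pi.single_eq_of_ne hσb,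
      Pi.single_eq_of_ne hσσb'.symm, smul_eq_mul, mul_one, mul_zero, add_zero, zero_add] at h1
    rw [h1]
    exact mul_ne_zero hβ (hμ b)
  have hxm : ¬ Mono x.1 := by
    rintro ⟨ρ, hρ⟩
    exact hσb ((hρ _ _ hxσ).trans (hρ _ _ hxb).symm)
  obtain ⟨p, p', hpp, ⟨p1, p2, p3⟩, ⟨p1', p2', p3'⟩⟩ := two_outside hn b (σ b) (σ (σ b))
  have hzero : ∀ p, p ≠ b → p ≠ σ b → p ≠ σ (σ b) → x.1 p a = 0 := by
    intro p n1 n2 n3
    have h1 := congrFun hxa p
    simp only [Pi.add_apply, Pi.smul_apply, Pi.single_eq_of_ne n1, Pi.single_eq_of_ne n2,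
      Pi.single_eq_of_ne n3, smul_eq_mul, mul_zero, add_zero] at h1
    exact h1
  exact hA x hxX hxm a p p' hpp (hzero p p1 p2 p3) (hzero p' p1' p2' p3')

end Pool.Agent.Work.MP_bc729a_al.LN
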