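import Pool.Agent.Work.MP_bc729a_al.LN.C1

/-! # A diagonal matrix conjugate to a monomial one, second version -/

namespace Pool.Agent.Work.MP_bc729a_al.LN

open Matrix

universe u

variable {n : ℕ} {F : Type u} [Field F]

theorem lemC2 (hn : 1 ≤ n) {j : Fin n} {c : F} (hc0 : c ≠ 0) (hc : c ^ n ≠ 1)
    {g m : Matrix (Fin n) (Fin n) F} (hg : IsUnit g.det) (hm : Mono m)
    (h : Matrix.diagonal (fun k => if k = j then (c ^ (n - 1))⁻¹ else c) * g = g * m) :
    (∃ a, ∀ i, i ≠ j → g i a = 0) ∨
      (c ^ (2 * n) = 1 ∧ ∃ a b, ∀ i, i ≠ a → i ≠ b → (g⁻¹) i j = 0) := by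
  obtain ⟨σ, hσ⟩ := hm
  set t : F := (c ^ (n - 1))⁻¹ with ht
  set d : Fin n → F := fun k => if k = j then t else c with hd
  have hd0 : ∀ i, d i ≠ 0 := by
    intro i
    simp only [hd]
    split_ifs
    · exact inv_ne_zero (pow_ne_zero _ hc0)
    · exact hc0
  have hcn : c ^ n = c ^ (n - 1) * c := by
    rw [← pow_succ]
    congr 1
    omega
  have htc : t ≠ c := by
    intro h'
    apply hc
    have h1 : c ^ (n - 1) * t = 1 := mul_inv_cancel₀ (pow_ne_zero _ hc0)
    rw [h'] at h1
    rw [hcn, h1]
  have hdj : d j = t := by simp [hd]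
  have hdi : ∀ i, i ≠ j → d i = c := by
    intro i hi
    simp [hd, hi]
  obtain ⟨a, ha⟩ := c1_exists hg j
  by_cases hleft : ∀ i, i ≠ j → g i a = 0
  · exact Or.inl ⟨a, hleft⟩
  push Not at hleft
  obtain ⟨i0, hi0, hgi0⟩ := hleft
  obtain ⟨μ1, hμ1, h1⟩ := c1_iter hd0 hg hσ h a 1
  obtain ⟨μ2, hμ2, h2⟩ := c1_iter hd0 hg hσ h a 2
  simp only [pow_one] at h1
  have hσa : σ a ≠ a := by
    intro h'
    rw [h'] at h1
    have e1 := h1 j
    rw [hdj] at e1
    have e2 := h1 i0
    rw [hdi i0 hi0] at e2
    have e3 := mul_right_cancel₀ ha e1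
    have e4 := mul_right_cancel₀ hgi0 e2
    exact htc (e3.trans e4.symm)
  -- the relation `H^2 y = (c + t) H y - c t y`
  have hrel : (σ ^ 2) a = a := by
    by_contra hne
    have hne2 : (σ ^ 2) a ≠ σ a := by
      intro h'
      rw [pow_two] at h'
      exact hσa (σ.injective h')
    have hpoly : ∀ i, d i ^ 2 - (c + t) * d i + c * t = 0 := by
      intro i
      by_cases hi : i = j
      · rw [hi, hdj]; ring
      · rw [hdi i hi]; ring
    let cc : Fin n → F := fun b => (if b = (σ ^ 2) a then μ2 else 0) -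
      (c + t) * (if b = σ a then μ1 else 0) + c * t * (if b = a then 1 else 0)
    have hcc : ∀ i, ∑ b, g i b * cc b = 0 := by
      intro i
      have e1 : ∀ (x : Fin n) (s y : F), ∑ b, g i b * (s * (if b = x then y else 0)) =
          s * (y * g i x) := by
        intro x s y
        rw [Finset.sum_eq_single x]
        · rw [if_pos rfl]; ring
        · intro b _ hb
          rw [if_neg hb]; ring
        · intro hx
          exact absurd (Finset.mem_univ _) hx
      have e0 : ∑ b, g i b * (if b = (σ ^ 2) a then μ2 else 0) = μ2 * g i ((σ ^ 2) a) := by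
        have := e1 ((σ ^ 2) a) 1 μ2
        simpa using this
      have : ∑ b, g i b * cc b = μ2 * g i ((σ ^ 2) a) - (c + t) * (μ1 * g i (σ a)) +
          c * t * (1 * g i a) := by
        simp only [cc, mul_sub, mul_add, Finset.sum_sub_distrib, Finset.sum_add_distrib]
        rw [e0, e1, e1]
      rw [this, ← h1, ← h2]
      linear_combination (g i a) * hpoly i
    have h4 := c1_indep hg hcc ((σ ^ 2) a)
    simp only [cc, if_true, if_neg hne2, if_neg hne] at h4
    apply hμ2
    simpa using h4
  right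
  refine ⟨?_, a, σ a, ?_⟩
  · rw [hrel] at h2
    have e1 := h2 j
    rw [hdj] at e1
    have e2 := h2 i0
    rw [hdi i0 hi0] at e2
    have e3 := mul_right_cancel₀ ha e1
    have e4 := mul_right_cancel₀ hgi0 e2
    have e5 : t ^ 2 = c ^ 2 := e3.trans e4.symm
    have e6 : c ^ (n - 1) * t = 1 := mul_inv_cancel₀ (pow_ne_zero _ hc0)
    rw [mul_comm 2 n, pow_mul, hcn, mul_pow, ← e5, ← mul_pow, e6, one_pow]
  · intro i hia hib
    -- `e_j` is a combination of the columns `a` and `σ a`
    have hdt : t - c ≠ 0 := sub_ne_zero.2 htc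
    let w : Fin n → F := fun b => ((t - c) * g j a)⁻¹ *
      ((if b = σ a then μ1 else 0) - (if b = a then c else 0))
    have hw : g *ᵥ w = Pi.single j 1 := by
      ext k
      have e1 : ∀ (x : Fin n) (s y : F), ∑ b, g k b * (s * (if b = x then y else 0)) =
          s * (y * g k x) := by
        intro x s y
        rw [Finset.sum_eq_single x]
        · rw [if_pos rfl]; ring
        · intro b _ hb
          rw [if_neg hb]; ring
        · intro hx
          exact absurd (Finset.mem_univ _) hx
      have e2 : (g *ᵥ w) k = ((t - c) * g j a)⁻¹ * (μ1 * g k (σ a) - c * g k a) := by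
        simp only [Matrix.mulVec, dotProduct, w, mul_sub, Finset.sum_sub_distrib]
        rw [e1, e1]
      rw [e2, ← h1 k]
      by_cases hk : k = j
      · subst hk
        rw [hdj, Pi.single_eq_same]
        field_simp
      · rw [hdi k hk, Pi.single_eq_of_ne hk]
        ring
    have h5 : (g⁻¹) *ᵥ (Pi.single j 1) = w := by
      rw [← hw, Matrix.mulVec_mulVec, Matrix.nonsing_inv_mul g hg, Matrix.one_mulVec]
    have h6 := congrFun h5 i
    rw [Matrix.mulVec_single_one] at h6
    change (g⁻¹) i j = w i at h6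
    rw [h6]
    simp [w, hia, hib]

end Pool.Agent.Work.MP_bc729a_al.LN
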