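import Pool.Agent.Work.MP_bc729a_al.LN.Elem
import Pool.Agent.Work.MP_bc729a_al.LN.C2
import Pool.Agent.Work.MP_bc729a_al.LN.Rho

/-! # For `n = 3, 4` the entries of nonmonomial elements are not zero -/

namespace Pool.Agent.Work.MP_bc729a_al.LN

open Matrix

universe u

variable {n : ℕ} {F : Type u} [Field F]

theorem noZero34 [Finite F] (hq : 8 ≤ Nat.card F) (hn : n = 3 ∨ n = 4) {X : Subgroup (SLn n F)}
    (hX : monoSL n F ≤ X) (hS : Star X) (hA : AtMostOne X) {g : SLn n F} (hg : g ∈ X)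
    (hgm : ¬ Mono g.1) (j a : Fin n) : g.1 j a ≠ 0 := by
  intro h0
  obtain ⟨c, hc0, hc⟩ := exists_eps hq
  have hn1 : 1 ≤ n := by omega
  have hcn : c ^ n ≠ 1 := hc n hn1 (by omega)
  set d : Fin n → F := fun k => if k = j then (c ^ (n - 1))⁻¹ else c with hd
  have hdet : (Matrix.diagonal d).det = 1 := by
    rw [Matrix.det_diagonal, ← Finset.mul_prod_erase Finset.univ d (Finset.mem_univ j)]
    have h1 : ∏ k ∈ Finset.univ.erase j, d k = c ^ (n - 1) := by
      rw [Finset.prod_congr rfl (g := fun _ => c)]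
      · rw [Finset.prod_const, Finset.card_erase_of_mem (Finset.mem_univ j), Finset.card_univ,
          Fintype.card_fin]
      · intro k hk
        simp [hd, Finset.ne_of_mem_erase hk]
    rw [h1]
    simp only [hd, if_true]
    exact inv_mul_cancel₀ (pow_ne_zero _ hc0)
  let h : SLn n F := ⟨Matrix.diagonal d, hdet⟩
  have hh : h ∈ monoSL n F := by
    refine ⟨1, fun i k hik => ?_⟩
    by_contra hne
    exact hik (Matrix.diagonal_apply_ne _ hne)
  have hcol : h.1 *ᵥ (fun k => g.1 k a) = c • fun k => g.1 k a := by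
    ext k
    change (Matrix.diagonal d *ᵥ fun k => g.1 k a) k = c * g.1 k a
    rw [Matrix.mulVec_diagonal]
    by_cases hk : k = j
    · rw [hk, h0, mul_zero, mul_zero]
    · simp [hd, hk]
  set m : SLn n F := g⁻¹ * h * g with hm
  have hmX : m ∈ X := X.mul_mem (X.mul_mem (X.inv_mem hg) (hX hh)) hg
  have hma : (fun k => m.1 k a) = c • Pi.single a 1 := by
    rw [← rho_col m a]
    have : m.1 *ᵥ Pi.single a 1 = (g⁻¹).1 *ᵥ (h.1 *ᵥ (g.1 *ᵥ Pi.single a 1)) := by
      rw [Matrix.mulVec_mulVec, Matrix.mulVec_mulVec]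
      rfl
    rw [this, rho_col, hcol, Matrix.mulVec_smul, rho_inv_col]
  have hmm : Mono m.1 := by
    refine hS m hmX a a fun k hk => ?_
    have := congrFun hma k
    rw [Pi.smul_apply, Pi.single_eq_of_ne hk, smul_zero] at this
    exact this
  have hcomm : Matrix.diagonal d * g.1 = g.1 * m.1 := by
    have : g * m = h * g := by
      rw [hm]
      group
    exact (congrArg Subtype.val this).symm
  have hgdet : IsUnit g.1.det := by
    rw [g.2]
    exact isUnit_one
  rcases lemC2 hn1 hc0 hcn hgdet hmm hcomm with ⟨b, hb⟩ | ⟨hc2, a', b', hab⟩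
  · exact hgm (hS g hg j b hb)
  · rcases hn with rfl | rfl
    · exact hc 6 (by norm_num) le_rfl hc2
    · have hinv : (g.1)⁻¹ = (g⁻¹).1 := Matrix.inv_eq_right_inv (sl_mul_inv g)
      rw [hinv] at hab
      have hgm' : ¬ Mono (g⁻¹).1 := fun h' => hgm (mono_of_mul_eq_one h' (sl_inv_mul g))
      have key : ∀ a' b' : Fin 4, ∃ i i' : Fin 4, i ≠ i' ∧ (i ≠ a' ∧ i ≠ b') ∧
          (i' ≠ a' ∧ i' ≠ b') := by
        decide
      obtain ⟨i, i', hii, hi, hi'⟩ := key a' b'
      exact hA _ (X.inv_mem hg) hgm' j i i' hii (hab i hi.1 hi.2) (hab i' hi'.1 hi'.2)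

end Pool.Agent.Work.MP_bc729a_al.LN
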