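import Pool.Agent.Work.MP_bc729a_al.LN.Elem

/-! # Overgroups of the monomial group of `GL_2(F)` -/

namespace Pool.Agent.Work.MP_bc729a_al.LN

open Matrix

universe u

variable {F : Type u} [Field F]

/-- diagonal elements -/
def q2d (a d : F) (ha : a ≠ 0) (hd : d ≠ 0) : GL (Fin 2) F where
  val := !![a, 0; 0, d]
  inv := !![a⁻¹, 0; 0, d⁻¹]
  val_inv := by
    ext i j
    fin_cases i <;> fin_cases j <;> simp [mul_inv_cancel₀ ha, mul_inv_cancel₀ hd]
  inv_val := by
    ext i j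
    fin_cases i <;> fin_cases j <;> simp [inv_mul_cancel₀ ha, inv_mul_cancel₀ hd]

/-- the swap -/
def q2s : GL (Fin 2) F where
  val := !![0, 1; 1, 0]
  inv := !![0, 1; 1, 0]
  val_inv := by
    ext i j
    fin_cases i <;> fin_cases j <;> simp
  inv_val := by
    ext i j
    fin_cases i <;> fin_cases j <;> simp

theorem q2_mono_diag {M : Matrix (Fin 2) (Fin 2) F} (h1 : M 0 1 = 0) (h2 : M 1 0 = 0) :
    Mono M := by
  refine ⟨1, fun i j h => ?_⟩
  fin_cases i <;> fin_cases j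
  · rfl
  · exact absurd h1 h
  · exact absurd h2 h
  · rfl

theorem q2_mono_anti {M : Matrix (Fin 2) (Fin 2) F} (h1 : M 0 0 = 0) (h2 : M 1 1 = 0) :
    Mono M := by
  refine ⟨Equiv.swap 0 1, fun i j h => ?_⟩
  fin_cases i <;> fin_cases j
  · exact absurd h1 h
  · simp
  · simp
  · exact absurd h2 h

theorem q2d_mem {X : Subgroup (GL (Fin 2) F)} (hX : monoGL 2 F ≤ X) {a d : F} (ha : a ≠ 0)
    (hd : d ≠ 0) : q2d a d ha hd ∈ X :=
  hX (q2_mono_diag (M := !![a, 0; 0, d]) rfl rfl)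

theorem q2s_mem {X : Subgroup (GL (Fin 2) F)} (hX : monoGL 2 F ≤ X) : q2s ∈ X :=
  hX (q2_mono_anti (M := !![(0 : F), 1; 1, 0]) rfl rfl)

/-- upper triangular case -/
theorem q2_upper {X : Subgroup (GL (Fin 2) F)} (hX : monoGL 2 F ≤ X) {x : GL (Fin 2) F}
    (hx : x ∈ X) (h10 : x.1 1 0 = 0) (h01 : x.1 0 1 ≠ 0) (A : SLn 2 F) :
    (A : GL (Fin 2) F) ∈ X := by
  have hdet : x.1 0 0 * x.1 1 1 ≠ 0 := by
    have := (Matrix.isUnit_iff_isUnit_det _).1 x.isUnit
    rw [Matrix.det_fin_two, h10, mul_zero, sub_zero] at this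
    exact this.ne_zero
  have h00 : x.1 0 0 ≠ 0 := left_ne_zero_of_mul hdet
  have h11 : x.1 1 1 ≠ 0 := right_ne_zero_of_mul hdet
  have hU : ∀ s : F, (SpecialLinearGroup.transvection (zero_ne_one (α := Fin 2)) s :
      GL (Fin 2) F) ∈ X := by
    intro s
    by_cases hs : s = 0
    · subst hs
      rw [SpecialLinearGroup.transvection_coeff_zero]
      have : ((1 : SLn 2 F) : GL (Fin 2) F) = 1 := Units.ext rfl
      rw [this]
      exact X.one_mem
    · have hr : s * x.1 1 1 / x.1 0 1 ≠ 0 := div_ne_zero (mul_ne_zero hs h11) h01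
      have key : (SpecialLinearGroup.transvection (zero_ne_one (α := Fin 2)) s : GL (Fin 2) F) *
          q2d (s * x.1 1 1 / x.1 0 1 * x.1 0 0) (x.1 1 1) (mul_ne_zero hr h00) h11 =
          q2d (s * x.1 1 1 / x.1 0 1) 1 hr one_ne_zero * x := by
        apply Units.ext
        rw [Units.val_mul, Units.val_mul]
        change Matrix.transvection 0 1 s * !![s * x.1 1 1 / x.1 0 1 * x.1 0 0, 0; 0, x.1 1 1] =
          !![s * x.1 1 1 / x.1 0 1, 0; 0, 1] * x.1
        ext i j
        fin_cases i <;> fin_cases j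
        · simp [Matrix.mul_apply, Fin.sum_univ_two, Matrix.transvection]
        · simp [Matrix.mul_apply, Fin.sum_univ_two, Matrix.transvection]
          field_simp
        · simp [Matrix.mul_apply, Fin.sum_univ_two, Matrix.transvection, h10]
        · simp [Matrix.mul_apply, Fin.sum_univ_two, Matrix.transvection]
      have h2 := eq_mul_inv_of_mul_eq key
      rw [h2]
      exact X.mul_mem (X.mul_mem (q2d_mem hX _ _) hx) (X.inv_mem (q2d_mem hX _ _))
  have hL : ∀ s : F, (SpecialLinearGroup.transvection (one_ne_zero (α := Fin 2)) s :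
      GL (Fin 2) F) ∈ X := by
    intro s
    have key : (SpecialLinearGroup.transvection (one_ne_zero (α := Fin 2)) s : GL (Fin 2) F) *
        q2s = q2s * (SpecialLinearGroup.transvection (zero_ne_one (α := Fin 2)) s :
          GL (Fin 2) F) := by
      apply Units.ext
      rw [Units.val_mul, Units.val_mul]
      change Matrix.transvection 1 0 s * !![(0 : F), 1; 1, 0] =
        !![(0 : F), 1; 1, 0] * Matrix.transvection 0 1 s
      ext i j
      fin_cases i <;> fin_cases j <;>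
        simp [Matrix.mul_apply, Fin.sum_univ_two, Matrix.transvection]
    have h2 := eq_mul_inv_of_mul_eq key
    rw [h2]
    exact X.mul_mem (X.mul_mem (q2s_mem hX) (hU s)) (X.inv_mem (q2s_mem hX))
  refine SL2.transvection_induction (fun B => (B : GL (Fin 2) F) ∈ X) ?_ ?_ A
  · intro i j hij c
    fin_cases i <;> fin_cases j
    · exact absurd rfl hij
    · exact hU c
    · exact hL c
    · exact absurd rfl hij
  · intro B C hB hC
    have : ((B * C : SLn 2 F) : GL (Fin 2) F) = (B : GL (Fin 2) F) * C := Units.ext rfl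
    rw [this]
    exact X.mul_mem hB hC

/-- an element with a zero entry -/
theorem q2_zero {X : Subgroup (GL (Fin 2) F)} (hX : monoGL 2 F ≤ X) {x : GL (Fin 2) F}
    (hx : x ∈ X) (hxm : ¬ Mono x.1) {i j : Fin 2} (h : x.1 i j = 0) (A : SLn 2 F) :
    (A : GL (Fin 2) F) ∈ X := by
  have hs := q2s_mem hX
  have hsl : ∀ (y : GL (Fin 2) F) (k : Fin 2), (q2s * y).1 0 k = y.1 1 k ∧
      (q2s * y).1 1 k = y.1 0 k := by
    intro y k
    rw [Units.val_mul]
    change (!![(0 : F), 1; 1, 0] * y.1) 0 k = _ ∧ (!![(0 : F), 1; 1, 0] * y.1) 1 k = _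
    constructor <;> simp [Matrix.mul_apply, Fin.sum_univ_two]
  have hsr : ∀ (y : GL (Fin 2) F) (k : Fin 2), (y * q2s).1 k 0 = y.1 k 1 ∧
      (y * q2s).1 k 1 = y.1 k 0 := by
    intro y k
    rw [Units.val_mul]
    change (y.1 * !![(0 : F), 1; 1, 0]) k 0 = _ ∧ (y.1 * !![(0 : F), 1; 1, 0]) k 1 = _
    constructor <;> simp [Matrix.mul_apply, Fin.sum_univ_two]
  fin_cases i <;> fin_cases j
  · -- `x 0 0 = 0`
    have h : x.1 0 0 = 0 := h
    have h11 : x.1 1 1 ≠ 0 := fun h' => hxm (q2_mono_anti h h')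
    refine q2_upper hX (X.mul_mem hs hx) ?_ ?_ A
    · rw [(hsl x 0).2, h]
    · rw [(hsl x 1).1]
      exact h11
  · have h : x.1 0 1 = 0 := h
    have h10 : x.1 1 0 ≠ 0 := fun h' => hxm (q2_mono_diag h h')
    refine q2_upper hX (X.mul_mem (X.mul_mem hs hx) hs) ?_ ?_ A
    · rw [(hsr _ 1).1, (hsl x 1).2, h]
    · rw [(hsr _ 0).2, (hsl x 0).1]
      exact h10
  · have h : x.1 1 0 = 0 := h
    have h01 : x.1 0 1 ≠ 0 := fun h' => hxm (q2_mono_diag h' h)
    exact q2_upper hX hx h h01 A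
  · have h : x.1 1 1 = 0 := h
    have h00 : x.1 0 0 ≠ 0 := fun h' => hxm (q2_mono_anti h' h)
    refine q2_upper hX (X.mul_mem hx hs) ?_ ?_ A
    · rw [(hsr x 1).1, h]
    · rw [(hsr x 0).2]
      exact h00

/-- the relation of step 2 -/
theorem q2_star {X : Subgroup (GL (Fin 2) F)} (hX : monoGL 2 F ≤ X)
    (hE : ∀ x ∈ X, ¬ Mono x.1 → ∀ i j, x.1 i j ≠ 0) {x : GL (Fin 2) F} (hx : x ∈ X)
    (hxm : ¬ Mono x.1) : x.1 0 1 * x.1 1 0 = -(x.1 0 0 * x.1 1 1) := by
  have ha := hE x hx hxm 0 0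
  have hb := hE x hx hxm 0 1
  have hc := hE x hx hxm 1 0
  have hd := hE x hx hxm 1 1
  have hdet : x.1 0 0 * x.1 1 1 - x.1 0 1 * x.1 1 0 ≠ 0 := by
    have := (Matrix.isUnit_iff_isUnit_det _).1 x.isUnit
    rw [Matrix.det_fin_two] at this
    exact this.ne_zero
  set s : F := x.1 1 1 * x.1 0 0 / (x.1 0 1 * x.1 1 0) with hs
  have hs0 : s ≠ 0 := div_ne_zero (mul_ne_zero hd ha) (mul_ne_zero hb hc)
  have hsbc : s * (x.1 0 1 * x.1 1 0) = x.1 1 1 * x.1 0 0 := by
    rw [hs]
    field_simp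
  set D : GL (Fin 2) F := q2d 1 s one_ne_zero hs0 with hD
  have hDX : D ∈ X := q2d_mem hX _ _
  set m : GL (Fin 2) F := x⁻¹ * D * x with hm
  have hmX : m ∈ X := X.mul_mem (X.mul_mem (X.inv_mem hx) hDX) hx
  have hxm' : x.1 * m.1 = !![1, 0; 0, s] * x.1 := by
    have h1 : x * m = D * x := by
      rw [hm]
      group
    exact congrArg Units.val h1
  have e : ∀ j, x.1 0 0 * m.1 0 j + x.1 0 1 * m.1 1 j = x.1 0 j ∧
      x.1 1 0 * m.1 0 j + x.1 1 1 * m.1 1 j = s * x.1 1 j := by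
    intro j
    have h0 := congrFun (congrFun hxm' 0) j
    have h1 := congrFun (congrFun hxm' 1) j
    constructor
    · simpa [Matrix.mul_apply, Fin.sum_univ_two] using h0
    · simpa [Matrix.mul_apply, Fin.sum_univ_two] using h1
  have m00 : m.1 0 0 = 0 := by
    obtain ⟨h0, h1⟩ := e 0
    apply (mul_eq_zero.1 _).resolve_left hdet
    linear_combination x.1 1 1 * h0 - x.1 0 1 * h1 - hsbc
  have hmm : Mono m.1 := by
    by_contra hmm
    exact hE m hmX hmm 0 0 m00
  have m10 : m.1 1 0 ≠ 0 := by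
    intro h0
    have := (Matrix.isUnit_iff_isUnit_det _).1 m.isUnit
    rw [Matrix.det_fin_two, m00, h0] at this
    simp at this
  have m11 : m.1 1 1 = 0 := by
    obtain ⟨σ, hσ⟩ := hmm
    by_contra h1
    have e1 := hσ 1 0 m10
    have e2 := hσ 1 1 h1
    have := σ.injective (e1.symm.trans e2)
    exact absurd this (by decide)
  obtain ⟨h0, h1⟩ := e 1
  rw [m11, mul_zero, add_zero] at h0 h1
  -- `a m01 = b`, `c m01 = s d`
  have h2 : s * (x.1 0 0 * x.1 1 1) = x.1 0 1 * x.1 1 0 := by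
    linear_combination x.1 1 0 * h0 - x.1 0 0 * h1
  have h3 : (x.1 0 0 * x.1 1 1 - x.1 0 1 * x.1 1 0) *
      (x.1 0 0 * x.1 1 1 + x.1 0 1 * x.1 1 0) = 0 := by
    linear_combination -(x.1 0 0 * x.1 1 1) * hsbc + (x.1 0 1 * x.1 1 0) * h2
  have h4 := (mul_eq_zero.1 h3).resolve_left hdet
  linear_combination h4

theorem Q2 [Finite F] (hq : 8 ≤ Nat.card F) : QProp 2 F := by
  intro X hX
  by_cases hz : ∃ x ∈ X, ¬ Mono x.1 ∧ ∃ i j, x.1 i j = 0
  · obtain ⟨x, hx, hxm, i, j, hij⟩ := hz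
    exact Or.inr fun A => q2_zero hX hx hxm hij A
  · left
    push Not at hz
    have hE : ∀ x ∈ X, ¬ Mono x.1 → ∀ i j, x.1 i j ≠ 0 := hz
    intro x hx
    change Mono x.1
    by_contra hxm
    have ha := hE x hx hxm 0 0
    have hb := hE x hx hxm 0 1
    have hc := hE x hx hxm 1 0
    have hd := hE x hx hxm 1 1
    have hdet : x.1 0 0 * x.1 1 1 - x.1 0 1 * x.1 1 0 ≠ 0 := by
      have := (Matrix.isUnit_iff_isUnit_det _).1 x.isUnit
      rw [Matrix.det_fin_two] at this
      exact this.ne_zero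
    have hst := q2_star hX hE hx hxm
    have h2 : (2 : F) ≠ 0 := by
      intro h2
      apply hdet
      linear_combination x.1 0 0 * x.1 1 1 * h2 - hst
    obtain ⟨s, hs0, hs⟩ := exists_eps hq
    have hs2 : s ^ 2 ≠ 1 := hs 2 (by norm_num) (by norm_num)
    have hs4 : s ^ 4 ≠ 1 := hs 4 (by norm_num) (by norm_num)
    have n1 : 1 - s ≠ 0 := by
      intro h
      apply hs2
      have : s = 1 := by linear_combination -h
      rw [this, one_pow]
    have n2 : s + 1 ≠ 0 := by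
      intro h
      apply hs2
      have : s = -1 := by linear_combination h
      rw [this]
      ring
    set D : GL (Fin 2) F := q2d s 1 hs0 one_ne_zero with hD
    have hDX : D ∈ X := q2d_mem hX _ _
    set y : GL (Fin 2) F := x * D * x⁻¹ with hy
    have hyX : y ∈ X := X.mul_mem (X.mul_mem hx hDX) (X.inv_mem hx)
    have hyx : y.1 * x.1 = x.1 * !![s, 0; 0, 1] := by
      have h1 : y * x = x * D := by
        rw [hy]
        group
      exact congrArg Units.val h1
    have e : ∀ i, y.1 i 0 * x.1 0 0 + y.1 i 1 * x.1 1 0 = x.1 i 0 * s ∧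
        y.1 i 0 * x.1 0 1 + y.1 i 1 * x.1 1 1 = x.1 i 1 := by
      intro i
      have h0 := congrFun (congrFun hyx i) 0
      have h1 := congrFun (congrFun hyx i) 1
      constructor
      · simpa [Matrix.mul_apply, Fin.sum_univ_two] using h0
      · simpa [Matrix.mul_apply, Fin.sum_univ_two] using h1
    obtain ⟨p0, p1⟩ := e 0
    obtain ⟨q0, q1⟩ := e 1
    have had : x.1 0 0 * x.1 1 1 ≠ 0 := mul_ne_zero ha hd
    have y00 : 2 * y.1 0 0 = s + 1 := by
      apply mul_left_cancel₀ had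
      linear_combination x.1 1 1 * p0 - x.1 1 0 * p1 + (y.1 0 0 - 1) * hst
    have y01 : 2 * x.1 1 1 * y.1 0 1 = x.1 0 1 * (1 - s) := by
      apply mul_left_cancel₀ ha
      linear_combination x.1 0 0 * p1 - x.1 0 1 * p0 + y.1 0 1 * hst
    have y10 : 2 * x.1 0 0 * y.1 1 0 = x.1 1 0 * (s - 1) := by
      apply mul_left_cancel₀ hd
      linear_combination x.1 1 1 * q0 - x.1 1 0 * q1 + y.1 1 0 * hst
    have y11 : 2 * y.1 1 1 = 1 + s := by
      apply mul_left_cancel₀ had
      linear_combination x.1 0 0 * q1 - x.1 0 1 * q0 + (y.1 1 1 - s) * hst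
    have hym : ¬ Mono y.1 := by
      rintro ⟨σ, hσ⟩
      have z00 : y.1 0 0 ≠ 0 := by
        intro h
        rw [h, mul_zero] at y00
        exact n2 y00.symm
      have z01 : y.1 0 1 ≠ 0 := by
        intro h
        rw [h, mul_zero] at y01
        exact mul_ne_zero hb n1 y01.symm
      have := σ.injective ((hσ 0 0 z00).symm.trans (hσ 0 1 z01))
      exact absurd this (by decide)
    have hyst := q2_star hX hE hyX hym
    have h5 : (2 : F) * (1 + s ^ 2) = 0 := by
      apply (mul_eq_zero.1 _).resolve_left had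
      have h6 : (2 * x.1 1 1 * y.1 0 1) * (2 * x.1 0 0 * y.1 1 0) =
        (x.1 0 1 * (1 - s)) * (x.1 1 0 * (s - 1)) := by rw [y01, y10]
      have h7 : (2 * y.1 0 0) * (2 * y.1 1 1) = (s + 1) * (1 + s) := by rw [y00, y11]
      linear_combination -h6 + 4 * x.1 0 0 * x.1 1 1 * hyst + (1 - s) ^ 2 * hst -
        x.1 0 0 * x.1 1 1 * h7
    have h6 := (mul_eq_zero.1 h5).resolve_left h2
    apply hs4
    linear_combination (s ^ 2 - 1) * h6

end Pool.Agent.Work.MP_bc729a_al.LN
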