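import Pool.Agent.Work.MP_bc729a_al.LN.AtMost

/-! # From `SL_n` to `GL_n` -/

namespace Pool.Agent.Work.MP_bc729a_al.LN

open Matrix

universe u

variable {n : ℕ} {F : Type u} [Field F]

/-- an invertible matrix each of whose columns has one nonzero entry is monomial -/
theorem mono_of_cols {M : Matrix (Fin n) (Fin n) F} (hM : IsUnit M.det)
    (h : ∀ j, ∃ a, ∀ i, i ≠ a → M i j = 0) : Mono M := by
  choose σ hσ using h
  have hne : ∀ j, M (σ j) j ≠ 0 := by
    intro j h0
    have : M.det = 0 := Matrix.det_eq_zero_of_column_eq_zero j fun i => by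
      by_cases hi : i = σ j
      · rw [hi, h0]
      · exact hσ j i hi
    rw [this] at hM
    exact not_isUnit_zero hM
  have hinj : Function.Injective σ := by
    intro j j' hjj
    by_contra hne'
    -- column `j'` is a multiple of column `j`
    have hc : ∀ i, M i j' = (M (σ j') j' * (M (σ j) j)⁻¹) * M i j := by
      intro i
      by_cases hi : i = σ j
      · have hn := hne j
        subst hi
        rw [hjj] at hn ⊢
        field_simp
      · rw [hσ j i hi, hσ j' i (by rw [← hjj]; exact hi), mul_zero]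
    have h1 : M *ᵥ (Pi.single j' 1 - (M (σ j') j' * (M (σ j) j)⁻¹) • Pi.single j 1) = 0 := by
      rw [Matrix.mulVec_sub, Matrix.mulVec_smul]
      ext i
      simp [Matrix.mulVec_single_one, hc i]
    have h2 := congrArg (fun v => M⁻¹ *ᵥ v) h1
    simp only [Matrix.mulVec_mulVec, Matrix.nonsing_inv_mul M hM, Matrix.one_mulVec,
      Matrix.mulVec_zero] at h2
    have h3 := congrFun h2 j'
    rw [Pi.sub_apply, Pi.smul_apply, Pi.single_eq_same, Pi.single_eq_of_ne (Ne.symm hne'),
      smul_zero, sub_zero] at h3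
    exact one_ne_zero h3
  let τ : Equiv.Perm (Fin n) := Equiv.ofBijective σ (Finite.injective_iff_bijective.1 hinj)
  refine ⟨τ, fun i j hij => ?_⟩
  by_contra hi
  exact hij (hσ j i hi)

theorem QofP [Finite F] (hq : 8 ≤ Nat.card F) (hn : 3 ≤ n) (hP : PProp n F) : QProp n F := by
  intro X hX
  let φ : SLn n F →* GL (Fin n) F := SpecialLinearGroup.toGL
  have hφ : ∀ A : SLn n F, (φ A).1 = A.1 := fun A => rfl
  have hY : monoSL n F ≤ X.comap φ := by
    intro A hA
    exact hX (show Mono (φ A).1 from hA)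
  rcases hP _ hY with h | h
  · left
    intro x hx
    change Mono x.1
    have hxd : IsUnit x.1.det := (Matrix.isUnit_iff_isUnit_det _).1 x.isUnit
    refine mono_of_cols hxd fun j => ?_
    obtain ⟨j', hj'⟩ : ∃ j' : Fin n, j ≠ j' := by
      have : Nontrivial (Fin n) := Fin.nontrivial_iff_two_le.2 (by omega)
      obtain ⟨j', hj'⟩ := exists_ne j
      exact ⟨j', hj'.symm⟩
    obtain ⟨e, he0, he⟩ := exists_eps hq
    obtain ⟨d, hde, hdm⟩ := exists_hd hj' he0
    have hdX : φ d ∈ X := hY hdm
    have hmX : x * φ d * x⁻¹ ∈ X := X.mul_mem (X.mul_mem hx hdX) (X.inv_mem hx)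
    have hdet : (x * φ d * x⁻¹).1.det = 1 := by
      have h1 : x.1.det * (x⁻¹).1.det = 1 := by
        rw [← Matrix.det_mul]
        have : x.1 * (x⁻¹).1 = 1 := x.mul_inv
        rw [this, Matrix.det_one]
      rw [Units.val_mul, Units.val_mul, Matrix.det_mul, Matrix.det_mul, hφ, d.2, mul_one, h1]
    let m : SLn n F := ⟨(x * φ d * x⁻¹).1, hdet⟩
    have hm : m ∈ X.comap φ := by
      change φ m ∈ X
      have : φ m = x * φ d * x⁻¹ := Units.ext (hφ m)
      rw [this]
      exact hmX
    rw [h] at hm
    have hmm : Mono m.1 := hm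
    have hxi : IsUnit (x⁻¹).1.det := (Matrix.isUnit_iff_isUnit_det _).1 (x⁻¹).isUnit
    -- `d x⁻¹ = x⁻¹ m`
    have hcomm : Matrix.diagonal (hd j j' e) * (x⁻¹).1 = (x⁻¹).1 * m.1 := by
      have h2 : φ d * x⁻¹ = x⁻¹ * (x * φ d * x⁻¹) := by group
      have h3 := congrArg Units.val h2
      rw [Units.val_mul, Units.val_mul, hφ, hde] at h3
      exact h3
    obtain ⟨a, ha⟩ := lemC1 hj' he0 he hxi hmm hcomm
    refine ⟨a, fun i hi => ?_⟩
    -- column `a` of `x⁻¹` is `c e_j`
    have h4 : x.1 * (x⁻¹).1 = 1 := x.mul_inv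
    have h5 := congrFun (congrFun h4 i) a
    rw [Matrix.mul_apply, Finset.sum_eq_single j, Matrix.one_apply_ne hi] at h5
    · rcases mul_eq_zero.1 h5 with h6 | h6
      · exact h6
      · exfalso
        have : (x⁻¹).1.det = 0 := Matrix.det_eq_zero_of_column_eq_zero a fun k => by
          by_cases hk : k = j
          · rw [hk, h6]
          · exact ha k hk
        rw [this] at hxi
        exact not_isUnit_zero hxi
    · intro k _ hk
      rw [ha k hk, mul_zero]
    · intro h
      exact absurd (Finset.mem_univ _) h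
  · right
    intro A
    have : A ∈ X.comap φ := by
      rw [h]
      trivial
    exact this

end Pool.Agent.Work.MP_bc729a_al.LN
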