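import Pool.Agent.Work.MP_bc729a_al.LN.StarOfQ
import Pool.Agent.Work.MP_bc729a_al.LN.AtMost
import Pool.Agent.Work.MP_bc729a_al.LN.NoOne5
import Pool.Agent.Work.MP_bc729a_al.LN.NoZero34
import Pool.Agent.Work.MP_bc729a_al.LN.NoFull3
import Pool.Agent.Work.MP_bc729a_al.LN.NoFull4
import Pool.Agent.Work.MP_bc729a_al.LN.Q2
import Pool.Agent.Work.MP_bc729a_al.LN.QofP

/-! The monomial group of `SL_n(F)` is maximal for `n ≥ 3`, `|F| ≥ 8`. -/

namespace Pool.Agent.Work.MP_bc729a_al.LN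

open Matrix

universe u

variable {n : ℕ} {F : Type u} [Field F]

theorem P_of_Q [Finite F] (hq : 8 ≤ Nat.card F) (hn : 2 ≤ n) (hQ : QProp n F) :
    PProp (n + 1) F := by
  intro X hX
  by_cases hXt : X = ⊤
  · exact Or.inr hXt
  left
  have hS := star_of_Q hq hn hQ hX hXt
  have hA := atMostOne hq hX hS
  have hm : ∀ x ∈ X, Mono x.1 := by
    by_cases h5 : 5 ≤ n + 1
    · exact noOne5 hq h5 hX hS hA
    · have h34 : n = 2 ∨ n = 3 := by omega
      rcases h34 with rfl | rfl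
      · exact noFull3 hq hX hS fun x hx hxm i j =>
          noZero34 hq (Or.inl rfl) hX hS hA hx hxm i j
      · exact noFull4 hq hX hS fun x hx hxm i j =>
          noZero34 hq (Or.inr rfl) hX hS hA hx hxm i j
  exact le_antisymm hm hX

theorem Q_all [Finite F] (hq : 8 ≤ Nat.card F) (hn : 2 ≤ n) : QProp n F := by
  induction n, hn using Nat.le_induction with
  | base => exact Q2 hq
  | succ k hk ih => exact QofP hq (by omega) (P_of_Q hq hk ih)

theorem P_all [Finite F] (hq : 8 ≤ Nat.card F) (hn : 3 ≤ n) : PProp n F := by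
  obtain ⟨k, rfl⟩ : ∃ k, n = k + 1 := ⟨n - 1, by omega⟩
  exact P_of_Q hq (by omega) (Q_all hq (by omega))

end Pool.Agent.Work.MP_bc729a_al.LN
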