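import Pool.Agent.Work.MP_bc729a_al.LN.FrmChar
import Pool.Agent.Work.MP_bc729a_al.LN.Invol
import Pool.Agent.Work.MP_bc729a_al.LN.CoFrm

/-! # Module Polar (size M): a polarity has a frame mapped to its hyperplanes

Write `U^⊥ = ofDual (τ U)`: an order reversing bijection of the subspaces with `U^⊥^⊥ = U`, so
`(U ⊔ W)^⊥ = U^⊥ ⊓ W^⊥`, `(U ⊓ W)^⊥ = U^⊥ ⊔ W^⊥`, `⊤^⊥ = ⊥`.
CLAIM. For every `W` with `W ⊓ W^⊥ = ⊥` there is a set `P` of at most `finrank W` atoms with
`sSup P = W` such that for `p ∈ P` there is `p' ∈ P` with `q ≤ p^⊥` for all `q ∈ P`, `q ≠ p'`, and for each `p'`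
such `p` exists. Induction on `finrank W`; `W = ⊥`: `P = ∅`.
Splitting: if `x ≤ W`, `x ⊓ x^⊥ = ⊥` and `W' = W ⊓ x^⊥`: `x ⊔ W' = W`, `x ⊓ W' = ⊥`, `W' ⊓ W'^⊥ = ⊥`.
(a) Some atom `p ≤ W` has `¬ p ≤ p^⊥`. `x = p`. Add `p` with `p' = p`.
(b) Otherwise all atoms `p ≤ W` have `p ≤ p^⊥`. If `W ≠ ⊥` take an atom `p ≤ W`; `W ≤ p^⊥` is false (else
`p ≤ W^⊥`, `p ≤ W ⊓ W^⊥ = ⊥`), so there is an atom `r ≤ W` with `¬ r ≤ p^⊥`; `r ≠ p`; also `¬ p ≤ r^⊥`. Let
`x = p ⊔ r`. `x ⊓ x^⊥ = ⊥`: `x ⊓ p^⊥ = p ⊔ (r ⊓ p^⊥) = p` and `p ⊓ r^⊥ = ⊥`. Add `p, r` with `p' = r`, `r' = p`.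
CONCLUSION (`W = ⊤`): `P` is a frame, and for `p ∈ P` the coatom `p^⊥` contains all `q ∈ P`, `q ≠ p'`, so it contains
`sSup (P \ {p'})`, which is a coatom, so they are equal. -/

namespace Pool.Agent.Work.MP_bc729a_al.LN

open Matrix OrderDual

universe u

variable {n : ℕ} {F : Type u} [Field F]

/-- the two conditions on the pairing -/
private def PolarPair (t : Lat n F → Lat n F) (P : Set (Lat n F)) : Prop :=
  (∀ p ∈ P, ∃ p' ∈ P, ∀ q ∈ P, q ≠ p' → q ≤ t p) ∧
    ∀ p' ∈ P, ∃ p ∈ P, ∀ q ∈ P, q ≠ p' → q ≤ t p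

private lemma Polar_main (t : Lat n F → Lat n F) (hle : ∀ U V, U ≤ t V → V ≤ t U)
    (hsup : ∀ U V, t (U ⊔ V) = t U ⊓ t V) (hinf : ∀ U V, t (U ⊓ V) = t U ⊔ t V)
    (hbot : t ⊥ = ⊤) (htt : ∀ U, t (t U) = U) (k : ℕ) :
    ∀ W : Lat n F, Module.finrank F W = k → W ⊓ t W = ⊥ →
      ∃ P : Set (Lat n F), (∀ p ∈ P, IsAtom p) ∧ P.Finite ∧
        P.ncard ≤ Module.finrank F W ∧ sSup P = W ∧ PolarPair t P := by
  classical
  induction k using Nat.strong_induction_on with
  | _ k ih =>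
  intro W hk hW
  -- splitting
  have split : ∀ x : Lat n F, x ≤ W → x ⊓ t x = ⊥ →
      (W ⊓ t x) ⊔ x = W ∧ (W ⊓ t x) ⊓ x = ⊥ ∧ (W ⊓ t x) ⊓ t (W ⊓ t x) = ⊥ ∧
        Module.finrank F W = Module.finrank F (W ⊓ t x : Lat n F) + Module.finrank F x := by
    intro x hx hxx
    have h1 : x ⊔ t x = ⊤ := by
      have := congrArg t hxx
      rw [hinf, htt, hbot, sup_comm] at this
      exact this
    have h2 : (W ⊓ t x) ⊔ x = W := by
      rw [sup_comm, inf_comm, ← sup_inf_assoc_of_le _ hx, h1, top_inf_eq]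
    have h3 : (W ⊓ t x) ⊓ x = ⊥ := by
      rw [eq_bot_iff, ← hxx, inf_comm x]
      exact inf_le_inf_right _ inf_le_right
    refine ⟨h2, h3, ?_, ?_⟩
    · have h4 : W ⊓ (x ⊔ t W) = x := by
        rw [inf_comm, sup_inf_assoc_of_le _ hx, inf_comm, hW, sup_bot_eq]
      rw [hinf, htt, inf_right_comm, sup_comm, h4, hxx]
    · have h5 := Submodule.finrank_sup_add_finrank_inf_eq (W ⊓ t x) x
      rw [h2, h3, finrank_bot] at h5
      omega
  by_cases ha : ∃ p, IsAtom p ∧ p ≤ W ∧ ¬ p ≤ t p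
  · obtain ⟨p, hp, hpW, hpp⟩ := ha
    have hpp' : p ⊓ t p = ⊥ := by
      rcases hp.le_iff.1 (inf_le_left : p ⊓ t p ≤ p) with h | h
      · exact h
      · exact absurd (inf_eq_left.1 h) hpp
    obtain ⟨s1, s2, s3, s4⟩ := split p hpW hpp'
    rw [Invol_finrank_atom hp] at s4
    obtain ⟨P', h1, h2, h3, h4, h5, h6⟩ := ih _ (by omega) (W ⊓ t p) rfl s3
    have hW' : ∀ q ∈ P', q ≤ t p := fun q hq => by
      have : q ≤ W ⊓ t p := by
        rw [← h4]
        exact le_sSup hq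
      exact this.trans inf_le_right
    refine ⟨insert p P', ?_, h2.insert p, ?_, ?_, ?_, ?_⟩
    · rintro q (rfl | hq)
      · exact hp
      · exact h1 q hq
    · refine (Set.ncard_insert_le _ _).trans ?_
      omega
    · rw [sSup_insert, h4, sup_comm, s1]
    · rintro x (rfl | hx)
      · refine ⟨x, Set.mem_insert _ _, ?_⟩
        rintro q (rfl | hq) hne
        · exact absurd rfl hne
        · exact hW' q hq
      · obtain ⟨x', hx', h7⟩ := h5 x hx
        refine ⟨x', Set.mem_insert_of_mem _ hx', ?_⟩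
        rintro q (rfl | hq) hne
        · exact hle _ _ (hW' x hx)
        · exact h7 q hq hne
    · rintro x (rfl | hx)
      · refine ⟨x, Set.mem_insert _ _, ?_⟩
        rintro q (rfl | hq) hne
        · exact absurd rfl hne
        · exact hW' q hq
      · obtain ⟨x', hx', h7⟩ := h6 x hx
        refine ⟨x', Set.mem_insert_of_mem _ hx', ?_⟩
        rintro q (rfl | hq) hne
        · exact hle _ _ (hW' x' hx')
        · exact h7 q hq hne
  · push Not at ha
    by_cases hWb : W = ⊥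
    · refine ⟨∅, ?_, Set.finite_empty, ?_, ?_, ?_, ?_⟩
      · intro p hp
        exact absurd hp (Set.notMem_empty p)
      · rw [Set.ncard_empty]
        exact Nat.zero_le _
      · rw [sSup_empty, hWb]
      · intro p hp
        exact absurd hp (Set.notMem_empty p)
      · intro p hp
        exact absurd hp (Set.notMem_empty p)
    · obtain ⟨v, hvW, hv0⟩ := (Submodule.ne_bot_iff W).1 hWb
      have hptW : ∀ {w : Fin n → F}, w ∈ W → pt w ≤ W := fun hw =>
        (Submodule.span_singleton_le_iff_mem _ _).2 hw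
      obtain ⟨p, hp, hpW⟩ : ∃ p : Lat n F, IsAtom p ∧ p ≤ W :=
        ⟨pt v, atom_iff.2 ⟨v, hv0, rfl⟩, hptW hvW⟩
      have hWp : ¬ W ≤ t p := by
        intro h1
        have h2 : p ≤ W ⊓ t W := le_inf hpW (hle _ _ h1)
        rw [hW] at h2
        exact hp.1 (le_bot_iff.1 h2)
      obtain ⟨w, hwW, hwp⟩ := SetLike.not_le_iff_exists.1 hWp
      have hw0 : w ≠ 0 := by
        rintro rfl
        exact hwp (Submodule.zero_mem _)
      obtain ⟨r, hr, hrW, hrp⟩ : ∃ r : Lat n F, IsAtom r ∧ r ≤ W ∧ ¬ r ≤ t p :=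
        ⟨pt w, atom_iff.2 ⟨w, hw0, rfl⟩, hptW hwW, fun h =>
          hwp (h (Submodule.mem_span_singleton_self w))⟩
      have hpr : ¬ p ≤ t r := fun h => hrp (hle _ _ h)
      have hne : p ≠ r := by
        rintro rfl
        exact hrp (ha p hp hpW)
      have hr1 : r ⊓ t p = ⊥ := by
        rcases hr.le_iff.1 (inf_le_left : r ⊓ t p ≤ r) with h | h
        · exact h
        · exact absurd (inf_eq_left.1 h) hrp
      have hp1 : p ⊓ t r = ⊥ := by
        rcases hp.le_iff.1 (inf_le_left : p ⊓ t r ≤ p) with h | h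
        · exact h
        · exact absurd (inf_eq_left.1 h) hpr
      have hl : (p ⊔ r) ⊓ t (p ⊔ r) = ⊥ := by
        rw [hsup, ← inf_assoc, sup_inf_assoc_of_le _ (ha p hp hpW), hr1, sup_bot_eq, hp1]
      obtain ⟨s1, s2, s3, s4⟩ := split (p ⊔ r) (sup_le hpW hrW) hl
      rw [Invol_finrank_two hp hr hne] at s4
      obtain ⟨P', h1, h2, h3, h4, h5, h6⟩ := ih _ (by omega) (W ⊓ t (p ⊔ r)) rfl s3
      have hW' : ∀ q ∈ P', q ≤ t p ∧ q ≤ t r := fun q hq => by
        have : q ≤ W ⊓ t (p ⊔ r) := by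
          rw [← h4]
          exact le_sSup hq
        have h7 := this.trans inf_le_right
        rw [hsup] at h7
        exact ⟨h7.trans inf_le_left, h7.trans inf_le_right⟩
      refine ⟨insert p (insert r P'), ?_, (h2.insert r).insert p, ?_, ?_, ?_, ?_⟩
      · rintro q (rfl | rfl | hq)
        · exact hp
        · exact hr
        · exact h1 q hq
      · refine (Set.ncard_insert_le _ _).trans ?_
        have := Set.ncard_insert_le r P'
        omega
      · rw [sSup_insert, sSup_insert, h4, ← sup_assoc, sup_comm, s1]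
      · rintro x (rfl | rfl | hx)
        · refine ⟨r, Set.mem_insert_of_mem _ (Set.mem_insert _ _), ?_⟩
          rintro q (rfl | rfl | hq) hne'
          · exact ha q hp hpW
          · exact absurd rfl hne'
          · exact (hW' q hq).1
        · refine ⟨p, Set.mem_insert _ _, ?_⟩
          rintro q (rfl | rfl | hq) hne'
          · exact absurd rfl hne'
          · exact ha q hr hrW
          · exact (hW' q hq).2
        · obtain ⟨x', hx', h7⟩ := h5 x hx
          refine ⟨x', Set.mem_insert_of_mem _ (Set.mem_insert_of_mem _ hx'), ?_⟩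
          rintro q (rfl | rfl | hq) hne'
          · exact hle _ _ (hW' x hx).1
          · exact hle _ _ (hW' x hx).2
          · exact h7 q hq hne'
      · rintro x (rfl | rfl | hx)
        · refine ⟨r, Set.mem_insert_of_mem _ (Set.mem_insert _ _), ?_⟩
          rintro q (rfl | rfl | hq) hne'
          · exact absurd rfl hne'
          · exact ha q hr hrW
          · exact (hW' q hq).2
        · refine ⟨p, Set.mem_insert _ _, ?_⟩
          rintro q (rfl | rfl | hq) hne'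
          · exact ha q hp hpW
          · exact absurd rfl hne'
          · exact (hW' q hq).1
        · obtain ⟨x', hx', h7⟩ := h6 x hx
          refine ⟨x', Set.mem_insert_of_mem _ (Set.mem_insert_of_mem _ hx'), ?_⟩
          rintro q (rfl | rfl | hq) hne'
          · exact hle _ _ (hW' x' hx').1
          · exact hle _ _ (hW' x' hx').2
          · exact h7 q hq hne'

theorem polar_frame (τ : Lat n F ≃o (Lat n F)ᵒᵈ)
    (h : ∀ U, ofDual (τ (ofDual (τ U))) = U) :
    ∃ P, IsFrm P ∧ (fun U => ofDual (τ U)) '' P = coF P := by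
  classical
  set t : Lat n F → Lat n F := fun U => ofDual (τ U) with ht
  have hanti : ∀ U V : Lat n F, U ≤ V → t V ≤ t U := fun U V hUV => τ.monotone hUV
  have htt : ∀ U, t (t U) = U := h
  have hle : ∀ U V, U ≤ t V → V ≤ t U := by
    intro U V hUV
    have := hanti _ _ hUV
    rwa [htt] at this
  have hsup : ∀ U V, t (U ⊔ V) = t U ⊓ t V := by
    intro U V
    change ofDual (τ (U ⊔ V)) = _
    rw [τ.map_sup]
    rfl
  have hinf : ∀ U V, t (U ⊓ V) = t U ⊔ t V := by
    intro U V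
    change ofDual (τ (U ⊓ V)) = _
    rw [τ.map_inf]
    rfl
  have hbot : t ⊥ = ⊤ := by
    change ofDual (τ ⊥) = ⊤
    rw [τ.map_bot]
    rfl
  have htop : t ⊤ = ⊥ := by
    change ofDual (τ ⊤) = ⊥
    rw [τ.map_top]
    rfl
  obtain ⟨P, h1, h2, h3, h4, h5, h6⟩ := Polar_main t hle hsup hinf hbot htt _ ⊤ rfl
    (by rw [htop, inf_bot_eq])
  rw [finrank_top, Module.finrank_fin_fun] at h3
  have hP := Invol_frm_of_span h1 h2 h3 h4
  have key : ∀ p ∈ P, ∀ p' ∈ P, (∀ q ∈ P, q ≠ p' → q ≤ t p) → t p = sSup (P \ {p'}) := by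
    intro p hp p' hp' hq
    have h7 : sSup (P \ {p'}) ≤ t p := sSup_le fun q hq' => hq q hq'.1 (fun h => hq'.2 h)
    have h8 := (coF_inf hP hp').2.1
    have h9 : t p ≠ ⊤ := by
      intro h0
      have := congrArg t h0
      rw [htt, htop] at this
      exact (h1 p hp).1 this
    exact (h8.le_iff_eq h9).1 h7
  refine ⟨P, hP, ?_⟩
  ext x
  constructor
  · rintro ⟨p, hp, rfl⟩
    obtain ⟨p', hp', hq⟩ := h5 p hp
    exact ⟨p', hp', key p hp p' hp' hq⟩
  · rintro ⟨p', hp', rfl⟩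
    obtain ⟨p, hp, hq⟩ := h6 p' hp'
    exact ⟨p, hp, key p hp p' hp' hq⟩

end Pool.Agent.Work.MP_bc729a_al.LN
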