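import Pool.Agent.Work.MP_bc729a_al.LN.Defs

/-! Elements of large order in the field. -/

namespace Pool.Agent.Work.MP_bc729a_al.LN

universe u

variable {F : Type u} [Field F]

theorem exists_eps [Finite F] (hq : 8 ≤ Nat.card F) :
    ∃ e : F, e ≠ 0 ∧ ∀ k : ℕ, 1 ≤ k → k ≤ 6 → e ^ k ≠ 1 := by
  classical
  have := Fintype.ofFinite F
  rw [Nat.card_eq_fintype_card] at hq
  obtain ⟨ζ, hζ⟩ := IsCyclic.exists_generator (α := Fˣ)
  have hord : orderOf ζ = Fintype.card F - 1 := by
    rw [orderOf_eq_card_of_forall_mem_zpowers hζ, Nat.card_eq_fintype_card, Fintype.card_units]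
  refine ⟨(ζ : F), ζ.ne_zero, fun k h1 h6 hk => ?_⟩
  have h2 : ζ ^ k = 1 := by
    ext
    simpa using hk
  have h3 := orderOf_dvd_of_pow_eq_one h2
  have h4 := Nat.le_of_dvd (by omega) h3
  omega

omit [Field F] in
theorem exists_not_mem [Finite F] (s : Finset F) (h : s.card < Nat.card F) : ∃ x : F, x ∉ s := by
  classical
  have := Fintype.ofFinite F
  rw [Nat.card_eq_fintype_card] at h
  by_contra hcon
  push Not at hcon
  have : s = Finset.univ := Finset.eq_univ_iff_forall.2 hcon
  rw [this, Finset.card_univ] at h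
  exact lt_irrefl _ h

end Pool.Agent.Work.MP_bc729a_al.LN
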