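import Pool.Agent.Work.MP_bc729a_al.LN.FrmChar

/-! # Module TransF (size S-M): transitivity on frames and on flags

PROOF. `trans_frm`: `isFrm_iff`: `P`, `P'` are the sets of column lines of `M`, `M'`. Multiply one column of `M'` by a
nonzero scalar such that `det M' = det M` (`n ≥ 1`; for `n = 0` both sets are empty); `g = M' M⁻¹` has
determinant one and `g (column j of M) = column j of M'`; use `actSL_pt`, `act_pr`.
`trans_flag`: by `atom_iff`, `coatom_iff`, `pt_le_hyp`: `f = (pt v, hyp φ)` with `φ ⬝ v = 0`. There is a basis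
`b` of `F^n` with `b 0 = v`, `b i ∈ hyp φ` for `i ≠ n-1` and `b (n-1) ∉ hyp φ` (extend `v` to a basis of
`hyp φ` and add a vector). Same for `f'`. `g` maps one basis to the other, after scaling the last
vector so that `det g = 1` (this does not change the two spans). `g` maps `pt v` to `pt v'` and `hyp φ`
(the span of the first `n - 1`) to `hyp φ'`. (An alternative: two steps, first move the point, then the
hyperplane by elements fixing `v`.) -/

namespace Pool.Agent.Work.MP_bc729a_al.LN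

open Matrix

universe u

variable {n : ℕ} {F : Type u} [Field F]

private lemma TransF_pt_smul {c : F} (hc : c ≠ 0) (v : Fin n → F) : pt (c • v) = pt v := by
  unfold pt
  exact Submodule.span_singleton_smul_eq (IsUnit.mk0 c hc) v

private lemma TransF_col (M : Matrix (Fin n) (Fin n) F) (j : Fin n) :
    (fun i => M i j) = M *ᵥ Pi.single j 1 := by
  rw [Matrix.mulVec_single_one]
  rfl

/-- the matrix `A' D A⁻¹` of determinant one, `D` scales the coordinate `k` -/
private lemma TransF_fix (A A' : Matrix (Fin n) (Fin n) F) (hA : IsUnit A.det)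
    (hA' : IsUnit A'.det) (k : Fin n) :
    ∃ (c : F) (g : SLn n F), c ≠ 0 ∧
      g.1 * A = A' * Matrix.diagonal (fun i => if i = k then c else 1) := by
  classical
  have h1 : A.det ≠ 0 := hA.ne_zero
  have h2 : A'.det ≠ 0 := hA'.ne_zero
  refine ⟨A.det / A'.det, ⟨A' * Matrix.diagonal (fun i => if i = k then A.det / A'.det else 1) * A⁻¹,
    ?_⟩, div_ne_zero h1 h2, ?_⟩
  · rw [Matrix.det_mul, Matrix.det_mul, Matrix.det_diagonal, Finset.prod_ite_eq' Finset.univ k,
      if_pos (Finset.mem_univ k), Matrix.det_nonsing_inv, Ring.inverse_eq_inv', mul_div_cancel₀ _ h2]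
    exact mul_inv_cancel₀ h1
  · change A' * _ * A⁻¹ * A = _
    rw [Matrix.mul_assoc, Matrix.nonsing_inv_mul _ hA, Matrix.mul_one]

theorem trans_frm {P P' : Set (Lat n F)} (hP : IsFrm P) (hP' : IsFrm P') :
    ∃ s : PSLn n F, act n F s '' P = P' := by
  classical
  obtain ⟨M, hM, rfl⟩ := isFrm_iff.1 hP
  obtain ⟨M', hM', rfl⟩ := isFrm_iff.1 hP'
  rcases Nat.eq_zero_or_pos n with h0 | h0
  · subst h0
    refine ⟨1, ?_⟩
    rw [Set.range_eq_empty, Set.range_eq_empty, Set.image_empty]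
  · obtain ⟨c, g, hc, hg⟩ := TransF_fix M M' hM hM' ⟨0, h0⟩
    refine ⟨pr n F g, ?_⟩
    rw [act_pr, ← Set.range_comp]
    congr 1
    funext j
    change actSL n F g (pt fun i => M i j) = pt fun i => M' i j
    rw [actSL_pt, TransF_col, Matrix.mulVec_mulVec, hg, ← Matrix.mulVec_mulVec]
    have h3 : Matrix.diagonal (fun i : Fin n => if i = ⟨0, h0⟩ then c else 1) *ᵥ Pi.single j 1
        = (if j = ⟨0, h0⟩ then c else 1) • (Pi.single j 1 : Fin n → F) := by
      rw [Matrix.mulVec_single_one]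
      ext i
      simp only [Matrix.col_apply, Matrix.diagonal_apply, Pi.smul_apply, Pi.single_apply,
        smul_eq_mul, mul_ite, mul_one, mul_zero]
      by_cases hij : i = j
      · subst hij
        simp
      · simp [hij]
    rw [h3, Matrix.mulVec_smul, TransF_pt_smul, ← TransF_col]
    split_ifs
    · exact hc
    · exact one_ne_zero

private lemma TransF_vec {v : Fin n → F} (hv : v ≠ 0) (k : Fin n) :
    ∃ A : Matrix (Fin n) (Fin n) F, IsUnit A.det ∧ A *ᵥ Pi.single k 1 = v := by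
  classical
  obtain ⟨i0, hi0⟩ : ∃ i, v i ≠ 0 := by
    by_contra h
    push Not at h
    exact hv (funext h)
  refine ⟨((1 : Matrix (Fin n) (Fin n) F).updateCol i0 v).submatrix id (Equiv.swap k i0), ?_, ?_⟩
  · rw [Matrix.det_permute', ← Matrix.cramer_apply, Matrix.cramer_one]
    refine IsUnit.mul ?_ (IsUnit.mk0 _ hi0)
    rcases Int.units_eq_one_or (Equiv.Perm.sign (Equiv.swap k i0)) with h | h <;> rw [h] <;> simp
  · rw [Matrix.mulVec_single_one]
    ext i
    simp

private lemma TransF_cov {ψ : Fin n → F} (hψ : ψ ≠ 0) {k l : Fin n} (hkl : k ≠ l)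
    (hk : ψ k = 0) :
    ∃ B : Matrix (Fin n) (Fin n) F, IsUnit B.det ∧ B *ᵥ Pi.single k 1 = Pi.single k 1 ∧
      ψ ᵥ* B = Pi.single l 1 := by
  classical
  obtain ⟨j0, hj0⟩ : ∃ i, ψ i ≠ 0 := by
    by_contra h
    push Not at h
    exact hψ (funext h)
  have hkj : k ≠ j0 := by
    rintro rfl
    exact hj0 hk
  obtain ⟨N, hN, hN1, hN2⟩ : ∃ N : Matrix (Fin n) (Fin n) F, IsUnit N.det ∧
      N *ᵥ Pi.single k 1 = Pi.single k 1 ∧ Pi.single l 1 ᵥ* N = ψ := by
    refine ⟨((1 : Matrix (Fin n) (Fin n) F).updateRow j0 ψ).submatrix (Equiv.swap l j0) id,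
      ?_, ?_, ?_⟩
    · rw [Matrix.det_permute, ← Matrix.det_transpose, ← Matrix.updateCol_transpose,
        Matrix.transpose_one, ← Matrix.cramer_apply, Matrix.cramer_one]
      refine IsUnit.mul ?_ (IsUnit.mk0 _ hj0)
      rcases Int.units_eq_one_or (Equiv.Perm.sign (Equiv.swap l j0)) with h | h <;> rw [h] <;> simp
    · rw [Matrix.mulVec_single_one]
      ext i
      simp only [Matrix.col_apply, Matrix.submatrix_apply, id_eq, Matrix.updateRow_apply]
      by_cases hi : i = l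
      · subst hi
        rw [Equiv.swap_apply_left, if_pos rfl, hk, Pi.single_apply, if_neg (Ne.symm hkl)]
      · by_cases hi2 : i = j0
        · subst hi2
          rw [Equiv.swap_apply_right, if_neg (Ne.symm hi), Matrix.one_apply,
            if_neg (Ne.symm hkl), Pi.single_apply, if_neg (Ne.symm hkj)]
        · rw [Equiv.swap_apply_of_ne_of_ne hi hi2, if_neg hi2, Matrix.one_apply, Pi.single_apply]
    · rw [Matrix.single_one_vecMul]
      ext i
      simp
  refine ⟨N⁻¹, ?_, ?_, ?_⟩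
  · exact (Matrix.isUnit_nonsing_inv_det_iff).2 hN
  · conv_lhs => rw [← hN1]
    rw [Matrix.mulVec_mulVec, Matrix.nonsing_inv_mul _ hN, Matrix.one_mulVec]
  · rw [← hN2, Matrix.vecMul_vecMul, Matrix.mul_nonsing_inv _ hN, Matrix.vecMul_one]

private lemma TransF_adapt {v φ : Fin n → F} (hv : v ≠ 0) (hφ : φ ≠ 0) (h : φ ⬝ᵥ v = 0)
    {k l : Fin n} (hkl : k ≠ l) :
    ∃ A : Matrix (Fin n) (Fin n) F, IsUnit A.det ∧ A *ᵥ Pi.single k 1 = v ∧
      φ ᵥ* A = Pi.single l 1 := by
  classical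
  obtain ⟨A, hA, hA1⟩ := TransF_vec hv k
  have h1 : φ ᵥ* A ≠ 0 := by
    intro h0
    apply hφ
    have : φ ᵥ* A ᵥ* A⁻¹ = 0 := by rw [h0, Matrix.zero_vecMul]
    rwa [Matrix.vecMul_vecMul, Matrix.mul_nonsing_inv _ hA, Matrix.vecMul_one] at this
  have h2 : (φ ᵥ* A) k = 0 := by
    have : (φ ᵥ* A) ⬝ᵥ Pi.single k 1 = 0 := by
      rw [← Matrix.dotProduct_mulVec, hA1, h]
    rwa [dotProduct_single, mul_one] at this
  obtain ⟨B, hB, hB1, hB2⟩ := TransF_cov h1 hkl h2
  refine ⟨A * B, ?_, ?_, ?_⟩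
  · rw [Matrix.det_mul]
    exact hA.mul hB
  · rw [← Matrix.mulVec_mulVec, hB1, hA1]
  · rw [← Matrix.vecMul_vecMul, hB2]

private lemma TransF_two {v φ : Fin n → F} (hv : v ≠ 0) (hφ : φ ≠ 0) (h : φ ⬝ᵥ v = 0) :
    ∃ k l : Fin n, k ≠ l := by
  by_contra hcon
  push Not at hcon
  have : Subsingleton (Fin n) := ⟨hcon⟩
  obtain ⟨i0, hi0⟩ : ∃ i, v i ≠ 0 := by
    by_contra h
    push Not at h
    exact hv (funext h)
  obtain ⟨j0, hj0⟩ : ∃ i, φ i ≠ 0 := by
    by_contra h
    push Not at h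
    exact hφ (funext h)
  rw [dotProduct, Fintype.sum_subsingleton _ i0] at h
  rw [hcon j0 i0] at hj0
  exact mul_ne_zero hj0 hi0 h

theorem trans_flag (f f' : Flag n F) : ∃ s : PSLn n F, f.map (act n F s) = f' := by
  classical
  obtain ⟨v, hv, hpv⟩ := atom_iff.1 f.hp
  obtain ⟨φ, hφ, hhφ⟩ := coatom_iff.1 f.hh
  obtain ⟨v', hv', hpv'⟩ := atom_iff.1 f'.hp
  obtain ⟨φ', hφ', hhφ'⟩ := coatom_iff.1 f'.hh
  have h1 : φ ⬝ᵥ v = 0 := by
    have := f.le
    rwa [hpv, hhφ, pt_le_hyp] at this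
  have h2 : φ' ⬝ᵥ v' = 0 := by
    have := f'.le
    rwa [hpv', hhφ', pt_le_hyp] at this
  obtain ⟨k, l, hkl⟩ := TransF_two hv hφ h1
  obtain ⟨A, hA, hA1, hA2⟩ := TransF_adapt hv hφ h1 hkl
  obtain ⟨A', hA', hA1', hA2'⟩ := TransF_adapt hv' hφ' h2 hkl
  obtain ⟨c, g, hc, hg⟩ := TransF_fix A A' hA hA' k
  refine ⟨pr n F g, ?_⟩
  apply Flag.ext'
  · change act n F (pr n F g) f.p = f'.p
    rw [act_pr, hpv, hpv', actSL_pt, ← hA1, Matrix.mulVec_mulVec, hg, ← Matrix.mulVec_mulVec]
    have h3 : Matrix.diagonal (fun i : Fin n => if i = k then c else 1) *ᵥ Pi.single k 1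
        = c • (Pi.single k 1 : Fin n → F) := by
      rw [Matrix.mulVec_single_one]
      ext i
      simp only [Matrix.col_apply, Matrix.diagonal_apply, Pi.smul_apply, Pi.single_apply,
        smul_eq_mul, mul_ite, mul_one, mul_zero]
      by_cases hij : i = k
      · subst hij
        simp
      · simp [hij]
    rw [h3, Matrix.mulVec_smul, TransF_pt_smul hc, hA1']
  · change act n F (pr n F g) f.h = f'.h
    rw [act_pr, hhφ, hhφ']
    have key : ∀ u, φ' ⬝ᵥ (g.1 *ᵥ u) = φ ⬝ᵥ u := by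
      intro u
      have h4 : φ' ᵥ* (g.1 * A) = φ ᵥ* A := by
        rw [hg, ← Matrix.vecMul_vecMul, hA2', hA2, Matrix.single_one_vecMul]
        ext i
        simp only [Matrix.row_apply, Matrix.diagonal_apply, Pi.single_apply]
        by_cases hij : i = l
        · subst hij
          simp [Ne.symm hkl]
        · rw [if_neg hij, if_neg (Ne.symm hij)]
      have h5 : φ' ᵥ* g.1 = φ := by
        have := congrArg (fun x => x ᵥ* A⁻¹) h4
        simp only [Matrix.vecMul_vecMul] at this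
        rw [Matrix.mul_assoc, Matrix.mul_nonsing_inv _ hA, Matrix.mul_one, Matrix.vecMul_one] at this
        exact this
      rw [Matrix.dotProduct_mulVec, h5]
    ext w
    rw [mem_actSL, mem_hyp]
    constructor
    · rintro ⟨u, hu, rfl⟩
      rw [key]
      exact hu
    · intro hw
      refine ⟨(g⁻¹).1 *ᵥ w, ?_, ?_⟩
      · rw [mem_hyp, ← key, Matrix.mulVec_mulVec, sl_mul_inv, Matrix.one_mulVec]
        exact hw
      · rw [Matrix.mulVec_mulVec, sl_mul_inv, Matrix.one_mulVec]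

end Pool.Agent.Work.MP_bc729a_al.LN
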