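import Pool.Agent.Work.MP_bc729a_al.LN.ActInj
import Pool.Agent.Work.MP_bc729a_al.LN.FrmChar
import Pool.Agent.Work.MP_bc729a_al.LN.C1
import Pool.Agent.Work.MP_bc729a_al.LN.Elem
import Pool.Agent.Work.MP_bc729a_al.LN.TransF

/-! # Module StabStd (size S-M): the stabiliser of a frame

PROOF. `stab_std`: `pr g` maps `pt e_j` to `pt (g e_j)` (`actSL_pt`), `g e_j` is the column `j` of `g`; the line of
the column `j` is one of the `pt e_i` iff the column has exactly one nonzero entry; so `g` permutes the standard
frame iff `g` is monomial (a map of the finite set `stdF` to itself which is injective is a permutation).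
Conversely every element of `stab` is `pr g`.
`frm_image`: a lattice automorphism preserves atoms (`OrderIso.isAtom_iff`), independence and sups.
`stab_act`: `stab (act s '' P) = conj s (stab P)`: `act (s t s⁻¹) = act s ∘ act t ∘ (act s)⁻¹`.
`stab_inj`: replacing `P, P'` by their images under `act s` with `act s '' P = stdF` (`trans_frm`
in TransF: you may import it) assume `P = stdF`. `P' = ` set of column lines of `M`. Let `j ≠ j'` (`n ≥ 2`),
`e` as in `exists_eps`, `h` the matrix `diagonal (hd j j' e)` of determinant one. `pr h ∈ stab stdF ≤ stab P'`, so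
`h` permutes the column lines of `M`: `h.1 * M = M * m` with `m` monomial. `lemC1`: some column of `M` vanishes
outside row `j`, so its line is `pt e_j`: `pt e_j ∈ P'`. This holds for all `j`, so `stdF ⊆ P'`; equality since both
have `n` elements (`card_frm`) (or: an element of `P'` outside `stdF` would be disjoint from `sSup stdF = ⊤`). -/

namespace Pool.Agent.Work.MP_bc729a_al.LN

open Matrix
open scoped Pointwise

universe u

variable {n : ℕ} {F : Type u} [Field F]

private lemma StabStd_pt_eq {v w : Fin n → F} (h : pt v = pt w) : ∃ c : F, v = c • w := by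
  have h1 : v ∈ pt w := by
    rw [← h]
    exact Submodule.mem_span_singleton_self v
  obtain ⟨c, hc⟩ := Submodule.mem_span_singleton.1 h1
  exact ⟨c, hc.symm⟩

private lemma StabStd_pt_smul {c : F} (hc : c ≠ 0) (v : Fin n → F) : pt (c • v) = pt v := by
  unfold pt
  exact Submodule.span_singleton_smul_eq (IsUnit.mk0 c hc) v

private lemma StabStd_col_inj {M : Matrix (Fin n) (Fin n) F} (hM : IsUnit M.det) :
    Function.Injective (fun j => pt (fun i => M i j)) := by
  classical
  have hli : LinearIndependent F (fun j => fun i => M i j) :=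
    Matrix.linearIndependent_cols_iff_isUnit.2 ((Matrix.isUnit_iff_isUnit_det M).2 hM)
  refine iSupIndep.injective hli.iSupIndep_span_singleton ?_
  intro j
  exact (nonzero_span_atom _ (hli.ne_zero j)).1

private lemma StabStd_std_inj : Function.Injective (fun j : Fin n => pt (Pi.single j (1 : F))) := by
  classical
  have h := StabStd_col_inj (M := (1 : Matrix (Fin n) (Fin n) F)) (by simp)
  have h2 : (fun j : Fin n => pt (Pi.single j (1 : F))) =
      fun j => pt (fun i => (1 : Matrix (Fin n) (Fin n) F) i j) := by
    funext j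
    congr 1
    ext i
    rw [Matrix.one_apply, Pi.single_apply]
  rw [h2]
  exact h

private lemma StabStd_mono_sub {g : SLn n F} (hg : Mono g.1) :
    act n F (pr n F g) '' stdF n F = stdF n F := by
  classical
  obtain ⟨σ, hσ⟩ := hg
  have key : ∀ j, act n F (pr n F g) (pt (Pi.single j 1)) = pt (Pi.single (σ j) 1) := by
    intro j
    rw [act_pr, actSL_pt]
    have h1 : g.1 *ᵥ Pi.single j 1 = (g.1 (σ j) j) • (Pi.single (σ j) 1 : Fin n → F) := by
      rw [Matrix.mulVec_single_one]
      ext i
      rw [Matrix.col_apply, Pi.smul_apply, Pi.single_apply, smul_eq_mul, mul_ite, mul_one, mul_zero]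
      by_cases hi : i = σ j
      · rw [if_pos hi, hi]
      · rw [if_neg hi]
        by_contra hne
        exact hi (hσ i j hne)
    have h2 : g.1 (σ j) j ≠ 0 := by
      intro h0
      have : g.1.det = 0 := by
        refine Matrix.det_eq_zero_of_column_eq_zero j fun i => ?_
        by_contra hne
        have := hσ i j hne
        subst this
        exact hne h0
      rw [g.2] at this
      exact one_ne_zero this
    rw [h1, StabStd_pt_smul h2]
  unfold stdF
  rw [← Set.range_comp]
  have : (act n F (pr n F g) : Lat n F → Lat n F) ∘ (fun i : Fin n => pt (Pi.single i (1 : F))) =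
      (fun i : Fin n => pt (Pi.single i (1 : F))) ∘ σ := by
    funext j
    exact key j
  rw [this]
  exact σ.surjective.range_comp _

/-- a matrix which permutes the lines of the columns of `M` -/
private lemma StabStd_perm {g : SLn n F} {M : Matrix (Fin n) (Fin n) F} (hM : IsUnit M.det)
    (h : act n F (pr n F g) '' (Set.range fun j => pt (fun i => M i j)) =
      Set.range fun j => pt (fun i => M i j)) :
    ∃ m : Matrix (Fin n) (Fin n) F, Mono m ∧ g.1 * M = M * m := by
  classical
  have h1 : ∀ j, ∃ k, pt (g.1 *ᵥ fun i => M i j) = pt (fun i => M i k) := by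
    intro j
    have : act n F (pr n F g) (pt (fun i => M i j)) ∈ Set.range fun j => pt (fun i => M i j) := by
      rw [← h]
      exact ⟨_, ⟨j, rfl⟩, rfl⟩
    obtain ⟨k, hk⟩ := this
    refine ⟨k, ?_⟩
    rw [act_pr, actSL_pt] at hk
    exact hk.symm
  choose σ hσ using h1
  have hinj : Function.Injective σ := by
    intro a b hab
    have h2 : actSL n F g (pt fun i => M i a) = actSL n F g (pt fun i => M i b) := by
      rw [actSL_pt, actSL_pt, hσ a, hσ b, hab]
    exact StabStd_col_inj hM ((actSL n F g).injective h2)
  have h3 : ∀ j, ∃ c : F, (g.1 *ᵥ fun i => M i j) = c • (fun i => M i (σ j)) :=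
    fun j => StabStd_pt_eq (hσ j)
  choose c hc using h3
  refine ⟨Matrix.of fun i j => if i = σ j then c j else 0,
    ⟨Equiv.ofBijective σ (Finite.injective_iff_bijective.1 hinj), fun i j hij => ?_⟩, ?_⟩
  · by_contra hne
    apply hij
    rw [Matrix.of_apply, if_neg]
    exact hne
  · ext i j
    have h4 := congrFun (hc j) i
    have h5 : (g.1 * M) i j = (g.1 *ᵥ fun i => M i j) i := rfl
    have h6 : (M * (Matrix.of fun i j => if i = σ j then c j else 0)) i j = M i (σ j) * c j := by
      rw [Matrix.mul_apply, Finset.sum_eq_single (σ j)]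
      · rw [Matrix.of_apply, if_pos rfl]
      · intro b _ hb
        rw [Matrix.of_apply, if_neg hb, mul_zero]
      · intro hi
        exact absurd (Finset.mem_univ _) hi
    rw [h5, h6, h4, Pi.smul_apply, smul_eq_mul, mul_comm]

private lemma StabStd_std_eq : stdF n F =
    Set.range fun j => pt (fun i => (1 : Matrix (Fin n) (Fin n) F) i j) := by
  classical
  unfold stdF
  congr 1
  funext j
  congr 1
  ext i
  rw [Matrix.one_apply, Pi.single_apply]

theorem stab_std : stab (stdF n F) = (monoSL n F).map (pr n F) := by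
  classical
  ext s
  obtain ⟨g, rfl⟩ := pr_surjective s
  rw [mem_stab, Subgroup.mem_map]
  constructor
  · intro h
    refine ⟨g, ?_, rfl⟩
    rw [StabStd_std_eq] at h
    obtain ⟨m, hm, hgm⟩ := StabStd_perm (by simp) h
    rw [Matrix.mul_one, Matrix.one_mul] at hgm
    rw [mem_monoSL, hgm]
    exact hm
  · rintro ⟨g', hg', he⟩
    rw [← he]
    exact StabStd_mono_sub hg'

theorem frm_image (σ : Lat n F ≃o Lat n F) {P : Set (Lat n F)} (hP : IsFrm P) :
    IsFrm (σ '' P) := by
  obtain ⟨h1, h2, h3⟩ := hP
  refine ⟨?_, ?_, ?_⟩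
  · rintro _ ⟨p, hp, rfl⟩
    exact (OrderIso.isAtom_iff σ p).2 (h1 p hp)
  · rintro _ ⟨p, hp, rfl⟩
    have h4 : σ '' P \ {σ p} = σ '' (P \ {p}) := by
      rw [Set.image_sdiff σ.injective, Set.image_singleton]
    rw [h4, sSup_image, ← σ.map_sSup]
    exact (h2 hp).map_orderIso σ
  · rw [sSup_image, ← σ.map_sSup, h3, σ.map_top]

theorem stab_act (s : PSLn n F) (P : Set (Lat n F)) :
    stab (act n F s '' P) = MulAut.conj s • stab P := by
  ext t
  rw [Subgroup.mem_pointwise_smul_iff_inv_smul_mem, mem_stab, mem_stab, ← map_inv,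
    MulAut.smul_def, MulAut.conj_apply, inv_inv, map_mul, map_mul, map_inv]
  have h1 : ((act n F s)⁻¹ * act n F t * act n F s : Lat n F ≃o Lat n F) '' P =
      ((act n F s)⁻¹ : Lat n F ≃o Lat n F) '' (act n F t '' (act n F s '' P)) := by
    rw [← Set.image_comp, ← Set.image_comp]
    rfl
  rw [h1]
  have h2 : ∀ S T : Set (Lat n F), ((act n F s)⁻¹ : Lat n F ≃o Lat n F) '' S = T ↔
      S = act n F s '' T := by
    intro S T
    constructor
    · rintro rfl
      rw [← Set.image_comp]
      have : (act n F s : Lat n F → Lat n F) ∘ ((act n F s)⁻¹ : Lat n F ≃o Lat n F) = id := by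
        funext U
        exact (act n F s).apply_symm_apply U
      rw [this, Set.image_id]
    · rintro rfl
      rw [← Set.image_comp]
      have : ((act n F s)⁻¹ : Lat n F ≃o Lat n F) ∘ (act n F s : Lat n F → Lat n F) = id := by
        funext U
        exact (act n F s).symm_apply_apply U
      rw [this, Set.image_id]
  rw [h2]

private lemma StabStd_inj_std [Finite F] (hq : 8 ≤ Nat.card F) (hn : 2 ≤ n) {P' : Set (Lat n F)}
    (hP' : IsFrm P') (h : stab (stdF n F) ≤ stab P') : stdF n F = P' := by
  classical
  obtain ⟨M, hM, hMP⟩ := isFrm_iff.1 hP'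
  obtain ⟨e, he0, he⟩ := exists_eps (F := F) hq
  have hsub : stdF n F ⊆ P' := by
    rintro _ ⟨j, rfl⟩
    obtain ⟨j', hj⟩ : ∃ j' : Fin n, j ≠ j' := by
      have : Nontrivial (Fin n) := Fin.nontrivial_iff_two_le.2 hn
      obtain ⟨j', hj'⟩ := exists_ne j
      exact ⟨j', hj'.symm⟩
    have hdet : (Matrix.diagonal (hd j j' e)).det = 1 := by
      rw [Matrix.det_diagonal]
      have h1 : ∀ k, hd j j' e k = (if k = j then e else 1) * (if k = j' then e⁻¹ else 1) := by
        intro k
        unfold hd
        by_cases hk : k = j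
        · have : k ≠ j' := by
            rw [hk]
            exact hj
          rw [if_pos hk, if_pos hk, if_neg this, mul_one]
        · rw [if_neg hk, if_neg hk, one_mul]
      rw [Finset.prod_congr rfl (fun k _ => h1 k), Finset.prod_mul_distrib,
        Finset.prod_ite_eq' Finset.univ j, Finset.prod_ite_eq' Finset.univ j',
        if_pos (Finset.mem_univ _), if_pos (Finset.mem_univ _), mul_inv_cancel₀ he0]
    let g : SLn n F := ⟨Matrix.diagonal (hd j j' e), hdet⟩
    have hg : Mono g.1 := by
      refine ⟨1, fun a b hab => ?_⟩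
      by_contra hne
      exact hab (Matrix.diagonal_apply_ne _ hne)
    have h2 : pr n F g ∈ stab P' := h (StabStd_mono_sub hg)
    rw [mem_stab, hMP] at h2
    obtain ⟨m, hm, hgm⟩ := StabStd_perm hM h2
    obtain ⟨a, ha⟩ := lemC1 hj he0 he hM hm hgm
    have h3 : M j a ≠ 0 := by
      intro h0
      have : M.det = 0 := by
        refine Matrix.det_eq_zero_of_column_eq_zero a fun i => ?_
        by_cases hi : i = j
        · rw [hi, h0]
        · exact ha i hi
      rw [this] at hM
      exact not_isUnit_zero hM
    rw [hMP]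
    refine ⟨a, ?_⟩
    have h4 : (fun i => M i a) = (M j a) • (Pi.single j 1 : Fin n → F) := by
      ext i
      rw [Pi.smul_apply, Pi.single_apply, smul_eq_mul, mul_ite, mul_one, mul_zero]
      by_cases hi : i = j
      · rw [if_pos hi, hi]
      · rw [if_neg hi, ha i hi]
    change pt (fun i => M i a) = pt (Pi.single j 1)
    rw [h4, StabStd_pt_smul h3]
  have hc1 := card_frm (std_isFrm (n := n) (F := F))
  have hc2 := card_frm hP'
  refine Set.eq_of_subset_of_ncard_le hsub ?_ hc2.2
  rw [hc1.1, hc2.1]

theorem stab_inj [Finite F] (hq : 8 ≤ Nat.card F) (hn : 2 ≤ n) {P P' : Set (Lat n F)}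
    (hP : IsFrm P) (hP' : IsFrm P') (h : stab P ≤ stab P') : P = P' := by
  obtain ⟨s, hs⟩ := trans_frm hP (std_isFrm (n := n) (F := F))
  have h1 : stab (stdF n F) ≤ stab (act n F s '' P') := by
    rw [← hs, stab_act, stab_act]
    exact Subgroup.pointwise_smul_le_pointwise_smul_iff.2 h
  have h2 := StabStd_inj_std hq hn (frm_image _ hP') h1
  rw [← hs] at h2
  exact (act n F s).injective.image_injective h2

end Pool.Agent.Work.MP_bc729a_al.LN
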