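import Pool.Agent.Work.MP_bc729a_al.LN.XTchar
import Pool.Agent.Work.MP_bc729a_al.LN.GraphT
import Pool.Agent.Work.MP_bc729a_al.LN.TypeP

/-! # Module Uniq (size S-M): uniqueness of the collineation

PROOF. Let `p = pt v` be an atom. For every `ψ ≠ 0` with `ψ ⬝ v = 0` let `x_ψ : SLn n F` be `1 + vecMulVec v ψ`
(`exists_XT`), `s_ψ = pr x_ψ`.
(1) `act s_ψ p = p`. An atom `q = pt w` fixed by all `act s_ψ` is `p` (`n ≥ 2`): `x_ψ w = w + (ψ ⬝ w) v` is a multiple of `w`; if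
`w ∉ pt v` choose `ψ` with `ψ ⬝ v = 0`, `ψ ⬝ w = 1`: `w + v ∈ pt w`, so `v ∈ pt w`, contradiction.
(2) `uniq`: for an atom `p`, `σ p` is an atom and `act s (σ p) = σ (act s p) = σ p` for `s = s_ψ`, so `σ p = p` by (1).
Then `σ = 1` (`lat_atoms`).
(3) `uniqD`: `h = ofDual (τ p)` is a coatom, fixed by `act s` for every `s` with `act s p = p`. `n ≥ 3`. `h = hyp χ`, `χ ≠ 0`.
First `s = s_ψ`: `x_ψ` maps `hyp χ` to itself: if `χ ⬝ v ≠ 0` then every `w ∈ hyp χ` has `w + (ψ ⬝ w) v ∈ hyp χ`, so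
`ψ ⬝ w = 0`, so `hyp χ ≤ hyp ψ`, for all `ψ ≠ 0` with `ψ ⬝ v = 0`; there are two independent such `ψ` (`n - 1 ≥ 2`),
contradiction. So `χ ⬝ v = 0`. Choose `u` with `χ ⬝ u = 0`, `u ∉ pt v` (`n ≥ 3`: `hyp χ` has dimension `n - 1 ≥ 2`),
`w` with `χ ⬝ w ≠ 0`, and `φ` with `φ ⬝ v = 0`, `φ ⬝ u = 1`, `φ ⬝ w = 0` (`v, u, w` are independent). `y = 1 + vecMulVec w φ` is in
`SL_n` (`φ ⬝ w = 0`), `y v = v`, so `pr y` fixes `p`, hence fixes `hyp χ`: but `y u = u + w ∉ hyp χ`: contradiction. -/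

namespace Pool.Agent.Work.MP_bc729a_al.LN

open Matrix OrderDual

universe u

variable {n : ℕ} {F : Type u} [Field F]

theorem uniq_ext {M : Type*} [CompleteLattice M] (e1 e2 : Lat n F ≃o M)
    (h : ∀ x : Lat n F, IsAtom x → e1 x = e2 x) (U : Lat n F) : e1 U = e2 U := by
  rw [lat_atoms U, OrderIso.map_sSup, OrderIso.map_sSup]
  refine iSup_congr fun x => iSup_congr fun hx => h x hx.1

private theorem uniq_act (g : SLn n F) (U : Lat n F) {u : Fin n → F} (hu : u ∈ U)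
    (h : act n F (pr n F g) U = U) : g.1 *ᵥ u ∈ U := by
  rw [act_pr] at h
  have h1 : g.1 *ᵥ u ∈ actSL n F g U := mem_actSL.2 ⟨u, hu, rfl⟩
  rwa [h] at h1

theorem uniq (hn : 2 ≤ n) (σ : Lat n F ≃o Lat n F)
    (h : ∀ s U, σ (act n F s U) = act n F s (σ U)) : σ = 1 := by
  refine DFunLike.ext _ _ fun U => uniq_ext σ 1 (fun p hp => ?_) U
  change σ p = p
  obtain ⟨v, hv, rfl⟩ := atom_iff.1 hp
  have hσp : IsAtom (σ (pt v)) := (OrderIso.isAtom_iff σ _).2 hp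
  obtain ⟨w, hw, hσw⟩ := atom_iff.1 hσp
  have hmem : w ∈ pt v := by
    by_contra hwv
    obtain ⟨ψ, hψ1, hψ2⟩ := graphT_sep hwv
    have hψv : ψ ⬝ᵥ v = 0 := hψ1 v (Submodule.mem_span_singleton_self v)
    obtain ⟨x, hx⟩ := exists_XT hψv 1
    have h1 : act n F (pr n F x) (pt v) = pt v := by
      rw [act_pr, actSL_pt, hx, xt_mulVec, hψv, mul_zero, zero_smul, add_zero]
    have h2 := h (pr n F x) (pt v)
    rw [h1, hσw] at h2
    have h3 := uniq_act x (pt w) (Submodule.mem_span_singleton_self w) h2.symm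
    rw [hx, xt_mulVec, hψ2, mul_one, one_smul] at h3
    have h4 : v ∈ pt w := by
      have := Submodule.sub_mem _ h3 (Submodule.mem_span_singleton_self w)
      rwa [add_sub_cancel_left] at this
    have h5 : pt v ≤ pt w := (Submodule.span_singleton_le_iff_mem _ _).2 h4
    rw [hσw] at hσp
    rcases hσp.le_iff.1 h5 with h6 | h6
    · exact hp.1 h6
    · apply hwv
      rw [h6]
      exact Submodule.mem_span_singleton_self w
  rw [hσw]
  have h5 : pt w ≤ pt v := (Submodule.span_singleton_le_iff_mem _ _).2 hmem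
  rcases hp.le_iff.1 h5 with h6 | h6
  · rw [hσw] at hσp
    exact absurd h6 hσp.1
  · exact h6

theorem uniqD (hn : 3 ≤ n) (τ : Lat n F ≃o (Lat n F)ᵒᵈ)
    (h : ∀ s U, ofDual (τ (act n F s U)) = act n F s (ofDual (τ U))) : False := by
  obtain ⟨v, hv⟩ : ∃ v : Fin n → F, v ≠ 0 := by
    refine ⟨Pi.single ⟨0, by omega⟩ 1, fun h0 => ?_⟩
    have := congrFun h0 ⟨0, by omega⟩
    rw [Pi.single_eq_same] at this
    exact one_ne_zero this
  have hp : IsAtom (pt v) := atom_iff.2 ⟨v, hv, rfl⟩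
  have hco : IsCoatom (ofDual (τ (pt v))) :=
    isAtom_dual_iff_isCoatom.1 ((OrderIso.isAtom_iff τ _).2 hp)
  obtain ⟨χ, hχ, hχ2⟩ := coatom_iff.1 hco
  have key : ∀ g : SLn n F, g.1 *ᵥ v = v → ∀ u, χ ⬝ᵥ u = 0 → χ ⬝ᵥ (g.1 *ᵥ u) = 0 := by
    intro g hg u hu
    have h1 : act n F (pr n F g) (pt v) = pt v := by
      rw [act_pr, actSL_pt, hg]
    have h2 := h (pr n F g) (pt v)
    rw [h1, hχ2] at h2
    exact uniq_act g (hyp χ) (u := u) hu h2.symm
  obtain ⟨u, hu0, hu⟩ := graphT_one hn hχ v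
  have hχv : χ ⬝ᵥ v = 0 := by
    obtain ⟨ψ, hψ1, hψ2⟩ := graphT_sep hu
    have hψv : ψ ⬝ᵥ v = 0 := hψ1 v (Submodule.mem_span_singleton_self v)
    obtain ⟨x, hx⟩ := exists_XT hψv 1
    have h1 := key x (by rw [hx, xt_mulVec, hψv, mul_zero, zero_smul, add_zero]) u hu0
    rw [hx, xt_mulVec, hψ2, mul_one, one_smul, dotProduct_add, hu0, zero_add] at h1
    exact h1
  obtain ⟨w, hw⟩ := exists_dual hχ
  have hu2 : u ∉ Submodule.span F ({v, w} : Set (Fin n → F)) := by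
    intro hmem
    obtain ⟨a, b, hab⟩ := Submodule.mem_span_pair.1 hmem
    have h1 : χ ⬝ᵥ u = b := by
      rw [← hab, dotProduct_add, dotProduct_smul, dotProduct_smul, hχv, hw, smul_zero, zero_add,
        smul_eq_mul, mul_one]
    rw [hu0] at h1
    apply hu
    rw [← hab, ← h1, zero_smul, add_zero]
    exact Submodule.smul_mem _ _ (Submodule.mem_span_singleton_self v)
  obtain ⟨φ, hφ1, hφ2⟩ := graphT_sep hu2
  have hφv : φ ⬝ᵥ v = 0 := hφ1 v (Submodule.subset_span (by simp))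
  have hφw : φ ⬝ᵥ w = 0 := hφ1 w (Submodule.subset_span (by simp))
  obtain ⟨y, hy⟩ := exists_XT hφw 1
  have h1 := key y (by rw [hy, xt_mulVec, hφv, mul_zero, zero_smul, add_zero]) u hu0
  rw [hy, xt_mulVec, hφ2, mul_one, one_smul, dotProduct_add, hu0, hw, zero_add] at h1
  exact one_ne_zero h1

end Pool.Agent.Work.MP_bc729a_al.LN
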