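import Pool.Agent.Work.MP_bc729a_al.Reduct
import Pool.Agent.Work.MP_bc729a_al.LN.PAll
import Pool.Agent.Work.MP_bc729a_al.LN.Fund
import Pool.Agent.Work.MP_bc729a_al.LN.Uniq
import Pool.Agent.Work.MP_bc729a_al.LN.StabStd
import Pool.Agent.Work.MP_bc729a_al.LN.CoFrm
import Pool.Agent.Work.MP_bc729a_al.LN.Invol
import Pool.Agent.Work.MP_bc729a_al.LN.Polar
import Pool.Agent.Work.MP_bc729a_al.LN.OddC
import Pool.Agent.Work.MP_bc729a_al.LN.EvenIdx
import Pool.Agent.Work.MP_bc729a_al.LN.Triv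

/-! `L_n(q)`, `n ≥ 3`, `q ≥ 8`, is not a composition factor of a finite group with complemented
maximal subgroups. -/

namespace Pool.Agent.Work.MP_bc729a_al.LN

open Matrix OrderDual
open scoped Pointwise

universe u v

variable {n : ℕ} {F : Type v} [Field F]

/-- the image of the monomial group -/
abbrev Hm (n : ℕ) (F : Type v) [Field F] : Subgroup (PSLn n F) := (monoSL n F).map (pr n F)

theorem coatomH [Finite F] (hq : 8 ≤ Nat.card F) (hn : 3 ≤ n) {R : Subgroup (PSLn n F)}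
    (hR : Hm n F ≤ R) (hRt : R ≠ ⊤) : R = Hm n F := by
  have h1 : monoSL n F ≤ R.comap (pr n F) := Subgroup.map_le_iff_le_comap.1 hR
  rcases P_all hq hn _ h1 with h | h
  · rw [Hm, ← h, Subgroup.map_comap_eq_self_of_surjective pr_surjective]
  · exfalso
    apply hRt
    rw [← Subgroup.map_comap_eq_self_of_surjective (pr_surjective (n := n) (F := F)) R, h,
      Subgroup.map_top_of_surjective _ pr_surjective]

/-- `α` is induced by the collineation `σ` -/
def IndP (α : MulAut (PSLn n F)) (σ : Lat n F ≃o Lat n F) : Prop :=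
  ∀ s U, σ (act n F s U) = act n F (α s) (σ U)

/-- `α` is induced by the correlation `τ` -/
def IndD (α : MulAut (PSLn n F)) (τ : Lat n F ≃o (Lat n F)ᵒᵈ) : Prop :=
  ∀ s U, ofDual (τ (act n F s U)) = act n F (α s) (ofDual (τ U))

/-- a general form -/
theorem map_stab_fun (α : MulAut (PSLn n F)) (f : Lat n F → Lat n F)
    (hf : Function.Injective f) (h : ∀ s U, f (act n F s U) = act n F (α s) (f U))
    (P : Set (Lat n F)) : (stab P).map α.toMonoidHom = stab (f '' P) := by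
  have key : ∀ s, s ∈ stab P ↔ α s ∈ stab (f '' P) := by
    intro s
    rw [mem_stab, mem_stab, Set.image_image]
    have h1 : (fun x => act n F (α s) (f x)) = fun x => f (act n F s x) := by
      funext x
      rw [h]
    rw [h1, ← Set.image_image f]
    exact ⟨fun h2 => by rw [h2], fun h2 => hf.image_injective h2⟩
  ext y
  rw [Subgroup.mem_map]
  constructor
  · rintro ⟨s, hs, rfl⟩
    exact (key s).1 hs
  · intro hy
    refine ⟨α.symm y, (key _).2 ?_, α.apply_symm_apply y⟩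
    rw [MulEquiv.apply_symm_apply]
    exact hy

theorem map_stab {α : MulAut (PSLn n F)} {σ : Lat n F ≃o Lat n F} (h : IndP α σ)
    (P : Set (Lat n F)) : (stab P).map α.toMonoidHom = stab (σ '' P) :=
  map_stab_fun α σ σ.injective h P

theorem map_stabD {α : MulAut (PSLn n F)} {τ : Lat n F ≃o (Lat n F)ᵒᵈ} (h : IndD α τ)
    (P : Set (Lat n F)) :
    (stab P).map α.toMonoidHom = stab ((fun U => ofDual (τ U)) '' P) :=
  map_stab_fun α (fun U => ofDual (τ U)) (fun _ _ hab => τ.injective hab) h P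

theorem stab_frm {P : Set (Lat n F)} (hP : IsFrm P) :
    ∃ a : PSLn n F, act n F a '' stdF n F = P ∧ stab P = MulAut.conj a • Hm n F := by
  obtain ⟨a, ha⟩ := trans_frm std_isFrm hP
  refine ⟨a, ha, ?_⟩
  rw [← ha, stab_act, stab_std]

theorem conj_Hm (a : PSLn n F) : MulAut.conj a • Hm n F = stab (act n F a '' stdF n F) := by
  rw [stab_act, stab_std]

theorem map_dual_stab {α : MulAut (PSLn n F)} {τ : Lat n F ≃o (Lat n F)ᵒᵈ} (h : IndD α τ)
    {P : Set (Lat n F)} (hP : IsFrm P) :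
    ∃ P', IsFrm P' ∧ (stab P).map α.toMonoidHom = stab P' := by
  obtain ⟨h1, h2⟩ := dual_frm τ hP
  refine ⟨_, h1, ?_⟩
  rw [map_stabD h, ← h2, stab_coF h1]

theorem class_inv [Finite F] (hn : 3 ≤ n) (α : MulAut (PSLn n F)) :
    ∃ a : PSLn n F, (Hm n F).map α.toMonoidHom = MulAut.conj a • Hm n F := by
  rw [Hm, ← stab_std]
  rcases fund hn α with ⟨σ, hσ⟩ | ⟨τ, hτ⟩
  · obtain ⟨a, -, ha⟩ := stab_frm (frm_image σ (std_isFrm (n := n) (F := F)))
    refine ⟨a, ?_⟩
    rw [map_stab hσ, ha, stab_std]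
  · obtain ⟨P', hP', h⟩ := map_dual_stab hτ (std_isFrm (n := n) (F := F))
    obtain ⟨a, -, ha⟩ := stab_frm hP'
    refine ⟨a, ?_⟩
    rw [h, ha, stab_std]

/-- the square of a correlation -/
def sqD (τ : Lat n F ≃o (Lat n F)ᵒᵈ) : Lat n F ≃o Lat n F where
  toFun U := ofDual (τ (ofDual (τ U)))
  invFun U := τ.symm (toDual (τ.symm (toDual U)))
  left_inv U := by simp
  right_inv U := by simp
  map_rel_iff' := by
    intro a b
    change ofDual (τ (ofDual (τ a))) ≤ ofDual (τ (ofDual (τ b))) ↔ a ≤ b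
    rw [OrderDual.ofDual_le_ofDual, τ.le_iff_le, OrderDual.ofDual_le_ofDual, τ.le_iff_le]

theorem indP_sqD {α : MulAut (PSLn n F)} {τ : Lat n F ≃o (Lat n F)ᵒᵈ} (h : IndD α τ) :
    IndP (α ^ 2) (sqD τ) := by
  intro s U
  change ofDual (τ (ofDual (τ (act n F s U)))) = act n F ((α ^ 2) s) (ofDual (τ (ofDual (τ U))))
  rw [h, h, pow_two]
  rfl

theorem indP_mul {α β : MulAut (PSLn n F)} {σ ρ : Lat n F ≃o Lat n F} (h : IndP α σ)
    (h' : IndP β ρ) : IndP (α * β) (σ * ρ) := by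
  intro s U
  change σ (ρ (act n F s U)) = act n F (α (β s)) (σ (ρ U))
  rw [h', h]

theorem indP_one : IndP (1 : MulAut (PSLn n F)) (1 : Lat n F ≃o Lat n F) := fun _ _ => rfl

theorem indP_inv {α : MulAut (PSLn n F)} {σ : Lat n F ≃o Lat n F} (h : IndP α σ) :
    IndP α⁻¹ σ⁻¹ := by
  intro s U
  have h1 := h (α⁻¹ s) (σ⁻¹ U)
  have h2 : α (α⁻¹ s) = s := α.apply_symm_apply s
  have h3 : σ (σ⁻¹ U) = U := σ.apply_symm_apply U
  rw [h2, h3] at h1
  rw [← h1]
  exact (σ.symm_apply_apply _)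

/-- involutory automorphisms fix a member of the class -/
theorem invol_fix [Finite F] (hn : 3 ≤ n) {α : MulAut (PSLn n F)} (hα : α ^ 2 = 1) :
    ∃ a : PSLn n F, (MulAut.conj a • Hm n F).map α.toMonoidHom = MulAut.conj a • Hm n F := by
  rcases fund hn α with ⟨σ, hσ⟩ | ⟨τ, hτ⟩
  · have h1 : IndP (1 : MulAut (PSLn n F)) (σ * σ) := by
      rw [← hα, pow_two]
      exact indP_mul hσ hσ
    have h2 : σ * σ = 1 := uniq (by omega) _ h1
    obtain ⟨P, hP, hPσ⟩ := invol_frame σ fun U => DFunLike.congr_fun h2 U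
    obtain ⟨a, -, ha⟩ := stab_frm hP
    refine ⟨a, ?_⟩
    rw [← ha, map_stab hσ, hPσ]
  · have h1 : IndP (1 : MulAut (PSLn n F)) (sqD τ) := by
      rw [← hα]
      exact indP_sqD hτ
    have h2 : sqD τ = 1 := uniq (by omega) _ h1
    obtain ⟨P, hP, hPτ⟩ := polar_frame τ fun U => DFunLike.congr_fun h2 U
    obtain ⟨a, -, ha⟩ := stab_frm hP
    refine ⟨a, ?_⟩
    rw [← ha, map_stabD hτ, hPτ, stab_coF hP]

/-- the collineations inducing elements of `T` -/
def indT (T : Subgroup (MulAut (PSLn n F))) : Subgroup (Lat n F ≃o Lat n F) where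
  carrier := {σ | ∃ t ∈ T, IndP t σ}
  one_mem' := ⟨1, T.one_mem, indP_one⟩
  mul_mem' := by
    rintro σ ρ ⟨t, ht, h⟩ ⟨t', ht', h'⟩
    exact ⟨t * t', T.mul_mem ht ht', indP_mul h h'⟩
  inv_mem' := by
    rintro σ ⟨t, ht, h⟩
    exact ⟨t⁻¹, T.inv_mem ht, indP_inv h⟩

theorem odd_indT [Finite F] (hn : 3 ≤ n) {T : Subgroup (MulAut (PSLn n F))}
    (hT : ¬ 2 ∣ Nat.card T) : Odd (Nat.card (indT T)) := by
  have hfin : Finite (Lat n F ≃o Lat n F) := Finite.of_injective
    (fun σ : Lat n F ≃o Lat n F => (σ : Lat n F → Lat n F)) DFunLike.coe_injective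
  rw [← Nat.not_even_iff_odd]
  intro hev
  have : Fact (Nat.Prime 2) := ⟨Nat.prime_two⟩
  obtain ⟨⟨σ, t, ht, hσ⟩, ho⟩ := exists_prime_orderOf_dvd_card' (G := indT T) 2
    (even_iff_two_dvd.1 hev)
  have hσ2 : σ * σ = 1 := by
    have := pow_orderOf_eq_one (⟨σ, t, ht, hσ⟩ : indT T)
    rw [ho, pow_two] at this
    exact congrArg Subtype.val this
  have ht2 : t * t = 1 := by
    have h1 : IndP (t * t) (1 : Lat n F ≃o Lat n F) := hσ2 ▸ indP_mul hσ hσ
    ext s
    apply act_injective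
    refine DFunLike.ext _ _ fun U => ?_
    exact (h1 s U).symm
  have ht1 : t = 1 := by
    by_contra hne
    have h1 : orderOf (⟨t, ht⟩ : T) = 2 := by
      refine orderOf_eq_prime ?_ ?_
      · rw [pow_two]
        exact Subtype.ext ht2
      · intro h2
        exact hne (congrArg Subtype.val h2)
    exact hT (h1 ▸ orderOf_dvd_natCard _)
  subst ht1
  have h3 : σ = 1 := uniq (by omega) _ hσ
  subst h3
  have h4 : (⟨1, 1, ht, hσ⟩ : indT T) = 1 := rfl
  rw [h4, orderOf_one] at ho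
  omega

/-- in a group of odd order every element is a square, so it is induced by a collineation -/
theorem exists_indP [Finite F] (hn : 3 ≤ n) {T : Subgroup (MulAut (PSLn n F))}
    (hT : ¬ 2 ∣ Nat.card T) {t : MulAut (PSLn n F)} (ht : t ∈ T) :
    ∃ σ : Lat n F ≃o Lat n F, IndP t σ := by
  have h1 : (⟨t, ht⟩ : T) ^ Nat.card T = 1 := pow_card_eq_one'
  have h2 : t ^ Nat.card T = 1 := congrArg Subtype.val h1
  obtain ⟨k, hk⟩ : ∃ k, Nat.card T + 1 = 2 * k := ⟨(Nat.card T + 1) / 2, by omega⟩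
  have h3 : (t ^ k) ^ 2 = t := by
    rw [← pow_mul, mul_comm, ← hk, pow_succ, h2, one_mul]
  rcases fund hn (t ^ k) with ⟨σ, hσ⟩ | ⟨τ, hτ⟩
  · refine ⟨σ * σ, ?_⟩
    rw [← h3, pow_two]
    exact indP_mul hσ hσ
  · refine ⟨sqD τ, ?_⟩
    rw [← h3]
    exact indP_sqD hτ

theorem final (G : Type u) [Group G] [Finite G] (hG : MaxCompl G) (hn : 3 ≤ n) [Finite F]
    (hq : 8 ≤ Nat.card F) : ¬ IsCompFactor (PSLn n F) G := by
  intro hc
  have hfin : Finite (PSLn n F) := by
    have : Finite (SLn n F) := Finite.of_injective (fun g : SLn n F => g.1) Subtype.val_injective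
    exact Finite.of_surjective _ (pr_surjective (n := n) (F := F))
  have hs : IsSimpleGroup (PSLn n F) := by
    obtain ⟨m, s, hs, i, hi, ⟨e⟩⟩ := hc
    obtain ⟨-, hi', hsimp⟩ := hs.2.2 i
    have := hsimp
    exact MulEquiv.isSimpleGroup e.symm
  obtain ⟨R, T, hHR, hRt, -, hTc, hTt, hTp, hpr⟩ := Reduct.main (nonab hn) G hG hc (Hm n F)
    (H_ne_top hn) (H_ne_bot hq hn) (class_inv hn)
  obtain rfl : R = Hm n F := coatomH hq hn hHR hRt
  by_cases h2 : 2 ∣ (Hm n F).index
  · obtain ⟨α, hα, -, hfix⟩ := hpr 2 Nat.prime_two h2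
    obtain ⟨a, ha⟩ := invol_fix hn hα
    exact hfix a ha
  · have hqo : Odd (Nat.card F) := by
      obtain ⟨p, hp⟩ := CharP.exists F
      have hpp : p.Prime := by
        rcases CharP.char_is_prime_or_zero F p with h | h
        · exact h
        · subst h
          have := CharP.charP_to_charZero F
          exact absurd (Infinite.of_injective (fun k : ℕ => (k : F)) Nat.cast_injective)
            (not_infinite_iff_finite.2 inferInstance)
      have hp2 : p ≠ 2 := by
        rintro rfl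
        exact h2 (even_index (by omega) hp (by omega))
      have := Fintype.ofFinite F
      obtain ⟨k, hk⟩ := FiniteField.card F p
      rw [Nat.card_eq_fintype_card, hk.2]
      exact (hpp.odd_of_ne_two hp2).pow
    have hT2 : ¬ 2 ∣ Nat.card T := fun h => h2 (hTp 2 Nat.prime_two h)
    have htr : TransFrm (indT T) := by
      have key : ∀ P, IsFrm P → ∃ σ ∈ indT T, (σ : Lat n F → Lat n F) '' stdF n F = P := by
        intro P hP
        obtain ⟨a, ha, hPa⟩ := stab_frm hP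
        obtain ⟨t, ht, h3⟩ := hTt a
        obtain ⟨σ, hσ⟩ := exists_indP hn hT2 ht
        refine ⟨σ, ⟨t, ht, hσ⟩, ?_⟩
        apply stab_inj hq (by omega) (frm_image σ std_isFrm) hP
        rw [← map_stab hσ, stab_std, hPa]
        exact h3.le
      intro P P' hP hP'
      obtain ⟨σ, hσ, h3⟩ := key P hP
      obtain ⟨ρ, hρ, h4⟩ := key P' hP'
      refine ⟨ρ * σ⁻¹, (indT T).mul_mem hρ ((indT T).inv_mem hσ), ?_⟩
      rw [← h3, ← h4, ← Set.image_comp]
      congr 1
      funext U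
      change ρ (σ.symm (σ U)) = ρ U
      rw [σ.symm_apply_apply]
    exact odd_not_trans (by omega) hqo hn htr (odd_indT hn hT2)

end Pool.Agent.Work.MP_bc729a_al.LN
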