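import Pool.Agent.Work.MP_bc729a_al.LN.Defs

/-! # `PSL_n(F)` acts faithfully on the subspaces -/

namespace Pool.Agent.Work.MP_bc729a_al.LN

open Matrix

universe u

variable {n : ℕ} {F : Type u} [Field F]

theorem pt_eq_iff {v w : Fin n → F} (hv : v ≠ 0) (h : pt v = pt w) : ∃ c : F, c ≠ 0 ∧ v = c • w := by
  have h1 : v ∈ pt w := by
    rw [← h]
    exact Submodule.mem_span_singleton_self v
  obtain ⟨c, hc⟩ := Submodule.mem_span_singleton.1 h1
  refine ⟨c, ?_, hc.symm⟩
  rintro rfl
  rw [zero_smul] at hc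
  exact hv hc.symm

/-- a matrix preserving all lines is scalar -/
theorem scalar_of_lines {g : SLn n F} (h : ∀ v : Fin n → F, pt (g.1 *ᵥ v) = pt v) :
    ∃ c : F, g.1 = Matrix.scalar (Fin n) c := by
  have hinj : ∀ v : Fin n → F, v ≠ 0 → g.1 *ᵥ v ≠ 0 := by
    intro v hv h0
    apply hv
    have := congrArg (fun w => (g⁻¹).1 *ᵥ w) h0
    simpa only [Matrix.mulVec_mulVec, sl_inv_mul, Matrix.one_mulVec, Matrix.mulVec_zero] using this
  have key : ∀ v : Fin n → F, v ≠ 0 → ∃ c : F, g.1 *ᵥ v = c • v := by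
    intro v hv
    obtain ⟨c, -, hc⟩ := pt_eq_iff (hinj v hv) (h v)
    exact ⟨c, hc⟩
  by_cases hn : n = 0
  · subst hn
    exact ⟨0, by ext i; exact i.elim0⟩
  · have hs : ∀ i : Fin n, (Pi.single i (1 : F) : Fin n → F) ≠ 0 := by
      intro i h0
      have := congrFun h0 i
      rw [Pi.single_eq_same] at this
      exact one_ne_zero this
    choose c hc using fun i : Fin n => key (Pi.single i 1) (hs i)
    have hent : ∀ i j, g.1 i j = c j * (Pi.single j (1 : F) : Fin n → F) i := by
      intro i j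
      have := congrFun (hc j) i
      rw [Matrix.mulVec_single_one] at this
      exact this
    have hcc : ∀ i j, c i = c j := by
      intro i j
      by_cases hij : i = j
      · rw [hij]
      have hne : (Pi.single i (1 : F) : Fin n → F) + Pi.single j 1 ≠ 0 := by
        intro h0
        have := congrFun h0 i
        rw [Pi.add_apply, Pi.single_eq_same, Pi.single_eq_of_ne hij, add_zero] at this
        exact one_ne_zero this
      obtain ⟨d, hd⟩ := key _ hne
      rw [Matrix.mulVec_add, hc, hc] at hd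
      have h1 := congrFun hd i
      have h2 := congrFun hd j
      simp only [Pi.add_apply, Pi.smul_apply, Pi.single_eq_same, Pi.single_eq_of_ne hij,
        Pi.single_eq_of_ne (Ne.symm hij), smul_eq_mul, mul_one, mul_zero, add_zero, zero_add]
        at h1 h2
      rw [h1, h2]
    let i0 : Fin n := ⟨0, Nat.pos_of_ne_zero hn⟩
    refine ⟨c i0, ?_⟩
    ext i j
    rw [hent, hcc j i0, Matrix.scalar_apply, Matrix.diagonal_apply]
    by_cases hij : i = j
    · subst hij
      simp
    · rw [if_neg hij, Pi.single_eq_of_ne hij, mul_zero]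

theorem act_injective : Function.Injective (act n F) := by
  rw [injective_iff_map_eq_one]
  intro s hs
  obtain ⟨g, rfl⟩ := pr_surjective s
  rw [act_pr] at hs
  obtain ⟨c, hc⟩ := scalar_of_lines (g := g) fun v => by
    rw [← actSL_pt, hs]
    rfl
  have hmem : g ∈ Subgroup.center (SLn n F) := by
    rw [Matrix.SpecialLinearGroup.mem_center_iff]
    refine ⟨c, ?_, hc.symm⟩
    have h1 := g.2
    rw [hc, Matrix.scalar_apply, Matrix.det_diagonal, Finset.prod_const, Finset.card_univ] at h1
    exact h1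
  rw [← ker_pr] at hmem
  exact hmem

/-- equality in `PSL_n` -/
theorem pr_eq_iff {g h : SLn n F} : pr n F g = pr n F h ↔
    ∃ c : F, c ^ n = 1 ∧ g.1 = c • h.1 := by
  constructor
  · intro hgh
    have h1 : h⁻¹ * g ∈ Subgroup.center (SLn n F) := by
      rw [← ker_pr, MonoidHom.mem_ker, map_mul, map_inv, hgh, inv_mul_cancel]
    rw [Matrix.SpecialLinearGroup.mem_center_iff] at h1
    obtain ⟨r, hr, hr'⟩ := h1
    rw [Fintype.card_fin] at hr
    refine ⟨r, hr, ?_⟩
    have h2 : g.1 = h.1 * (h⁻¹ * g).1 := by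
      rw [sl_mul, ← Matrix.mul_assoc, sl_mul_inv, Matrix.one_mul]
    rw [h2, ← hr']
    ext i j
    simp [Matrix.scalar_apply, Matrix.mul_diagonal, mul_comm]
  · rintro ⟨c, hc, hgh⟩
    have h1 : h⁻¹ * g ∈ Subgroup.center (SLn n F) := by
      rw [Matrix.SpecialLinearGroup.mem_center_iff]
      refine ⟨c, by rw [Fintype.card_fin]; exact hc, ?_⟩
      change Matrix.scalar (Fin n) c = (h⁻¹).1 * g.1
      rw [hgh, Matrix.mul_smul, sl_inv_mul]
      ext i j
      simp [Matrix.scalar_apply, Matrix.diagonal_apply, Matrix.one_apply]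
    rw [← ker_pr, MonoidHom.mem_ker, map_mul, map_inv] at h1
    exact (inv_mul_eq_one.1 h1).symm

end Pool.Agent.Work.MP_bc729a_al.LN
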