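import Pool.Agent.Work.MP_bc729a_al.LN.SylP
import Pool.Agent.Work.MP_bc729a_al.LN.TransF

/-! # Module Beta (size S-M): automorphisms of `PSL_n(F)` act on flags

PROOF. Let `p` be the characteristic of `F` (`CharP.exists`, prime as `F` is finite). `Zc Q` denotes
`{z ∈ Q | ∀ y ∈ Q, z y = y z}`.
1. Every `XP f` is `Zc Q` for some Sylow `p`-subgroup `Q` of `PSL_n(F)`: take any Sylow `Q0` with its flag `f0`
(`sylow_center_pr`); by `trans_flag` `f = f0.map (act s)`; `Q = s Q0 s⁻¹` works (`XP_map`).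
2. For `α : MulAut (PSL_n)`: `α (Zc Q) = Zc (α Q)`, `α Q` is Sylow, so for each `f` there is `f'` with
`(XP f).map α = XP f'`; it is unique (`XP_inj`). Define `β f = f'`. `β` is bijective: the map of `α⁻¹` is the inverse.
3. `XP (β (f.map (act s))) = α (s XP f s⁻¹) = α(s) XP (β f) α(s)⁻¹ = XP ((β f).map (act (α s)))`; `XP_inj`. -/

namespace Pool.Agent.Work.MP_bc729a_al.LN

open Matrix
open scoped Pointwise

universe u

variable {n : ℕ} {F : Type u} [Field F]

private theorem beta_conj (s x : PSLn n F) : (MulAut.conj s)⁻¹ • x = s⁻¹ * x * s := by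
  rw [← map_inv, MulAut.smul_def, MulAut.conj_apply, inv_inv]

private theorem beta_mem_map (s z : PSLn n F) (f : Flag n F) :
    z ∈ XP (f.map (act n F s)) ↔ s⁻¹ * z * s ∈ XP f := by
  rw [XP_map, Subgroup.mem_pointwise_smul_iff_inv_smul_mem, beta_conj]

private theorem beta_sylow [Finite F] (hn : 2 ≤ n) {p : ℕ} [Fact p.Prime] [CharP F p]
    (f : Flag n F) : ∃ Q : Sylow p (PSLn n F),
      ∀ z : PSLn n F, (z ∈ Q ∧ ∀ y ∈ Q, z * y = y * z) ↔ z ∈ XP f := by
  obtain ⟨Q0⟩ : Nonempty (Sylow p (PSLn n F)) := inferInstance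
  obtain ⟨f0, hf0⟩ := sylow_center_pr hn Q0
  obtain ⟨s, rfl⟩ := trans_flag f0 f
  refine ⟨MulAut.conj s • Q0, fun z => ?_⟩
  have hmem : ∀ y : PSLn n F, y ∈ MulAut.conj s • Q0 ↔ s⁻¹ * y * s ∈ Q0 := by
    intro y
    rw [← beta_conj]
    exact Subgroup.mem_pointwise_smul_iff_inv_smul_mem
  rw [beta_mem_map, ← hf0, hmem]
  refine and_congr_right fun _ => ⟨fun h y hy => ?_, fun h y hy => ?_⟩
  · have h1 := h (s * y * s⁻¹) ((hmem _).2 (by
      have : s⁻¹ * (s * y * s⁻¹) * s = y := by group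
      rwa [this]))
    calc s⁻¹ * z * s * y = s⁻¹ * (z * (s * y * s⁻¹)) * s := by group
      _ = s⁻¹ * (s * y * s⁻¹ * z) * s := by rw [h1]
      _ = y * (s⁻¹ * z * s) := by group
  · have h1 := h _ ((hmem y).1 hy)
    calc z * y = s * ((s⁻¹ * z * s) * (s⁻¹ * y * s)) * s⁻¹ := by group
      _ = s * ((s⁻¹ * y * s) * (s⁻¹ * z * s)) * s⁻¹ := by rw [h1]
      _ = y * z := by group

private theorem beta_step [Finite F] (hn : 2 ≤ n) (α : MulAut (PSLn n F)) (f : Flag n F) :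
    ∃ f' : Flag n F, ∀ z, z ∈ XP f' ↔ α⁻¹ z ∈ XP f := by
  obtain ⟨p, hp⟩ := CharP.exists F
  haveI : Fact p.Prime := ⟨CharP.char_is_prime F p⟩
  obtain ⟨Q, hQ⟩ := beta_sylow (p := p) hn f
  obtain ⟨f', hf'⟩ := sylow_center_pr hn (α • Q)
  refine ⟨f', fun z => ?_⟩
  have hmem : ∀ y : PSLn n F, y ∈ α • Q ↔ α⁻¹ y ∈ Q := fun y =>
    Subgroup.mem_pointwise_smul_iff_inv_smul_mem
  have hαα : ∀ y, α⁻¹ (α y) = y := fun y => MulAut.inv_apply_self _ α y
  have hαα' : ∀ y, α (α⁻¹ y) = y := fun y => MulAut.apply_inv_self _ α y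
  rw [← hf', ← hQ, hmem]
  refine and_congr_right fun _ => ⟨fun h y hy => ?_, fun h y hy => ?_⟩
  · have h1 := h (α y) ((hmem _).2 (by rwa [hαα]))
    have h2 := congrArg (fun t => α⁻¹ t) h1
    simp only [map_mul, hαα] at h2
    exact h2
  · have h1 := h _ ((hmem y).1 hy)
    have h2 := congrArg (fun t => α t) h1
    simp only [map_mul, hαα'] at h2
    exact h2

theorem exists_beta [Finite F] (hn : 2 ≤ n) (α : MulAut (PSLn n F)) :
    ∃ β : Equiv.Perm (Flag n F), (∀ f, (XP f).map α.toMonoidHom = XP (β f)) ∧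
      ∀ s f, β (f.map (act n F s)) = (β f).map (act n F (α s)) := by
  choose b hb using beta_step hn α
  choose c hc using beta_step hn α⁻¹
  have hcb : ∀ f, c (b f) = f := by
    intro f
    refine XP_inj (fun z hz => ?_)
    have h1 := (hb f _).1 ((hc (b f) z).1 hz)
    rw [inv_inv, MulAut.inv_apply_self] at h1
    exact h1
  have hbc : ∀ f, b (c f) = f := by
    intro f
    refine XP_inj (fun z hz => ?_)
    have h1 := (hc f _).1 ((hb (c f) z).1 hz)
    rw [inv_inv, MulAut.apply_inv_self] at h1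
    exact h1
  refine ⟨⟨b, c, hcb, hbc⟩, fun f => ?_, fun s f => ?_⟩
  · ext z
    change _ ↔ z ∈ XP (b f)
    rw [hb, Subgroup.mem_map]
    constructor
    · rintro ⟨x, hx, rfl⟩
      change α⁻¹ (α x) ∈ XP f
      rwa [MulAut.inv_apply_self]
    · intro hz
      exact ⟨α⁻¹ z, hz, MulAut.apply_inv_self _ α z⟩
  · change b (f.map (act n F s)) = (b f).map (act n F (α s))
    refine XP_inj (fun z hz => ?_)
    rw [hb, beta_mem_map] at hz
    rw [beta_mem_map, hb, map_mul, map_mul, map_inv, MulAut.inv_apply_self]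
    exact hz

end Pool.Agent.Work.MP_bc729a_al.LN
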