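import Pool.Agent.Work.MP_bc729a_al.LN.LemT

/-! # Block images containing `SL_n` -/

namespace Pool.Agent.Work.MP_bc729a_al.LN

open Matrix

universe u

variable {n : ℕ} {F : Type u} [Field F]

/-- `Mono` of a diagonal matrix -/
theorem mono_diagonal (d : Fin n → F) : Mono (Matrix.diagonal d) :=
  ⟨1, fun i l h => by
    by_contra hne
    exact h (Matrix.diagonal_apply_ne _ hne)⟩

theorem lemB [Finite F] (hq : 8 ≤ Nat.card F) (hn : 2 ≤ n) {X : Subgroup (SLn (n + 1) F)}
    (hX : monoSL (n + 1) F ≤ X)
    (hsl : ∀ A : SLn n F, ∃ x ∈ X, (∀ i : Fin n, x.1 i.succ 0 = 0) ∧ x.1 0 0 = 1 ∧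
      ∀ i j : Fin n, x.1 i.succ j.succ = A.1 i j) : X = ⊤ := by
  set a : Fin n := ⟨0, by omega⟩ with ha
  set b : Fin n := ⟨1, by omega⟩ with hb
  have hab : a ≠ b := by simp [ha, hb]
  have hab' : a.succ ≠ b.succ := fun h => hab (Fin.succ_injective _ h)
  obtain ⟨x, hx, hx0, hx00, hxA⟩ := hsl (SpecialLinearGroup.transvection hab 1)
  have hA : ∀ i j : Fin n, x.1 i.succ j.succ =
      (if i = j then 1 else 0) + (if a = i ∧ b = j then 1 else 0) := by
    intro i j
    rw [hxA]
    change Matrix.transvection a b 1 i j = _
    rw [Matrix.transvection, Matrix.add_apply, Matrix.one_apply, Matrix.single_apply]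
  by_cases hrow : ∀ j : Fin n, x.1 0 j.succ = 0
  · refine top_of_transvection (by omega) hX hab' one_ne_zero (c := 1) ?_
    have : SpecialLinearGroup.transvection hab' 1 = x := by
      apply Subtype.ext
      change Matrix.transvection a.succ b.succ 1 = x.1
      ext i j
      rw [Matrix.transvection, Matrix.add_apply, Matrix.one_apply, Matrix.single_apply]
      refine Fin.cases ?_ (fun i => ?_) i
      · refine Fin.cases ?_ (fun j => ?_) j
        · rw [hx00, if_pos rfl, if_neg (fun h => Fin.succ_ne_zero _ h.1), add_zero]
        · rw [hrow, if_neg (Fin.succ_ne_zero _).symm, if_neg (fun h => Fin.succ_ne_zero _ h.1),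
            add_zero]
      · refine Fin.cases ?_ (fun j => ?_) j
        · rw [hx0, if_neg (Fin.succ_ne_zero _), if_neg (fun h => Fin.succ_ne_zero _ h.2),
            add_zero]
        · rw [hA]
          simp only [Fin.succ_inj]
    rw [this]
    exact hx
  · push Not at hrow
    obtain ⟨j0, hj0⟩ := hrow
    obtain ⟨e, he0, he⟩ := exists_eps hq
    set d : Fin (n + 1) → F := fun j => if j = 0 then (e ^ 2)⁻¹ else if j = a.succ then e else
      if j = b.succ then e else 1 with hd
    have hdn : ∀ i, d i ≠ 0 := by
      intro i
      simp only [hd]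
      split_ifs
      · exact inv_ne_zero (pow_ne_zero _ he0)
      · exact he0
      · exact he0
      · exact one_ne_zero
    have hdet : (Matrix.diagonal d).det = 1 := by
      rw [Matrix.det_diagonal]
      have h1 : ∀ j, d j = (if j = 0 then (e ^ 2)⁻¹ else 1) * (if j = a.succ then e else 1) *
          (if j = b.succ then e else 1) := by
        intro j
        simp only [hd]
        by_cases a0 : j = 0
        · subst a0
          rw [if_pos rfl, if_pos rfl, if_neg (Fin.succ_ne_zero _).symm,
            if_neg (Fin.succ_ne_zero _).symm]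
          ring
        · by_cases a1 : j = a.succ
          · subst a1
            rw [if_neg a0, if_pos rfl, if_neg a0, if_pos rfl, if_neg hab']
            ring
          · rw [if_neg a0, if_neg a1, if_neg a0, if_neg a1]
            ring
      simp only [h1, Finset.prod_mul_distrib, Finset.prod_ite_eq', Finset.mem_univ, if_true]
      rw [mul_assoc, ← pow_two]
      exact inv_mul_cancel₀ (pow_ne_zero _ he0)
    let t : SLn (n + 1) F := ⟨Matrix.diagonal d, hdet⟩
    have ht : t ∈ monoSL (n + 1) F := mono_diagonal d
    set y : SLn (n + 1) F := t * x * t⁻¹ with hy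
    have hyX : y ∈ X := X.mul_mem (X.mul_mem (hX ht) hx) (X.inv_mem (hX ht))
    have hyt : y.1 * Matrix.diagonal d = Matrix.diagonal d * x.1 := by
      have : y * t = t * x := by
        rw [hy]
        group
      exact congrArg Subtype.val this
    have hyent : ∀ i j, y.1 i j * d j = d i * x.1 i j := by
      intro i j
      have := congrFun (congrFun hyt i) j
      rwa [Matrix.mul_diagonal, Matrix.diagonal_mul] at this
    have hda : d a.succ = e := by simp [hd]
    have hdb : d b.succ = e := by simp [hd]
    have hd0 : d 0 = (e ^ 2)⁻¹ := by simp [hd]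
    -- rows `succ i` of `y` and `x` agree
    have hrows : ∀ (i : Fin n) (j : Fin (n + 1)), y.1 i.succ j = x.1 i.succ j := by
      intro i j
      apply mul_right_cancel₀ (hdn j)
      rw [hyent]
      refine Fin.cases ?_ (fun j => ?_) j
      · rw [hx0]
        ring
      · rw [hA]
        by_cases h1 : i = j
        · subst h1
          ring
        · by_cases h2 : a = i ∧ b = j
          · obtain ⟨rfl, rfl⟩ := h2
            rw [hda, hdb]
            ring
          · rw [if_neg h1, if_neg h2]
            ring
    set z : SLn (n + 1) F := y * x⁻¹ with hz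
    have hzX : z ∈ X := X.mul_mem hyX (X.inv_mem hx)
    have hzx : z.1 * x.1 = y.1 := by
      have : z * x = y := by
        rw [hz]
        group
      exact congrArg Subtype.val this
    have hD : (z.1 - 1) * x.1 = y.1 - x.1 := by
      rw [sub_mul, hzx, one_mul]
    have hD' : z.1 - 1 = (y.1 - x.1) * (x⁻¹).1 := by
      rw [← hD, Matrix.mul_assoc, sl_mul_inv, Matrix.mul_one]
    have hz1 : ∀ i, i ≠ 0 → ∀ j, z.1 i j = if i = j then 1 else 0 := by
      intro i hi j
      obtain ⟨i', rfl⟩ := Fin.exists_succ_eq.2 hi
      have h1 := congrFun (congrFun hD' i'.succ) j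
      rw [Matrix.mul_apply, Finset.sum_eq_zero] at h1
      · rw [Matrix.sub_apply, Matrix.one_apply] at h1
        exact sub_eq_zero.1 h1
      · intro k _
        rw [Matrix.sub_apply, hrows, sub_self, zero_mul]
    have hz00 : z.1 0 0 = 1 := by
      have h1 := congrFun (congrFun hD 0) 0
      rw [Matrix.mul_apply, Fin.sum_univ_succ, Finset.sum_eq_zero, add_zero, hx00, mul_one,
        Matrix.sub_apply, Matrix.sub_apply, Matrix.one_apply_eq] at h1
      · have h2 := hyent 0 0
        have h3 : y.1 0 0 = x.1 0 0 := by
          apply mul_right_cancel₀ (hdn 0)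
          rw [h2]
          ring
        rw [h3, sub_self] at h1
        exact sub_eq_zero.1 h1
      · intro k _
        rw [hx0, mul_zero]
    by_cases hzr : ∀ j : Fin n, z.1 0 j.succ = 0
    · exfalso
      have h1 := congrFun (congrFun hD 0) j0.succ
      rw [Matrix.mul_apply, Fin.sum_univ_succ, Finset.sum_eq_zero] at h1
      · rw [Matrix.sub_apply, Matrix.sub_apply, Matrix.one_apply_eq, hz00, sub_self, zero_mul,
          add_zero] at h1
        have h2 : y.1 0 j0.succ = x.1 0 j0.succ := (sub_eq_zero.1 h1.symm)
        have h3 := hyent 0 j0.succ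
        rw [h2, mul_comm] at h3
        have h4 : d j0.succ = d 0 := mul_right_cancel₀ hj0 h3
        rw [hd0] at h4
        have h5 : d j0.succ = e ∨ d j0.succ = 1 := by
          simp only [hd, if_neg (Fin.succ_ne_zero _)]
          split_ifs
          · exact Or.inl rfl
          · exact Or.inl rfl
          · exact Or.inr rfl
        have h6 : (e ^ 2)⁻¹ * e ^ 2 = 1 := inv_mul_cancel₀ (pow_ne_zero _ he0)
        rcases h5 with h5 | h5
        · rw [← h4, h5] at h6
          exact he 3 (by norm_num) (by norm_num) (by linear_combination h6)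
        · rw [← h4, h5] at h6
          exact he 2 (by norm_num) (by norm_num) (by linear_combination h6)
      · intro k _
        rw [Matrix.sub_apply, hzr, Matrix.one_apply_ne (Fin.succ_ne_zero _).symm, sub_zero,
          zero_mul]
    · push Not at hzr
      obtain ⟨j1, hj1⟩ := hzr
      exact lemT hq (by omega) hX hzX 0 hz1 hz00 (Fin.succ_ne_zero j1) hj1

end Pool.Agent.Work.MP_bc729a_al.LN
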