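import Mathlib

/-! Definitions for the groups `L_n(q)`, `n ≥ 3`: monomial matrices, the action of `PSL_n(F)` on
the lattice of subspaces of `F^n`, frames. -/

open Matrix

namespace Pool.Agent.Work.MP_bc729a_al.LN

universe u

/-- subspaces of `F^n` -/
abbrev Lat (n : ℕ) (F : Type u) [Field F] := Submodule F (Fin n → F)

/-- `SL_n(F)` -/
abbrev SLn (n : ℕ) (F : Type u) [Field F] := SpecialLinearGroup (Fin n) F

/-- `PSL_n(F)` -/
abbrev PSLn (n : ℕ) (F : Type u) [Field F] := ProjectiveSpecialLinearGroup (Fin n) F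

variable {n : ℕ} {F : Type u} [Field F]

/-- monomial matrices: the only entry of column `j` which may be nonzero is in row `σ j` -/
def Mono (M : Matrix (Fin n) (Fin n) F) : Prop :=
  ∃ σ : Equiv.Perm (Fin n), ∀ i j, M i j ≠ 0 → i = σ j

lemma sl_mul_inv (a : SLn n F) : a.1 * (a⁻¹).1 = 1 :=
  congrArg Subtype.val (mul_inv_cancel a)

lemma sl_inv_mul (a : SLn n F) : (a⁻¹).1 * a.1 = 1 :=
  congrArg Subtype.val (inv_mul_cancel a)

lemma sl_mul (a b : SLn n F) : (a * b).1 = a.1 * b.1 := rfl

lemma sl_one : (1 : SLn n F).1 = 1 := rfl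

lemma mono_one : Mono (1 : Matrix (Fin n) (Fin n) F) :=
  ⟨1, fun i j h => by
    by_contra hij
    exact h (Matrix.one_apply_ne hij)⟩

lemma mono_mul {M N : Matrix (Fin n) (Fin n) F} (hM : Mono M) (hN : Mono N) : Mono (M * N) := by
  obtain ⟨σ, hσ⟩ := hM
  obtain ⟨τ, hτ⟩ := hN
  refine ⟨σ * τ, fun i j h => ?_⟩
  rw [Matrix.mul_apply] at h
  obtain ⟨k, -, hk⟩ := Finset.exists_ne_zero_of_sum_ne_zero h
  rw [hσ i k (left_ne_zero_of_mul hk), hτ k j (right_ne_zero_of_mul hk)]
  rfl

lemma mono_of_mul_eq_one {M N : Matrix (Fin n) (Fin n) F} (hM : Mono M) (h : M * N = 1) :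
    Mono N := by
  obtain ⟨σ, hσ⟩ := hM
  have key : ∀ i j, M (σ i) i * N i j = (1 : Matrix (Fin n) (Fin n) F) (σ i) j := by
    intro i j
    rw [← h, Matrix.mul_apply, Finset.sum_eq_single i]
    · intro k _ hk
      have : M (σ i) k = 0 := by
        by_contra hne
        exact hk (σ.injective (hσ _ _ hne)).symm
      rw [this, zero_mul]
    · intro hi
      exact absurd (Finset.mem_univ i) hi
  refine ⟨σ⁻¹, fun i j hne => ?_⟩
  have h1 : M (σ i) i ≠ 0 := by
    intro h0
    have := key i (σ i)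
    rw [h0, zero_mul, Matrix.one_apply_eq] at this
    exact zero_ne_one this
  have h2 := key i j
  by_contra hij
  have h3 : σ i ≠ j := by
    rintro rfl
    exact hij (by simp)
  rw [Matrix.one_apply_ne h3] at h2
  exact (mul_ne_zero h1 hne) h2

/-- the monomial subgroup of `SL_n(F)` -/
def monoSL (n : ℕ) (F : Type u) [Field F] : Subgroup (SLn n F) where
  carrier := {g | Mono g.1}
  one_mem' := by simpa using mono_one
  mul_mem' := by
    intro a b ha hb
    simpa using mono_mul ha hb
  inv_mem' := by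
    intro a ha
    exact mono_of_mul_eq_one ha (sl_mul_inv a)

lemma mem_monoSL {g : SLn n F} : g ∈ monoSL n F ↔ Mono g.1 := Iff.rfl

/-- the monomial subgroup of `GL_n(F)` -/
def monoGL (n : ℕ) (F : Type u) [Field F] : Subgroup (GL (Fin n) F) where
  carrier := {g | Mono g.1}
  one_mem' := by simpa using mono_one
  mul_mem' := by
    intro a b ha hb
    simpa using mono_mul ha hb
  inv_mem' := by
    intro a ha
    exact mono_of_mul_eq_one ha a.mul_inv

lemma mem_monoGL {g : GL (Fin n) F} : g ∈ monoGL n F ↔ Mono g.1 := Iff.rfl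

/-- every overgroup of the monomial group of `SL_n` is the monomial group or everything -/
def PProp (n : ℕ) (F : Type u) [Field F] : Prop :=
  ∀ X : Subgroup (SLn n F), monoSL n F ≤ X → X = monoSL n F ∨ X = ⊤

/-- every overgroup of the monomial group of `GL_n` is monomial or contains `SL_n` -/
def QProp (n : ℕ) (F : Type u) [Field F] : Prop :=
  ∀ X : Subgroup (GL (Fin n) F), monoGL n F ≤ X → X ≤ monoGL n F ∨
    ∀ A : SLn n F, (A : GL (Fin n) F) ∈ X

/-- every element of `X` with a column having at most one nonzero entry is monomial -/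
def Star (X : Subgroup (SLn n F)) : Prop :=
  ∀ x ∈ X, ∀ i j, (∀ k, k ≠ i → x.1 k j = 0) → Mono x.1

/-- each column of each nonmonomial element of `X` has at most one zero -/
def AtMostOne (X : Subgroup (SLn n F)) : Prop :=
  ∀ x ∈ X, ¬ Mono x.1 → ∀ a i i', i ≠ i' → x.1 i a = 0 → x.1 i' a ≠ 0

/-- `ε` in place `j`, `ε⁻¹` in place `j'`, `1` elsewhere -/
def hd (j j' : Fin n) (e : F) : Fin n → F :=
  fun k => if k = j then e else if k = j' then e⁻¹ else 1

/-- the monomial matrix `diag(f) P_π diag(f)⁻¹` -/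
def Wm (f : Fin n → F) (π : Equiv.Perm (Fin n)) : Matrix (Fin n) (Fin n) F :=
  Matrix.of fun i j => if i = π j then f i * (f j)⁻¹ else 0

/-- the point `F v` -/
def pt (v : Fin n → F) : Lat n F := Submodule.span F {v}

/-- the hyperplane `φ^⊥` -/
def hyp (φ : Fin n → F) : Lat n F where
  carrier := {v | φ ⬝ᵥ v = 0}
  add_mem' := by
    intro a b ha hb
    change φ ⬝ᵥ (a + b) = 0
    change φ ⬝ᵥ a = 0 at ha
    change φ ⬝ᵥ b = 0 at hb
    rw [dotProduct_add, ha, hb, add_zero]
  zero_mem' := by simp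
  smul_mem' := by
    intro c x hx
    change φ ⬝ᵥ (c • x) = 0
    change φ ⬝ᵥ x = 0 at hx
    rw [dotProduct_smul, hx, smul_zero]

lemma mem_hyp {φ v : Fin n → F} : v ∈ hyp φ ↔ φ ⬝ᵥ v = 0 := Iff.rfl

/-- the action of `SL_n(F)` on the subspaces of `F^n` -/
def actSL (n : ℕ) (F : Type u) [Field F] : SLn n F →* (Lat n F ≃o Lat n F) where
  toFun g := Submodule.orderIsoMapComap (Matrix.SpecialLinearGroup.toLin' g)
  map_one' := by
    refine DFunLike.ext _ _ fun U => ?_
    change Submodule.map _ U = U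
    rw [map_one]
    exact Submodule.map_id U
  map_mul' g h := by
    refine DFunLike.ext _ _ fun U => ?_
    change Submodule.map _ U = Submodule.map _ (Submodule.map _ U)
    rw [map_mul, ← Submodule.map_comp]
    rfl

lemma mem_actSL {g : SLn n F} {U : Lat n F} {v : Fin n → F} :
    v ∈ actSL n F g U ↔ ∃ u ∈ U, g.1 *ᵥ u = v := by
  change v ∈ Submodule.map _ U ↔ _
  rw [Submodule.mem_map]
  rfl

lemma actSL_pt (g : SLn n F) (v : Fin n → F) : actSL n F g (pt v) = pt (g.1 *ᵥ v) := by
  change Submodule.map _ (Submodule.span F {v}) = _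
  rw [Submodule.map_span, Set.image_singleton]
  rfl

lemma actSL_center (g : SLn n F) (hg : g ∈ Subgroup.center (SLn n F)) : actSL n F g = 1 := by
  rw [Matrix.SpecialLinearGroup.mem_center_iff] at hg
  obtain ⟨r, hr, hg⟩ := hg
  have hr0 : r ≠ 0 ∨ n = 0 := by
    by_cases hn : n = 0
    · exact Or.inr hn
    · left
      rintro rfl
      rw [Fintype.card_fin, zero_pow hn] at hr
      exact zero_ne_one hr
  have hmul : ∀ u : Fin n → F, g.1 *ᵥ u = r • u := by
    intro u
    rw [← hg]
    ext i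
    simp [Matrix.scalar_apply, Matrix.mulVec_diagonal]
  ext U v
  rw [mem_actSL]
  change _ ↔ v ∈ U
  constructor
  · rintro ⟨u, hu, rfl⟩
    rw [hmul]
    exact U.smul_mem _ hu
  · intro hv
    rcases hr0 with h0 | h0
    · refine ⟨r⁻¹ • v, U.smul_mem _ hv, ?_⟩
      rw [hmul, smul_smul, mul_inv_cancel₀ h0, one_smul]
    · subst h0
      exact ⟨v, hv, Subsingleton.elim _ _⟩

/-- the action of `PSL_n(F)` on the subspaces of `F^n` -/
def act (n : ℕ) (F : Type u) [Field F] : PSLn n F →* (Lat n F ≃o Lat n F) :=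
  QuotientGroup.lift (Subgroup.center (SLn n F)) (actSL n F) (fun g hg => actSL_center g hg)

/-- the projection `SL_n → PSL_n` -/
def pr (n : ℕ) (F : Type u) [Field F] : SLn n F →* PSLn n F :=
  QuotientGroup.mk' (Subgroup.center (SLn n F))

lemma pr_surjective : Function.Surjective (pr n F) := QuotientGroup.mk'_surjective _

lemma act_pr (g : SLn n F) : act n F (pr n F g) = actSL n F g := rfl

lemma ker_pr : (pr n F).ker = Subgroup.center (SLn n F) := QuotientGroup.ker_mk' _

/-- frames: independent sets of points which span -/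
def IsFrm (P : Set (Lat n F)) : Prop := (∀ p ∈ P, IsAtom p) ∧ sSupIndep P ∧ sSup P = ⊤

/-- the standard frame -/
def stdF (n : ℕ) (F : Type u) [Field F] : Set (Lat n F) :=
  Set.range fun i : Fin n => pt (Pi.single i (1 : F))

/-- the setwise stabiliser in `PSL_n(F)` of a set of subspaces -/
def stab (P : Set (Lat n F)) : Subgroup (PSLn n F) where
  carrier := {s | act n F s '' P = P}
  one_mem' := by
    change (act n F 1 : Lat n F → Lat n F) '' P = P
    rw [map_one]
    exact Set.image_id P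
  mul_mem' := by
    intro a b ha hb
    change (act n F (a * b) : Lat n F → Lat n F) '' P = P
    have : (act n F (a * b) : Lat n F → Lat n F) = act n F a ∘ act n F b := by
      rw [map_mul]; rfl
    rw [this, Set.image_comp]
    change (act n F b : Lat n F → Lat n F) '' P = P at hb
    change (act n F a : Lat n F → Lat n F) '' P = P at ha
    rw [hb, ha]
  inv_mem' := by
    intro a ha
    change (act n F a⁻¹ : Lat n F → Lat n F) '' P = P
    change (act n F a : Lat n F → Lat n F) '' P = P at ha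
    conv_lhs => rw [← ha]
    rw [← Set.image_comp, map_inv]
    have : ((act n F a)⁻¹ : Lat n F ≃o Lat n F) ∘ (act n F a) = (id : Lat n F → Lat n F) := by
      funext U
      exact (act n F a).symm_apply_apply U
    rw [this, Set.image_id]

lemma mem_stab {P : Set (Lat n F)} {s : PSLn n F} : s ∈ stab P ↔ act n F s '' P = P := Iff.rfl

/-- the hyperplanes of a frame -/
def coF (P : Set (Lat n F)) : Set (Lat n F) := {h | ∃ p ∈ P, h = sSup (P \ {p})}

/-- incident point-hyperplane pairs -/
structure Flag (n : ℕ) (F : Type u) [Field F] where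
  /-- the point -/
  p : Lat n F
  /-- the hyperplane -/
  h : Lat n F
  hp : IsAtom p
  hh : IsCoatom h
  le : p ≤ h

/-- the image of a flag under a collineation -/
def Flag.map (σ : Lat n F ≃o Lat n F) (f : Flag n F) : Flag n F where
  p := σ f.p
  h := σ f.h
  hp := (OrderIso.isAtom_iff σ f.p).2 f.hp
  hh := (OrderIso.isCoatom_iff σ f.h).2 f.hh
  le := σ.monotone f.le

lemma Flag.ext' {f g : Flag n F} (h1 : f.p = g.p) (h2 : f.h = g.h) : f = g := by
  cases f
  cases g
  simp only [Flag.mk.injEq]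
  exact ⟨h1, h2⟩

/-- the group of transvections (and `1`) with centre `p` and axis `h` -/
def XT (p h : Lat n F) : Subgroup (SLn n F) where
  carrier := {g | (∀ v, g.1 *ᵥ v - v ∈ p) ∧ ∀ v ∈ h, g.1 *ᵥ v = v}
  one_mem' := by
    constructor
    · intro v
      simp
    · intro v _
      simp
  mul_mem' := by
    rintro a b ⟨ha, ha'⟩ ⟨hb, hb'⟩
    constructor
    · intro v
      have h1 : (a * b).1 *ᵥ v - v = (a.1 *ᵥ (b.1 *ᵥ v) - b.1 *ᵥ v) + (b.1 *ᵥ v - v) := by
        rw [Matrix.mulVec_mulVec]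
        simp
      rw [h1]
      exact p.add_mem (ha _) (hb _)
    · intro v hv
      have h1 : (a * b).1 *ᵥ v = a.1 *ᵥ (b.1 *ᵥ v) := by
        rw [Matrix.mulVec_mulVec]
        simp
      rw [h1, hb' v hv, ha' v hv]
  inv_mem' := by
    rintro a ⟨ha, ha'⟩
    have h0 : ∀ v, a.1 *ᵥ (a⁻¹.1 *ᵥ v) = v := by
      intro v
      rw [Matrix.mulVec_mulVec, sl_mul_inv, Matrix.one_mulVec]
    have h0' : ∀ v, a⁻¹.1 *ᵥ (a.1 *ᵥ v) = v := by
      intro v
      rw [Matrix.mulVec_mulVec, sl_inv_mul, Matrix.one_mulVec]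
    constructor
    · intro v
      have h1 := ha (a⁻¹.1 *ᵥ v)
      rw [h0] at h1
      have h2 := p.neg_mem h1
      rwa [neg_sub] at h2
    · intro v hv
      have h1 := h0' v
      rwa [ha' v hv] at h1

lemma mem_XT {p h : Lat n F} {g : SLn n F} :
    g ∈ XT p h ↔ (∀ v, g.1 *ᵥ v - v ∈ p) ∧ ∀ v ∈ h, g.1 *ᵥ v = v := Iff.rfl

/-- the image of `XT` in `PSL_n(F)` -/
def XP (f : Flag n F) : Subgroup (PSLn n F) := (XT f.p f.h).map (pr n F)

end Pool.Agent.Work.MP_bc729a_al.LN
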