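import Pool.Agent.Work.MP_bc729a_al.LN.WMod

/-! # An overgroup of the monomial group with one transvection is everything -/

namespace Pool.Agent.Work.MP_bc729a_al.LN

open Matrix

universe u

variable {n : ℕ} {F : Type u} [Field F]

/-- monomial matrices with prescribed permutation and entries except one -/
theorem exists_monoSL (τ : Equiv.Perm (Fin n)) (e : Fin n → F) (he : ∀ l, e l ≠ 0) (l0 : Fin n) :
    ∃ m : SLn n F, m ∈ monoSL n F ∧ ∃ d : F, d ≠ 0 ∧
      ∀ k l, m.1 k l = if k = τ l then (if l = l0 then d else e l) else 0 := by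
  classical
  set e0 : Fin n → F := fun l => if l = l0 then 1 else e l with he0
  have e0n : ∀ i, e0 i ≠ 0 := by
    intro i
    simp only [he0]
    split_ifs with h
    · exact one_ne_zero
    · exact he i
  set D : F := ((Equiv.Perm.sign τ : ℤ) : F) * ∏ i, e0 i with hD
  have hs : ((Equiv.Perm.sign τ : ℤ) : F) ≠ 0 := by
    rcases Int.units_eq_one_or (Equiv.Perm.sign τ) with h | h
    · rw [h]; simp
    · rw [h]; simp
  have hD0 : D ≠ 0 := mul_ne_zero hs (Finset.prod_ne_zero_iff.2 fun i _ => e0n i)
  set e' : Fin n → F := fun l => if l = l0 then D⁻¹ else e l with he'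
  have hprod : ∏ i, e' i = D⁻¹ * ∏ i, e0 i := by
    rw [← Finset.mul_prod_erase Finset.univ e' (Finset.mem_univ l0),
      ← Finset.mul_prod_erase Finset.univ e0 (Finset.mem_univ l0)]
    have h1 : e' l0 = D⁻¹ := by simp [he']
    have h2 : e0 l0 = 1 := by simp [he0]
    rw [h1, h2, one_mul]
    congr 1
    refine Finset.prod_congr rfl fun i hi => ?_
    simp [he', he0, Finset.ne_of_mem_erase hi]
  have h1f : ∀ i : Fin n, (fun _ => (1 : F)) i ≠ 0 := fun _ => one_ne_zero
  have hdet : (Wm (fun _ => (1 : F)) τ * Matrix.diagonal e').det = 1 := by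
    rw [Matrix.det_mul, det_Wm h1f, Matrix.det_diagonal, hprod, mul_left_comm, ← hD]
    exact inv_mul_cancel₀ hD0
  refine ⟨⟨_, hdet⟩, ?_, D⁻¹, inv_ne_zero hD0, ?_⟩
  · refine mono_mul (mono_Wm _ _) ⟨1, fun i l h => ?_⟩
    by_contra hne
    exact h (Matrix.diagonal_apply_ne _ hne)
  · intro k l
    change (Wm (fun _ => (1 : F)) τ * Matrix.diagonal e') k l = _
    rw [Matrix.mul_diagonal]
    simp only [Wm, Matrix.of_apply, inv_one, mul_one, he']
    by_cases h : k = τ l
    · rw [if_pos h, if_pos h, one_mul]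
    · rw [if_neg h, if_neg h, zero_mul]

theorem gen_perm {i j i' j' : Fin n} (h : i ≠ j) (h' : i' ≠ j') :
    ∃ τ : Equiv.Perm (Fin n), τ i = i' ∧ τ j = j' := by
  refine ⟨Equiv.swap (Equiv.swap i i' j) j' * Equiv.swap i i', ?_, ?_⟩
  · rw [Equiv.Perm.mul_apply, Equiv.swap_apply_left]
    apply Equiv.swap_apply_of_ne_of_ne
    · intro h1
      have h2 : Equiv.swap i i' i = Equiv.swap i i' j := by
        rw [Equiv.swap_apply_left]
        exact h1
      exact h ((Equiv.swap i i').injective h2)
    · exact h'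
  · rw [Equiv.Perm.mul_apply, Equiv.swap_apply_left]

theorem exists_third (hn : 3 ≤ n) (i j : Fin n) : ∃ l : Fin n, l ≠ i ∧ l ≠ j := by
  have hc : 0 < (Finset.univ \ {i, j} : Finset (Fin n)).card := by
    have h3 : ({i, j} : Finset (Fin n)).card ≤ 2 := Finset.card_le_two
    have h4 := Finset.le_card_sdiff ({i, j} : Finset (Fin n)) Finset.univ
    rw [Finset.card_univ, Fintype.card_fin] at h4
    omega
  obtain ⟨k, hk⟩ := Finset.card_pos.1 hc
  simp only [Finset.mem_sdiff, Finset.mem_univ, true_and, Finset.mem_insert,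
    Finset.mem_singleton, not_or] at hk
  exact ⟨k, hk⟩

theorem all_transvections (hn : 3 ≤ n) {X : Subgroup (SLn n F)} (hX : monoSL n F ≤ X)
    {i j : Fin n} (hij : i ≠ j) {c : F} (hc : c ≠ 0)
    (h : SpecialLinearGroup.transvection hij c ∈ X) {i' j' : Fin n} (hij' : i' ≠ j') (t : F) :
    SpecialLinearGroup.transvection hij' t ∈ X := by
  by_cases ht : t = 0
  · subst ht
    rw [SpecialLinearGroup.transvection_coeff_zero]
    exact X.one_mem
  obtain ⟨τ, hτi, hτj⟩ := gen_perm hij hij'
  obtain ⟨l0, hl0i, hl0j⟩ := exists_third hn i j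
  obtain ⟨m, hm, d, hd, hent⟩ := exists_monoSL τ (fun l => if l = i then t / c else 1)
    (fun l => by
      split_ifs
      · exact div_ne_zero ht hc
      · exact one_ne_zero) l0
  have key : m * SpecialLinearGroup.transvection hij c =
      SpecialLinearGroup.transvection hij' t * m := by
    apply Subtype.ext
    change m.1 * (Matrix.transvection i j c) = Matrix.transvection i' j' t * m.1
    rw [Matrix.transvection, Matrix.transvection, mul_add, add_mul, mul_one, one_mul]
    congr 1
    ext k l
    by_cases hl : l = j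
    · subst hl
      rw [Matrix.mul_single_apply_same]
      by_cases hk : k = i'
      · subst hk
        rw [Matrix.single_mul_apply_same, hent, hent, hτi, hτj, if_pos rfl, if_pos rfl,
          if_neg hl0i.symm, if_neg hl0j.symm, if_pos rfl, if_neg hij.symm]
        field_simp
      · rw [Matrix.single_mul_apply_of_ne _ _ _ _ _ hk, hent, hτi, if_neg hk, zero_mul]
    · rw [Matrix.mul_single_apply_of_ne _ _ _ _ _ hl]
      by_cases hk : k = i'
      · subst hk
        rw [Matrix.single_mul_apply_same, hent, if_neg, mul_zero]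
        intro h1
        rw [← hτj] at h1
        exact hl (τ.injective h1).symm
      · rw [Matrix.single_mul_apply_of_ne _ _ _ _ _ hk]
  have h1 : SpecialLinearGroup.transvection hij' t =
      m * SpecialLinearGroup.transvection hij c * m⁻¹ := by
    rw [key, mul_assoc, mul_inv_cancel, mul_one]
  rw [h1]
  exact X.mul_mem (X.mul_mem (hX hm) h) (X.inv_mem (hX hm))

theorem top_of_transvection (hn : 3 ≤ n) {X : Subgroup (SLn n F)} (hX : monoSL n F ≤ X)
    {i j : Fin n} (hij : i ≠ j) {c : F} (hc : c ≠ 0)
    (h : SpecialLinearGroup.transvection hij c ∈ X) : X = ⊤ := by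
  rw [eq_top_iff]
  rintro M -
  obtain ⟨L, L', D, hD, rfl⟩ :=
    SpecialLinearGroup.exists_list_transvec_mul_diagonal_mul_list_transvec M
  have hlist : ∀ L : List (TransvectionStruct (Fin n) F),
      (L.map TransvectionStruct.toSpecialLinearGroup).prod ∈ X := by
    intro L
    refine X.list_prod_mem ?_
    intro x hx
    obtain ⟨t, -, rfl⟩ := List.mem_map.1 hx
    exact all_transvections hn hX hij hc h t.hij t.c
  refine X.mul_mem (X.mul_mem (hlist L) (hX ?_)) (hlist L')
  refine ⟨1, fun i l h => ?_⟩
  by_contra hne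
  exact h (Matrix.diagonal_apply_ne _ hne)

end Pool.Agent.Work.MP_bc729a_al.LN
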