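import Pool.Agent.Work.MP_bc729a_al.LN.Elem
import Pool.Agent.Work.MP_bc729a_al.LN.Gen

/-! # Overgroups of the monomial group containing `[[1, φ], [0, 1]]` -/

namespace Pool.Agent.Work.MP_bc729a_al.LN

open Matrix

universe u

variable {n : ℕ} {F : Type u} [Field F]

/-- the matrix `1 + e_{i0} φ` -/
def lemTM (i0 : Fin n) (φ : Fin n → F) : Matrix (Fin n) (Fin n) F :=
  Matrix.of fun i j => (if i = j then 1 else 0) + (if i = i0 then φ j else 0)

theorem lemTM_mul (i0 : Fin n) {φ ψ : Fin n → F} (hφ : φ i0 = 0) :
    lemTM i0 φ * lemTM i0 ψ = lemTM i0 (φ + ψ) := by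
  ext i j
  rw [Matrix.mul_apply]
  have h1 : ∀ k, lemTM i0 φ i k * lemTM i0 ψ k j =
      (if i = k then lemTM i0 ψ k j else 0) + (if k = j then (if i = i0 then φ k else 0) else 0) +
        (if k = i0 then (if i = i0 then φ k else 0) * ψ j else 0) := by
    intro k
    simp only [lemTM, Matrix.of_apply]
    split_ifs <;> ring
  simp only [h1, Finset.sum_add_distrib, Finset.sum_ite_eq, Finset.sum_ite_eq', Finset.mem_univ,
    if_true]
  simp only [lemTM, Matrix.of_apply, Pi.add_apply, hφ]
  split_ifs <;> ring

theorem lemT_cancel {i0 : Fin n} {φ ψ : Fin n → F} (hφ : φ i0 = 0) (hψ : ψ i0 = 0)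
    {x y : SLn n F} (hx : x.1 = lemTM i0 φ) (hy : y.1 = lemTM i0 ψ) :
    (x * y⁻¹).1 = lemTM i0 (φ - ψ) := by
  have h1 : (lemTM i0 (φ - ψ) : Matrix (Fin n) (Fin n) F) * y.1 = x.1 := by
    rw [hy, lemTM_mul i0 (by rw [Pi.sub_apply, hφ, hψ, sub_zero]), hx, sub_add_cancel]
  rw [sl_mul, ← h1, Matrix.mul_assoc, sl_mul_inv, Matrix.mul_one]

theorem lemT_conj {i0 : Fin n} {φ : Fin n → F} {d : Fin n → F} (hd : ∀ i, d i ≠ 0)
    {x t : SLn n F} (hx : x.1 = lemTM i0 φ) (ht : t.1 = Matrix.diagonal d) :
    (t * x * t⁻¹).1 = lemTM i0 (fun j => d i0 * φ j * (d j)⁻¹) := by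
  have h1 : lemTM i0 (fun j => d i0 * φ j * (d j)⁻¹) * t.1 = t.1 * x.1 := by
    rw [ht, hx]
    ext i j
    rw [Matrix.mul_diagonal, Matrix.diagonal_mul]
    simp only [lemTM, Matrix.of_apply]
    have := hd j
    by_cases h1 : i = i0
    · subst h1
      by_cases h2 : i = j
      · subst h2
        simp only [if_true]
        field_simp
      · simp only [if_true, if_neg h2]
        field_simp
        ring
    · by_cases h2 : i = j
      · subst h2
        simp only [if_true, if_neg h1]
        ring
      · simp only [if_neg h1, if_neg h2]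
        ring
  rw [sl_mul, sl_mul, ← h1, Matrix.mul_assoc, sl_mul_inv, Matrix.mul_one]

open Classical in
theorem lemT_aux [Finite F] (hq : 8 ≤ Nat.card F) (hn : 3 ≤ n) {X : Subgroup (SLn n F)}
    (hX : monoSL n F ≤ X) (i0 : Fin n) (N : ℕ) : ∀ (φ : Fin n → F), φ i0 = 0 → φ ≠ 0 →
      (Finset.univ.filter fun j => φ j ≠ 0).card ≤ N →
      ∀ x ∈ X, x.1 = lemTM i0 φ → X = ⊤ := by
  induction N with
  | zero =>
    intro φ _ hφ hc
    exfalso
    apply hφ
    ext j
    by_contra hne
    have : j ∈ (Finset.univ.filter fun j => φ j ≠ 0) := by simpa using hne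
    rw [Finset.card_eq_zero.1 (Nat.le_zero.1 hc)] at this
    exact absurd this (Finset.notMem_empty _)
  | succ N ih =>
    intro φ hφ0 hφ hc x hx hxφ
    obtain ⟨j1, hj1⟩ : ∃ j1, φ j1 ≠ 0 := by
      by_contra hcon
      push Not at hcon
      exact hφ (funext hcon)
    have hj10 : j1 ≠ i0 := by
      rintro rfl
      exact hj1 hφ0
    by_cases hone : ∀ j, j ≠ j1 → φ j = 0
    · -- an elementary transvection
      refine top_of_transvection hn hX hj10.symm hj1 ?_
      have : SpecialLinearGroup.transvection hj10.symm (φ j1) = x := by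
        apply Subtype.ext
        change Matrix.transvection i0 j1 (φ j1) = x.1
        rw [hxφ]
        ext i j
        rw [Matrix.transvection, Matrix.add_apply, Matrix.one_apply, Matrix.single_apply]
        simp only [lemTM, Matrix.of_apply]
        congr 1
        by_cases h1 : i = i0
        · by_cases h2 : j = j1
          · subst h2
            simp [h1]
          · rw [if_neg (fun h => h2 h.2.symm), if_pos h1, hone j h2]
        · rw [if_neg (fun h => h1 h.1.symm), if_neg h1]
      rw [this]
      exact hx
    · push Not at hone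
      obtain ⟨j2, hj21, hj2⟩ := hone
      have hj20 : j2 ≠ i0 := by
        rintro rfl
        exact hj2 hφ0
      obtain ⟨e, he0, he⟩ := exists_eps hq
      set d : Fin n → F := fun j => if j = i0 then e else if j = j1 then e else
        if j = j2 then (e ^ 2)⁻¹ else 1 with hd
      have hdn : ∀ i, d i ≠ 0 := by
        intro i
        simp only [hd]
        split_ifs
        · exact he0
        · exact he0
        · exact inv_ne_zero (pow_ne_zero _ he0)
        · exact one_ne_zero
      have hdet : (Matrix.diagonal d).det = 1 := by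
        rw [Matrix.det_diagonal]
        have h1 : ∀ j, d j = (if j = i0 then e else 1) * (if j = j1 then e else 1) *
            (if j = j2 then (e ^ 2)⁻¹ else 1) := by
          intro j
          simp only [hd]
          by_cases a0 : j = i0
          · subst a0
            rw [if_pos rfl, if_pos rfl, if_neg hj10.symm, if_neg hj20.symm]
            ring
          · by_cases a1 : j = j1
            · subst a1
              rw [if_neg a0, if_pos rfl, if_neg a0, if_pos rfl, if_neg hj21.symm]
              ring
            · rw [if_neg a0, if_neg a1, if_neg a0, if_neg a1]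
              ring
        simp only [h1, Finset.prod_mul_distrib, Finset.prod_ite_eq', Finset.mem_univ, if_true]
        rw [← pow_two]
        exact mul_inv_cancel₀ (pow_ne_zero _ he0)
      let t : SLn n F := ⟨Matrix.diagonal d, hdet⟩
      have ht : t ∈ monoSL n F := by
        refine ⟨1, fun i l h => ?_⟩
        by_contra hne
        exact h (Matrix.diagonal_apply_ne _ hne)
      have hy := lemT_conj (t := t) hdn hxφ rfl
      set ψ : Fin n → F := fun j => d i0 * φ j * (d j)⁻¹ with hψ
      have hψ0 : ψ i0 = 0 := by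
        simp only [hψ]
        rw [hφ0, mul_zero, zero_mul]
      have hz := lemT_cancel hφ0 hψ0 hxφ hy
      have hzX : x * (t * x * t⁻¹)⁻¹ ∈ X :=
        X.mul_mem hx (X.inv_mem (X.mul_mem (X.mul_mem (hX ht) hx) (X.inv_mem (hX ht))))
      have d0 : d i0 = e := by simp [hd]
      have d1 : d j1 = e := by simp [hd]
      have d2 : d j2 = (e ^ 2)⁻¹ := by simp [hd, hj20, hj21]
      have hψ1 : (φ - ψ) j1 = 0 := by
        simp only [Pi.sub_apply, hψ]
        rw [d0, d1]
        field_simp
        ring
      have hψ2 : (φ - ψ) j2 ≠ 0 := by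
        simp only [Pi.sub_apply, hψ]
        rw [d0, d2, inv_inv]
        have h3 : φ j2 - e * φ j2 * e ^ 2 = (1 - e ^ 3) * φ j2 := by ring
        rw [h3]
        refine mul_ne_zero ?_ hj2
        intro h4
        exact he 3 (by norm_num) (by norm_num) (by linear_combination -h4)
      refine ih (φ - ψ) (by rw [Pi.sub_apply, hφ0, hψ0, sub_zero]) ?_ ?_ _ hzX hz
      · intro h0
        apply hψ2
        rw [h0]
        rfl
      · have hsub : (Finset.univ.filter fun j => (φ - ψ) j ≠ 0) ⊂
            (Finset.univ.filter fun j => φ j ≠ 0) := by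
          rw [Finset.ssubset_iff_of_subset]
          · refine ⟨j1, by simpa using hj1, ?_⟩
            simp only [Finset.mem_filter, Finset.mem_univ, true_and, not_not]
            exact hψ1
          · intro j hj
            simp only [Finset.mem_filter, Finset.mem_univ, true_and] at hj ⊢
            intro h0
            apply hj
            simp only [Pi.sub_apply, hψ, h0]
            ring
        have := Finset.card_lt_card hsub
        omega

theorem lemT [Finite F] (hq : 8 ≤ Nat.card F) (hn : 3 ≤ n) {X : Subgroup (SLn n F)}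
    (hX : monoSL n F ≤ X) {x : SLn n F} (hx : x ∈ X) (i0 : Fin n)
    (h1 : ∀ i, i ≠ i0 → ∀ j, x.1 i j = if i = j then 1 else 0) (h0 : x.1 i0 i0 = 1)
    {j : Fin n} (hj : j ≠ i0) (hxj : x.1 i0 j ≠ 0) : X = ⊤ := by
  classical
  set φ : Fin n → F := fun k => if k = i0 then 0 else x.1 i0 k with hφ
  refine lemT_aux hq hn hX i0 _ φ (by simp [hφ]) ?_ le_rfl x hx ?_
  · intro h
    have := congrFun h j
    simp only [hφ, if_neg hj, Pi.zero_apply] at this
    exact hxj this
  · ext i k
    simp only [lemTM, Matrix.of_apply, hφ]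
    by_cases hi : i = i0
    · subst hi
      by_cases hk : k = i
      · subst hk
        simp [h0]
      · rw [if_neg (fun h => hk h.symm), if_pos rfl, if_neg hk, zero_add]
    · rw [h1 i hi k, if_neg hi, add_zero]

end Pool.Agent.Work.MP_bc729a_al.LN
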