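import Pool.Agent.Work.MP_bc729a_al.LN.WMod

/-! # A 3-cycle does not fix all points of a frame -/

namespace Pool.Agent.Work.MP_bc729a_al.LN

open Matrix

universe u

variable {n : ℕ} {F : Type u} [Field F]

theorem not_all_fixed (hn : 5 ≤ n) {X : Subgroup (SLn n F)} (hA : AtMostOne X) {g : SLn n F}
    (hg : g ∈ X) (hgm : ¬ Mono g.1) {f : Fin n → F} (hf : ∀ i, f i ≠ 0) {i1 i2 i3 : Fin n}
    (h12 : i1 ≠ i2) {π : Equiv.Perm (Fin n)}
    (h1 : π i1 = i2) (hfix : ∀ i, i ≠ i1 → i ≠ i2 → i ≠ i3 → π i = i) :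
    ¬ ∀ b, ∃ μ : F, Wm f π *ᵥ (fun i => g.1 i b) = μ • fun i => g.1 i b := by
  intro hall
  -- two indices outside `{i1, i2, i3}`
  obtain ⟨k, k', hkk, hk, hk'⟩ : ∃ k k' : Fin n, k ≠ k' ∧ (k ≠ i1 ∧ k ≠ i2 ∧ k ≠ i3) ∧
      (k' ≠ i1 ∧ k' ≠ i2 ∧ k' ≠ i3) := by
    have hc : 1 < (Finset.univ \ {i1, i2, i3} : Finset (Fin n)).card := by
      have h3 : ({i1, i2, i3} : Finset (Fin n)).card ≤ 3 := Finset.card_le_three
      have h4 := Finset.le_card_sdiff ({i1, i2, i3} : Finset (Fin n)) Finset.univ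
      rw [Finset.card_univ, Fintype.card_fin] at h4
      omega
    obtain ⟨k, hk, k', hk', hne⟩ := Finset.one_lt_card.1 hc
    simp only [Finset.mem_sdiff, Finset.mem_univ, true_and, Finset.mem_insert,
      Finset.mem_singleton, not_or] at hk hk'
    exact ⟨k, k', hne, hk, hk'⟩
  have key : ∀ b, g.1 i1 b * f i2 = g.1 i2 b * f i1 := by
    intro b
    obtain ⟨μ, hμ⟩ := hall b
    have hz : ∀ i, f (π i) * (f i)⁻¹ * g.1 i b = μ * g.1 (π i) b := by
      intro i
      have := congrFun hμ (π i)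
      rw [Wm_mulVec] at this
      exact this
    have hμ1 : μ = 1 := by
      have : g.1 k b ≠ 0 ∨ g.1 k' b ≠ 0 := by
        by_contra hcon
        push Not at hcon
        exact hA g hg hgm b k k' hkk hcon.1 hcon.2
      rcases this with h | h
      · have h2 := hz k
        rw [hfix k hk.1 hk.2.1 hk.2.2, mul_inv_cancel₀ (hf k)] at h2
        exact (mul_right_cancel₀ h h2).symm
      · have h2 := hz k'
        rw [hfix k' hk'.1 hk'.2.1 hk'.2.2, mul_inv_cancel₀ (hf k')] at h2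
        exact (mul_right_cancel₀ h h2).symm
    have h2 := hz i1
    rw [h1, hμ1, one_mul] at h2
    rw [← h2]
    have := hf i1
    field_simp
  have h5 : ∀ k, (1 : Matrix (Fin n) (Fin n) F) i1 k * f i2 = (1 : Matrix (Fin n) (Fin n) F) i2 k * f i1 := by
    intro k
    rw [← sl_mul_inv g, Matrix.mul_apply, Matrix.mul_apply, Finset.sum_mul, Finset.sum_mul]
    refine Finset.sum_congr rfl fun b _ => ?_
    rw [mul_right_comm, key b]
    ring
  have h6 := h5 i1
  rw [Matrix.one_apply_eq, Matrix.one_apply_ne h12.symm, one_mul, zero_mul] at h6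
  exact hf i2 h6

end Pool.Agent.Work.MP_bc729a_al.LN
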