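import Pool.Agent.Work.MP_bc729a_al.LN.Rho
import Pool.Agent.Work.MP_bc729a_al.LN.NotFix

/-! # For `n ≥ 5` every column of a nonmonomial element has a zero -/

namespace Pool.Agent.Work.MP_bc729a_al.LN

open Matrix

universe u

variable {n : ℕ} {F : Type u} [Field F]

/-- a 3-cycle as an element of the alternating group -/
theorem exists_three {i1 i2 i3 : Fin n} (h12 : i1 ≠ i2) (h23 : i2 ≠ i3) (h13 : i1 ≠ i3) :
    ∃ π : alternatingGroup (Fin n), (π : Equiv.Perm (Fin n)) i1 = i2 ∧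
      (π : Equiv.Perm (Fin n)) i2 = i3 ∧ (π : Equiv.Perm (Fin n)) i3 = i1 ∧
      (∀ i, i ≠ i1 → i ≠ i2 → i ≠ i3 → (π : Equiv.Perm (Fin n)) i = i) ∧ π ^ 3 = 1 := by
  have hs : Equiv.Perm.sign (Equiv.swap i1 i2 * Equiv.swap i2 i3) = 1 := by
    rw [map_mul, Equiv.Perm.sign_swap h12, Equiv.Perm.sign_swap h23]
    rfl
  have e1 : (Equiv.swap i1 i2 * Equiv.swap i2 i3) i1 = i2 := by
    rw [Equiv.Perm.mul_apply, Equiv.swap_apply_of_ne_of_ne h12 h13, Equiv.swap_apply_left]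
  have e2 : (Equiv.swap i1 i2 * Equiv.swap i2 i3) i2 = i3 := by
    rw [Equiv.Perm.mul_apply, Equiv.swap_apply_left,
      Equiv.swap_apply_of_ne_of_ne h13.symm h23.symm]
  have e3 : (Equiv.swap i1 i2 * Equiv.swap i2 i3) i3 = i1 := by
    rw [Equiv.Perm.mul_apply, Equiv.swap_apply_right, Equiv.swap_apply_right]
  have e4 : ∀ i, i ≠ i1 → i ≠ i2 → i ≠ i3 → (Equiv.swap i1 i2 * Equiv.swap i2 i3) i = i := by
    intro i h1 h2 h3
    rw [Equiv.Perm.mul_apply, Equiv.swap_apply_of_ne_of_ne h2 h3,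
      Equiv.swap_apply_of_ne_of_ne h1 h2]
  refine ⟨⟨_, Equiv.Perm.mem_alternatingGroup.2 hs⟩, e1, e2, e3, e4, ?_⟩
  apply Subtype.ext
  change (Equiv.swap i1 i2 * Equiv.swap i2 i3) ^ 3 = 1
  ext i : 1
  rw [Equiv.Perm.one_apply]
  have h3 : ((Equiv.swap i1 i2 * Equiv.swap i2 i3) ^ 3) i =
      (Equiv.swap i1 i2 * Equiv.swap i2 i3) ((Equiv.swap i1 i2 * Equiv.swap i2 i3)
        ((Equiv.swap i1 i2 * Equiv.swap i2 i3) i)) := by
    rw [pow_succ, pow_two]
    rfl
  rw [h3]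
  by_cases a1 : i = i1
  · rw [a1, e1, e2, e3]
  by_cases a2 : i = i2
  · rw [a2, e2, e3, e1]
  by_cases a3 : i = i3
  · rw [a3, e3, e1, e2]
  · rw [e4 i a1 a2 a3, e4 i a1 a2 a3, e4 i a1 a2 a3]

theorem card_stab_le (a : Fin n) :
    n * Nat.card {σ : Equiv.Perm (Fin n) // σ a = a} ≤ Nat.card (Equiv.Perm (Fin n)) := by
  have h : Function.Injective (fun p : Fin n × {σ : Equiv.Perm (Fin n) // σ a = a} =>
      Equiv.swap a p.1 * (p.2 : Equiv.Perm (Fin n))) := by
    rintro ⟨b, σ, hσ⟩ ⟨c, τ, hτ⟩ h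
    have h1 : (Equiv.swap a b * σ) a = (Equiv.swap a c * τ) a := congrArg (fun ρ => ρ a) h
    rw [Equiv.Perm.mul_apply, Equiv.Perm.mul_apply, hσ, hτ, Equiv.swap_apply_left,
      Equiv.swap_apply_left] at h1
    subst h1
    have h2 : σ = τ := mul_left_cancel h
    subst h2
    rfl
  have := Nat.card_le_card_of_injective _ h
  rwa [Nat.card_prod, Nat.card_eq_fintype_card, Fintype.card_fin] at this

theorem noFull5 (hn : 5 ≤ n) {X : Subgroup (SLn n F)} (hX : monoSL n F ≤ X) (hS : Star X)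
    (hA : AtMostOne X) {g : SLn n F} (hg : g ∈ X) (hgm : ¬ Mono g.1) (a : Fin n) :
    ∃ i, g.1 i a = 0 := by
  by_contra hcon
  push Not at hcon
  obtain ⟨ρ, hρa, hρ⟩ := exists_rho hX hS hg (f := fun i => g.1 i a) hcon (a := a) (fun i => rfl)
  have hs : IsSimpleGroup (alternatingGroup (Fin n)) :=
    alternatingGroup.isSimpleGroup (by simpa using hn)
  rcases hs.eq_bot_or_eq_top_of_normal ρ.ker inferInstance with h | h
  · -- injective
    have hinj : Function.Injective ρ := (MonoidHom.ker_eq_bot_iff ρ).1 h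
    have h1 : Nat.card (alternatingGroup (Fin n)) ≤
        Nat.card {σ : Equiv.Perm (Fin n) // σ a = a} :=
      Nat.card_le_card_of_injective (fun π => ⟨ρ π, hρa π⟩) fun π π' hh =>
        hinj (congrArg Subtype.val hh)
    have hnt : Nontrivial (Fin n) := Fin.nontrivial_iff_two_le.2 (by omega)
    have h2 : 2 * Nat.card (alternatingGroup (Fin n)) = Nat.card (Equiv.Perm (Fin n)) :=
      two_mul_nat_card_alternatingGroup
    have h3 := card_stab_le a
    have h4 : 0 < Nat.card (alternatingGroup (Fin n)) := Nat.card_pos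
    rw [← h2] at h3
    have h5 : 5 * Nat.card (alternatingGroup (Fin n)) ≤ 2 * Nat.card (alternatingGroup (Fin n)) :=
      (Nat.mul_le_mul hn h1).trans h3
    omega
  · have h01 : (⟨0, by omega⟩ : Fin n) ≠ ⟨1, by omega⟩ := by simp
    have h12 : (⟨1, by omega⟩ : Fin n) ≠ ⟨2, by omega⟩ := by simp
    have h02 : (⟨0, by omega⟩ : Fin n) ≠ ⟨2, by omega⟩ := by simp
    obtain ⟨π, e1, e2, e3, e4, -⟩ := exists_three h01 h12 h02
    refine not_all_fixed hn hA hg hgm hcon h01 e1 e4 fun b => ?_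
    obtain ⟨μ, -, hμ⟩ := hρ π b
    have hπ : ρ π = 1 := by
      have : π ∈ ρ.ker := by
        rw [h]
        trivial
      exact this
    rw [hπ] at hμ
    exact ⟨μ, hμ⟩

end Pool.Agent.Work.MP_bc729a_al.LN
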