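import Pool.Agent.Work.MP_bc729a_al.LN.OddG

/-! # Transitive on frames implies transitive on points -/

namespace Pool.Agent.Work.MP_bc729a_al.LN

open Matrix

universe u

variable {n : ℕ} {F : Type u} [Field F]

/-- transitive on frames -/
def TransFrm (T : Subgroup (Lat n F ≃o Lat n F)) : Prop :=
  ∀ P P' : Set (Lat n F), IsFrm P → IsFrm P' → ∃ t ∈ T, (t : Lat n F → Lat n F) '' P = P'

theorem trans_atoms {T : Subgroup (Lat n F ≃o Lat n F)} (h : TransFrm T) {p q : Lat n F}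
    (hp : IsAtom p) (hq : IsAtom q) : ∃ t ∈ T, t p = q := by
  by_contra hcon
  push Not at hcon
  obtain ⟨G, hG, hpG, hqG, h1, h2⟩ := two_frames hp hq
  obtain ⟨t, ht, htP⟩ := h _ _ h1 h2
  let O : Set (Lat n F) := {z | ∃ s ∈ T, s p = z}
  have hpO : p ∈ O := ⟨1, T.one_mem, rfl⟩
  have hqO : q ∉ O := by
    rintro ⟨s, hs, hs'⟩
    exact hcon s hs hs'
  have htO : (t : Lat n F → Lat n F) '' O = O := by
    ext z
    constructor
    · rintro ⟨_, ⟨s, hs, rfl⟩, rfl⟩
      exact ⟨t * s, T.mul_mem ht hs, rfl⟩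
    · rintro ⟨s, hs, rfl⟩
      refine ⟨t⁻¹ (s p), ⟨t⁻¹ * s, T.mul_mem (T.inv_mem ht) hs, rfl⟩, ?_⟩
      exact t.apply_symm_apply (s p)
  have e1 : (t : Lat n F → Lat n F) '' (insert p G ∩ O) = insert q G ∩ O := by
    rw [Set.image_inter t.injective, htP, htO]
  have e2 : insert p G ∩ O = insert p (G ∩ O) := Set.insert_inter_of_mem hpO
  have e3 : insert q G ∩ O = G ∩ O := Set.insert_inter_of_notMem hqO
  have e4 := Set.ncard_image_of_injective (insert p G ∩ O) t.injective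
  rw [e1, e2, e3, Set.ncard_insert_of_notMem (fun h => hpG h.1)
    (hG.subset Set.inter_subset_left)] at e4
  omega

end Pool.Agent.Work.MP_bc729a_al.LN
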