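import Pool.Agent.Work.MP_bc729a_al.LN.OddA

/-! # Transitive on frames implies transitive on unordered pairs of points -/

namespace Pool.Agent.Work.MP_bc729a_al.LN

open Matrix

universe u

variable {n : ℕ} {F : Type u} [Field F]

/-- the sum over the ordered pairs of a finite set -/
def eS (g : Lat n F → Lat n F → ℤ) (S : Finset (Lat n F)) : ℤ := ∑ x ∈ S, ∑ y ∈ S, g x y

theorem eS_insert [DecidableEq (Lat n F)] {g : Lat n F → Lat n F → ℤ}
    (hs : ∀ x y, g x y = g y x) (h0 : ∀ x, g x x = 0) {S : Finset (Lat n F)} {x : Lat n F}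
    (hx : x ∉ S) : eS g (insert x S) = eS g S + 2 * ∑ z ∈ S, g x z := by
  unfold eS
  rw [Finset.sum_insert hx, Finset.sum_insert hx, h0]
  have h1 : ∑ a ∈ S, ∑ b ∈ insert x S, g a b = ∑ a ∈ S, (g x a + ∑ b ∈ S, g a b) := by
    refine Finset.sum_congr rfl fun a _ => ?_
    rw [Finset.sum_insert hx, hs a x]
  rw [h1, Finset.sum_add_distrib]
  ring

theorem eS_insert2 [DecidableEq (Lat n F)] {g : Lat n F → Lat n F → ℤ}
    (hs : ∀ x y, g x y = g y x) (h0 : ∀ x, g x x = 0) {G : Finset (Lat n F)} {x y : Lat n F}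
    (hx : x ∉ G) (hy : y ∉ G) (hxy : x ≠ y) :
    eS g (insert x (insert y G)) =
      eS g G + 2 * (∑ z ∈ G, g x z) + 2 * (∑ z ∈ G, g y z) + 2 * g x y := by
  rw [eS_insert hs h0 (by rw [Finset.mem_insert]; rintro (h | h); exacts [hxy h, hx h]),
    eS_insert hs h0 hy, Finset.sum_insert hy]
  ring

theorem eS_frm {T : Subgroup (Lat n F ≃o Lat n F)} (h : TransFrm T) {g : Lat n F → Lat n F → ℤ}
    (hT : ∀ t ∈ T, ∀ x y, g (t x) (t y) = g x y) {S S' : Finset (Lat n F)}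
    (hS : IsFrm (S : Set (Lat n F))) (hS' : IsFrm (S' : Set (Lat n F))) : eS g S = eS g S' := by
  classical
  obtain ⟨t, ht, htS⟩ := h _ _ hS hS'
  have h1 : S.image (t : Lat n F → Lat n F) = S' := by
    apply Finset.coe_injective
    rw [Finset.coe_image]
    exact htS
  rw [← h1]
  unfold eS
  rw [Finset.sum_image (fun a _ b _ hab => t.injective hab)]
  refine Finset.sum_congr rfl fun a _ => ?_
  rw [Finset.sum_image (fun a _ b _ hab => t.injective hab)]
  refine Finset.sum_congr rfl fun b _ => ?_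
  exact (hT t ht a b).symm

theorem pairs_step1 {T : Subgroup (Lat n F ≃o Lat n F)} (h : TransFrm T)
    {g : Lat n F → Lat n F → ℤ} (hs : ∀ x y, g x y = g y x) (h0 : ∀ x, g x x = 0)
    (hT : ∀ t ∈ T, ∀ x y, g (t x) (t y) = g x y) {x x' y y' : Lat n F} (hx : IsAtom x)
    (hx' : IsAtom x') (hy : IsAtom y)
    (hy' : IsAtom y') (h1 : ¬ y ≤ x ⊔ x') (h2 : ¬ y' ≤ x ⊔ x') (h3 : ¬ x ≤ y ⊔ y')
    (h4 : ¬ x' ≤ y ⊔ y') : g x y - g x' y = g x y' - g x' y' := by
  classical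
  obtain ⟨G, hG, k1, k2, k3, k4, f1, f2, f3, f4⟩ := four_frames hx hx' hy hy' h1 h2 h3 h4
  obtain ⟨G', rfl⟩ := hG.exists_finset_coe
  rw [← Finset.coe_insert, ← Finset.coe_insert] at f1 f2 f3 f4
  rw [Finset.mem_coe] at k1 k2 k3 k4
  have n1 : x ≠ y := by
    rintro rfl
    exact h1 le_sup_left
  have n2 : x' ≠ y := by
    rintro rfl
    exact h1 le_sup_right
  have n3 : x ≠ y' := by
    rintro rfl
    exact h2 le_sup_left
  have n4 : x' ≠ y' := by
    rintro rfl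
    exact h2 le_sup_right
  have e1 := eS_frm h hT f1 f2
  have e2 := eS_frm h hT f3 f4
  rw [eS_insert2 hs h0 k1 k3 n1, eS_insert2 hs h0 k2 k3 n2] at e1
  rw [eS_insert2 hs h0 k1 k4 n3, eS_insert2 hs h0 k2 k4 n4] at e2
  linarith

theorem pairs_step2 [Finite F] (hF : 3 ≤ Nat.card F) {T : Subgroup (Lat n F ≃o Lat n F)}
    (h : TransFrm T)
    {g : Lat n F → Lat n F → ℤ} (hs : ∀ x y, g x y = g y x) (h0 : ∀ x, g x x = 0)
    (hT : ∀ t ∈ T, ∀ x y, g (t x) (t y) = g x y) {x x' y y' : Lat n F} (hx : IsAtom x)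
    (hx' : IsAtom x') (hxx' : x ≠ x') (hy : IsAtom y)
    (hy' : IsAtom y') (h1 : ¬ y ≤ x ⊔ x') (h2 : ¬ y' ≤ x ⊔ x') :
    g x y - g x' y = g x y' - g x' y' := by
  obtain ⟨z, hz, z1, z2, z3, z4, z5⟩ := third_point hF hx hx' hxx' hy hy' h1 h2
  rw [pairs_step1 h hs h0 hT hx hx' hy hz h1 z1 z2 z3,
    pairs_step1 h hs h0 hT hx hx' hy' hz h2 z1 z4 z5]

theorem pairs_step3 [Finite F] (hF : 3 ≤ Nat.card F) (hn : 3 ≤ n)
    {T : Subgroup (Lat n F ≃o Lat n F)} (h : TransFrm T)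
    {g : Lat n F → Lat n F → ℤ} (hs : ∀ x y, g x y = g y x) (h0 : ∀ x, g x x = 0)
    (hg0 : ∀ x y, 0 ≤ g x y) (hg1 : ∀ x y, g x y ≤ 1)
    (hT : ∀ t ∈ T, ∀ x y, g (t x) (t y) = g x y) {x x' y : Lat n F} (hx : IsAtom x)
    (hx' : IsAtom x') (hxx' : x ≠ x') (hy : IsAtom y) (h1 : ¬ y ≤ x ⊔ x') :
    g x y = g x' y := by
  classical
  have hfin : Finite (Lat n F) := lat_finite
  have := Fintype.ofFinite (Lat n F)
  let A : Finset (Lat n F) := Finset.univ.filter fun z => IsAtom z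
  have hA : ∀ t ∈ T, ∀ z, ∑ y ∈ A, g (t z) y = ∑ y ∈ A, g z y := by
    intro t ht z
    refine Finset.sum_nbij' (fun y => t.symm y) (fun y => t y) ?_ ?_ ?_ ?_ ?_
    · intro a ha
      rw [Finset.mem_filter] at ha ⊢
      exact ⟨Finset.mem_univ _, (OrderIso.isAtom_iff t.symm a).2 ha.2⟩
    · intro a ha
      rw [Finset.mem_filter] at ha ⊢
      exact ⟨Finset.mem_univ _, (OrderIso.isAtom_iff t a).2 ha.2⟩
    · intro a _
      exact t.apply_symm_apply a
    · intro a _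
      exact t.symm_apply_apply a
    · intro a _
      have := hT t ht z (t.symm a)
      rw [t.apply_symm_apply] at this
      exact this
  obtain ⟨t, ht, htx⟩ := trans_atoms h hx hx'
  have hk : ∑ y ∈ A, g x' y = ∑ y ∈ A, g x y := by
    rw [← htx]
    exact hA t ht x
  let L : Finset (Lat n F) := A.filter fun z => z ≤ x ⊔ x'
  let M : Finset (Lat n F) := A.filter fun z => ¬ z ≤ x ⊔ x'
  have hsplit : ∀ w, ∑ y ∈ A, g w y = ∑ y ∈ L, g w y + ∑ y ∈ M, g w y := by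
    intro w
    exact (Finset.sum_filter_add_sum_filter_not A _ _).symm
  have hLc : (L.card : ℤ) = Nat.card F + 1 := by
    have h2 := card_line hx hx' hxx'
    have h3 : {z : Lat n F | IsAtom z ∧ z ≤ x ⊔ x'} = (L : Set (Lat n F)) := by
      ext z
      simp [L, A]
    rw [h3, Set.ncard_coe_finset] at h2
    exact_mod_cast h2
  have hMc : (Nat.card F : ℤ) < M.card := by
    have h2 := card_off_line hn hx hx' hxx'
    have h3 : {z : Lat n F | IsAtom z ∧ ¬ z ≤ x ⊔ x'} = (M : Set (Lat n F)) := by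
      ext z
      simp [M, A]
    rw [h3, Set.ncard_coe_finset] at h2
    exact_mod_cast h2
  have hle : ∀ w ∈ L, ∑ y ∈ L, g w y ≤ Nat.card F := by
    intro w hw
    rw [← Finset.add_sum_erase L _ hw, h0, zero_add]
    calc ∑ y ∈ L.erase w, g w y ≤ ∑ y ∈ L.erase w, (1 : ℤ) := Finset.sum_le_sum fun y _ => hg1 w y
      _ = (L.erase w).card := by simp
      _ = Nat.card F := by
        rw [Finset.card_erase_of_mem hw, Nat.cast_sub (Finset.card_pos.2 ⟨w, hw⟩), hLc]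
        simp
  have hge : ∀ w, 0 ≤ ∑ y ∈ L, g w y := fun w => Finset.sum_nonneg fun y _ => hg0 w y
  have hM : ∑ z ∈ M, g x z - ∑ z ∈ M, g x' z = M.card * (g x y - g x' y) := by
    rw [← Finset.sum_sub_distrib]
    rw [Finset.sum_congr rfl (g := fun _ => g x y - g x' y)]
    · rw [Finset.sum_const, nsmul_eq_mul]
    · intro z hz
      have hz' := Finset.mem_filter.1 hz
      have hz'' := Finset.mem_filter.1 hz'.1
      exact pairs_step2 hF h hs h0 hT hx hx' hxx' hz''.2 hy hz'.2 h1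
  have hxL : x ∈ L := by
    simp [L, A, hx]
  have hxL' : x' ∈ L := by
    simp [L, A, hx']
  have e1 := hsplit x
  have e2 := hsplit x'
  have e3 := hle x hxL
  have e4 := hle x' hxL'
  have e5 := hge x
  have e6 := hge x'
  by_contra hne
  rcases lt_or_gt_of_ne hne with hlt | hgt
  · have : (M.card : ℤ) * (g x y - g x' y) ≤ -M.card := by nlinarith
    linarith
  · have : (M.card : ℤ) ≤ M.card * (g x y - g x' y) := by nlinarith
    linarith

theorem pairs_step4 [Finite F] (hF : 3 ≤ Nat.card F) (hn : 3 ≤ n)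
    {T : Subgroup (Lat n F ≃o Lat n F)} (h : TransFrm T)
    {g : Lat n F → Lat n F → ℤ} (hs : ∀ x y, g x y = g y x) (h0 : ∀ x, g x x = 0)
    (hg0 : ∀ x y, 0 ≤ g x y) (hg1 : ∀ x y, g x y ≤ 1)
    (hT : ∀ t ∈ T, ∀ x y, g (t x) (t y) = g x y) {x x' y : Lat n F} (hx : IsAtom x)
    (hx' : IsAtom x') (hy : IsAtom y) (hxy : x ≠ y) (hxy' : x' ≠ y) :
    g x y = g x' y := by
  by_cases hxx' : x = x'
  · rw [hxx']
  by_cases h1 : y ≤ x ⊔ x'
  · obtain ⟨z, hz, hz'⟩ : ∃ z : Lat n F, IsAtom z ∧ ¬ z ≤ x ⊔ x' := by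
      by_contra hcon
      push Not at hcon
      have h2 := card_off_line hn hx hx' hxx'
      have h3 : {z : Lat n F | IsAtom z ∧ ¬ z ≤ x ⊔ x'} = ∅ := by
        ext z
        simp only [Set.mem_ofPred_eq, Set.mem_empty_iff_false, iff_false, not_and, not_not]
        exact hcon z
      rw [h3, Set.ncard_empty] at h2
      omega
    have key : ∀ a : Lat n F, IsAtom a → a ≤ x ⊔ x' → a ≠ y → ¬ a ≤ y ⊔ z := by
      intro a ha ha' hay hcon
      have h2 : (y ⊔ z) ⊓ (x ⊔ x') = y := by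
        rw [sup_inf_assoc_of_le z h1, (odd_disj hz hz').eq_bot, sup_bot_eq]
      have h3 : a ≤ y := by
        rw [← h2]
        exact le_inf hcon ha'
      exact hay ((hy.le_iff_eq ha.1).1 h3)
    have hyz : y ≠ z := by
      rintro rfl
      exact hz' h1
    have e1 := pairs_step3 hF hn h hs h0 hg0 hg1 hT hy hz hyz hx (key x hx le_sup_left hxy)
    have e2 := pairs_step3 hF hn h hs h0 hg0 hg1 hT hy hz hyz hx' (key x' hx' le_sup_right hxy')
    have e3 := pairs_step3 hF hn h hs h0 hg0 hg1 hT hx hx' hxx' hz hz'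
    rw [hs x y, e1, hs z x, e3, hs x' z, ← e2, hs]
  · exact pairs_step3 hF hn h hs h0 hg0 hg1 hT hx hx' hxx' hy h1

theorem trans_pairs [Finite F] (hF : 3 ≤ Nat.card F) (hn : 3 ≤ n)
    {T : Subgroup (Lat n F ≃o Lat n F)} (h : TransFrm T) {p q p' q' : Lat n F}
    (hp : IsAtom p) (hq : IsAtom q) (hpq : p ≠ q) (hp' : IsAtom p') (hq' : IsAtom q')
    (hpq' : p' ≠ q') : ∃ t ∈ T, (t p = p' ∧ t q = q') ∨ (t p = q' ∧ t q = p') := by
  classical
  let R : Lat n F → Lat n F → Prop := fun x y =>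
    ∃ t ∈ T, (t p = x ∧ t q = y) ∨ (t p = y ∧ t q = x)
  have hRs : ∀ x y, R x y ↔ R y x := by
    intro x y
    constructor
    · rintro ⟨t, ht, h | h⟩
      · exact ⟨t, ht, Or.inr h⟩
      · exact ⟨t, ht, Or.inl h⟩
    · rintro ⟨t, ht, h | h⟩
      · exact ⟨t, ht, Or.inr h⟩
      · exact ⟨t, ht, Or.inl h⟩
  have hRT' : ∀ s ∈ T, ∀ x y, R x y → R (s x) (s y) := by
    rintro s hs x y ⟨t, ht, ⟨rfl, rfl⟩ | ⟨rfl, rfl⟩⟩
    · exact ⟨s * t, T.mul_mem hs ht, Or.inl ⟨rfl, rfl⟩⟩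
    · exact ⟨s * t, T.mul_mem hs ht, Or.inr ⟨rfl, rfl⟩⟩
  have hRT : ∀ s ∈ T, ∀ x y, R (s x) (s y) ↔ R x y := by
    intro s hs x y
    constructor
    · intro h1
      have h2 := hRT' s⁻¹ (T.inv_mem hs) _ _ h1
      have e : ∀ z, (s⁻¹ : Lat n F ≃o Lat n F) (s z) = z := fun z => s.symm_apply_apply z
      rwa [e, e] at h2
    · exact hRT' s hs x y
  have hRne : ∀ x, ¬ R x x := by
    rintro x ⟨t, ht, ⟨h1, h2⟩ | ⟨h1, h2⟩⟩
    · exact hpq (t.injective (h1.trans h2.symm))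
    · exact hpq (t.injective (h1.trans h2.symm))
  let g : Lat n F → Lat n F → ℤ := fun x y => if R x y then 1 else 0
  have hs : ∀ x y, g x y = g y x := by
    intro x y
    simp only [g]
    rw [if_congr (hRs x y) rfl rfl]
  have h0 : ∀ x, g x x = 0 := fun x => if_neg (hRne x)
  have hg0 : ∀ x y, 0 ≤ g x y := by
    intro x y
    simp only [g]
    split_ifs <;> norm_num
  have hg1 : ∀ x y, g x y ≤ 1 := by
    intro x y
    simp only [g]
    split_ifs <;> norm_num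
  have hT : ∀ t ∈ T, ∀ x y, g (t x) (t y) = g x y := by
    intro t ht x y
    simp only [g]
    rw [if_congr (hRT t ht x y) rfl rfl]
  have hst := fun {x x' y : Lat n F} (hx : IsAtom x) (hx' : IsAtom x') (hy : IsAtom y)
    (h1 : x ≠ y) (h2 : x' ≠ y) => pairs_step4 hF hn h hs h0 hg0 hg1 hT hx hx' hy h1 h2
  have hpq1 : g p q = 1 := if_pos ⟨1, T.one_mem, Or.inl ⟨rfl, rfl⟩⟩
  have hfin : g p' q' = 1 := by
    by_cases h1 : p' = q
    · subst h1
      rw [hs, hst hq' hp hq hpq'.symm hpq, hpq1]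
    · rw [hs, hst hq' hq hp' hpq'.symm (Ne.symm h1), hs, hst hp' hp hq h1 hpq, hpq1]
  have : R p' q' := by
    by_contra hR
    have h2 : g p' q' = 0 := if_neg hR
    rw [hfin] at h2
    exact one_ne_zero h2
  exact this

end Pool.Agent.Work.MP_bc729a_al.LN
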