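import Pool.Agent.Work.MP_bc729a_al.LN.Blk

/-! # Reduction to block size `n` -/

namespace Pool.Agent.Work.MP_bc729a_al.LN

open Matrix

universe u

variable {n : ℕ} {F : Type u} [Field F]

/-- `[[c, 0], [0, B]]` -/
def blkExt (c : F) (B : Matrix (Fin n) (Fin n) F) : Matrix (Fin (n + 1)) (Fin (n + 1)) F :=
  Matrix.of (Fin.cons (Fin.cons c 0) fun i => Fin.cons 0 (B i))

@[simp] theorem blkExt_00 (c : F) (B : Matrix (Fin n) (Fin n) F) : blkExt c B 0 0 = c := rfl
@[simp] theorem blkExt_0s (c : F) (B : Matrix (Fin n) (Fin n) F) (j : Fin n) :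
    blkExt c B 0 j.succ = 0 := rfl
@[simp] theorem blkExt_s0 (c : F) (B : Matrix (Fin n) (Fin n) F) (i : Fin n) :
    blkExt c B i.succ 0 = 0 := rfl
@[simp] theorem blkExt_ss (c : F) (B : Matrix (Fin n) (Fin n) F) (i j : Fin n) :
    blkExt c B i.succ j.succ = B i j := rfl

theorem det_blk {y : Matrix (Fin (n + 1)) (Fin (n + 1)) F} (hy : ∀ i : Fin n, y i.succ 0 = 0) :
    y.det = y 0 0 * (Matrix.of fun i j : Fin n => y i.succ j.succ).det := by
  rw [Matrix.det_succ_column_zero, Fin.sum_univ_succ, Finset.sum_eq_zero, add_zero]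
  · simp only [Fin.val_zero, pow_zero, one_mul]
    congr 2
  · intro i _
    rw [hy i, mul_zero, zero_mul]

theorem mono_blkExt {c : F} {B : Matrix (Fin n) (Fin n) F} (hB : Mono B) :
    Mono (blkExt c B) := by
  obtain ⟨σ, hσ⟩ := hB
  refine ⟨Equiv.Perm.decomposeFin.symm (0, σ), fun i j => ?_⟩
  refine Fin.cases ?_ (fun j => ?_) j
  · refine Fin.cases ?_ (fun i => ?_) i
    · intro _
      simp
    · intro h
      exact absurd rfl h
  · refine Fin.cases ?_ (fun i => ?_) i
    · intro h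
      exact absurd rfl h
    · intro h
      rw [Equiv.Perm.decomposeFin_symm_apply_succ]
      simp only [Equiv.swap_self, Equiv.refl_apply]
      rw [hσ i j h]

theorem lemT_quot [Finite F] (hq : 8 ≤ Nat.card F) (hn : 2 ≤ n) {X : Subgroup (SLn (n + 1) F)}
    (hX : monoSL (n + 1) F ≤ X) {x y : SLn (n + 1) F} (hx : x ∈ X) (hy : y ∈ X)
    (hrows : ∀ (i : Fin n) (j : Fin (n + 1)), y.1 i.succ j = x.1 i.succ j)
    (hx0 : ∀ i : Fin n, x.1 i.succ 0 = 0) (h00 : y.1 0 0 = x.1 0 0) {j0 : Fin (n + 1)}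
    (hj0 : y.1 0 j0 ≠ x.1 0 j0) : X = ⊤ := by
  have hx00 : x.1 0 0 ≠ 0 := by
    intro h0
    have h1 : x.1.det = 0 := by
      rw [det_blk hx0, h0, zero_mul]
    rw [x.2] at h1
    exact one_ne_zero h1
  set z : SLn (n + 1) F := y * x⁻¹ with hz
  have hzX : z ∈ X := X.mul_mem hy (X.inv_mem hx)
  have hzx : z.1 * x.1 = y.1 := by
    have : z * x = y := by
      rw [hz]
      group
    exact congrArg Subtype.val this
  have hD : (z.1 - 1) * x.1 = y.1 - x.1 := by
    rw [sub_mul, hzx, one_mul]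
  have hD' : z.1 - 1 = (y.1 - x.1) * (x⁻¹).1 := by
    rw [← hD, Matrix.mul_assoc, sl_mul_inv, Matrix.mul_one]
  have hz1 : ∀ i, i ≠ 0 → ∀ j, z.1 i j = if i = j then 1 else 0 := by
    intro i hi j
    obtain ⟨i', rfl⟩ := Fin.exists_succ_eq.2 hi
    have h1 := congrFun (congrFun hD' i'.succ) j
    rw [Matrix.mul_apply, Finset.sum_eq_zero] at h1
    · rw [Matrix.sub_apply, Matrix.one_apply] at h1
      exact sub_eq_zero.1 h1
    · intro k _
      rw [Matrix.sub_apply, hrows, sub_self, zero_mul]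
  have hz00 : z.1 0 0 = 1 := by
    have h1 := congrFun (congrFun hD 0) 0
    rw [Matrix.mul_apply, Fin.sum_univ_succ, Finset.sum_eq_zero, add_zero,
      Matrix.sub_apply, Matrix.sub_apply, Matrix.one_apply_eq, h00, sub_self] at h1
    · exact sub_eq_zero.1 ((mul_eq_zero.1 h1).resolve_right hx00)
    · intro k _
      rw [hx0, mul_zero]
  by_cases hzr : ∀ j : Fin n, z.1 0 j.succ = 0
  · exfalso
    have h1 := congrFun (congrFun hD 0) j0
    rw [Matrix.mul_apply, Fin.sum_univ_succ, Finset.sum_eq_zero] at h1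
    · rw [Matrix.sub_apply, Matrix.sub_apply, Matrix.one_apply_eq, hz00, sub_self, zero_mul,
        add_zero] at h1
      exact hj0 (sub_eq_zero.1 h1.symm)
    · intro k _
      rw [Matrix.sub_apply, hzr, Matrix.one_apply_ne (Fin.succ_ne_zero _).symm, sub_zero,
        zero_mul]
  · push Not at hzr
    obtain ⟨j1, hj1⟩ := hzr
    exact lemT hq (by omega) hX hzX 0 hz1 hz00 (Fin.succ_ne_zero j1) hj1

/-- blocks of elements fixing the first basis line -/
def blkY (X : Subgroup (SLn (n + 1) F)) : Subgroup (GL (Fin n) F) where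
  carrier := {B | ∃ y ∈ X, (∀ i : Fin n, y.1 i.succ 0 = 0) ∧
    ∀ i j : Fin n, y.1 i.succ j.succ = B.1 i j}
  one_mem' := by
    refine ⟨1, X.one_mem, fun i => ?_, fun i j => ?_⟩
    · exact Matrix.one_apply_ne (Fin.succ_ne_zero _)
    · change (1 : Matrix _ _ F) i.succ j.succ = (1 : Matrix _ _ F) i j
      rw [Matrix.one_apply, Matrix.one_apply]
      simp only [Fin.succ_inj]
  mul_mem' := by
    rintro B B' ⟨y, hy, hy0, hyB⟩ ⟨y', hy', hy0', hyB'⟩
    refine ⟨y * y', X.mul_mem hy hy', fun i => ?_, fun i j => ?_⟩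
    · rw [sl_mul, Matrix.mul_apply, Fin.sum_univ_succ, hy0, zero_mul, zero_add]
      refine Finset.sum_eq_zero fun k _ => ?_
      rw [hy0', mul_zero]
    · rw [sl_mul, Matrix.mul_apply, Fin.sum_univ_succ, hy0, zero_mul, zero_add, Units.val_mul,
        Matrix.mul_apply]
      refine Finset.sum_congr rfl fun k _ => ?_
      rw [hyB, hyB']
  inv_mem' := by
    rintro B ⟨y, hy, hy0, hyB⟩
    have h1 : ∀ k : Fin (n + 1), (y⁻¹).1 k 0 * y.1 0 0 =
        (1 : Matrix (Fin (n + 1)) (Fin (n + 1)) F) k 0 := by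
      intro k
      rw [← sl_inv_mul y, Matrix.mul_apply, Fin.sum_univ_succ, Finset.sum_eq_zero, add_zero]
      intro l _
      rw [hy0, mul_zero]
    have hy00 : y.1 0 0 ≠ 0 := by
      intro h0
      have := h1 0
      rw [h0, mul_zero, Matrix.one_apply_eq] at this
      exact zero_ne_one this
    have h2 : ∀ i : Fin n, (y⁻¹).1 i.succ 0 = 0 := by
      intro i
      have := h1 i.succ
      rw [Matrix.one_apply_ne (Fin.succ_ne_zero _)] at this
      exact (mul_eq_zero.1 this).resolve_right hy00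
    refine ⟨y⁻¹, X.inv_mem hy, h2, ?_⟩
    have h3 : B.1 * (Matrix.of fun i j : Fin n => (y⁻¹).1 i.succ j.succ) = 1 := by
      ext i j
      have h4 := congrFun (congrFun (sl_mul_inv y) i.succ) j.succ
      rw [Matrix.mul_apply, Fin.sum_univ_succ, hy0, zero_mul, zero_add] at h4
      rw [Matrix.mul_apply]
      have h5 : (1 : Matrix (Fin (n + 1)) (Fin (n + 1)) F) i.succ j.succ =
          (1 : Matrix (Fin n) (Fin n) F) i j := by
        rw [Matrix.one_apply, Matrix.one_apply]
        simp only [Fin.succ_inj]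
      rw [← h5, ← h4]
      refine Finset.sum_congr rfl fun k _ => ?_
      rw [hyB]
      rfl
    have h6 : (B⁻¹).1 = (Matrix.of fun i j : Fin n => (y⁻¹).1 i.succ j.succ) := by
      have h7 : B⁻¹.1 * B.1 = 1 := B.inv_mul
      rw [← Matrix.one_mul (Matrix.of fun i j : Fin n => (y⁻¹).1 i.succ j.succ), ← h7,
        Matrix.mul_assoc, h3, Matrix.mul_one]
    intro i j
    rw [h6]
    rfl

theorem star_col0 [Finite F] (hq : 8 ≤ Nat.card F) (hn : 2 ≤ n) (hQ : QProp n F)
    {X : Subgroup (SLn (n + 1) F)} (hX : monoSL (n + 1) F ≤ X) (hXt : X ≠ ⊤) {x : SLn (n + 1) F}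
    (hx : x ∈ X) (hx0 : ∀ i : Fin n, x.1 i.succ 0 = 0) : Mono x.1 := by
  have hmono : monoGL n F ≤ blkY X := by
    intro B hB
    have hBd : B.1.det ≠ 0 := by
      have := B.isUnit
      rw [Matrix.isUnit_iff_isUnit_det] at this
      exact this.ne_zero
    have hdet : (blkExt (B.1.det)⁻¹ B.1).det = 1 := by
      rw [det_blk (fun i => rfl), blkExt_00]
      have : (Matrix.of fun i j : Fin n => blkExt (B.1.det)⁻¹ B.1 i.succ j.succ) = B.1 := by
        ext i j
        rfl
      rw [this]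
      exact inv_mul_cancel₀ hBd
    exact ⟨⟨_, hdet⟩, hX (mono_blkExt hB), fun i => rfl, fun i j => rfl⟩
  rcases hQ _ hmono with h | h
  · -- monomial blocks
    set B : Matrix (Fin n) (Fin n) F := Matrix.of fun i j : Fin n => x.1 i.succ j.succ with hB
    have hdet : x.1 0 0 * B.det = 1 := by
      rw [hB, ← det_blk hx0]
      exact x.2
    have hBu : IsUnit B := by
      rw [Matrix.isUnit_iff_isUnit_det]
      exact IsUnit.of_mul_eq_one (x.1 0 0) (by rw [mul_comm]; exact hdet)
    obtain ⟨u, hu⟩ := hBu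
    have hBm : Mono B := by
      rw [← hu]
      refine h ⟨x, hx, hx0, fun i j => ?_⟩
      rw [hu]
      rfl
    have hdet' : (blkExt (x.1 0 0) B).det = 1 := by
      rw [det_blk (fun i => rfl), blkExt_00]
      exact hdet
    let m : SLn (n + 1) F := ⟨_, hdet'⟩
    have hm : m ∈ monoSL (n + 1) F := mono_blkExt hBm
    by_cases hrow : ∀ j : Fin (n + 1), x.1 0 j = m.1 0 j
    · have : x.1 = blkExt (x.1 0 0) B := by
        ext i j
        refine Fin.cases ?_ (fun i => ?_) i
        · exact hrow j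
        · refine Fin.cases ?_ (fun j => ?_) j
          · exact hx0 i
          · rfl
      rw [this]
      exact mono_blkExt hBm
    · push Not at hrow
      obtain ⟨j0, hj0⟩ := hrow
      exfalso
      apply hXt
      refine lemT_quot hq hn hX (hX hm) hx ?_ (fun i => rfl) rfl hj0
      intro i j
      refine Fin.cases ?_ (fun j => ?_) j
      · exact hx0 i
      · rfl
  · exfalso
    apply hXt
    refine lemB hq hn hX fun A => ?_
    obtain ⟨y, hy, hy0, hyA⟩ := h A
    refine ⟨y, hy, hy0, ?_, fun i j => hyA i j⟩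
    have h1 := det_blk hy0
    have h2 : (Matrix.of fun i j : Fin n => y.1 i.succ j.succ) = A.1 := by
      ext i j
      exact hyA i j
    rw [y.2, h2, A.2, mul_one] at h1
    exact h1.symm

theorem star_of_Q [Finite F] (hq : 8 ≤ Nat.card F) (hn : 2 ≤ n) (hQ : QProp n F)
    {X : Subgroup (SLn (n + 1) F)} (hX : monoSL (n + 1) F ≤ X) (hXt : X ≠ ⊤) : Star X := by
  intro x hx i j hij
  obtain ⟨m1, hm1, d1, -, h1⟩ := exists_monoSL (Equiv.swap i 0) (fun _ => (1 : F))
    (fun _ => one_ne_zero) 0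
  obtain ⟨m2, hm2, d2, -, h2⟩ := exists_monoSL (Equiv.swap 0 j) (fun _ => (1 : F))
    (fun _ => one_ne_zero) 0
  have hx' : m1 * x * m2 ∈ X := X.mul_mem (X.mul_mem (hX hm1) hx) (hX hm2)
  have hcol : ∀ k : Fin n, (m1 * x * m2).1 k.succ 0 = 0 := by
    intro k
    rw [sl_mul, sl_mul, Matrix.mul_apply]
    refine Finset.sum_eq_zero fun l _ => ?_
    by_cases hl : l = j
    · subst hl
      rw [Matrix.mul_apply, Finset.sum_eq_zero, zero_mul]
      intro p _
      by_cases hp : p = i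
      · subst hp
        rw [h1, Equiv.swap_apply_left, if_neg (Fin.succ_ne_zero _), zero_mul]
      · rw [hij p hp, mul_zero]
    · rw [h2, Equiv.swap_apply_left, if_neg hl, mul_zero]
  have h3 : m1 * x * m2 ∈ monoSL (n + 1) F := star_col0 hq hn hQ hX hXt hx' hcol
  have h4 : x = m1⁻¹ * (m1 * x * m2) * m2⁻¹ := by group
  rw [h4]
  exact (monoSL (n + 1) F).mul_mem ((monoSL (n + 1) F).mul_mem
    ((monoSL (n + 1) F).inv_mem hm1) h3) ((monoSL (n + 1) F).inv_mem hm2)

end Pool.Agent.Work.MP_bc729a_al.LN
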