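import Pool.Agent.Work.MP_bc729a_al.LN.SylC

/-! # The centre of a Sylow subgroup of `PSL_n(F)` -/

namespace Pool.Agent.Work.MP_bc729a_al.LN

open Matrix

universe u

variable {n : ℕ} {F : Type u} [Field F]

theorem comm_of_pr [Finite F] (hn : 2 ≤ n) {p : ℕ} [Fact p.Prime] [CharP F p]
    (P : Sylow p (SLn n F)) {x y : SLn n F} (hx : x ∈ P) (hy : y ∈ P)
    (h : pr n F (x * y) = pr n F (y * x)) : x * y = y * x := by
  obtain ⟨c, -, hc⟩ := pr_eq_iff.1 h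
  have hk : x * y * (y * x)⁻¹ ∈ P := mul_mem (mul_mem hx hy) (inv_mem (mul_mem hy hx))
  have hk1 : (x * y * (y * x)⁻¹).1 = c • (1 : Matrix (Fin n) (Fin n) F) := by
    rw [sl_mul, hc, Matrix.smul_mul, sl_mul_inv]
  obtain ⟨m, hm⟩ := P.isPGroup' ⟨_, hk⟩
  have hm' : (x * y * (y * x)⁻¹) ^ p ^ m = 1 := congrArg Subtype.val hm
  have hm2 : (x * y * (y * x)⁻¹).1 ^ p ^ m = 1 := by
    have := congrArg Subtype.val hm'
    rwa [Matrix.SpecialLinearGroup.coe_pow] at this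
  rw [hk1, smul_pow, one_pow] at hm2
  have i0 : Fin n := ⟨0, by omega⟩
  have h1 := congrFun (congrFun hm2 i0) i0
  rw [Matrix.smul_apply, Matrix.one_apply_eq, smul_eq_mul, mul_one] at h1
  have h2 : (c - 1) ^ p ^ m = 0 := by
    rw [sub_pow_char_pow, h1, one_pow, sub_self]
  have h3 : c = 1 := sub_eq_zero.1 (eq_zero_of_pow_eq_zero h2)
  apply Subtype.ext
  rw [hc, h3, one_smul]

theorem sylow_center_pr [Finite F] (hn : 2 ≤ n) {p : ℕ} [Fact p.Prime] [CharP F p]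
    (Q : Sylow p (PSLn n F)) :
    ∃ f : Flag n F, ∀ z : PSLn n F, (z ∈ Q ∧ ∀ y ∈ Q, z * y = y * z) ↔ z ∈ XP f := by
  obtain ⟨P, rfl⟩ := Sylow.mapSurjective_surjective (pr_surjective (n := n) (F := F)) p Q
  obtain ⟨f, hf⟩ := sylow_center hn P
  refine ⟨f, fun z => ?_⟩
  have hmem : ∀ w : PSLn n F, w ∈ P.mapSurjective (pr_surjective (n := n) (F := F)) ↔
      ∃ x ∈ P, pr n F x = w := fun w => Iff.rfl
  simp only [hmem]
  constructor
  · rintro ⟨⟨x, hx, rfl⟩, hz⟩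
    refine ⟨x, (hf x).1 ⟨hx, fun y hy => ?_⟩, rfl⟩
    apply comm_of_pr hn P hx hy
    rw [map_mul, map_mul]
    exact hz _ ⟨y, hy, rfl⟩
  · rintro ⟨x, hx, rfl⟩
    obtain ⟨h1, h2⟩ := (hf x).2 hx
    refine ⟨⟨x, h1, rfl⟩, ?_⟩
    rintro _ ⟨y, hy, rfl⟩
    rw [← map_mul, ← map_mul, h2 y hy]

end Pool.Agent.Work.MP_bc729a_al.LN
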