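import Pool.Agent.Work.MP_bc729a_al.LN.ActInj
import Pool.Agent.Work.MP_bc729a_al.LN.AtMost
import Pool.Agent.Work.MP_bc729a_al.LN.Gen

/-! # Small facts -/

namespace Pool.Agent.Work.MP_bc729a_al.LN

open Matrix

universe u

variable {n : ℕ} {F : Type u} [Field F]

theorem mono_smul {c : F} {M : Matrix (Fin n) (Fin n) F} (hM : Mono M) : Mono (c • M) := by
  obtain ⟨σ, hσ⟩ := hM
  refine ⟨σ, fun i j h => hσ i j ?_⟩
  intro h0
  apply h
  rw [Matrix.smul_apply, h0, smul_zero]

theorem mono_of_pr {g : SLn n F} (h : pr n F g ∈ (monoSL n F).map (pr n F)) : Mono g.1 := by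
  obtain ⟨m, hm, hmg⟩ := h
  obtain ⟨c, -, hc⟩ := pr_eq_iff.1 hmg.symm
  rw [hc]
  exact mono_smul hm

theorem triv_transv {i j : Fin n} (hij : i ≠ j) (c : F) (k l : Fin n) :
    (SpecialLinearGroup.transvection hij c : SLn n F).1 k l =
      (if k = l then 1 else 0) + (if i = k ∧ j = l then c else 0) := by
  change Matrix.transvection i j c k l = _
  rw [Matrix.transvection, Matrix.add_apply, Matrix.one_apply, Matrix.single_apply]

theorem H_ne_top (hn : 3 ≤ n) : (monoSL n F).map (pr n F) ≠ ⊤ := by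
  intro h
  have h01 : (⟨0, by omega⟩ : Fin n) ≠ ⟨1, by omega⟩ := by simp
  have h1 : Mono (SpecialLinearGroup.transvection h01 (1 : F) : SLn n F).1 := by
    apply mono_of_pr
    rw [h]
    trivial
  obtain ⟨σ, hσ⟩ := h1
  have e1 := hσ ⟨0, by omega⟩ ⟨1, by omega⟩ (by
    rw [triv_transv, if_neg h01, if_pos ⟨rfl, rfl⟩, zero_add]
    exact one_ne_zero)
  have e2 := hσ ⟨1, by omega⟩ ⟨1, by omega⟩ (by
    rw [triv_transv, if_pos rfl, if_neg (fun h => h01 h.1), add_zero]
    exact one_ne_zero)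
  exact h01 (e1.trans e2.symm)

theorem H_ne_bot [Finite F] (hq : 8 ≤ Nat.card F) (hn : 3 ≤ n) :
    (monoSL n F).map (pr n F) ≠ ⊥ := by
  intro h
  have h01 : (⟨0, by omega⟩ : Fin n) ≠ ⟨1, by omega⟩ := by simp
  obtain ⟨e, he0, he⟩ := exists_eps hq
  obtain ⟨d, hd, hdm⟩ := exists_hd h01 he0
  have h1 : pr n F d = pr n F 1 := by
    have : pr n F d ∈ (monoSL n F).map (pr n F) := ⟨d, hdm, rfl⟩
    rw [h, Subgroup.mem_bot] at this
    rw [this, map_one]
  obtain ⟨c, -, hc⟩ := pr_eq_iff.1 h1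
  have hent : ∀ i : Fin n, LN.hd ⟨0, by omega⟩ ⟨1, by omega⟩ e i = c := by
    intro i
    have := congrFun (congrFun hc i) i
    rw [hd, Matrix.diagonal_apply_eq, Matrix.smul_apply, sl_one, Matrix.one_apply_eq] at this
    simpa using this
  have e0 := hent ⟨0, by omega⟩
  have e2 := hent ⟨2, by omega⟩
  simp only [LN.hd, if_true] at e0
  simp [LN.hd] at e2
  rw [← e2] at e0
  exact he 1 le_rfl (by norm_num) (by rw [pow_one]; exact e0)

theorem nonab (hn : 3 ≤ n) : ∃ x y : PSLn n F, x * y ≠ y * x := by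
  have h01 : (⟨0, by omega⟩ : Fin n) ≠ ⟨1, by omega⟩ := by simp
  have h12 : (⟨1, by omega⟩ : Fin n) ≠ ⟨2, by omega⟩ := by simp
  have h02 : (⟨0, by omega⟩ : Fin n) ≠ ⟨2, by omega⟩ := by simp
  set x : SLn n F := SpecialLinearGroup.transvection h01 1 with hx
  set y : SLn n F := SpecialLinearGroup.transvection h12 1 with hy
  refine ⟨pr n F x, pr n F y, fun h => ?_⟩
  rw [← map_mul, ← map_mul] at h
  obtain ⟨c, -, hc⟩ := pr_eq_iff.1 h
  have hxe : ∀ k l, x.1 k l = _ := triv_transv h01 1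
  have hye : ∀ k l, y.1 k l = _ := triv_transv h12 1
  have key1 : ∀ k l, (x * y).1 k l = (if k = l then 1 else 0) +
      (if (⟨1, by omega⟩ : Fin n) = k ∧ (⟨2, by omega⟩ : Fin n) = l then 1 else 0) +
      (if (⟨0, by omega⟩ : Fin n) = k ∧ (⟨1, by omega⟩ : Fin n) = l then 1 else 0) +
      (if (⟨0, by omega⟩ : Fin n) = k ∧ (⟨2, by omega⟩ : Fin n) = l then 1 else 0) := by
    intro k l
    have : (x * y).1 = 1 + Matrix.single ⟨1, by omega⟩ ⟨2, by omega⟩ 1 +
        Matrix.single ⟨0, by omega⟩ ⟨1, by omega⟩ 1 +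
        Matrix.single ⟨0, by omega⟩ ⟨2, by omega⟩ (1 : F) := by
      change Matrix.transvection _ _ _ * Matrix.transvection _ _ _ = _
      rw [Matrix.transvection, Matrix.transvection, add_mul, mul_add, mul_add, one_mul, one_mul,
        mul_one, Matrix.single_mul_single_same, mul_one]
      abel
    rw [this]
    simp only [Matrix.add_apply, Matrix.one_apply, Matrix.single_apply]
  have key2 : ∀ k l, (y * x).1 k l = (if k = l then 1 else 0) +
      (if (⟨0, by omega⟩ : Fin n) = k ∧ (⟨1, by omega⟩ : Fin n) = l then 1 else 0) +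
      (if (⟨1, by omega⟩ : Fin n) = k ∧ (⟨2, by omega⟩ : Fin n) = l then 1 else 0) := by
    intro k l
    have : (y * x).1 = 1 + Matrix.single ⟨0, by omega⟩ ⟨1, by omega⟩ 1 +
        Matrix.single ⟨1, by omega⟩ ⟨2, by omega⟩ (1 : F) := by
      change Matrix.transvection _ _ _ * Matrix.transvection _ _ _ = _
      rw [Matrix.transvection, Matrix.transvection, add_mul, mul_add, mul_add, one_mul, one_mul,
        mul_one, Matrix.single_mul_single_of_ne _ _ _ _ h02.symm]
      abel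
    rw [this]
    simp only [Matrix.add_apply, Matrix.one_apply, Matrix.single_apply]
  have e := congrFun (congrFun hc ⟨0, by omega⟩) ⟨2, by omega⟩
  rw [Matrix.smul_apply, key1, key2] at e
  simp at e

end Pool.Agent.Work.MP_bc729a_al.LN
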