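import Pool.Agent.Work.MP_bc729a_al.LN.Defs

/-! # The matrices `Wm f π = diag(f) P_π diag(f)⁻¹` -/

namespace Pool.Agent.Work.MP_bc729a_al.LN

open Matrix

universe u

variable {n : ℕ} {F : Type u} [Field F]

theorem Wm_one {f : Fin n → F} (hf : ∀ i, f i ≠ 0) : Wm f 1 = 1 := by
  ext i j
  by_cases h : i = j
  · subst h
    simp [Wm, mul_inv_cancel₀ (hf i)]
  · simp [Wm, h]

theorem Wm_mul {f : Fin n → F} (hf : ∀ i, f i ≠ 0) (π ρ : Equiv.Perm (Fin n)) :
    Wm f (π * ρ) = Wm f π * Wm f ρ := by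
  ext i k
  rw [Matrix.mul_apply, Finset.sum_eq_single (ρ k)]
  · simp only [Wm, Matrix.of_apply, if_true, Equiv.Perm.mul_apply]
    by_cases h : i = π (ρ k)
    · rw [if_pos h, if_pos h]
      have := hf (ρ k)
      field_simp
    · rw [if_neg h, if_neg h, zero_mul]
  · intro j _ hj
    simp [Wm, hj]
  · intro h
    exact absurd (Finset.mem_univ _) h

theorem mono_Wm (f : Fin n → F) (π : Equiv.Perm (Fin n)) : Mono (Wm f π) :=
  ⟨π, fun i j h => by
    by_contra hij
    exact h (by simp [Wm, hij])⟩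

theorem det_Wm {f : Fin n → F} (hf : ∀ i, f i ≠ 0) (π : Equiv.Perm (Fin n)) :
    (Wm f π).det = ((Equiv.Perm.sign π : ℤ) : F) := by
  have h1 : Wm f π = Matrix.diagonal f * (Wm (fun _ => (1 : F)) π) *
      Matrix.diagonal (fun i => (f i)⁻¹) := by
    ext i j
    rw [Matrix.mul_diagonal, Matrix.diagonal_mul]
    simp only [Wm, Matrix.of_apply]
    split_ifs <;> simp
  have h2 : Wm (fun _ => (1 : F)) π = (π⁻¹).permMatrix F := by
    ext i j
    simp only [Wm, Matrix.of_apply, inv_one, mul_one, Equiv.Perm.permMatrix,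
      PEquiv.toMatrix_apply, Equiv.toPEquiv_apply, Option.mem_def, Option.some.injEq]
    by_cases h : i = π j
    · rw [if_pos h, if_pos]
      rw [h]
      simp
    · rw [if_neg h, if_neg]
      intro h'
      apply h
      rw [← h']
      simp
  rw [h1, Matrix.det_mul, Matrix.det_mul, Matrix.det_diagonal, Matrix.det_diagonal, h2,
    Matrix.det_permutation, Equiv.Perm.sign_inv]
  have h3 : (∏ i, f i) * ∏ i, (f i)⁻¹ = 1 := by
    rw [← Finset.prod_mul_distrib]
    exact Finset.prod_eq_one fun i _ => mul_inv_cancel₀ (hf i)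
  rw [mul_comm (∏ i, f i), mul_assoc, h3, mul_one]

/-- `(Wm f π v) (π k) = f (π k) / f k * v k` -/
theorem Wm_mulVec {f : Fin n → F} (π : Equiv.Perm (Fin n)) (v : Fin n → F) (k : Fin n) :
    (Wm f π *ᵥ v) (π k) = f (π k) * (f k)⁻¹ * v k := by
  rw [Matrix.mulVec, dotProduct, Finset.sum_eq_single k]
  · simp [Wm]
  · intro j _ hj
    have : π k ≠ π j := fun h => hj (π.injective h).symm
    simp [Wm, this]
  · intro h
    exact absurd (Finset.mem_univ _) h

/-- the homomorphism of the alternating group to the monomial group -/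
theorem exists_WSL {f : Fin n → F} (hf : ∀ i, f i ≠ 0) :
    ∃ W : alternatingGroup (Fin n) →* SLn n F, (∀ π, (W π).1 = Wm f (π : Equiv.Perm (Fin n))) ∧
      ∀ π, W π ∈ monoSL n F := by
  have hdet : ∀ π : alternatingGroup (Fin n), (Wm f (π : Equiv.Perm (Fin n))).det = 1 := by
    intro π
    rw [det_Wm hf, Equiv.Perm.mem_alternatingGroup.1 π.2]
    simp
  refine ⟨MonoidHom.mk' (fun π => ⟨Wm f (π : Equiv.Perm (Fin n)), hdet π⟩) ?_, fun π => rfl,
    fun π => mono_Wm f _⟩
  intro π ρ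
  exact Subtype.ext (Wm_mul hf _ _)

end Pool.Agent.Work.MP_bc729a_al.LN
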